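import Pool.Agent.helper64.Kus.Base

/-!
# A1: existence of the parameter `y1` (intermediate value theorem)

Proof of `exists_root`.  Put `a = 1.02433713`, `b = 1.02433716`.
* Bounds for `φ`: `1.618033988749 < φ < 1.618033988750` (from `√5` by squaring).
* `x3f` is continuous, `3/4 + y - y² > 0` on `[a,b]`, and `2y+1-2φ x3f y ∈ (0.29, 0.30)` there
  (x3f y ∈ (0.8515, 0.8516)), so `δf`, `eqf` are continuous on `[a,b]`
  (`ContinuousOn.div`, `Real.continuous_sqrt`).
* `eqf a > 0 > eqf b` (numerically `eqf a = +4.04e-7`, `eqf b = -4.55e-7`, slope about `-28.7`).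
  At each end: first enclose `x = x3f y` in an interval of length `1e-12` (by comparing squares:
  `Real.lt_sqrt`, `Real.sqrt_lt'`), then `den = φ (2y+1-2φx)`, then `δf y`, then `eqf y`.
  (All steps are interval arithmetic with rationals; use `nlinarith`/`norm_num` with the bounds
  of `φ`; note `φ² = φ + 1`.)
* `intermediate_value_Icc'` gives the root.
-/

open Set

namespace Kus64

theorem φ_bounds : (1.618033988749 : ℝ) < φ ∧ φ < 1.61803398875 := by
  unfold φ
  have h1 : (2.236067977498 : ℝ) < √5 := by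
    rw [Real.lt_sqrt (by norm_num)]; norm_num
  have h2 : √5 < (2.2360679775 : ℝ) := by
    rw [Real.sqrt_lt' (by norm_num)]; norm_num
  constructor <;> linarith

theorem φ_sq : φ ^ 2 = φ + 1 := by
  unfold φ
  have h : √5 ^ 2 = 5 := Real.sq_sqrt (by norm_num)
  linear_combination (1 / 4) * h

theorem den_eq (y x : ℝ) : φ * (2 * y + 1 - 2 * φ * x) = φ * (2 * y + 1 - 2 * x) - 2 * x := by
  linear_combination (-2 * x) * φ_sq

theorem x3f_lt (y : ℝ) (hy : y ∈ Icc (1.02433713 : ℝ) 1.02433716) : x3f y < 0.8516 := by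
  unfold x3f
  rw [Real.sqrt_lt' (by norm_num)]
  nlinarith [hy.1, hy.2]

theorem den_pos (y : ℝ) (hy : y ∈ Icc (1.02433713 : ℝ) 1.02433716) :
    0 < 2 * y + 1 - 2 * φ * x3f y := by
  have h1 := x3f_lt y hy
  have h2 := φ_bounds
  have h3 : 0 ≤ x3f y := Real.sqrt_nonneg _
  have h4 : φ * x3f y ≤ 1.61803398875 * 0.8516 :=
    mul_le_mul h2.2.le h1.le h3 (by norm_num)
  have h5 := hy.1
  linarith

theorem eqf_cont : ContinuousOn eqf (Icc (1.02433713 : ℝ) 1.02433716) := by
  have hx : Continuous x3f := by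
    unfold x3f
    fun_prop
  have hδ : ContinuousOn δf (Icc (1.02433713 : ℝ) 1.02433716) := by
    unfold δf
    refine ContinuousOn.div (by fun_prop) (by fun_prop) fun y hy => ?_
    have h1 := den_pos y hy
    have h2 : 0 < φ := by have := φ_bounds.1; linarith
    exact (mul_pos h2 h1).ne'
  unfold eqf
  exact ((continuous_pow 2).continuousOn).sub (hδ.mul (by fun_prop))

theorem eqf_a : 0 < eqf 1.02433713 := by
  have hφ := φ_bounds
  have hx : x3f 1.02433713 < 0.85151075983 := by
    unfold x3f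
    rw [Real.sqrt_lt' (by norm_num)]
    norm_num
  have hd : (0.4742903512 : ℝ) < φ * (2 * 1.02433713 + 1 - 2 * φ * x3f 1.02433713) := by
    rw [den_eq]
    nlinarith [mul_nonneg (sub_nonneg.2 hφ.1.le)
      (by linarith : (0 : ℝ) ≤ 2 * 1.02433713 + 1 - 2 * x3f 1.02433713)]
  have hδ : δf 1.02433713 < 0.15643578162 := by
    unfold δf
    rw [div_lt_iff₀ (by linarith)]
    calc (2 * 1.02433713 + 1) * (1.02433713 - 1 : ℝ) < 0.15643578162 * 0.4742903512 := by norm_num
      _ ≤ _ := mul_le_mul_of_nonneg_left hd.le (by norm_num)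
  have hδ0 : 0 ≤ δf 1.02433713 := by
    unfold δf
    exact div_nonneg (by norm_num) (by linarith)
  unfold eqf
  have h1 : 2 * (φ * (1.02433713 + 1)) + δf 1.02433713 ≤
      2 * (1.61803398875 * (1.02433713 + 1)) + 0.15643578162 := by linarith [hφ.2]
  have h2 : δf 1.02433713 * (2 * (φ * (1.02433713 + 1)) + δf 1.02433713) ≤
      0.15643578162 * (2 * (1.61803398875 * (1.02433713 + 1)) + 0.15643578162) :=
    mul_le_mul hδ.le h1 (by linarith [hφ.1]) (by norm_num)
  have h3 : (0.15643578162 : ℝ) * (2 * (1.61803398875 * (1.02433713 + 1)) + 0.15643578162) <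
      1.02433713 ^ 2 := by norm_num
  linarith

theorem eqf_b : eqf 1.02433716 < 0 := by
  have hφ := φ_bounds
  have hm : (1.02433716 : ℝ) ∈ Icc (1.02433713 : ℝ) 1.02433716 := ⟨by norm_num, le_refl _⟩
  have hx : 0.8515107413 < x3f 1.02433716 := by
    unfold x3f
    rw [Real.lt_sqrt (by norm_num)]
    norm_num
  have hx1 := x3f_lt _ hm
  have hd0 : 0 < φ * (2 * 1.02433716 + 1 - 2 * φ * x3f 1.02433716) :=
    mul_pos (by linarith [hφ.1]) (den_pos _ hm)
  have hd : φ * (2 * 1.02433716 + 1 - 2 * φ * x3f 1.02433716) < 0.4742905454 := by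
    rw [den_eq]
    nlinarith [mul_nonneg (sub_nonneg.2 hφ.2.le)
      (by linarith : (0 : ℝ) ≤ 2 * 1.02433716 + 1 - 2 * x3f 1.02433716)]
  have hδ : 0.1564359134 < δf 1.02433716 := by
    unfold δf
    rw [lt_div_iff₀ hd0]
    calc (0.1564359134 : ℝ) * (φ * (2 * 1.02433716 + 1 - 2 * φ * x3f 1.02433716)) ≤
        0.1564359134 * 0.4742905454 := mul_le_mul_of_nonneg_left hd.le (by norm_num)
      _ < _ := by norm_num
  unfold eqf
  have h1 : 2 * (1.618033988749 * (1.02433716 + 1)) + 0.1564359134 ≤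
      2 * (φ * (1.02433716 + 1)) + δf 1.02433716 := by linarith [hφ.1]
  have h2 : 0.1564359134 * (2 * (1.618033988749 * (1.02433716 + 1)) + 0.1564359134) ≤
      δf 1.02433716 * (2 * (φ * (1.02433716 + 1)) + δf 1.02433716) :=
    mul_le_mul hδ.le h1 (by norm_num) (by linarith)
  have h3 : (1.02433716 : ℝ) ^ 2 <
      0.1564359134 * (2 * (1.618033988749 * (1.02433716 + 1)) + 0.1564359134) := by norm_num
  linarith

/-- There is a root of `eqf` in the tiny interval. -/
theorem exists_root : ∃ y ∈ Icc (1.02433713 : ℝ) 1.02433716, eqf y = 0 := by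
  have h := intermediate_value_Icc' (by norm_num : (1.02433713 : ℝ) ≤ 1.02433716) eqf_cont
  obtain ⟨y, hy, hy0⟩ := h ⟨eqf_b.le, eqf_a.le⟩
  exact ⟨y, hy, hy0⟩

theorem y1_mem : y1 ∈ Icc (1.02433713 : ℝ) 1.02433716 := by
  unfold y1
  rw [dif_pos exists_root]
  exact exists_root.choose_spec.1

theorem eqf_y1 : eqf y1 = 0 := by
  unfold y1
  rw [dif_pos exists_root]
  exact exists_root.choose_spec.2

end Kus64
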