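import Pool.Agent.helper64.Kus.A1

/-!
# A2: numerical enclosures of all parameters

From `y1_mem` (interval of length `3e-8`) by interval arithmetic.
-/

namespace Kus64

namespace A2aux

/-- `x` lies in the interval `[a, b]` -/
def In (x a b : ℝ) : Prop := a ≤ x ∧ x ≤ b

theorem In.mono {x a b a' b' : ℝ} (h : In x a b) (h1 : a' ≤ a) (h2 : b ≤ b') : In x a' b' :=
  ⟨h1.trans h.1, h.2.trans h2⟩

theorem In.const (c : ℝ) : In c c c := ⟨le_rfl, le_rfl⟩

theorem In.add {x a b y c d : ℝ} (h : In x a b) (h' : In y c d) : In (x + y) (a + c) (b + d) :=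
  ⟨add_le_add h.1 h'.1, add_le_add h.2 h'.2⟩

theorem In.sub {x a b y c d : ℝ} (h : In x a b) (h' : In y c d) : In (x - y) (a - d) (b - c) :=
  ⟨sub_le_sub h.1 h'.2, sub_le_sub h.2 h'.1⟩

theorem In.mul {x a b y c d : ℝ} (h : In x a b) (h' : In y c d) (ha : 0 ≤ a) (hc : 0 ≤ c) :
    In (x * y) (a * c) (b * d) :=
  ⟨mul_le_mul h.1 h'.1 hc (ha.trans h.1),
    mul_le_mul h.2 h'.2 (hc.trans h'.1) ((ha.trans h.1).trans h.2)⟩

theorem In.sq {x a b : ℝ} (h : In x a b) (ha : 0 ≤ a) : In (x ^ 2) (a ^ 2) (b ^ 2) :=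
  ⟨pow_le_pow_left₀ ha h.1 2, pow_le_pow_left₀ (ha.trans h.1) h.2 2⟩

theorem In.div {x a b y c d : ℝ} (h : In x a b) (h' : In y c d) (ha : 0 ≤ a) (hc : 0 < c) :
    In (x / y) (a / d) (b / c) :=
  ⟨div_le_div₀ (ha.trans h.1) h.1 (hc.trans_le h'.1) h'.2,
    div_le_div₀ ((ha.trans h.1).trans h.2) h.2 hc h'.1⟩

theorem In.divn {x a b y c d : ℝ} (h : In x a b) (h' : In y c d) (hb : b ≤ 0) (hc : 0 < c) :
    In (x / y) (a / c) (b / d) := by
  have hy : 0 < y := hc.trans_le h'.1
  have hd : 0 < d := hy.trans_le h'.2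
  have h1 := h.1
  have h2 := h.2
  have h3 := h'.1
  have h4 := h'.2
  constructor
  · rw [div_le_div_iff₀ hc hy]
    nlinarith
  · rw [div_le_div_iff₀ hy hd]
    nlinarith

theorem In.sqrt {x a b c d : ℝ} (h : In x a b) (_hc : 0 ≤ c) (hd : 0 ≤ d) (h1 : c ^ 2 ≤ a)
    (h2 : b ≤ d ^ 2) : In (√x) c d :=
  ⟨Real.le_sqrt_of_sq_le (h1.trans h.1), (Real.sqrt_le_left hd).mpr (h.2.trans h2)⟩

theorem in_y1 : In y1 1.02433713 1.02433716 := y1_mem

theorem in_φ : In φ 1.618033988749 1.61803398875 := ⟨φ_bounds.1.le, φ_bounds.2.le⟩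

theorem h1 : In (y1 ^ 2) (1.049266555896) (1.049266617357) :=
  (In.sq in_y1 (by norm_num)).mono (by norm_num) (by norm_num)

theorem h2 : In ((3 / 4 : ℝ) + y1) (1.77433713) (1.77433716) :=
  (In.add (In.const (3 / 4)) in_y1).mono (by norm_num) (by norm_num)

theorem h3 : In (((3 / 4 : ℝ) + y1) - (y1 ^ 2)) (0.725070512643) (0.725070604104) :=
  (In.sub h2 h1).mono (by norm_num) (by norm_num)

theorem h4 : In (√(((3 / 4 : ℝ) + y1) - (y1 ^ 2))) (0.851510723739) (0.851510777445) :=
  In.sqrt h3 (by norm_num) (by norm_num) (by norm_num) (by norm_num)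

theorem h5 : In x3 (0.851510723739) (0.851510777445) := by
  unfold x3 x3f
  exact h4

theorem h6 : In ((2 : ℝ) * y1) (2.04867426) (2.04867432) :=
  (In.mul (In.const (2)) in_y1 (by norm_num) (by norm_num)).mono (by norm_num) (by norm_num)

theorem h7 : In (((2 : ℝ) * y1) + (1 : ℝ)) (3.04867426) (3.04867432) :=
  (In.add h6 (In.const (1))).mono (by norm_num) (by norm_num)

theorem h8 : In (y1 - (1 : ℝ)) (0.02433713) (0.02433716) :=
  (In.sub in_y1 (In.const (1))).mono (by norm_num) (by norm_num)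

theorem h9 : In ((((2 : ℝ) * y1) + (1 : ℝ)) * (y1 - (1 : ℝ))) (0.074195981793) (0.074196074714) :=
  (In.mul h7 h8 (by norm_num) (by norm_num)).mono (by norm_num) (by norm_num)

theorem h10 : In ((2 : ℝ) * y1) (2.04867426) (2.04867432) :=
  (In.mul (In.const (2)) in_y1 (by norm_num) (by norm_num)).mono (by norm_num) (by norm_num)

theorem h11 : In (((2 : ℝ) * y1) + (1 : ℝ)) (3.04867426) (3.04867432) :=
  (In.add h10 (In.const (1))).mono (by norm_num) (by norm_num)

theorem h12 : In ((2 : ℝ) * φ) (3.236067977498) (3.2360679775) :=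
  (In.mul (In.const (2)) in_φ (by norm_num) (by norm_num)).mono (by norm_num) (by norm_num)

theorem h13 : In (((2 : ℝ) * φ) * (x3f y1)) (2.755546585587) (2.755546759386) :=
  (In.mul h12 h5 (by norm_num) (by norm_num)).mono (by norm_num) (by norm_num)

theorem h14 : In ((((2 : ℝ) * y1) + (1 : ℝ)) - (((2 : ℝ) * φ) * (x3f y1))) (0.293127500614) (0.293127734413) :=
  (In.sub h11 h13).mono (by norm_num) (by norm_num)

theorem h15 : In (φ * ((((2 : ℝ) * y1) + (1 : ℝ)) - (((2 : ℝ) * φ) * (x3f y1)))) (0.47429025903) (0.474290637326) :=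
  (In.mul in_φ h14 (by norm_num) (by norm_num)).mono (by norm_num) (by norm_num)

theorem h16 : In (((((2 : ℝ) * y1) + (1 : ℝ)) * (y1 - (1 : ℝ))) / (φ * ((((2 : ℝ) * y1) + (1 : ℝ)) - (((2 : ℝ) * φ) * (x3f y1))))) (0.156435687221) (0.156436007912) :=
  (In.div h9 h15 (by norm_num) (by norm_num)).mono (by norm_num) (by norm_num)

theorem h17 : In δ (0.156435687221) (0.156436007912) := by
  unfold δ δf
  exact h16

theorem h18 : In (y1 + (1 : ℝ)) (2.02433713) (2.02433716) :=
  (In.add in_y1 (In.const (1))).mono (by norm_num) (by norm_num)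

theorem h19 : In (φ * (y1 + (1 : ℝ))) (3.275446281026) (3.27544632957) :=
  (In.mul in_φ h18 (by norm_num) (by norm_num)).mono (by norm_num) (by norm_num)

theorem h20 : In z1 (3.275446281026) (3.27544632957) := by
  unfold z1
  exact h19

theorem h21 : In (z1 + δ) (3.431881968247) (3.431882337482) :=
  (In.add h20 h17).mono (by norm_num) (by norm_num)

theorem h22 : In t1 (3.431881968247) (3.431882337482) := by
  unfold t1
  exact h21

theorem h23 : In ((2 : ℝ) * δ) (0.312871374442) (0.312872015824) :=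
  (In.mul (In.const (2)) h17 (by norm_num) (by norm_num)).mono (by norm_num) (by norm_num)

theorem h24 : In ((1 : ℝ) / ((2 : ℝ) * δ)) (3.196195087522) (3.196201639679) :=
  (In.div (In.const (1)) h23 (by norm_num) (by norm_num)).mono (by norm_num) (by norm_num)

theorem h25 : In t2 (3.196195087522) (3.196201639679) := by
  unfold t2
  exact h24

theorem h26 : In (φ ^ 2) (2.618033988746) (2.618033988751) :=
  (In.sq in_φ (by norm_num)).mono (by norm_num) (by norm_num)

theorem h27 : In ((φ ^ 2) * x3) (2.22928401653) (2.229284157139) :=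
  (In.mul h26 h5 (by norm_num) (by norm_num)).mono (by norm_num) (by norm_num)

theorem h28 : In (φ / (2 : ℝ)) (0.809016994374) (0.809016994375) :=
  (In.div in_φ (In.const (2)) (by norm_num) (by norm_num)).mono (by norm_num) (by norm_num)

theorem h29 : In (((φ ^ 2) * x3) + (φ / (2 : ℝ))) (3.038301010904) (3.038301151514) :=
  (In.add h27 h28).mono (by norm_num) (by norm_num)

theorem h30 : In z3 (3.038301010904) (3.038301151514) := by
  unfold z3
  exact h29

theorem h31 : In (z3 + δ) (3.194736698125) (3.194737159426) :=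
  (In.add h30 h17).mono (by norm_num) (by norm_num)

theorem h32 : In t3 (3.194736698125) (3.194737159426) := by
  unfold t3
  exact h31

theorem h33 : In (√5) (2.236067977499) (2.2360679775) :=
  In.sqrt (In.const 5) (by norm_num) (by norm_num) (by norm_num) (by norm_num)

theorem h34 : In ((5 : ℝ) - (√5)) (2.7639320225) (2.763932022501) :=
  (In.sub (In.const (5)) h33).mono (by norm_num) (by norm_num)

theorem h35 : In (((5 : ℝ) - (√5)) / (10 : ℝ)) (0.27639320225) (0.276393202251) :=
  (In.div h34 (In.const (10)) (by norm_num) (by norm_num)).mono (by norm_num) (by norm_num)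

theorem h36 : In kk (0.27639320225) (0.276393202251) := by
  unfold kk
  exact h35

theorem h37 : In (φ * z1) (5.299783411021) (5.299783489571) :=
  (In.mul in_φ h20 (by norm_num) (by norm_num)).mono (by norm_num) (by norm_num)

theorem h38 : In (y1 + (φ * z1)) (6.324120541021) (6.324120649571) :=
  (In.add in_y1 h37).mono (by norm_num) (by norm_num)

theorem h39 : In (φ ^ 2) (2.618033988746) (2.618033988751) :=
  (In.sq in_φ (by norm_num)).mono (by norm_num) (by norm_num)

theorem h40 : In ((1 : ℝ) + (φ ^ 2)) (3.618033988746) (3.618033988751) :=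
  (In.add (In.const (1)) h39).mono (by norm_num) (by norm_num)

theorem h41 : In (√((1 : ℝ) + (φ ^ 2))) (1.902113032589) (1.902113032591) :=
  In.sqrt h40 (by norm_num) (by norm_num) (by norm_num) (by norm_num)

theorem h42 : In ((y1 + (φ * z1)) / (√((1 : ℝ) + (φ ^ 2)))) (3.324786925205) (3.324786982277) :=
  (In.div h38 h41 (by norm_num) (by norm_num)).mono (by norm_num) (by norm_num)

theorem h43 : In ys (3.324786925205) (3.324786982277) := by
  unfold ys
  exact h42

theorem h44 : In (ys + t1) (6.756668893452) (6.756669319759) :=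
  (In.add h43 h22).mono (by norm_num) (by norm_num)

theorem h45 : In ((ys + t1) / (2 : ℝ)) (3.378334446726) (3.37833465988) :=
  (In.div h44 (In.const (2)) (by norm_num) (by norm_num)).mono (by norm_num) (by norm_num)

theorem h46 : In ν (3.378334446726) (3.37833465988) := by
  unfold ν
  exact h45

theorem h47 : In ((4 : ℝ) * kk) (1.105572809) (1.105572809004) :=
  (In.mul (In.const (4)) h36 (by norm_num) (by norm_num)).mono (by norm_num) (by norm_num)

theorem h48 : In (((4 : ℝ) * kk) - (1 : ℝ)) (0.105572809) (0.105572809004) :=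
  (In.sub h47 (In.const (1))).mono (by norm_num) (by norm_num)

theorem h49 : In (√(((4 : ℝ) * kk) - (1 : ℝ))) (0.324919696232) (0.324919696239) :=
  In.sqrt h48 (by norm_num) (by norm_num) (by norm_num) (by norm_num)

theorem h50 : In ((1 : ℝ) + (√(((4 : ℝ) * kk) - (1 : ℝ)))) (1.324919696232) (1.324919696239) :=
  (In.add (In.const (1)) h49).mono (by norm_num) (by norm_num)

theorem h51 : In b3 (1.324919696232) (1.324919696239) := by
  unfold b3
  exact h50

theorem h52 : In (b3 ^ 2) (1.755412201463) (1.755412201483) :=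
  (In.sq h51 (by norm_num)).mono (by norm_num) (by norm_num)

theorem h53 : In (kk - (b3 ^ 2)) (-1.479018999233) (-1.479018999212) :=
  (In.sub h36 h52).mono (by norm_num) (by norm_num)

theorem h54 : In ((4 : ℝ) * ν) (13.513337786904) (13.51333863952) :=
  (In.mul (In.const (4)) h46 (by norm_num) (by norm_num)).mono (by norm_num) (by norm_num)

theorem h55 : In ((kk - (b3 ^ 2)) / ((4 : ℝ) * ν)) (-0.109448829191) (-0.109448822283) :=
  (In.divn h53 h54 (by norm_num) (by norm_num)).mono (by norm_num) (by norm_num)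

theorem h56 : In (ys + ν) (6.703121371931) (6.703121642157) :=
  (In.add h43 h46).mono (by norm_num) (by norm_num)

theorem h57 : In ((ys + ν) + ((kk - (b3 ^ 2)) / ((4 : ℝ) * ν))) (6.59367254274) (6.593672819874) :=
  (In.add h56 h55).mono (by norm_num) (by norm_num)

theorem h58 : In s3 (6.59367254274) (6.593672819874) := by
  unfold s3
  exact h57

theorem h59 : In (t1 + ν) (6.810216414973) (6.810216997362) :=
  (In.add h22 h46).mono (by norm_num) (by norm_num)

theorem h60 : In ((t1 + ν) - ((kk - (b3 ^ 2)) / ((4 : ℝ) * ν))) (6.919665237256) (6.919665826553) :=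
  (In.sub h59 h55).mono (by norm_num) (by norm_num)

theorem h61 : In ta3 (6.919665237256) (6.919665826553) := by
  unfold ta3
  exact h60

theorem h62 : In ((2 : ℝ) * kk) (0.5527864045) (0.552786404502) :=
  (In.mul (In.const (2)) h36 (by norm_num) (by norm_num)).mono (by norm_num) (by norm_num)

theorem h63 : In ((1 : ℝ) - ((2 : ℝ) * kk)) (0.447213595498) (0.4472135955) :=
  (In.sub (In.const (1)) h62).mono (by norm_num) (by norm_num)

theorem h64 : In (b3 ^ 2) (1.755412201463) (1.755412201483) :=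
  (In.sq h51 (by norm_num)).mono (by norm_num) (by norm_num)

theorem h65 : In ((b3 ^ 2) - kk) (1.479018999212) (1.479018999233) :=
  (In.sub h64 h36).mono (by norm_num) (by norm_num)

theorem h66 : In (((1 : ℝ) - ((2 : ℝ) * kk)) ^ 2) (0.199999999998) (0.200000000001) :=
  (In.sq h63 (by norm_num)).mono (by norm_num) (by norm_num)

theorem h67 : In ((4 : ℝ) * kk) (1.105572809) (1.105572809004) :=
  (In.mul (In.const (4)) h36 (by norm_num) (by norm_num)).mono (by norm_num) (by norm_num)

theorem h68 : In (((4 : ℝ) * kk) * ((b3 ^ 2) - kk)) (1.635163189523) (1.635163189553) :=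
  (In.mul h67 h65 (by norm_num) (by norm_num)).mono (by norm_num) (by norm_num)

theorem h69 : In ((((1 : ℝ) - ((2 : ℝ) * kk)) ^ 2) + (((4 : ℝ) * kk) * ((b3 ^ 2) - kk))) (1.835163189521) (1.835163189554) :=
  (In.add h66 h68).mono (by norm_num) (by norm_num)

theorem h70 : In (√((((1 : ℝ) - ((2 : ℝ) * kk)) ^ 2) + (((4 : ℝ) * kk) * ((b3 ^ 2) - kk)))) (1.354681951426) (1.354681951439) :=
  In.sqrt h69 (by norm_num) (by norm_num) (by norm_num) (by norm_num)

theorem h71 : In (((1 : ℝ) - ((2 : ℝ) * kk)) + (√((((1 : ℝ) - ((2 : ℝ) * kk)) ^ 2) + (((4 : ℝ) * kk) * ((b3 ^ 2) - kk))))) (1.801895546924) (1.801895546939) :=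
  (In.add h63 h70).mono (by norm_num) (by norm_num)

theorem h72 : In ((2 : ℝ) * ((b3 ^ 2) - kk)) (2.958037998424) (2.958037998466) :=
  (In.mul (In.const (2)) h65 (by norm_num) (by norm_num)).mono (by norm_num) (by norm_num)

theorem h73 : In ((((1 : ℝ) - ((2 : ℝ) * kk)) + (√((((1 : ℝ) - ((2 : ℝ) * kk)) ^ 2) + (((4 : ℝ) * kk) * ((b3 ^ 2) - kk))))) / ((2 : ℝ) * ((b3 ^ 2) - kk))) (0.609152265068) (0.609152265083) :=
  (In.div h71 h72 (by norm_num) (by norm_num)).mono (by norm_num) (by norm_num)

theorem h74 : In A2 (0.609152265068) (0.609152265083) := by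
  unfold A2
  exact h73

theorem h75 : In ((4 : ℝ) * ν) (13.513337786904) (13.51333863952) :=
  (In.mul (In.const (4)) h46 (by norm_num) (by norm_num)).mono (by norm_num) (by norm_num)

theorem h76 : In (((4 : ℝ) * ν) * A2) (8.231680321521) (8.231680841098) :=
  (In.mul h75 h74 (by norm_num) (by norm_num)).mono (by norm_num) (by norm_num)

theorem h77 : In (kk / (((4 : ℝ) * ν) * A2)) (0.033576763675) (0.033576765795) :=
  (In.div h36 h76 (by norm_num) (by norm_num)).mono (by norm_num) (by norm_num)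

theorem h78 : In (A2 * ν) (2.05792008038) (2.057920210275) :=
  (In.mul h74 h46 (by norm_num) (by norm_num)).mono (by norm_num) (by norm_num)

theorem h79 : In (ys + (A2 * ν)) (5.382707005585) (5.382707192552) :=
  (In.add h43 h78).mono (by norm_num) (by norm_num)

theorem h80 : In ((ys + (A2 * ν)) + (kk / (((4 : ℝ) * ν) * A2))) (5.41628376926) (5.416283958347) :=
  (In.add h79 h77).mono (by norm_num) (by norm_num)

theorem h81 : In s2 (5.41628376926) (5.416283958347) := by
  unfold s2
  exact h80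

theorem h82 : In (t1 + (A2 * ν)) (5.489802048627) (5.489802547757) :=
  (In.add h22 h78).mono (by norm_num) (by norm_num)

theorem h83 : In ((t1 + (A2 * ν)) - (kk / (((4 : ℝ) * ν) * A2))) (5.456225282832) (5.456225784082) :=
  (In.sub h82 h77).mono (by norm_num) (by norm_num)

theorem h84 : In ta2 (5.456225282832) (5.456225784082) := by
  unfold ta2
  exact h83

end A2aux

open A2aux

theorem enc_δ : |δ - 0.1564358| ≤ 1e-6 := by
  rw [abs_le]
  have h1 := h17.1
  have h2 := h17.2
  constructor <;> linarith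

theorem enc_x3 : |x3 - 0.8515107| ≤ 1e-6 := by
  rw [abs_le]
  have h1 := h5.1
  have h2 := h5.2
  constructor <;> linarith

theorem enc_y1 : |y1 - 1.0243371| ≤ 1e-6 := by
  rw [abs_le]
  have h1 := in_y1.1
  have h2 := in_y1.2
  constructor <;> linarith

theorem enc_z1 : |z1 - 3.2754463| ≤ 1e-6 := by
  rw [abs_le]
  have h1 := h20.1
  have h2 := h20.2
  constructor <;> linarith

theorem enc_t1 : |t1 - 3.4318821| ≤ 1e-5 := by
  rw [abs_le]
  have h1 := h22.1
  have h2 := h22.2
  constructor <;> linarith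

theorem enc_t2 : |t2 - 3.1961984| ≤ 1e-5 := by
  rw [abs_le]
  have h1 := h25.1
  have h2 := h25.2
  constructor <;> linarith

theorem enc_z3 : |z3 - 3.0383011| ≤ 1e-5 := by
  rw [abs_le]
  have h1 := h30.1
  have h2 := h30.2
  constructor <;> linarith

theorem enc_t3 : |t3 - 3.1947369| ≤ 1e-5 := by
  rw [abs_le]
  have h1 := h32.1
  have h2 := h32.2
  constructor <;> linarith

theorem enc_kk : |kk - 0.2763932| ≤ 1e-6 := by
  rw [abs_le]
  have h1 := h36.1
  have h2 := h36.2
  constructor <;> linarith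

theorem enc_ys : |ys - 3.3247870| ≤ 1e-5 := by
  rw [abs_le]
  have h1 := h43.1
  have h2 := h43.2
  constructor <;> linarith

theorem enc_ν : |ν - 3.3783345| ≤ 1e-5 := by
  rw [abs_le]
  have h1 := h46.1
  have h2 := h46.2
  constructor <;> linarith

theorem enc_b3 : |b3 - 1.3249197| ≤ 1e-5 := by
  rw [abs_le]
  have h1 := h51.1
  have h2 := h51.2
  constructor <;> linarith

theorem enc_s3 : |s3 - 6.5936727| ≤ 1e-5 := by
  rw [abs_le]
  have h1 := h58.1
  have h2 := h58.2
  constructor <;> linarith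

theorem enc_ta3 : |ta3 - 6.9196655| ≤ 1e-5 := by
  rw [abs_le]
  have h1 := h61.1
  have h2 := h61.2
  constructor <;> linarith

theorem enc_A2 : |A2 - 0.6091523| ≤ 1e-5 := by
  rw [abs_le]
  have h1 := h74.1
  have h2 := h74.2
  constructor <;> linarith

theorem enc_s2 : |s2 - 5.4162839| ≤ 1e-5 := by
  rw [abs_le]
  have h1 := h81.1
  have h2 := h81.2
  constructor <;> linarith

theorem enc_ta2 : |ta2 - 5.4562255| ≤ 1e-5 := by
  rw [abs_le]
  have h1 := h84.1
  have h2 := h84.2
  constructor <;> linarith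

end Kus64
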