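import Pool.Agent.helper64.Kus.A2

/-!
# A3: algebraic identities of the parameters -- MODULE, replace the sorries

Write `x = x3`, `y = y1`, `d = δ`, `z1 = φ(y+1)`, `z3 = φ²x+φ/2`, `φ² = φ+1`, `den = 2y+1-2φx ≠ 0`.
* (A) `x² = 3/4+y-y²` (definition of `x3`, the radicand is positive).
* (B) `y² = d (2 z1 + d)` is `eqf y1 = 0`.
* (D) `d φ den = (2y+1)(y-1)` (definition of `δ`).
* (C) `x² + 1/4 = d (2 z3 + d)`: by (A) `y² - x² - 1/4 = 2y²-y-1 = (2y+1)(y-1) = d φ den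
   = d (2 z1 - 2 z3)` because `2z1-2z3 = 2φy+2φ-2φ²x-φ = φ(2y+1-2φx)`; subtract from (B).
* `t1² - z1² = 2 z1 d + d² = y²` (null310), `t3² - z3² = x²+1/4` (null211).
* `q w310 w220 = 1`: `y²+(z1-t2)²-(t1-t2)² = y²+z1²-t1²-2t2(z1-t1) = 2 t2 d = 1`.
* `q w211 w220 = 1`: same with `t3 - z3 = d`.
* `q w310 w211 = 1`: `= -2(y/2+z1z3-t1t3)` and `t1t3-z1z3 = d(z1+z3+d)`, while (B)+(C):
   `2d(z1+z3+d) = y²+x²+1/4 = y+1`; so `= -y + (y+1) = 1`.
* `inner (α 2) v310 = -y/2 + z1 (φ-1)/2 = 1/2` as `φ(φ-1) = 1`; `inner (α 2) v211 = 0`.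
* reflections: `‖v - s i v‖ = 2 |inner (α i) v|`, hence `q w310 (w310.map (s 2)) = 1`,
  `q w211 (w211.map (s 1)) = 1`.  For the third pair: `s 2 v211 = v211`, the element
  `s1 s2` has order three, so `s2 s1 v211 - s1 v211`: compute
  `‖s2 s1 v - s1 v‖ = 2 |inner (α 2) (s1 v)|`, `s1 v = v - 2*(1/2) α 1`,
  `inner (α 2) (s1 v) = 0 - inner (α 2) (α 1) = 1/2`.
* core: `k = kk`, `B = b3`: `(B-1)² = 4k-1` (as `4k-1 > 0`).  `‖ξ‖ = 1`, `ys = inner v310 ξ`,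
  `(y φ - z1)²/(1+φ²) = φ²/(1+φ²) = (5+√5)/10 = 1-k`, so `y²+z1² = ys²+(1-k)`, and with null310
  `t1² - ys² = 1-k`, i.e. `(ys - t1) (2ν) = k-1`.
  `q wa3 wC = (B+1)²+s3²-ta3²`, `s3-ta3 = (ys-t1)+(k-B²)/(2ν)`, `s3+ta3 = 4ν`, so
  `s3²-ta3² = 2(k-1)+2(k-B²)`, total `-B²+2B+4k-1 = 1`.
  `q wa3 w310 = B²+(s3-ys)²+(1-k)-(ta3-t1)² = B²+(k-B²)+(1-k) = 1`
  (`(s3-ys)²-(ta3-t1)² = [(k-B²)/(2ν)]·[2ν]`).
  `q wa2 w310 = (s2-ys)²-(ta2-t1)²+(1-k) = 4·A2 ν·k/(4νA2)+(1-k) = 1`.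
  `q wa3 wa2 = B²+(1-A2)(k-B²-k/A2) = 1` by the quadratic equation of `A2`
  `(B²-k)A2²-(1-2k)A2-k = 0` (quadratic formula; `B²-k>0`).
-/

namespace Kus64

theorem δ_pos : 0 < δ := by
  have h := abs_le.1 enc_δ
  linarith [h.1]

/-! ### basic facts -/

private theorem φ_pos' : 0 < φ := by linarith [φ_bounds.1]

private theorem y1_bd : 1 < y1 ∧ y1 < 1.1 := by
  have h := abs_le.1 enc_y1
  constructor <;> linarith [h.1, h.2]

private theorem nsq (a b c : ℝ) : ‖(!₂[a, b, c] : E3)‖ ^ 2 = a ^ 2 + b ^ 2 + c ^ 2 := by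
  rw [EuclideanSpace.real_norm_sq_eq, Fin.sum_univ_three]
  simp

private theorem inn (a b c a' b' c' : ℝ) :
    inner ℝ (!₂[a, b, c] : E3) !₂[a', b', c'] = a * a' + b * b' + c * c' := by
  rw [PiLp.inner_apply, Fin.sum_univ_three]
  simp
  ring

private theorem sub3 (a b c a' b' c' : ℝ) :
    (!₂[a, b, c] : E3) - !₂[a', b', c'] = !₂[a - a', b - b', c - c'] := by
  ext i
  fin_cases i <;> simp

private theorem x3_sq : x3 ^ 2 = 3 / 4 + y1 - y1 ^ 2 := by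
  have h := y1_bd
  rw [x3, x3f, Real.sq_sqrt]
  nlinarith [h.1, h.2]

private theorem den_ne : 2 * y1 + 1 - 2 * φ * x3 ≠ 0 := by
  intro h
  have h1 : δ = 0 := by
    rw [δ, δf]
    rw [x3] at h
    rw [h, mul_zero, div_zero]
  exact δ_pos.ne' h1

private theorem δ_eq : δ * (φ * (2 * y1 + 1 - 2 * φ * x3)) = (2 * y1 + 1) * (y1 - 1) := by
  have h := den_ne
  have h1 : φ * (2 * y1 + 1 - 2 * φ * x3) ≠ 0 := mul_ne_zero φ_pos'.ne' h
  have h2 : δ = (2 * y1 + 1) * (y1 - 1) / (φ * (2 * y1 + 1 - 2 * φ * x3)) := rfl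
  rw [h2, div_mul_cancel₀ _ h1]

private theorem B_eq : y1 ^ 2 = δ * (2 * z1 + δ) := by
  have h := eqf_y1
  rw [eqf] at h
  rw [z1, δ]
  linarith

private theorem C_eq : x3 ^ 2 + 1 / 4 = δ * (2 * z3 + δ) := by
  have h1 := x3_sq
  have h2 := δ_eq
  have h3 := B_eq
  have h4 := φ_sq
  rw [z1] at h3
  rw [z3]
  linear_combination h1 + h2 + h3

theorem null310 : y1 ^ 2 + z1 ^ 2 = t1 ^ 2 := by
  have h := B_eq
  rw [t1]
  linear_combination h

theorem null211 : x3 ^ 2 + (1 / 2) ^ 2 + z3 ^ 2 = t3 ^ 2 := by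
  have h := C_eq
  rw [t3]
  linear_combination h

private theorem t1_pos : 0 < t1 := by
  have h := abs_le.1 enc_t1
  linarith [h.1]

private theorem t2_pos : 0 < t2 := by
  have h := abs_le.1 enc_t2
  linarith [h.1]

private theorem t3_pos : 0 < t3 := by
  have h := abs_le.1 enc_t3
  linarith [h.1]

private theorem ν_pos : 0 < ν := by
  have h := abs_le.1 enc_ν
  linarith [h.1]

private theorem A2_pos : 0 < A2 := by
  have h := abs_le.1 enc_A2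
  linarith [h.1]

private theorem nsq310 : ‖w310.v‖ ^ 2 = t1 ^ 2 := by
  rw [← null310, w310, nsq]
  ring

private theorem nsq220 : ‖w220.v‖ ^ 2 = t2 ^ 2 := by
  rw [w220, nsq]
  ring

private theorem nsq211 : ‖w211.v‖ ^ 2 = t3 ^ 2 := by
  rw [← null211, w211, nsq]

theorem norm_v310 : ‖w310.v‖ = t1 := by
  rw [← sq_eq_sq₀ (norm_nonneg _) t1_pos.le, nsq310]
theorem norm_v220 : ‖w220.v‖ = t2 := by
  rw [← sq_eq_sq₀ (norm_nonneg _) t2_pos.le, nsq220]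
theorem norm_v211 : ‖w211.v‖ = t3 := by
  rw [← sq_eq_sq₀ (norm_nonneg _) t3_pos.le, nsq211]

private theorem rt_pos : 0 < √(1 + φ ^ 2) := Real.sqrt_pos.2 (by positivity)

private theorem rt_sq : √(1 + φ ^ 2) ^ 2 = 1 + φ ^ 2 := Real.sq_sqrt (by positivity)

theorem norm_ξ : ‖ξ‖ = 1 := by
  have h1 : ‖ax5‖ ^ 2 = √(1 + φ ^ 2) ^ 2 := by
    rw [rt_sq, ax5, nsq]
    ring
  have h2 : ‖ax5‖ = √(1 + φ ^ 2) := by
    rwa [sq_eq_sq₀ (norm_nonneg _) rt_pos.le] at h1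
  rw [ξ, norm_smul, norm_inv, Real.norm_of_nonneg rt_pos.le, h2, inv_mul_cancel₀ rt_pos.ne']

theorem inner_v310_ξ : inner ℝ w310.v ξ = ys := by
  rw [ξ, inner_smul_right, ax5, w310, inn, ys, div_eq_inv_mul]
  ring

/-- `q` is symmetric. -/
theorem q_symm (w w' : Site) : w.q w' = w'.q w := by
  rw [Site.q, Site.q, norm_sub_rev]
  ring
/-- `q` is invariant. -/
theorem q_map (g : E3 ≃ₗᵢ[ℝ] E3) (w w' : Site) : (w.map g).q (w'.map g) = w.q w' := by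
  simp only [Site.q, Site.map]
  rw [← map_sub, LinearIsometryEquiv.norm_map]
theorem q_flip (w w' : Site) : w.flip.q w'.flip = w.q w' := by
  simp only [Site.q, Site.flip]
  ring

private theorem q_C (w : Site) (hb : w.b = 0) (h : ‖w.v‖ ^ 2 = w.t ^ 2) : wC.q w = 1 := by
  simp only [Site.q, wC, hb]
  rw [zero_sub, norm_neg, h]
  ring

theorem q_C_310 : wC.q w310 = 1 := q_C _ rfl nsq310
theorem q_C_220 : wC.q w220 = 1 := q_C _ rfl nsq220
theorem q_C_211 : wC.q w211 = 1 := q_C _ rfl nsq211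

private theorem kk_eq : 5 * kk ^ 2 - 5 * kk + 1 = 0 := by
  have h : √(5 : ℝ) ^ 2 = 5 := Real.sq_sqrt (by norm_num)
  rw [kk]
  linear_combination (1 / 20 : ℝ) * h

private theorem b3_eq : (b3 - 1) ^ 2 = 4 * kk - 1 := by
  have h := abs_le.1 enc_kk
  rw [b3, add_sub_cancel_left, Real.sq_sqrt]
  linarith [h.1]

/-- `1 - k = φ² / (1 + φ²)` -/
private theorem kk_φ : (1 - kk) * (1 + φ ^ 2) = φ ^ 2 := by
  have h : √(5 : ℝ) ^ 2 = 5 := Real.sq_sqrt (by norm_num)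
  rw [φ_sq, kk, φ]
  linear_combination (1 / 20 : ℝ) * h

private theorem ys_mul : ys * √(1 + φ ^ 2) = y1 + φ * z1 := by
  rw [ys, div_mul_cancel₀ _ rt_pos.ne']

private theorem yφz : y1 * φ - z1 = -φ := by
  rw [z1]; ring

private theorem len310 : y1 ^ 2 + z1 ^ 2 = ys ^ 2 + (1 - kk) := by
  have h1 := ys_mul
  have h2 := rt_sq
  have h3 := yφz
  have h4 := kk_φ
  have h5 : (1 + φ ^ 2) ≠ 0 := by positivity
  have h6 : (ys * √(1 + φ ^ 2)) ^ 2 = (y1 + φ * z1) ^ 2 := by rw [h1]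
  rw [mul_pow, h2] at h6
  have h7 : (y1 ^ 2 + z1 ^ 2) * (1 + φ ^ 2) = (ys ^ 2 + (1 - kk)) * (1 + φ ^ 2) := by
    have h8 : (y1 * φ - z1) ^ 2 = φ ^ 2 := by rw [h3]; ring
    linear_combination -h6 + h8 - h4
  exact mul_right_cancel₀ h5 h7

private theorem ν_eq : ys + t1 = 2 * ν := by rw [ν]; ring

private theorem ysν : (ys - t1) * (2 * ν) = kk - 1 := by
  have h1 := len310
  have h2 := null310
  rw [← ν_eq]
  linear_combination h2 - h1

private theorem nsq_a3 : ‖wa3.v‖ ^ 2 = s3 ^ 2 := by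
  simp only [wa3]
  rw [norm_smul, norm_ξ, mul_one, Real.norm_eq_abs, sq_abs]

/-- `s3 = ys + ν + ρ`, `ta3 = t1 + ν - ρ` with `4 ν ρ = k - b3²` -/
private theorem rho : ∃ ρ : ℝ, s3 = ys + ν + ρ ∧ ta3 = t1 + ν - ρ ∧ 4 * ν * ρ = kk - b3 ^ 2 := by
  have h := ν_pos.ne'
  refine ⟨(kk - b3 ^ 2) / (4 * ν), rfl, rfl, ?_⟩
  field_simp

private theorem rho2 : ∃ ρ : ℝ, s2 = ys + A2 * ν + ρ ∧ ta2 = t1 + A2 * ν - ρ ∧
    4 * ν * A2 * ρ = kk := by
  have h := ν_pos.ne'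
  have h' := A2_pos.ne'
  refine ⟨kk / (4 * ν * A2), rfl, rfl, ?_⟩
  field_simp

theorem q_C_a3 : wC.q wa3 = 1 := by
  obtain ⟨ρ, h1, h2, h3⟩ := rho
  have h4 := b3_eq
  have h5 := ysν
  have h6 := ν_eq
  have h7 : wC.q wa3 = (b3 + 1) ^ 2 + s3 ^ 2 - ta3 ^ 2 := by
    simp only [Site.q, wC]
    rw [zero_sub, norm_neg, nsq_a3]
    simp only [wa3]
    ring
  rw [h7, h1, h2]
  have h8 : ys = 2 * ν - t1 := by linarith
  rw [h8] at h5 ⊢
  linear_combination -h4 + 2 * h5 + 2 * h3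

theorem q_310_220 : w310.q w220 = 1 := by
  have h := null310
  have h2 : 2 * t2 * δ = 1 := by
    rw [t2]
    have := δ_pos.ne'
    field_simp
  simp only [Site.q, w310, w220]
  rw [sub3, nsq, t1] at *
  linear_combination h + h2

theorem q_220_211 : w220.q w211 = 1 := by
  have h := null211
  have h2 : 2 * t2 * δ = 1 := by
    rw [t2]
    have := δ_pos.ne'
    field_simp
  simp only [Site.q, w211, w220]
  rw [sub3, nsq, t3] at *
  linear_combination h + h2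

theorem q_310_211 : w310.q w211 = 1 := by
  have h3 := x3_sq
  simp only [Site.q, w211, w310]
  rw [sub3, nsq, t3, t1]
  linear_combination h3

private theorem nsq_a_310 (c : ℝ) : ‖w310.v - c • ξ‖ ^ 2 = (c - ys) ^ 2 + (1 - kk) := by
  rw [norm_sub_sq_real, inner_smul_right, inner_v310_ξ, norm_smul, norm_ξ, mul_one,
    Real.norm_eq_abs, sq_abs, nsq310, ← null310, len310]
  ring

theorem q_310_a2 : w310.q wa2 = 1 := by
  obtain ⟨ρ, h1, h2, h3⟩ := rho2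
  have h6 := ν_eq
  simp only [Site.q, wa2]
  rw [nsq_a_310, h1, h2]
  simp only [w310]
  linear_combination h3

theorem q_310_a3 : w310.q wa3 = 1 := by
  obtain ⟨ρ, h1, h2, h3⟩ := rho
  simp only [Site.q, wa3]
  rw [nsq_a_310, h1, h2]
  simp only [w310]
  linear_combination h3

private theorem A2_quad : (b3 ^ 2 - kk) * A2 ^ 2 - (1 - 2 * kk) * A2 - kk = 0 := by
  have hk := abs_le.1 enc_kk
  have hb := abs_le.1 enc_b3
  have hpos : 0 < b3 ^ 2 - kk := by nlinarith [hk.2, hb.1]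
  have hd : 0 ≤ (1 - 2 * kk) ^ 2 + 4 * kk * (b3 ^ 2 - kk) := by
    have : 0 < kk := by linarith [hk.1]
    positivity
  have hs := Real.sq_sqrt hd
  have h1 : A2 * (2 * (b3 ^ 2 - kk)) =
      (1 - 2 * kk) + √((1 - 2 * kk) ^ 2 + 4 * kk * (b3 ^ 2 - kk)) := by
    rw [A2, div_mul_cancel₀ _ (by positivity)]
  have h2 : √((1 - 2 * kk) ^ 2 + 4 * kk * (b3 ^ 2 - kk)) =
      A2 * (2 * (b3 ^ 2 - kk)) - (1 - 2 * kk) := by linarith
  rw [h2] at hs
  have h3 : (4 * (b3 ^ 2 - kk)) * ((b3 ^ 2 - kk) * A2 ^ 2 - (1 - 2 * kk) * A2 - kk) = 0 := by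
    linear_combination hs
  exact (mul_eq_zero.1 h3).resolve_left (by positivity)

theorem q_a2_a3 : wa2.q wa3 = 1 := by
  obtain ⟨ρ, h1, h2, h3⟩ := rho
  obtain ⟨ρ', h1', h2', h3'⟩ := rho2
  have hν := ν_pos.ne'
  have hA := A2_pos.ne'
  have hq := A2_quad
  have h4 : ‖s2 • ξ - s3 • ξ‖ ^ 2 = (s2 - s3) ^ 2 := by
    rw [← sub_smul, norm_smul, norm_ξ, mul_one, Real.norm_eq_abs, sq_abs]
  simp only [Site.q, wa2, wa3]
  rw [h4, h1, h2, h1', h2']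
  apply mul_left_cancel₀ hA
  linear_combination hq + (A2 - 1) * h3' - A2 * (A2 - 1) * h3

private theorem norm_α (i : Fin 3) : ‖α i‖ ^ 2 = 1 := by
  fin_cases i
  · simp only [α]
    change ‖(!₂[1, 0, 0] : E3)‖ ^ 2 = 1
    rw [nsq]; norm_num
  · change ‖(!₂[0, 1, 0] : E3)‖ ^ 2 = 1
    rw [nsq]; norm_num
  · change ‖(!₂[-φ / 2, -1 / 2, (φ - 1) / 2] : E3)‖ ^ 2 = 1
    rw [nsq]
    linear_combination (1 / 2 : ℝ) * φ_sq

private theorem s_apply (i : Fin 3) (v : E3) : s i v = v - (2 * inner ℝ (α i) v) • α i := by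
  rw [s, Submodule.reflection_orthogonal_apply, Submodule.reflection_singleton_apply]
  simp only [RCLike.ofReal_real_eq_id, id_eq, norm_α, div_one, neg_sub]
  rw [two_smul, two_mul, add_smul]

private theorem norm_sub_s (i : Fin 3) (v : E3) :
    ‖v - s i v‖ ^ 2 = (2 * inner ℝ (α i) v) ^ 2 := by
  rw [s_apply, sub_sub_cancel, norm_smul, mul_pow, norm_α, mul_one, Real.norm_eq_abs, sq_abs]

private theorem inner_α2_v310 : inner ℝ (α 2) w310.v = 1 / 2 := by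
  change inner ℝ (!₂[-φ / 2, -1 / 2, (φ - 1) / 2] : E3) !₂[0, y1, z1] = 1 / 2
  rw [inn, z1]
  linear_combination (1 / 2 * (y1 + 1) : ℝ) * φ_sq

private theorem inner_α2_v211 : inner ℝ (α 2) w211.v = 0 := by
  change inner ℝ (!₂[-φ / 2, -1 / 2, (φ - 1) / 2] : E3) !₂[x3, 1 / 2, z3] = 0
  rw [inn, z3]
  linear_combination (1 / 2 * x3 * φ + 1 / 4 : ℝ) * φ_sq

private theorem inner_α1_v211 : inner ℝ (α 1) w211.v = 1 / 2 := by
  change inner ℝ (!₂[0, 1, 0] : E3) !₂[x3, 1 / 2, z3] = 1 / 2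
  rw [inn]
  ring

private theorem inner_α2_α1 : inner ℝ (α 2) (α 1) = (-1 / 2 : ℝ) := by
  change inner ℝ (!₂[-φ / 2, -1 / 2, (φ - 1) / 2] : E3) !₂[0, 1, 0] = -1 / 2
  rw [inn]
  ring

private theorem q_s (w : Site) (i : Fin 3) (h : inner ℝ (α i) w.v = (1 / 2 : ℝ)) :
    w.q (w.map (s i)) = 1 := by
  simp only [Site.q, Site.map]
  rw [norm_sub_s, h]
  ring

theorem q_310_s2 : w310.q (w310.map (s 2)) = 1 := q_s _ _ inner_α2_v310
theorem q_211_s1 : w211.q (w211.map (s 1)) = 1 := q_s _ _ inner_α1_v211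

private theorem map_mul' (w : Site) (i j : Fin 3) : w.map (s i * s j) = (w.map (s j)).map (s i) :=
  rfl

theorem q_211_s1_s2s1 : (w211.map (s 1)).q (w211.map (s 2 * s 1)) = 1 := by
  rw [map_mul']
  apply q_s
  change inner ℝ (α 2) (s 1 w211.v) = (1 / 2 : ℝ)
  rw [s_apply, inner_sub_right, inner_smul_right, inner_α2_v211, inner_α1_v211, inner_α2_α1]
  norm_num

theorem q_211_s2s1 : w211.q (w211.map (s 2 * s 1)) = 1 := by
  have h1 : s 2 w211.v = w211.v := by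
    rw [s_apply, inner_α2_v211, mul_zero, zero_smul, sub_zero]
  have h2 : w211 = w211.map (s 2) := by
    rw [Site.map, h1]
  rw [map_mul']
  have h3 : w211.q ((w211.map (s 1)).map (s 2)) =
      (w211.map (s 2)).q ((w211.map (s 1)).map (s 2)) := by rw [← h2]
  rw [h3, q_map, q_211_s1]

/-- consequence of `q wa3 wC = 1` and `q wa3 w310 = 1`: the value
`ta3 - t1 - inner (s3 ξ - v310) (v310 / t1) = (1 + 2 b3) / (2 t1)`. -/
theorem a3_310_const :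
    ta3 - s3 * ys / t1 = (1 + 2 * b3) / (2 * t1) := by
  obtain ⟨ρ, h1, h2, h3⟩ := rho
  have ht := t1_pos.ne'
  have h4 := b3_eq
  have h5 := ysν
  have h6 := ν_eq
  have key : 2 * (t1 * ta3 - s3 * ys) = 1 + 2 * b3 := by
    rw [h1, h2]
    linear_combination -3 * h5 - 2 * (ys - t1) * h6 - 2 * ρ * h6 - h3 + h4
  rw [← key]
  field_simp

end Kus64
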