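import Pool.Agent.helper64.Kus.A1

/-!
# B1: the reflections and the finiteness of the group `G = H3`

* `α 2 = (-φ/2, -1/2, (φ-1)/2)` is a unit vector: `φ²+1+(φ-1)² = 4` by `φ² = φ+1`.
* `s_apply`: `Submodule.reflection` of the orthogonal complement of a line.
* Finiteness: the set `O5` of the twelve vectors `(0,±1,±φ)` and cyclic permutations is mapped to
  itself by the three `s i` (36 checks, use `φ² = φ+1`), hence by every `g ∈ G`
  (`Subgroup.closure_induction`).  It contains a basis, so `g ↦ g|O5` is injective into the finite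
  set of maps `O5 → O5`.
* `exists_mem_D`: choose `g ∈ G` maximising `inner (g y) ρ`, `ρ` with `inner (α i) ρ > 0` for all
  `i` (for instance `ρ = ax5 + ax2 + ax3`); if `inner (α i) (g y) < 0` then
  `inner (s i (g y)) ρ = inner (g y) ρ - 2 inner (α i) (g y) * inner (α i) ρ` is larger.
-/

open Set

namespace Kus64

theorem b1_inner3 (u v : E3) : inner ℝ u v = u 0 * v 0 + u 1 * v 1 + u 2 * v 2 := by
  simp [PiLp.inner_apply, Fin.sum_univ_three, mul_comm]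

theorem b1_ext3 {u v : E3} (h0 : u 0 = v 0) (h1 : u 1 = v 1) (h2 : u 2 = v 2) : u = v := by
  ext i; fin_cases i
  · exact h0
  · exact h1
  · exact h2

theorem b1_α00 : α 0 0 = 1 := by simp [α]
theorem b1_α01 : α 0 1 = 0 := by simp [α]
theorem b1_α02 : α 0 2 = 0 := by simp [α]
theorem b1_α10 : α 1 0 = 0 := by simp [α]
theorem b1_α11 : α 1 1 = 1 := by simp [α]
theorem b1_α12 : α 1 2 = 0 := by simp [α]
theorem b1_α20 : α 2 0 = -φ / 2 := by simp [α]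
theorem b1_α21 : α 2 1 = -1 / 2 := by simp [α]
theorem b1_α22 : α 2 2 = (φ - 1) / 2 := by simp [α]

/-- inner products with the simple roots in coordinates -/
theorem inner_α0 (y : E3) : inner ℝ (α 0) y = y 0 := by
  rw [b1_inner3, b1_α00, b1_α01, b1_α02]; ring
theorem inner_α1 (y : E3) : inner ℝ (α 1) y = y 1 := by
  rw [b1_inner3, b1_α10, b1_α11, b1_α12]; ring
theorem inner_α2 (y : E3) :
    inner ℝ (α 2) y = -φ / 2 * y 0 - 1 / 2 * y 1 + (φ - 1) / 2 * y 2 := by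
  rw [b1_inner3, b1_α20, b1_α21, b1_α22]; ring

theorem norm_α (i : Fin 3) : ‖α i‖ = 1 := by
  have h : ‖α i‖ ^ 2 = 1 := by
    rw [← real_inner_self_eq_norm_sq]
    fin_cases i
    · change inner ℝ (α 0) (α 0) = 1
      rw [inner_α0, b1_α00]
    · change inner ℝ (α 1) (α 1) = 1
      rw [inner_α1, b1_α11]
    · change inner ℝ (α 2) (α 2) = 1
      rw [inner_α2, b1_α20, b1_α21, b1_α22]
      linear_combination (1 / 2) * φ_sq
  have h0 := norm_nonneg (α i)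
  nlinarith

theorem s_apply (i : Fin 3) (y : E3) : s i y = y - (2 * inner ℝ (α i) y) • α i := by
  rw [s, Submodule.reflection_orthogonal_apply, Submodule.reflection_singleton_apply, norm_α]
  simp only [one_pow, div_one, RCLike.ofReal_real_eq_id, id]
  module

theorem s_s (i : Fin 3) (y : E3) : s i (s i y) = y := by
  rw [s]; exact Submodule.reflection_reflection _ _

theorem b1_s0 (y : E3) : s 0 y = !₂[-y 0, y 1, y 2] := by
  rw [s_apply, inner_α0]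
  apply b1_ext3 <;> (simp [b1_α00, b1_α01, b1_α02]; try ring)

theorem b1_s1 (y : E3) : s 1 y = !₂[y 0, -y 1, y 2] := by
  rw [s_apply, inner_α1]
  apply b1_ext3 <;> (simp [b1_α10, b1_α11, b1_α12]; try ring)

theorem b1_s2_0 (y : E3) : s 2 y 0 = (1 - φ) / 2 * y 0 - φ / 2 * y 1 + 1 / 2 * y 2 := by
  rw [s_apply, inner_α2]
  simp only [PiLp.sub_apply, PiLp.smul_apply, smul_eq_mul, b1_α20]
  linear_combination (- y 0 / 2 + y 2 / 2) * φ_sq
theorem b1_s2_1 (y : E3) : s 2 y 1 = -φ / 2 * y 0 + 1 / 2 * y 1 + (φ - 1) / 2 * y 2 := by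
  rw [s_apply, inner_α2]
  simp only [PiLp.sub_apply, PiLp.smul_apply, smul_eq_mul, b1_α21]
  ring
theorem b1_s2_2 (y : E3) : s 2 y 2 = 1 / 2 * y 0 + (φ - 1) / 2 * y 1 + φ / 2 * y 2 := by
  rw [s_apply, inner_α2]
  simp only [PiLp.sub_apply, PiLp.smul_apply, smul_eq_mul, b1_α22]
  linear_combination (y 0 / 2 - y 2 / 2) * φ_sq

theorem b1_s0_0 (y : E3) : s 0 y 0 = -y 0 := by rw [b1_s0]; simp
theorem b1_s0_1 (y : E3) : s 0 y 1 = y 1 := by rw [b1_s0]; simp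
theorem b1_s0_2 (y : E3) : s 0 y 2 = y 2 := by rw [b1_s0]; simp
theorem b1_s1_0 (y : E3) : s 1 y 0 = y 0 := by rw [b1_s1]; simp
theorem b1_s1_1 (y : E3) : s 1 y 1 = -y 1 := by rw [b1_s1]; simp
theorem b1_s1_2 (y : E3) : s 1 y 2 = y 2 := by rw [b1_s1]; simp

/-- braid relation -/
theorem s_braid (y : E3) : s 1 (s 2 (s 1 y)) = s 2 (s 1 (s 2 y)) := by
  have h := φ_sq
  apply b1_ext3
  · rw [b1_s1_0, b1_s2_0, b1_s1_0, b1_s1_1, b1_s1_2, b1_s2_0, b1_s1_0, b1_s1_1, b1_s1_2, b1_s2_0, b1_s2_1, b1_s2_2]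
    linear_combination (-y 1 / 4 - y 2 / 4) * h
  · rw [b1_s1_1, b1_s2_1, b1_s1_0, b1_s1_1, b1_s1_2, b1_s2_1, b1_s1_0, b1_s1_1, b1_s1_2, b1_s2_0, b1_s2_1, b1_s2_2]
    linear_combination (-y 0 / 4 - y 1 / 2 - y 2 / 4) * h
  · rw [b1_s1_2, b1_s2_2, b1_s1_0, b1_s1_1, b1_s1_2, b1_s2_2, b1_s1_0, b1_s1_1, b1_s1_2, b1_s2_0, b1_s2_1, b1_s2_2]
    linear_combination (-y 0 / 4 - y 1 / 4) * h

theorem s_mem_G (i : Fin 3) : s i ∈ G := Subgroup.subset_closure ⟨i, rfl⟩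

theorem mem_D_iff (y : E3) : y ∈ D ↔ 0 ≤ y 0 ∧ 0 ≤ y 1 ∧ φ ^ 2 * y 0 + φ * y 1 ≤ y 2 := by
  have hφ := φ_bounds
  have h := φ_sq
  have key : inner ℝ (α 2) y = (φ - 1) / 2 * (y 2 - (φ ^ 2 * y 0 + φ * y 1)) := by
    rw [inner_α2]
    linear_combination (y 0 * φ / 2 + y 1 / 2) * h
  constructor
  · intro hy
    have h0 := hy 0
    have h1 := hy 1
    have h2 := hy 2
    rw [inner_α0] at h0
    rw [inner_α1] at h1
    rw [key] at h2
    refine ⟨h0, h1, ?_⟩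
    by_contra hc
    push Not at hc
    have : (φ - 1) / 2 * (y 2 - (φ ^ 2 * y 0 + φ * y 1)) < 0 :=
      mul_neg_of_pos_of_neg (by linarith [hφ.1]) (by linarith)
    linarith
  · rintro ⟨h0, h1, h2⟩ i
    fin_cases i
    · change 0 ≤ inner ℝ (α 0) y
      rw [inner_α0]; exact h0
    · change 0 ≤ inner ℝ (α 1) y
      rw [inner_α1]; exact h1
    · change 0 ≤ inner ℝ (α 2) y
      rw [key]
      exact mul_nonneg (by linarith [hφ.1]) (by linarith)

/-- The twelve vertices of the icosahedron. -/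
noncomputable def O5 : Set E3 :=
  {v | (v 0 = 0 ∧ v 1 ^ 2 = 1 ∧ v 2 ^ 2 = φ ^ 2) ∨ (v 1 = 0 ∧ v 2 ^ 2 = 1 ∧ v 0 ^ 2 = φ ^ 2) ∨
    (v 2 = 0 ∧ v 0 ^ 2 = 1 ∧ v 1 ^ 2 = φ ^ 2)}

theorem b1_sq1 {x : ℝ} (h : x ^ 2 = 1) : x = 1 ∨ x = -1 :=
  sq_eq_sq_iff_eq_or_eq_neg.mp (h.trans (one_pow 2).symm)

/-- Case analysis over the twelve elements of `O5`. -/
theorem b1_O5_cases {v : E3} (hv : v ∈ O5) {P : ℝ → ℝ → ℝ → Prop}
    (h1 : ∀ e f, (e = 1 ∨ e = -1) → (f = 1 ∨ f = -1) → P 0 e (f * φ))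
    (h2 : ∀ e f, (e = 1 ∨ e = -1) → (f = 1 ∨ f = -1) → P (f * φ) 0 e)
    (h3 : ∀ e f, (e = 1 ∨ e = -1) → (f = 1 ∨ f = -1) → P e (f * φ) 0) :
    P (v 0) (v 1) (v 2) := by
  have key : ∀ x : ℝ, x ^ 2 = φ ^ 2 → ∃ f : ℝ, (f = 1 ∨ f = -1) ∧ x = f * φ := by
    intro x hx
    rcases sq_eq_sq_iff_eq_or_eq_neg.mp hx with h | h
    · exact ⟨1, Or.inl rfl, by rw [h, one_mul]⟩
    · exact ⟨-1, Or.inr rfl, by rw [h]; ring⟩
  rcases hv with ⟨a, b, c⟩ | ⟨a, b, c⟩ | ⟨a, b, c⟩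
  · obtain ⟨f, hf, hc⟩ := key _ c
    rw [a, hc]; exact h1 _ _ (b1_sq1 b) hf
  · obtain ⟨f, hf, hc⟩ := key _ c
    rw [a, hc]; exact h2 _ _ (b1_sq1 b) hf
  · obtain ⟨f, hf, hc⟩ := key _ c
    rw [a, hc]; exact h3 _ _ (b1_sq1 b) hf

theorem O5_finite : O5.Finite := by
  have hsub : O5 ⊆ Set.range (fun p : Fin 3 × Bool × Bool =>
      (match p with
      | (0, e, f) => !₂[0, (if e then 1 else -1), (if f then φ else -φ)]
      | (1, e, f) => !₂[(if f then φ else -φ), 0, (if e then 1 else -1)]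
      | (2, e, f) => !₂[(if e then 1 else -1), (if f then φ else -φ), 0] : E3)) := by
    intro v hv
    rcases hv with ⟨a, b, c⟩ | ⟨a, b, c⟩ | ⟨a, b, c⟩ <;> rcases b1_sq1 b with b | b <;>
      rcases sq_eq_sq_iff_eq_or_eq_neg.mp c with c | c
    · exact ⟨(0, true, true), b1_ext3 (by simp [a]) (by simp [b]) (by simp [c])⟩
    · exact ⟨(0, true, false), b1_ext3 (by simp [a]) (by simp [b]) (by simp [c])⟩
    · exact ⟨(0, false, true), b1_ext3 (by simp [a]) (by simp [b]) (by simp [c])⟩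
    · exact ⟨(0, false, false), b1_ext3 (by simp [a]) (by simp [b]) (by simp [c])⟩
    · exact ⟨(1, true, true), b1_ext3 (by simp [c]) (by simp [a]) (by simp [b])⟩
    · exact ⟨(1, true, false), b1_ext3 (by simp [c]) (by simp [a]) (by simp [b])⟩
    · exact ⟨(1, false, true), b1_ext3 (by simp [c]) (by simp [a]) (by simp [b])⟩
    · exact ⟨(1, false, false), b1_ext3 (by simp [c]) (by simp [a]) (by simp [b])⟩
    · exact ⟨(2, true, true), b1_ext3 (by simp [b]) (by simp [c]) (by simp [a])⟩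
    · exact ⟨(2, true, false), b1_ext3 (by simp [b]) (by simp [c]) (by simp [a])⟩
    · exact ⟨(2, false, true), b1_ext3 (by simp [b]) (by simp [c]) (by simp [a])⟩
    · exact ⟨(2, false, false), b1_ext3 (by simp [b]) (by simp [c]) (by simp [a])⟩
  exact (Set.finite_range _).subset hsub

theorem b1_s_O5 (i : Fin 3) {v : E3} (hv : v ∈ O5) : s i v ∈ O5 := by
  fin_cases i
  · change s 0 v ∈ O5
    simp only [O5, mem_ofPred_eq, b1_s0_0, b1_s0_1, b1_s0_2, neg_sq, neg_eq_zero] at hv ⊢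
    exact hv
  · change s 1 v ∈ O5
    simp only [O5, mem_ofPred_eq, b1_s1_0, b1_s1_1, b1_s1_2, neg_sq, neg_eq_zero] at hv ⊢
    exact hv
  · change s 2 v ∈ O5
    have h := φ_sq
    simp only [O5, mem_ofPred_eq, b1_s2_0, b1_s2_1, b1_s2_2]
    refine b1_O5_cases hv (P := fun a b c => ((1 - φ) / 2 * a - φ / 2 * b + 1 / 2 * c = 0 ∧
        (-φ / 2 * a + 1 / 2 * b + (φ - 1) / 2 * c) ^ 2 = 1 ∧
        (1 / 2 * a + (φ - 1) / 2 * b + φ / 2 * c) ^ 2 = φ ^ 2) ∨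
      (-φ / 2 * a + 1 / 2 * b + (φ - 1) / 2 * c = 0 ∧
        (1 / 2 * a + (φ - 1) / 2 * b + φ / 2 * c) ^ 2 = 1 ∧
        ((1 - φ) / 2 * a - φ / 2 * b + 1 / 2 * c) ^ 2 = φ ^ 2) ∨
      (1 / 2 * a + (φ - 1) / 2 * b + φ / 2 * c = 0 ∧
        ((1 - φ) / 2 * a - φ / 2 * b + 1 / 2 * c) ^ 2 = 1 ∧
        (-φ / 2 * a + 1 / 2 * b + (φ - 1) / 2 * c) ^ 2 = φ ^ 2)) ?_ ?_ ?_
    · rintro e f (rfl | rfl) (rfl | rfl)
      · left
        refine ⟨by linarith, ?_, ?_⟩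
        · rw [show -φ / 2 * 0 + 1 / 2 * 1 + (φ - 1) / 2 * (1 * φ) = 1 by linarith]; norm_num
        · rw [show 1 / 2 * 0 + (φ - 1) / 2 * 1 + φ / 2 * (1 * φ) = φ by linarith]
      · right; left
        refine ⟨by linarith, ?_, ?_⟩
        · rw [show 1 / 2 * 0 + (φ - 1) / 2 * 1 + φ / 2 * (-1 * φ) = -1 by linarith]; norm_num
        · rw [show (1 - φ) / 2 * 0 - φ / 2 * 1 + 1 / 2 * (-1 * φ) = -φ by linarith]; ring
      · right; left
        refine ⟨by linarith, ?_, ?_⟩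
        · rw [show 1 / 2 * 0 + (φ - 1) / 2 * -1 + φ / 2 * (1 * φ) = 1 by linarith]; norm_num
        · rw [show (1 - φ) / 2 * 0 - φ / 2 * -1 + 1 / 2 * (1 * φ) = φ by linarith]
      · left
        refine ⟨by linarith, ?_, ?_⟩
        · rw [show -φ / 2 * 0 + 1 / 2 * -1 + (φ - 1) / 2 * (-1 * φ) = -1 by linarith]; norm_num
        · rw [show 1 / 2 * 0 + (φ - 1) / 2 * -1 + φ / 2 * (-1 * φ) = -φ by linarith]; ring
    · rintro e f (rfl | rfl) (rfl | rfl)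
      · left
        refine ⟨by linarith, ?_, ?_⟩
        · rw [show -φ / 2 * (1 * φ) + 1 / 2 * 0 + (φ - 1) / 2 * 1 = -1 by linarith]; norm_num
        · rw [show 1 / 2 * (1 * φ) + (φ - 1) / 2 * 0 + φ / 2 * 1 = φ by linarith]
      · right; right
        refine ⟨by linarith, ?_, ?_⟩
        · rw [show (1 - φ) / 2 * (-1 * φ) - φ / 2 * 0 + 1 / 2 * 1 = 1 by linarith]; norm_num
        · rw [show -φ / 2 * (-1 * φ) + 1 / 2 * 0 + (φ - 1) / 2 * 1 = φ by linarith]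
      · right; right
        refine ⟨by linarith, ?_, ?_⟩
        · rw [show (1 - φ) / 2 * (1 * φ) - φ / 2 * 0 + 1 / 2 * -1 = -1 by linarith]; norm_num
        · rw [show -φ / 2 * (1 * φ) + 1 / 2 * 0 + (φ - 1) / 2 * -1 = -φ by linarith]; ring
      · left
        refine ⟨by linarith, ?_, ?_⟩
        · rw [show -φ / 2 * (-1 * φ) + 1 / 2 * 0 + (φ - 1) / 2 * -1 = 1 by linarith]; norm_num
        · rw [show 1 / 2 * (-1 * φ) + (φ - 1) / 2 * 0 + φ / 2 * -1 = -φ by linarith]; ring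
    · rintro e f (rfl | rfl) (rfl | rfl)
      · right; left
        refine ⟨by linarith, ?_, ?_⟩
        · rw [show 1 / 2 * 1 + (φ - 1) / 2 * (1 * φ) + φ / 2 * 0 = 1 by linarith]; norm_num
        · rw [show (1 - φ) / 2 * 1 - φ / 2 * (1 * φ) + 1 / 2 * 0 = -φ by linarith]; ring
      · right; right
        refine ⟨by linarith, ?_, ?_⟩
        · rw [show (1 - φ) / 2 * 1 - φ / 2 * (-1 * φ) + 1 / 2 * 0 = 1 by linarith]; norm_num
        · rw [show -φ / 2 * 1 + 1 / 2 * (-1 * φ) + (φ - 1) / 2 * 0 = -φ by linarith]; ring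
      · right; right
        refine ⟨by linarith, ?_, ?_⟩
        · rw [show (1 - φ) / 2 * -1 - φ / 2 * (1 * φ) + 1 / 2 * 0 = -1 by linarith]; norm_num
        · rw [show -φ / 2 * -1 + 1 / 2 * (1 * φ) + (φ - 1) / 2 * 0 = φ by linarith]
      · right; left
        refine ⟨by linarith, ?_, ?_⟩
        · rw [show 1 / 2 * -1 + (φ - 1) / 2 * (-1 * φ) + φ / 2 * 0 = -1 by linarith]; norm_num
        · rw [show (1 - φ) / 2 * -1 - φ / 2 * (-1 * φ) + 1 / 2 * 0 = φ by linarith]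

theorem b1_G_O5_iff {g : E3 ≃ₗᵢ[ℝ] E3} (hg : g ∈ G) : ∀ v : E3, g v ∈ O5 ↔ v ∈ O5 := by
  induction hg using Subgroup.closure_induction with
  | mem x hx =>
    obtain ⟨i, rfl⟩ := hx
    intro v
    exact ⟨fun h => by have := b1_s_O5 i h; rwa [s_s] at this, fun h => b1_s_O5 i h⟩
  | one => intro v; exact Iff.rfl
  | mul x y _ _ hx hy =>
    intro v
    exact (hx (y v)).trans (hy v)
  | inv x _ hx =>
    intro v
    rw [← hx (x⁻¹ v)]
    have : x (x⁻¹ v) = v := x.apply_symm_apply v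
    rw [this]

theorem G_O5 {g : E3 ≃ₗᵢ[ℝ] E3} (hg : g ∈ G) {v : E3} (hv : v ∈ O5) : g v ∈ O5 :=
  (b1_G_O5_iff hg v).mpr hv

/-- `(0, 1, φ)` -/
noncomputable def b1_p1 : E3 := !₂[0, 1, φ]
/-- `(0, -1, φ)` -/
noncomputable def b1_p2 : E3 := !₂[0, -1, φ]
/-- `(φ, 0, 1)` -/
noncomputable def b1_p3 : E3 := !₂[φ, 0, 1]

theorem b1_p1_mem : b1_p1 ∈ O5 := by simp [O5, b1_p1]
theorem b1_p2_mem : b1_p2 ∈ O5 := by simp [O5, b1_p2]
theorem b1_p3_mem : b1_p3 ∈ O5 := by simp [O5, b1_p3]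

theorem b1_p_span (y : E3) : y = (((y 2 - y 0 / φ) / φ + y 1) / 2) • b1_p1 +
    (((y 2 - y 0 / φ) / φ - y 1) / 2) • b1_p2 + (y 0 / φ) • b1_p3 := by
  have hφ : φ ≠ 0 := by have := φ_bounds.1; intro h; rw [h] at this; norm_num at this
  apply b1_ext3
  · simp [b1_p1, b1_p2, b1_p3]; field_simp
  · simp [b1_p1, b1_p2, b1_p3]; ring
  · simp [b1_p1, b1_p2, b1_p3]; field_simp; ring

theorem b1_ext_p {g h : E3 ≃ₗᵢ[ℝ] E3} (h1 : g b1_p1 = h b1_p1) (h2 : g b1_p2 = h b1_p2) (h3 : g b1_p3 = h b1_p3) :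
    g = h := by
  ext1 y
  rw [b1_p_span y]
  simp only [map_add, map_smul, h1, h2, h3]

theorem G_finite : (G : Set (E3 ≃ₗᵢ[ℝ] E3)).Finite := by
  have : Finite O5 := O5_finite
  have hinj : Function.Injective (fun g : G => (fun v : O5 => (⟨g.1 v.1, G_O5 g.2 v.2⟩ : O5))) := by
    intro g h hgh
    apply Subtype.ext
    have key : ∀ v (hv : v ∈ O5), g.1 v = h.1 v := by
      intro v hv
      have := congrFun hgh ⟨v, hv⟩
      exact congrArg Subtype.val this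
    exact b1_ext_p (key _ b1_p1_mem) (key _ b1_p2_mem) (key _ b1_p3_mem)
  have : Finite G := Finite.of_injective _ hinj
  exact Set.toFinite _

/-- an interior vector of `D` -/
noncomputable def b1_ρ : E3 := !₂[1, 1, 10]

theorem b1_inner_α_ρ (i : Fin 3) : 0 < inner ℝ (α i) b1_ρ := by
  have hφ := φ_bounds
  fin_cases i
  · change 0 < inner ℝ (α 0) b1_ρ
    rw [inner_α0]; simp [b1_ρ]
  · change 0 < inner ℝ (α 1) b1_ρ
    rw [inner_α1]; simp [b1_ρ]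
  · change 0 < inner ℝ (α 2) b1_ρ
    rw [inner_α2]; simp [b1_ρ]; linarith [hφ.1, hφ.2]

theorem exists_mem_D (y : E3) : ∃ g ∈ G, g y ∈ D := by
  obtain ⟨g, hg, hmax⟩ := Set.exists_max_image (G : Set (E3 ≃ₗᵢ[ℝ] E3))
    (fun g => inner ℝ (g y) b1_ρ) G_finite ⟨1, G.one_mem⟩
  refine ⟨g, hg, fun i => ?_⟩
  by_contra hc
  push Not at hc
  have h1 := hmax (s i * g) (G.mul_mem (s_mem_G i) hg)
  have h2 : (s i * g) y = s i (g y) := rfl
  simp only [h2] at h1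
  rw [s_apply, inner_sub_left, inner_smul_left] at h1
  simp only [conj_trivial] at h1
  have h3 := b1_inner_α_ρ i
  nlinarith

end Kus64
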