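import Pool.Agent.helper64.Kus.B1

/-!
# B2: the chamber `D` is a strict fundamental domain

* `D_unique`.  Let `p1 = ax5 = (0,1,φ)`, `p2 = (0,-1,φ)`, `p3 = (φ,0,1)` (all in `O5`).  For `v ∈ D`
  (`v 0, v 1 ≥ 0`, `v 2 ≥ φ² v 0 + φ v 1`): `p1·v ≥ a·v` for all `a ∈ O5`; `p2·v ≥ a·v` for all
  `a ∈ O5`, `a ≠ p1`; `p3·v ≥ a·v` for all `a ∈ O5 \ {p1,p2}` (33 easy linear checks).
  Hence for distinct `a,b ∈ O5`: `(a+b)·v ≤ (p1+p2)·v`, and for distinct `a,b,c ∈ O5`: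
  `(a+b+c)·v ≤ (p1+p2+p3)·v`.  If `v, v' = g v ∈ D` then
  `p1·v' = (g⁻¹ p1)·v ≤ p1·v`, `(p1+p2)·v' = (g⁻¹p1 + g⁻¹p2)·v ≤ (p1+p2)·v`,
  `(p1+p2+p3)·v' ≤ (p1+p2+p3)·v`, and by symmetry equalities.  So `pi·v = pi·v'` for `i = 1,2,3`,
  and `p1,p2,p3` is a basis: `v = v'`.
* `inner_le`, `inner_eq`.  Let `M` be the maximum of `inner (g v) y` over the finite set `G`, `ρ` an
  interior vector of `D` (`inner (α i) ρ > 0`).  Among the maximisers take `g` with
  `inner (g v) ρ` maximal.  Then `g v ∈ D`: if `inner (α i) (g v) < 0` then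
  `inner (s i (g v)) y = inner (g v) y - 2 inner (α i) (g v) inner (α i) y ≥ M`, so
  `inner (α i) y = 0` and `s i * g` is a maximiser with larger `inner (· v) ρ`.  By `D_unique`
  `g v = v`, so `M = inner v y`.
  Equality: if `inner (g v) y = M`, take `h` in `W = closure {s i | inner (α i) y = 0}` with
  `inner (h (g v)) ρ` maximal (`W ≤ G` is finite).  `h` fixes `y`, so `inner (h (g v)) y = M`, and
  as before `h (g v) ∈ D`, so `h (g v) = v` and `g v = h⁻¹ v`.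
* `inner_eq_fix`, `inner_eq_one`, `inner_eq_three`: closure induction: the set `{v}` resp.
  `{v, s i₀ v}` resp. `{v, s 1 v, s 2 (s 1 v)}` is stable under the generators `s i` with
  `inner (α i) y = 0` (in the last case by the braid relation and `s 2 v = v`:
  `s 1 (s 2 (s 1 v)) = s 2 (s 1 (s 2 v)) = s 2 (s 1 v)`).
-/

open Set

namespace Kus64

theorem b2_trich {v : E3} (hv : v ∈ D) {a : E3} (ha : a ∈ O5) :
    a = b1_p1 ∨ a = b1_p2 ∨ inner ℝ a v ≤ inner ℝ b1_p3 v := by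
  obtain ⟨hx, hy, hz⟩ := (mem_D_iff v).mp hv
  have hφ := φ_bounds
  have hsq := φ_sq
  have hp3 : inner ℝ b1_p3 v = φ * v 0 + v 2 := by
    rw [b1_inner3]; simp [b1_p3]
  rw [hp3, b1_inner3]
  have hφ0 : 0 < φ := by linarith [hφ.1]
  have hxφ : 0 ≤ φ * v 0 := mul_nonneg hφ0.le hx
  have hyφ : 0 ≤ φ * v 1 := mul_nonneg hφ0.le hy
  have hyle : v 1 ≤ φ * v 1 := by nlinarith [hφ.1]
  have hzφ : 0 ≤ φ ^ 2 * v 0 := mul_nonneg (sq_nonneg _) hx
  have hz0 : 0 ≤ v 2 := by linarith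
  have hzz : v 2 ≤ φ * v 2 := by nlinarith [hφ.1]
  rcases ha with ⟨h0, h1, h2⟩ | ⟨h0, h1, h2⟩ | ⟨h0, h1, h2⟩
  · rcases b1_sq1 h1 with b | b <;> rcases sq_eq_sq_iff_eq_or_eq_neg.mp h2 with c | c
    · left
      exact b1_ext3 (by simp [b1_p1, h0]) (by simp [b1_p1, b]) (by simp [b1_p1, c])
    · right; right
      rw [h0, b, c]; linarith
    · right; left
      exact b1_ext3 (by simp [b1_p2, h0]) (by simp [b1_p2, b]) (by simp [b1_p2, c])
    · right; right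
      rw [h0, b, c]; linarith
  · right; right
    rcases b1_sq1 h1 with b | b <;> rcases sq_eq_sq_iff_eq_or_eq_neg.mp h2 with c | c <;>
      rw [h0, b, c] <;> linarith
  · right; right
    have hx2 : v 0 ≤ φ ^ 2 * v 0 := by rw [hsq]; linarith
    rcases b1_sq1 h1 with b | b <;> rcases sq_eq_sq_iff_eq_or_eq_neg.mp h2 with c | c <;>
      rw [h0, b, c] <;> linarith

theorem b2_p12 {v : E3} (hv : v ∈ D) : inner ℝ b1_p2 v ≤ inner ℝ b1_p1 v := by
  obtain ⟨hx, hy, hz⟩ := (mem_D_iff v).mp hv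
  rw [b1_inner3, b1_inner3]; simp [b1_p1, b1_p2]; linarith

theorem b2_p23 {v : E3} (hv : v ∈ D) : inner ℝ b1_p3 v ≤ inner ℝ b1_p2 v := by
  obtain ⟨hx, hy, hz⟩ := (mem_D_iff v).mp hv
  have hφ := φ_bounds
  have hsq := φ_sq
  have hp3 : inner ℝ b1_p3 v = φ * v 0 + v 2 := by
    rw [b1_inner3]; simp [b1_p3]
  have hp2 : inner ℝ b1_p2 v = - v 1 + φ * v 2 := by
    rw [b1_inner3]; simp [b1_p2]
  rw [hp3, hp2]
  have h := mul_le_mul_of_nonneg_left hz (show 0 ≤ φ - 1 by linarith [hφ.1])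
  have e : (φ - 1) * (φ ^ 2 * v 0 + φ * v 1) = φ * v 0 + v 1 := by
    linear_combination (φ * v 0 + v 1) * hsq
  rw [e] at h
  linarith

theorem b2_le1 {v : E3} (hv : v ∈ D) {a : E3} (ha : a ∈ O5) : inner ℝ a v ≤ inner ℝ b1_p1 v := by
  rcases b2_trich hv ha with rfl | rfl | h
  · exact le_rfl
  · exact b2_p12 hv
  · exact h.trans ((b2_p23 hv).trans (b2_p12 hv))

theorem b2_le2 {v : E3} (hv : v ∈ D) {a : E3} (ha : a ∈ O5) (hne : a ≠ b1_p1) :
    inner ℝ a v ≤ inner ℝ b1_p2 v := by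
  rcases b2_trich hv ha with h | rfl | h
  · exact absurd h hne
  · exact le_rfl
  · exact h.trans (b2_p23 hv)

theorem b2_sum2 {v : E3} (hv : v ∈ D) {a b : E3} (ha : a ∈ O5) (hb : b ∈ O5) (hab : a ≠ b) :
    inner ℝ a v + inner ℝ b v ≤ inner ℝ b1_p1 v + inner ℝ b1_p2 v := by
  by_cases h : a = b1_p1
  · have := b2_le2 hv hb (fun h' => hab (h.trans h'.symm))
    have := b2_le1 hv ha
    linarith
  · have := b2_le2 hv ha h
    have := b2_le1 hv hb
    linarith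

theorem b2_sum3 {v : E3} (hv : v ∈ D) {a b c : E3} (ha : a ∈ O5) (hb : b ∈ O5) (hc : c ∈ O5)
    (hab : a ≠ b) (hac : a ≠ c) (hbc : b ≠ c) :
    inner ℝ a v + inner ℝ b v + inner ℝ c v ≤
      inner ℝ b1_p1 v + inner ℝ b1_p2 v + inner ℝ b1_p3 v := by
  have hab' := b2_sum2 hv ha hb hab
  have hac' := b2_sum2 hv ha hc hac
  have hbc' := b2_sum2 hv hb hc hbc
  rcases b2_trich hv ha with h1 | h1 | h1
  · rcases b2_trich hv hb with h2 | h2 | h2
    · exact absurd (h1.trans h2.symm) hab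
    · rcases b2_trich hv hc with h3 | h3 | h3
      · exact absurd (h1.trans h3.symm) hac
      · exact absurd (h2.trans h3.symm) hbc
      · linarith
    · linarith
  · rcases b2_trich hv hb with h2 | h2 | h2
    · rcases b2_trich hv hc with h3 | h3 | h3
      · exact absurd (h2.trans h3.symm) hbc
      · exact absurd (h1.trans h3.symm) hac
      · linarith
    · exact absurd (h1.trans h2.symm) hab
    · linarith
  · linarith

theorem b2_p1_ne_p2 : b1_p1 ≠ b1_p2 := by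
  intro h
  have := congrArg (fun v : E3 => v 1) h
  simp [b1_p1, b1_p2] at this
  norm_num at this

theorem b2_p1_ne_p3 : b1_p1 ≠ b1_p3 := by
  intro h
  have := congrArg (fun v : E3 => v 1) h
  simp [b1_p1, b1_p3] at this

theorem b2_p2_ne_p3 : b1_p2 ≠ b1_p3 := by
  intro h
  have := congrArg (fun v : E3 => v 1) h
  simp [b1_p2, b1_p3] at this

theorem b2_inner_inv (g : E3 ≃ₗᵢ[ℝ] E3) (a v : E3) : inner ℝ a (g v) = inner ℝ (g⁻¹ a) v := by
  have h : g (g⁻¹ a) = a := g.apply_symm_apply a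
  conv_lhs => rw [← h]
  exact g.inner_map_map _ _

theorem b2_D_le {v v' : E3} (hv : v ∈ D) {g : E3 ≃ₗᵢ[ℝ] E3} (hg : g ∈ G)
    (h : g v = v') : inner ℝ b1_p1 v' ≤ inner ℝ b1_p1 v ∧
    inner ℝ b1_p1 v' + inner ℝ b1_p2 v' ≤ inner ℝ b1_p1 v + inner ℝ b1_p2 v ∧
    inner ℝ b1_p1 v' + inner ℝ b1_p2 v' + inner ℝ b1_p3 v' ≤
      inner ℝ b1_p1 v + inner ℝ b1_p2 v + inner ℝ b1_p3 v := by
  subst h
  have hinj : Function.Injective (g⁻¹ : E3 ≃ₗᵢ[ℝ] E3) := (g⁻¹).injective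
  have hg' := G.inv_mem hg
  have m1 := G_O5 hg' b1_p1_mem
  have m2 := G_O5 hg' b1_p2_mem
  have m3 := G_O5 hg' b1_p3_mem
  simp only [b2_inner_inv g]
  exact ⟨b2_le1 hv m1, b2_sum2 hv m1 m2 (hinj.ne b2_p1_ne_p2),
    b2_sum3 hv m1 m2 m3 (hinj.ne b2_p1_ne_p2) (hinj.ne b2_p1_ne_p3) (hinj.ne b2_p2_ne_p3)⟩

theorem D_unique {v v' : E3} (hv : v ∈ D) (hv' : v' ∈ D) {g : E3 ≃ₗᵢ[ℝ] E3} (hg : g ∈ G)
    (h : g v = v') : v = v' := by
  have h1 := b2_D_le hv hg h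
  have h2 : g⁻¹ v' = v := by rw [← h]; exact g.symm_apply_apply v
  have h3 := b2_D_le hv' (G.inv_mem hg) h2
  have e1 : ∀ u : E3, inner ℝ b1_p1 u = u 1 + φ * u 2 := by
    intro u; rw [b1_inner3]; simp [b1_p1]
  have e2 : ∀ u : E3, inner ℝ b1_p2 u = - u 1 + φ * u 2 := by
    intro u; rw [b1_inner3]; simp [b1_p2]
  have e3 : ∀ u : E3, inner ℝ b1_p3 u = φ * u 0 + u 2 := by
    intro u; rw [b1_inner3]; simp [b1_p3]
  simp only [e1, e2, e3] at h1 h3
  have hφ : 0 < φ := by linarith [φ_bounds.1]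
  have y1' : v 1 = v' 1 := by linarith
  have y2' : v 2 = v' 2 := mul_left_cancel₀ hφ.ne' (by linarith)
  have y0' : v 0 = v' 0 := mul_left_cancel₀ hφ.ne' (by linarith)
  exact b1_ext3 y0' y1' y2'

theorem b2_inner_s (i : Fin 3) (u y : E3) :
    inner ℝ (s i u) y = inner ℝ u y - 2 * inner ℝ (α i) u * inner ℝ (α i) y := by
  rw [s_apply, inner_sub_left, inner_smul_left]
  simp only [conj_trivial]

theorem inner_le {v y : E3} (hv : v ∈ D) (hy : y ∈ D) {g : E3 ≃ₗᵢ[ℝ] E3} (hg : g ∈ G) :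
    inner ℝ (g v) y ≤ inner ℝ v y := by
  obtain ⟨g₁, hg₁, hmax₁⟩ := Set.exists_max_image (G : Set (E3 ≃ₗᵢ[ℝ] E3))
    (fun g => inner ℝ (g v) y) G_finite ⟨1, G.one_mem⟩
  obtain ⟨g₀, hg₀, hmax⟩ := Set.exists_max_image
    {g : E3 ≃ₗᵢ[ℝ] E3 | g ∈ G ∧ ∀ h ∈ G, inner ℝ (h v) y ≤ inner ℝ (g v) y}
    (fun g => inner ℝ (g v) b1_ρ) (G_finite.subset fun g hg => hg.1) ⟨g₁, hg₁, hmax₁⟩
  have hD : g₀ v ∈ D := by
    intro i
    by_contra hc
    push Not at hc
    have hs : s i * g₀ ∈ G := G.mul_mem (s_mem_G i) hg₀.1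
    have h2 : (s i * g₀) v = s i (g₀ v) := rfl
    have hyi : 0 ≤ inner ℝ (α i) y := hy i
    have h3 : inner ℝ (g₀ v) y ≤ inner ℝ ((s i * g₀) v) y := by
      rw [h2, b2_inner_s]
      nlinarith [mul_nonneg (neg_nonneg.mpr hc.le) hyi]
    have h4 := hmax (s i * g₀) ⟨hs, fun h hh => (hg₀.2 h hh).trans h3⟩
    simp only [h2, b2_inner_s] at h4
    have h5 := b1_inner_α_ρ i
    nlinarith
  have := D_unique hv hD hg₀.1 rfl
  have h6 := hg₀.2 g hg
  rwa [← this] at h6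

theorem b2_closure_le (I : Set (Fin 3)) : Subgroup.closure (s '' I) ≤ G :=
  Subgroup.closure_mono (Set.image_subset_range s I)

theorem b2_fix {y : E3} {h : E3 ≃ₗᵢ[ℝ] E3}
    (hh : h ∈ Subgroup.closure (s '' {i | inner ℝ (α i) y = 0})) : h y = y := by
  induction hh using Subgroup.closure_induction with
  | mem x hx =>
    obtain ⟨i, hi, rfl⟩ := hx
    have hi' : inner ℝ (α i) y = 0 := hi
    rw [s_apply, hi']; simp
  | one => rfl
  | mul a b _ _ ha hb =>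
    have : (a * b) y = a (b y) := rfl
    rw [this, hb, ha]
  | inv a _ ha =>
    conv_lhs => rw [← ha]
    exact a.symm_apply_apply y

theorem inner_eq {v y : E3} (hv : v ∈ D) (hy : y ∈ D) {g : E3 ≃ₗᵢ[ℝ] E3} (hg : g ∈ G)
    (h : inner ℝ (g v) y = inner ℝ v y) :
    ∃ h' ∈ Subgroup.closure (s '' {i | inner ℝ (α i) y = 0}), g v = h' v := by
  obtain ⟨k, hk, hmax⟩ := Set.exists_max_image
    ((Subgroup.closure (s '' {i | inner ℝ (α i) y = 0}) : Subgroup _) : Set (E3 ≃ₗᵢ[ℝ] E3))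
    (fun k => inner ℝ (k (g v)) b1_ρ) (G_finite.subset fun g hg => b2_closure_le _ hg)
    ⟨1, Subgroup.one_mem _⟩
  have hkG : k ∈ G := b2_closure_le _ hk
  have hkg : inner ℝ (k (g v)) y = inner ℝ v y := by
    rw [← h]
    conv_lhs => rw [← b2_fix hk]
    exact k.inner_map_map _ _
  have hD : k (g v) ∈ D := by
    intro i
    by_contra hc
    push Not at hc
    have hyi : 0 ≤ inner ℝ (α i) y := hy i
    rcases hyi.eq_or_lt with h0 | h0
    · have hs : s i * k ∈ Subgroup.closure (s '' {i | inner ℝ (α i) y = 0}) :=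
        Subgroup.mul_mem _ (Subgroup.subset_closure ⟨i, h0.symm, rfl⟩) hk
      have h2 : (s i * k) (g v) = s i (k (g v)) := rfl
      have h4 := hmax _ hs
      simp only [h2, b2_inner_s] at h4
      have h5 := b1_inner_α_ρ i
      nlinarith
    · have h2 : (s i * (k * g)) v = s i (k (g v)) := rfl
      have h3 := inner_le hv hy (G.mul_mem (s_mem_G i) (G.mul_mem hkG hg))
      rw [h2, b2_inner_s, hkg] at h3
      nlinarith [mul_pos (neg_pos.mpr hc) h0]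
  have hu : v = k (g v) := D_unique hv hD (G.mul_mem hkG hg) rfl
  refine ⟨k⁻¹, Subgroup.inv_mem _ hk, ?_⟩
  conv_rhs => rw [hu]
  exact (k.symm_apply_apply (g v)).symm

theorem b2_stable {y : E3} (S : Set E3) (hS : ∀ i, inner ℝ (α i) y = 0 → ∀ u ∈ S, s i u ∈ S)
    {h : E3 ≃ₗᵢ[ℝ] E3} (hh : h ∈ Subgroup.closure (s '' {i | inner ℝ (α i) y = 0})) :
    ∀ u, h u ∈ S ↔ u ∈ S := by
  induction hh using Subgroup.closure_induction with
  | mem x hx =>
    obtain ⟨i, hi, rfl⟩ := hx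
    exact fun u => ⟨fun h => by have := hS i hi _ h; rwa [s_s] at this, fun h => hS i hi _ h⟩
  | one => exact fun u => Iff.rfl
  | mul a b _ _ ha hb => exact fun u => (ha (b u)).trans (hb u)
  | inv a _ ha =>
    intro u
    rw [← ha (a⁻¹ u)]
    have : a (a⁻¹ u) = u := a.apply_symm_apply u
    rw [this]

/-- If all simple reflections fixing `y` fix `v`, then `v` is the only maximiser. -/
theorem inner_eq_fix {v y : E3} (hv : v ∈ D) (hy : y ∈ D) {g : E3 ≃ₗᵢ[ℝ] E3} (hg : g ∈ G)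
    (h : inner ℝ (g v) y = inner ℝ v y) (hf : ∀ i, inner ℝ (α i) y = 0 → s i v = v) :
    g v = v := by
  obtain ⟨k, hk, hgk⟩ := inner_eq hv hy hg h
  rw [hgk]
  have := (b2_stable {v} (fun i hi u hu => by rw [mem_singleton_iff] at hu ⊢; rw [hu, hf i hi])
    hk v).mpr rfl
  exact this

/-- `y` on at most one mirror. -/
theorem inner_eq_one {v y : E3} (hv : v ∈ D) (hy : y ∈ D) {g : E3 ≃ₗᵢ[ℝ] E3} (hg : g ∈ G)
    (h : inner ℝ (g v) y = inner ℝ v y) (i₀ : Fin 3) (hf : ∀ i, i ≠ i₀ → 0 < inner ℝ (α i) y) :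
    g v = v ∨ g v = s i₀ v := by
  obtain ⟨k, hk, hgk⟩ := inner_eq hv hy hg h
  rw [hgk]
  have := (b2_stable {v, s i₀ v} (fun i hi u hu => by
    have hii : i = i₀ := by
      by_contra hne
      exact (hf i hne).ne' hi
    subst hii
    rcases hu with rfl | hu
    · right; rfl
    · rw [mem_singleton_iff] at hu
      left; rw [hu, s_s]) hk v).mpr (Or.inl rfl)
  exact this

/-- `y` on the three-fold axis, `v` on the mirror of `α 2`. -/
theorem inner_eq_three {v y : E3} (hv : v ∈ D) (hy : y ∈ D) {g : E3 ≃ₗᵢ[ℝ] E3} (hg : g ∈ G)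
    (h : inner ℝ (g v) y = inner ℝ v y) (h0 : 0 < inner ℝ (α 0) y) (hv2 : s 2 v = v) :
    g v = v ∨ g v = s 1 v ∨ g v = s 2 (s 1 v) := by
  obtain ⟨k, hk, hgk⟩ := inner_eq hv hy hg h
  rw [hgk]
  have := (b2_stable {v, s 1 v, s 2 (s 1 v)} (fun i hi u hu => by
    simp only [mem_insert_iff, mem_singleton_iff] at hu ⊢
    fin_cases i
    · exact absurd hi h0.ne'
    · change s 1 u = v ∨ s 1 u = s 1 v ∨ s 1 u = s 2 (s 1 v)
      rcases hu with rfl | rfl | rfl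
      · right; left; rfl
      · left; rw [s_s]
      · right; right; rw [s_braid, hv2]
    · change s 2 u = v ∨ s 2 u = s 1 v ∨ s 2 u = s 2 (s 1 v)
      rcases hu with rfl | rfl | rfl
      · left; exact hv2
      · right; right; rfl
      · right; left; rw [s_s]) hk v).mpr (Or.inl rfl)
  exact this

end Kus64
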