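import Mathlib
import Pool.Agent.helper14.KusDefs

/-!
# Kusner's question, connected cells: basic definitions of the icosahedral shell cluster

Points of the three-sphere are pairs `(η, y)` with `η ^ 2 + ‖y‖ ^ 2 = 1`, `y` in three-space.
A site is a vector `w = (b; v; t)` of `ℝ^{4,1}`; its function on the sphere is
`lin w η y = b * η + ⟪v, y⟫ - t`.
-/

open Set Metric MeasureTheory
open scoped ContDiff Topology

namespace Kus64

/-- Euclidean three-space. -/
abbrev E3 : Type := Kusner.E3

/-! ### The reflection group `H3` -/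

/-- The golden ratio. -/
noncomputable def φ : ℝ := (1 + √5) / 2

/-- The simple roots (unit vectors). -/
noncomputable def α : Fin 3 → E3 :=
  ![!₂[1, 0, 0], !₂[0, 1, 0], !₂[-φ / 2, -1 / 2, (φ - 1) / 2]]

/-- The simple reflections. -/
noncomputable def s (i : Fin 3) : E3 ≃ₗᵢ[ℝ] E3 := (ℝ ∙ α i)ᗮ.reflection

/-- The reflection group `H3`. -/
noncomputable def G : Subgroup (E3 ≃ₗᵢ[ℝ] E3) := Subgroup.closure (Set.range s)

/-- The closed chamber: `x ≥ 0`, `y ≥ 0`, `z ≥ φ² x + φ y`. -/
def D : Set E3 := {y | ∀ i, 0 ≤ inner ℝ (α i) y}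

/-- The direction of the five-fold axis. -/
noncomputable def ax5 : E3 := !₂[0, 1, φ]

/-- The direction of the two-fold axis. -/
noncomputable def ax2 : E3 := !₂[0, 0, 1]

/-- The direction of the three-fold axis. -/
noncomputable def ax3 : E3 := !₂[1, 0, φ ^ 2]

/-- The unit vector of the five-fold axis. -/
noncomputable def ξ : E3 := (√(1 + φ ^ 2))⁻¹ • ax5

/-! ### Sites -/

/-- A site `(b; v; t)`. -/
@[ext] structure Site where
  /-- component along `e0` -/
  b : ℝ
  /-- component in three-space -/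
  v : E3
  /-- time component -/
  t : ℝ

/-- The affine function of a site on the three-sphere. -/
noncomputable def Site.lin (w : Site) (η : ℝ) (y : E3) : ℝ := w.b * η + inner ℝ w.v y - w.t

/-- The Lorentz square of the difference of two sites. -/
noncomputable def Site.q (w w' : Site) : ℝ :=
  (w.b - w'.b) ^ 2 + ‖w.v - w'.v‖ ^ 2 - (w.t - w'.t) ^ 2

/-- The action of a linear isometry of three-space. -/
noncomputable def Site.map (g : E3 ≃ₗᵢ[ℝ] E3) (w : Site) : Site := ⟨w.b, g w.v, w.t⟩

/-- The mirror image in `η = 0`. -/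
noncomputable def Site.flip (w : Site) : Site := ⟨-w.b, w.v, w.t⟩

/-! ### The parameters -/

/-- `x3` as a function of `y1`. -/
noncomputable def x3f (y : ℝ) : ℝ := √(3 / 4 + y - y ^ 2)

/-- `δ = t1 - z1` as a function of `y1`. -/
noncomputable def δf (y : ℝ) : ℝ :=
  (2 * y + 1) * (y - 1) / (φ * (2 * y + 1 - 2 * φ * x3f y))

/-- The equation for `y1`. -/
noncomputable def eqf (y : ℝ) : ℝ := y ^ 2 - δf y * (2 * (φ * (y + 1)) + δf y)

/-- `y1` is a root of `eqf` in a tiny interval (junk value `0` if there were none; the module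
`Exist` proves that there is one). -/
noncomputable def y1 : ℝ :=
  open Classical in
  if h : ∃ y ∈ Icc (1.02433713 : ℝ) 1.02433716, eqf y = 0 then h.choose else 0

noncomputable def δ : ℝ := δf y1
noncomputable def x3 : ℝ := x3f y1
noncomputable def z1 : ℝ := φ * (y1 + 1)
noncomputable def t1 : ℝ := z1 + δ
noncomputable def t2 : ℝ := 1 / (2 * δ)
noncomputable def z3 : ℝ := φ ^ 2 * x3 + φ / 2
noncomputable def t3 : ℝ := z3 + δ

/-- `k = (5 - √5) / 10`. -/
noncomputable def kk : ℝ := (5 - √5) / 10
/-- height of the column `310` along the five-fold axis -/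
noncomputable def ys : ℝ := (y1 + φ * z1) / √(1 + φ ^ 2)
noncomputable def ν : ℝ := (ys + t1) / 2
noncomputable def b3 : ℝ := 1 + √(4 * kk - 1)
noncomputable def s3 : ℝ := ys + ν + (kk - b3 ^ 2) / (4 * ν)
noncomputable def ta3 : ℝ := t1 + ν - (kk - b3 ^ 2) / (4 * ν)
/-- `A2` is the positive root of `(b3² - k) A² - (1 - 2k) A - k = 0`. -/
noncomputable def A2 : ℝ :=
  ((1 - 2 * kk) + √((1 - 2 * kk) ^ 2 + 4 * kk * (b3 ^ 2 - kk))) / (2 * (b3 ^ 2 - kk))
noncomputable def s2 : ℝ := ys + A2 * ν + kk / (4 * ν * A2)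
noncomputable def ta2 : ℝ := t1 + A2 * ν - kk / (4 * ν * A2)

/-- The central cell `C` and the outer cell `E`. -/
noncomputable def wC : Site := ⟨-1, 0, 0⟩
noncomputable def wE : Site := ⟨1, 0, 0⟩
/-- The three column types (null vectors: `‖v‖ = t`). -/
noncomputable def w310 : Site := ⟨0, !₂[0, y1, z1], t1⟩
noncomputable def w220 : Site := ⟨0, !₂[0, 0, t2], t2⟩
noncomputable def w211 : Site := ⟨0, !₂[x3, 1 / 2, z3], t3⟩
/-- The core cells on the five-fold axis: `a2` (middle), `a3` (inner side, `η > 0`),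
`a1` (outer side). -/
noncomputable def wa2 : Site := ⟨0, s2 • ξ, ta2⟩
noncomputable def wa3 : Site := ⟨b3, s3 • ξ, ta3⟩
noncomputable def wa1 : Site := ⟨-b3, s3 • ξ, ta3⟩

/-- The representatives of the small sites. -/
noncomputable def reps : Set Site := {w310, w220, w211, wa2, wa3, wa1}

/-- The small sites: columns and core cells. -/
noncomputable def Small : Set Site := {w | ∃ g ∈ G, ∃ r ∈ reps, w = r.map g}

/-- All sites. -/
noncomputable def Sites : Set Site := {wC, wE} ∪ Small

/-- The function of a site.  For the two big sites the affine function is cut off at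
`η = 7/20` resp. `η = -7/20`. -/
noncomputable def F (w : Site) (η : ℝ) (y : E3) : ℝ :=
  open Classical in
  if w = wC then -max η (7 / 10 - η)
  else if w = wE then -max (-η) (7 / 10 + η)
  else w.lin η y

/-- The point `(η, y)` lies on the three-sphere. -/
def OnS (η : ℝ) (y : E3) : Prop := η ^ 2 + ‖y‖ ^ 2 = 1

/-- The site `w` is active at `(η, y)`. -/
def Act (w : Site) (η : ℝ) (y : E3) : Prop := w ∈ Sites ∧ ∀ w' ∈ Sites, F w' η y ≤ F w η y

/-- The (open) cell of the site `w`. -/
def cellS (w : Site) : Set (ℝ × E3) :=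
  {p | OnS p.1 p.2 ∧ ∀ w' ∈ Sites, w' ≠ w → F w' p.1 p.2 < F w p.1 p.2}

/-- The six representatives which compete in the chamber `D × {η ≥ 0}`. -/
noncomputable def six : Fin 6 → Site := ![wC, w310, w220, w211, wa2, wa3]

end Kus64
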