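import Pool.Agent.helper64.Kus.A3
import Pool.Agent.helper64.Kus.B1

/-!
# C1: the six functions in coordinates, with rational approximations

`inner v y` in coordinates (`EuclideanSpace.inner_eq_star_dotProduct` / `real_inner_eq..`,
`Fin.sum_univ_three`); `s2 • ξ = s2/√(1+φ²) • (0,1,φ)` with `1/√(1+φ²) ∈ 0.5257311 ± 1e-7`.
The approximation lemmas: coefficients are within `2e-5` of the rational ones by `A2`, and
`|y i| ≤ 1`, `|η| ≤ 1`; the sum of at most four errors is `≤ 1e-4`.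
-/

open Set

namespace Kus64

theorem inner_coord (v y : E3) : inner ℝ v y = v 0 * y 0 + v 1 * y 1 + v 2 * y 2 := by
  rw [PiLp.inner_apply, Fin.sum_univ_three]
  simp
  ring

theorem smul_mem_D {c : ℝ} (hc : 0 ≤ c) {v : E3} (hv : v ∈ D) : c • v ∈ D := by
  intro i
  rw [inner_smul_right]
  exact mul_nonneg hc (hv i)

/-- the normalising factor of the five-fold axis -/
noncomputable def cξ : ℝ := (√(1 + φ ^ 2))⁻¹

theorem cξ_bounds : (0.525731 : ℝ) ≤ cξ ∧ cξ ≤ 0.5257312 := by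
  have h2 := φ_bounds
  have hs := φ_sq
  have h1 : (1.902113 : ℝ) ≤ √(1 + φ ^ 2) := by
    apply Real.le_sqrt_of_sq_le
    rw [hs]
    norm_num
    linarith [h2.1]
  have h3 : √(1 + φ ^ 2) ≤ 1.9021131 := by
    rw [Real.sqrt_le_left (by norm_num)]
    rw [hs]
    norm_num
    linarith [h2.2]
  have hpos : 0 < √(1 + φ ^ 2) := by linarith
  rw [cξ]
  constructor
  · rw [le_inv_comm₀ (by norm_num) hpos]
    refine h3.trans ?_
    norm_num
  · rw [inv_le_comm₀ hpos (by norm_num)]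
    refine le_trans ?_ h1
    norm_num

theorem inner_ξ (y : E3) : inner ℝ ξ y = cξ * (y 1 + φ * y 2) := by
  rw [inner_coord]
  simp [ξ, ax5, cξ]
  ring

theorem w310_mem : w310.v ∈ D := by
  rw [mem_D_iff]
  have h1 := y1_mem
  have h2 := φ_bounds
  simp only [w310, z1]
  simp
  constructor
  · linarith [h1.1]
  · nlinarith [h1.1]

theorem w220_mem : w220.v ∈ D := by
  rw [mem_D_iff]
  have h1 := δ_pos
  simp [w220, t2]
  positivity

theorem w211_mem : w211.v ∈ D := by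
  rw [mem_D_iff]
  have h1 := enc_x3
  rw [abs_le] at h1
  simp [w211, z3]
  constructor
  · linarith [h1.1]
  · linarith

theorem ξ_mem : ξ ∈ D := by
  rw [mem_D_iff]
  have h2 := φ_bounds
  have h0 : 0 < φ := by linarith
  simp [ξ, ax5]
  linarith [mul_comm φ (√(1 + φ ^ 2))⁻¹]

theorem wa2_mem : wa2.v ∈ D := by
  have h1 := enc_s2
  rw [abs_le] at h1
  exact smul_mem_D (by linarith [h1.1]) ξ_mem

theorem wa3_mem : wa3.v ∈ D := by
  have h1 := enc_s3
  rw [abs_le] at h1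
  exact smul_mem_D (by linarith [h1.1]) ξ_mem

theorem lin310 (η : ℝ) (y : E3) : w310.lin η y = y1 * y 1 + z1 * y 2 - t1 := by
  rw [Site.lin, inner_coord]
  simp [w310]

theorem lin220 (η : ℝ) (y : E3) : w220.lin η y = t2 * y 2 - t2 := by
  rw [Site.lin, inner_coord]
  simp [w220]

theorem lin211 (η : ℝ) (y : E3) :
    w211.lin η y = x3 * y 0 + 1 / 2 * y 1 + z3 * y 2 - t3 := by
  rw [Site.lin, inner_coord]
  simp [w211]

theorem lina2 (η : ℝ) (y : E3) : wa2.lin η y = s2 * inner ℝ ξ y - ta2 := by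
  rw [Site.lin]
  simp [wa2, inner_smul_left]

theorem lina3 (η : ℝ) (y : E3) : wa3.lin η y = b3 * η + s3 * inner ℝ ξ y - ta3 := by
  rw [Site.lin]
  simp [wa3, inner_smul_left]

theorem abs_coord {y : E3} (hy : ‖y‖ ≤ 1) (i : Fin 3) : |y i| ≤ 1 := by
  have h := PiLp.norm_apply_le y i
  rw [Real.norm_eq_abs] at h
  exact h.trans hy

/-- a product error estimate -/
theorem mul_err {a a' u e : ℝ} (ha : |a - a'| ≤ e) (hu : |u| ≤ 1) : |a * u - a' * u| ≤ e := by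
  rw [← sub_mul, abs_mul]
  have h1 : 0 ≤ |a - a'| := abs_nonneg _
  have h2 : 0 ≤ |u| := abs_nonneg _
  nlinarith

/-- approximations for points of the closed unit ball -/
theorem app310 {η : ℝ} {y : E3} (hy : ‖y‖ ≤ 1) :
    |w310.lin η y - (1.024337 * y 1 + 3.275446 * y 2 - 3.431882)| ≤ 1e-4 := by
  rw [lin310]
  have e1 := enc_y1
  have e2 := enc_z1
  have e3 := enc_t1
  have h1 : |y1 * y 1 - 1.024337 * y 1| ≤ 2e-5 := by
    apply mul_err _ (abs_coord hy 1)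
    rw [abs_le] at e1 ⊢
    constructor <;> linarith [e1.1, e1.2]
  have h2 : |z1 * y 2 - 3.275446 * y 2| ≤ 2e-5 := by
    apply mul_err _ (abs_coord hy 2)
    rw [abs_le] at e2 ⊢
    constructor <;> linarith [e2.1, e2.2]
  rw [abs_le] at h1 h2 e3 ⊢
  constructor <;> linarith [h1.1, h1.2, h2.1, h2.2, e3.1, e3.2]

theorem app220 {η : ℝ} {y : E3} (hy : ‖y‖ ≤ 1) :
    |w220.lin η y - (3.196198 * y 2 - 3.196198)| ≤ 1e-4 := by
  rw [lin220]
  have e3 := enc_t2
  have h2 : |t2 * y 2 - 3.196198 * y 2| ≤ 2e-5 := by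
    apply mul_err _ (abs_coord hy 2)
    rw [abs_le] at e3 ⊢
    constructor <;> linarith [e3.1, e3.2]
  rw [abs_le] at h2 e3 ⊢
  constructor <;> linarith [h2.1, h2.2, e3.1, e3.2]

theorem app211 {η : ℝ} {y : E3} (hy : ‖y‖ ≤ 1) :
    |w211.lin η y - (0.851511 * y 0 + 0.5 * y 1 + 3.038301 * y 2 - 3.194737)| ≤ 1e-4 := by
  rw [lin211]
  have e1 := enc_x3
  have e2 := enc_z3
  have e3 := enc_t3
  have h1 : |x3 * y 0 - 0.851511 * y 0| ≤ 2e-5 := by
    apply mul_err _ (abs_coord hy 0)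
    rw [abs_le] at e1 ⊢
    constructor <;> linarith [e1.1, e1.2]
  have h2 : |z3 * y 2 - 3.038301 * y 2| ≤ 2e-5 := by
    apply mul_err _ (abs_coord hy 2)
    rw [abs_le] at e2 ⊢
    constructor <;> linarith [e2.1, e2.2]
  rw [abs_le] at h1 h2 e3 ⊢
  constructor <;> linarith [h1.1, h1.2, h2.1, h2.2, e3.1, e3.2]

theorem appa2 {η : ℝ} {y : E3} (hy : ‖y‖ ≤ 1) :
    |wa2.lin η y - (2.847508 * y 1 + 4.607365 * y 2 - 5.456226)| ≤ 1e-4 := by
  rw [lina2, inner_ξ]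
  have e1 := enc_s2
  have e3 := enc_ta2
  have hc := cξ_bounds
  have hp := φ_bounds
  rw [abs_le] at e1
  have k1 : s2 * cξ ≤ 2.847515 := by nlinarith [e1.2, hc.2, e1.1, hc.1]
  have k2 : 2.847502 ≤ s2 * cξ := by nlinarith [e1.2, hc.2, e1.1, hc.1]
  have k3 : s2 * cξ * φ ≤ 4.60738 := by nlinarith [hp.1, hp.2]
  have k4 : 4.60735 ≤ s2 * cξ * φ := by nlinarith [hp.1, hp.2]
  have h1 : |s2 * cξ * y 1 - 2.847508 * y 1| ≤ 2e-5 := by
    apply mul_err _ (abs_coord hy 1)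
    rw [abs_le]
    constructor <;> linarith
  have h2 : |s2 * cξ * φ * y 2 - 4.607365 * y 2| ≤ 2e-5 := by
    apply mul_err _ (abs_coord hy 2)
    rw [abs_le]
    constructor <;> linarith
  have h3 : s2 * (cξ * (y 1 + φ * y 2)) = s2 * cξ * y 1 + s2 * cξ * φ * y 2 := by ring
  rw [h3]
  rw [abs_le] at h1 h2 e3 ⊢
  constructor <;> linarith [h1.1, h1.2, h2.1, h2.2, e3.1, e3.2]

theorem appa3 {η : ℝ} {y : E3} (hη : |η| ≤ 1) (hy : ‖y‖ ≤ 1) :
    |wa3.lin η y - (1.32492 * η + 3.466499 * y 1 + 5.608910 * y 2 - 6.919666)| ≤ 1e-4 := by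
  rw [lina3, inner_ξ]
  have e0 := enc_b3
  have e1 := enc_s3
  have e3 := enc_ta3
  have hc := cξ_bounds
  have hp := φ_bounds
  rw [abs_le] at e1
  have k1 : s3 * cξ ≤ 3.466506 := by nlinarith [e1.2, hc.2, e1.1, hc.1]
  have k2 : 3.466492 ≤ s3 * cξ := by nlinarith [e1.2, hc.2, e1.1, hc.1]
  have k3 : s3 * cξ * φ ≤ 5.60893 := by nlinarith [hp.1, hp.2]
  have k4 : 5.60889 ≤ s3 * cξ * φ := by nlinarith [hp.1, hp.2]
  have h0 : |b3 * η - 1.32492 * η| ≤ 2e-5 := by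
    apply mul_err _ hη
    rw [abs_le] at e0 ⊢
    constructor <;> linarith [e0.1, e0.2]
  have h1 : |s3 * cξ * y 1 - 3.466499 * y 1| ≤ 2e-5 := by
    apply mul_err _ (abs_coord hy 1)
    rw [abs_le]
    constructor <;> linarith
  have h2 : |s3 * cξ * φ * y 2 - 5.608910 * y 2| ≤ 2e-5 := by
    apply mul_err _ (abs_coord hy 2)
    rw [abs_le]
    constructor <;> linarith
  have h3 : s3 * (cξ * (y 1 + φ * y 2)) = s3 * cξ * y 1 + s3 * cξ * φ * y 2 := by ring
  rw [h3]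
  rw [abs_le] at h0 h1 h2 e3 ⊢
  constructor <;> linarith [h0.1, h0.2, h1.1, h1.2, h2.1, h2.2, e3.1, e3.2]

end Kus64
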