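import Pool.Agent.helper64.Kus.C1

/-!
# C2: linear inequalities in the chamber -- MODULE, replace the sorries

Everything follows from the approximations `app310 .. appa3` (error `1e-4` each) and
`y ∈ D`, i.e. `x,y ≥ 0`, `z ≥ φ² x + φ y ≥ 2.618 x + 1.618 y`, `x²+y²+z² ≤ 1` (write
`x = y 0` etc.).  Put `g1 = w310.lin`, `g2 = w220.lin`, `g3 = w211.lin`, `ga2`, `ga3`.
* `I1` (`x = 0`): `(g1+g2)/2 - g3 ≈ .0121685 y + .197521 z - .119303 > 0` if `z ≥ .62`; if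
  `z < .62` then `y ≤ z/φ < .384`, `g3 ≤ .192+1.8838-3.1947 < -1`.
* `I2` (`z = φ² x + φ y`): `g3 - g2 ≈ .851511 x + .5 y - .157897 z + .001461
  = .4381 x + .2445 y + .001461 > 0` (use `φ² = φ+1`, `1.61803 < φ < 1.61804`).
* `I3` (`y = 0`): `g2 - g1 ≈ -.079248 z + .235684`, `g2 - ga2 ≈ -1.411167 z + 2.260028`,
  `g2 - ga3 ≈ 3.723468 - 2.412712 z - 1.32492 η ≥ 3.7234 - √(2.412712²+1.32492²) > 0`
  (`z² + η² ≤ 1`).
* `I5`: `1.5 g1 - g3 - .5 ga2 ≈ .775026 - (.851511 x + .387249 y + .428815 z)` and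
  `(.851511,.387249,.428815)·y = -.75 inner (α 2) y + (.244748,.012249,.660578)·y ≤ .7046`
  (Cauchy-Schwarz), so it is `> 0`.
  `1.5 g1 - g3 - .5 ga3 ≈ 1.506747 - (.851511 x + .696744 y + .929587 z + .66246 η)`, the bracket is
  `-.75 inner (α 2) y + (.244748,.321744,1.16135,.66246)·(y,η) ≤ 1.3968`.
  `1.5 g1 - g2 - .5 ga2 ≈ .112752 y - .586712 z + .776488 > 0`.
  `1.5 g1 - g2 - .5 ga3 ≈ 1.508208 - (.196744 y + 1.087484 z + .66246 η) ≥ 1.508208 - 1.2885 > 0`.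
  From `1.5 g1 - gj - .5 ga > 0` and `gj ≥ g1`: `.5 (g1 - ga) > gj - g1 ≥ 0`, so `ga < g1 ≤ gj`.
-/

open Set

namespace Kus64

theorem C2_setup {η : ℝ} {y : E3} (hy : y ∈ D) (hS : OnS η y) :
    0 ≤ y 0 ∧ 0 ≤ y 1 ∧ φ ^ 2 * y 0 + φ * y 1 ≤ y 2 ∧
      η ^ 2 + y 0 ^ 2 + y 1 ^ 2 + y 2 ^ 2 = 1 ∧ ‖y‖ ≤ 1 ∧ |η| ≤ 1 ∧
      2.618 * y 0 + 1.618 * y 1 ≤ y 2 := by
  obtain ⟨h0, h1, h2⟩ := (mem_D_iff y).1 hy
  have hn : ‖y‖ ^ 2 = y 0 ^ 2 + y 1 ^ 2 + y 2 ^ 2 := by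
    rw [EuclideanSpace.norm_sq_eq, Fin.sum_univ_three]
    simp only [Real.norm_eq_abs, sq_abs]
  have hS' : η ^ 2 + ‖y‖ ^ 2 = 1 := hS
  obtain ⟨hφ1, hφ2⟩ := φ_bounds
  have hφ := φ_sq
  refine ⟨h0, h1, h2, by rw [← hS', hn]; ring, ?_, ?_, ?_⟩
  · nlinarith [sq_nonneg η, norm_nonneg y]
  · rw [abs_le]
    constructor <;> nlinarith [sq_nonneg (‖y‖), norm_nonneg y]
  · have e1 : (2.618 : ℝ) * y 0 ≤ φ ^ 2 * y 0 := by
      apply mul_le_mul_of_nonneg_right _ h0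
      rw [hφ]; linarith
    have e2 : (1.618 : ℝ) * y 1 ≤ φ * y 1 := by
      apply mul_le_mul_of_nonneg_right _ h1
      linarith
    linarith

theorem I1 {η : ℝ} {y : E3} (hy : y ∈ D) (hS : OnS η y) (hη : 0 ≤ η) (h : y 0 = 0) :
    w211.lin η y < w310.lin η y ∨ w211.lin η y < w220.lin η y ∨ w211.lin η y < -1 := by
  obtain ⟨h0, h1, -, hs, hn, ha, hz⟩ := C2_setup hy hS
  have a1 := abs_le.1 (app310 (η := η) hn)
  have a2 := abs_le.1 (app220 (η := η) hn)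
  have a3 := abs_le.1 (app211 (η := η) hn)
  by_contra hc
  push Not at hc
  obtain ⟨c1, c2, c3⟩ := hc
  rw [h] at a3 hz
  linarith [a1.1, a2.1, a3.1, a3.2]

theorem I2 {η : ℝ} {y : E3} (hy : y ∈ D) (hS : OnS η y) (hη : 0 ≤ η)
    (h : inner ℝ (α 2) y = 0) : w220.lin η y < w211.lin η y := by
  obtain ⟨h0, h1, -, hs, hn, ha, hz⟩ := C2_setup hy hS
  have a2 := abs_le.1 (app220 (η := η) hn)
  have a3 := abs_le.1 (app211 (η := η) hn)
  obtain ⟨hφ1, hφ2⟩ := φ_bounds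
  have hφ := φ_sq
  rw [inner_α2] at h
  have hz2 : y 2 = φ ^ 2 * y 0 + φ * y 1 := by
    have e : φ * (-φ / 2 * y 0 - 1 / 2 * y 1 + (φ - 1) / 2 * y 2) = 0 := by rw [h, mul_zero]
    have e2 : φ * (φ - 1) = 1 := by nlinarith
    have e3 : φ * (φ - 1) / 2 * y 2 = φ ^ 2 / 2 * y 0 + φ / 2 * y 1 := by linarith
    rw [e2] at e3
    linarith
  have e1 : φ ^ 2 * y 0 ≤ (2.61804 : ℝ) * y 0 := by
    apply mul_le_mul_of_nonneg_right _ h0
    rw [hφ]; linarith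
  have e2 : φ * y 1 ≤ (1.61804 : ℝ) * y 1 := by
    apply mul_le_mul_of_nonneg_right _ h1
    linarith
  linarith [a2.2, a3.1]

theorem I3 {η : ℝ} {y : E3} (hy : y ∈ D) (hS : OnS η y) (hη : 0 ≤ η) (h : y 1 = 0) :
    w310.lin η y < w220.lin η y ∧ wa2.lin η y < w220.lin η y ∧
      wa3.lin η y < w220.lin η y := by
  obtain ⟨h0, h1, -, hs, hn, ha, hz⟩ := C2_setup hy hS
  have a1 := abs_le.1 (app310 (η := η) hn)
  have a2 := abs_le.1 (app220 (η := η) hn)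
  have b2 := abs_le.1 (appa2 (η := η) hn)
  have b3 := abs_le.1 (appa3 ha hn)
  rw [h] at a1 b2 b3 hs
  have hz1 : y 2 ≤ 1 := by nlinarith [sq_nonneg η, sq_nonneg (y 0)]
  refine ⟨by linarith [a1.2, a2.1], by linarith [b2.2, a2.1], ?_⟩
  have hc : 2.412712 * y 2 + 1.32492 * η ≤ 2.76 := by
    nlinarith [sq_nonneg (y 2 - 0.8742), sq_nonneg (η - 0.48), sq_nonneg (y 0)]
  linarith [b3.2, a2.1]

theorem I5_211 {η : ℝ} {y : E3} (hy : y ∈ D) (hS : OnS η y) (hη : 0 ≤ η)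
    (h : w310.lin η y ≤ w211.lin η y) :
    wa2.lin η y < w211.lin η y ∧ wa3.lin η y < w211.lin η y := by
  obtain ⟨h0, h1, -, hs, hn, ha, hz⟩ := C2_setup hy hS
  have a1 := abs_le.1 (app310 (η := η) hn)
  have a3 := abs_le.1 (app211 (η := η) hn)
  have b2 := abs_le.1 (appa2 (η := η) hn)
  have b3 := abs_le.1 (appa3 ha hn)
  constructor
  · have hc : 0.851511 * y 0 + 0.387249 * y 1 + 0.428815 * y 2 ≤ 0.706 := by
      nlinarith [sq_nonneg (y 0 - 0.3476), sq_nonneg (y 1 - 0.0175), sq_nonneg (y 2 - 0.9375),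
        sq_nonneg η]
    linarith [a1.1, a3.2, b2.2]
  · have hc : 0.851511 * y 0 + 0.696744 * y 1 + 0.929587 * y 2 + 0.66246 * η ≤ 1.4 := by
      nlinarith [sq_nonneg (y 0 - 0.1753), sq_nonneg (y 1 - 0.2304), sq_nonneg (y 2 - 0.8314),
        sq_nonneg (η - 0.4743)]
    linarith [a1.1, a3.2, b3.2]

theorem I5_220 {η : ℝ} {y : E3} (hy : y ∈ D) (hS : OnS η y) (hη : 0 ≤ η)
    (h : w310.lin η y ≤ w220.lin η y) :
    wa2.lin η y < w220.lin η y ∧ wa3.lin η y < w220.lin η y := by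
  obtain ⟨h0, h1, -, hs, hn, ha, hz⟩ := C2_setup hy hS
  have a1 := abs_le.1 (app310 (η := η) hn)
  have a2 := abs_le.1 (app220 (η := η) hn)
  have b2 := abs_le.1 (appa2 (η := η) hn)
  have b3 := abs_le.1 (appa3 ha hn)
  have hz1 : y 2 ≤ 1 := by nlinarith [sq_nonneg η, sq_nonneg (y 0), sq_nonneg (y 1)]
  constructor
  · linarith [a1.1, a2.2, b2.2]
  · have hc : 0.196744 * y 1 + 1.087484 * y 2 + 0.66246 * η ≤ 1.3 := by
      nlinarith [sq_nonneg (y 1 - 0.1527), sq_nonneg (y 2 - 0.844), sq_nonneg (η - 0.5141),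
        sq_nonneg (y 0)]
    linarith [a1.1, a2.2, b3.2]

end Kus64
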