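import Pool.Agent.helper64.Kus.C1

/-!
# C3: the five-fold axis and the core cells -- MODULE, replace the sorries

* `I4`.  From `y 0 = 0`, `inner (α 2) y = 0`: `y 2 = φ y 1`, `y = r ξ`, `r = ‖y‖ = √(1-η²)`
  (`y 1 ≥ 0`).  Then `g1 = ys r - t1 ≈ 3.324787 r - 3.431882`, `ga2 ≈ 5.416284 r - 5.456226`,
  `ga3 ≈ 1.32492 η + 6.593673 r - 6.919666` (all errors `≤ 1e-4`).
  (i) `r ≥ .96795`: `ga2 - g1 ≈ 2.091497 r - 2.024344 > 0`.
  (ii) `r ≤ .96795`, i.e. `η ≥ .2511`, and `η ≤ .46`: `f(η) = 1.32492 η + 3.268886 √(1-η²) - 3.487784`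
  is concave, `f(.2511) ≥ .008`, `f(.46) ≥ .024`, so `ga3 > g1` (or: square the inequality
  `3.268886 √(1-η²) > 3.487784 - 1.32492 η + 2e-4` and factor the quadratic).
  (iii) `η ≥ .46`: `-η - g1 ≈ 3.431882 - η - 3.324787 √(1-η²) > 0`: square, or convexity:
  value `≥ .019` and derivative `> 0` at `η = .46`.
* `I6`: `ga3 - ga2 = b3 η + (s3-s2) inner ξ y - (ta3-ta2)`, and `s2 inner ξ y ≥ ta2 - η`,
  so `≥ b3 η + (s3-s2)/s2 (ta2-η) - (ta3-ta2) ≈ 1.107541 η - .277363 > 0` for `η ≥ .35`.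
* `I7`: `ga3 - ga2 ≤ b3 η + (s3-s2) - (ta3-ta2) ≈ 1.32492 η - .286051 < 0` for `η ≤ .2158`
  (`inner ξ y ≤ ‖ξ‖ ‖y‖ ≤ 1`).
-/

open Set

namespace Kus64

theorem C3_norm (y : E3) : ‖y‖ ^ 2 = y 0 ^ 2 + y 1 ^ 2 + y 2 ^ 2 := by
  rw [EuclideanSpace.norm_sq_eq, Fin.sum_univ_three]
  simp only [Real.norm_eq_abs, sq_abs]

theorem C3_le {η : ℝ} {y : E3} (hS : OnS η y) : ‖y‖ ≤ 1 ∧ |η| ≤ 1 := by
  have hS' : η ^ 2 + ‖y‖ ^ 2 = 1 := hS
  refine ⟨?_, ?_⟩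
  · nlinarith [sq_nonneg η, norm_nonneg y]
  · rw [abs_le]
    constructor <;> nlinarith [sq_nonneg (‖y‖), norm_nonneg y]

theorem C3_inner {η : ℝ} {y : E3} (hS : OnS η y) : inner ℝ ξ y ≤ 1 := by
  have h1 := real_inner_le_norm ξ y
  rw [norm_ξ, one_mul] at h1
  exact h1.trans (C3_le hS).1

theorem I4 {η : ℝ} {y : E3} (hy : y ∈ D) (hS : OnS η y) (hη : 0 ≤ η) (h0 : y 0 = 0)
    (h2 : inner ℝ (α 2) y = 0) :
    w310.lin η y < wa2.lin η y ∨ w310.lin η y < wa3.lin η y ∨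
      (0.46 ≤ η ∧ w310.lin η y < -η) := by
  obtain ⟨hn, ha⟩ := C3_le hS
  have a1 := abs_le.1 (app310 (η := η) hn)
  have b2 := abs_le.1 (appa2 (η := η) hn)
  have b3 := abs_le.1 (appa3 ha hn)
  obtain ⟨hφ1, hφ2⟩ := φ_bounds
  have hφ := φ_sq
  obtain ⟨-, hu, -⟩ := (mem_D_iff y).1 hy
  have hv : y 2 = φ * y 1 := by
    rw [inner_α2, h0] at h2
    have e : φ * (-φ / 2 * 0 - 1 / 2 * y 1 + (φ - 1) / 2 * y 2) = 0 := by rw [h2, mul_zero]
    have e2 : φ * (φ - 1) = 1 := by nlinarith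
    have e3 : φ * (φ - 1) / 2 * y 2 = φ / 2 * y 1 := by linarith
    rw [e2] at e3
    linarith
  have hs : η ^ 2 + (φ + 2) * y 1 ^ 2 = 1 := by
    have h3 : η ^ 2 + ‖y‖ ^ 2 = 1 := hS
    rw [C3_norm, h0, hv, mul_pow, hφ] at h3
    linarith
  set u := y 1 with hudef
  have v1 : 1.6180339 * u ≤ y 2 := by
    rw [hv]; apply mul_le_mul_of_nonneg_right _ hu; linarith
  have v2 : y 2 ≤ 1.618034 * u := by
    rw [hv]; apply mul_le_mul_of_nonneg_right _ hu; linarith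
  have s1 : η ^ 2 + 3.6180339 * u ^ 2 ≤ 1 := by
    nlinarith [sq_nonneg u]
  have s2 : 1 ≤ η ^ 2 + 3.618034 * u ^ 2 := by
    nlinarith [sq_nonneg u]
  have hη1 : η ≤ 1 := (abs_le.1 ha).2
  by_contra hc
  push Not at hc
  obtain ⟨c1, c2, c3⟩ := hc
  have d1 : u ≤ 0.50892 := by linarith [a1.2, b2.1]
  have d2 : 6.21778 * u + 1.32492 * η ≤ 3.48801 := by linarith [a1.2, b3.1]
  rcases lt_or_ge η 0.46 with hlt | hge
  · have d3 : 0.25 ≤ η := by nlinarith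
    have d4 : 0 ≤ 6.21778 * u := by linarith
    have d5 : (6.21778 * u) ^ 2 ≤ (3.48801 - 1.32492 * η) ^ 2 :=
      pow_le_pow_left₀ d4 (by linarith) 2
    nlinarith [mul_nonneg (sub_nonneg.2 d3) (sub_nonneg.2 hlt.le)]
  · have d3 := c3 hge
    have d4 : 3.43177 - η ≤ 6.324121 * u := by linarith [a1.2]
    have d5 : (3.43177 - η) ^ 2 ≤ (6.324121 * u) ^ 2 :=
      pow_le_pow_left₀ (by linarith) d4 2
    nlinarith [mul_nonneg (sub_nonneg.2 hge) (sub_nonneg.2 hη1)]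

theorem I6 {η : ℝ} {y : E3} (hS : OnS η y) (hη : 7 / 20 ≤ η) (h : -η ≤ wa2.lin η y) :
    wa2.lin η y < wa3.lin η y := by
  obtain ⟨hn, ha⟩ := C3_le hS
  have hη1 : η ≤ 1 := (abs_le.1 ha).2
  rw [lina2] at h ⊢
  rw [lina3]
  have e1 := abs_le.1 enc_s2
  have e2 := abs_le.1 enc_s3
  have e3 := abs_le.1 enc_ta2
  have e4 := abs_le.1 enc_ta3
  have e5 := abs_le.1 enc_b3
  set I := inner ℝ ξ y with hI
  have h1 : 0 < s2 * I := by linarith [e3.1]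
  have hs2 : 0 < s2 := by linarith [e1.1]
  have hI0 : 0 < I := by
    by_contra hcon
    have := mul_nonpos_of_nonneg_of_nonpos hs2.le (not_lt.1 hcon)
    linarith
  have h2 : 5.4562155 - η ≤ 5.4162940 * I := by
    have h3 : s2 * I ≤ 5.4162940 * I := mul_le_mul_of_nonneg_right (by linarith [e1.2]) hI0.le
    linarith [e3.1]
  have h4 : 1.177368 * I ≤ (s3 - s2) * I :=
    mul_le_mul_of_nonneg_right (by linarith [e1.2, e2.1]) hI0.le
  have h5 : 1.3249 * η ≤ b3 * η :=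
    mul_le_mul_of_nonneg_right (by linarith [e5.1]) (by linarith)
  have h6 : (s3 - s2) * I = s3 * I - s2 * I := by ring
  linarith [e3.1, e4.2]

theorem I7 {η : ℝ} {y : E3} (hS : OnS η y) (hη : 0 ≤ η) (hη' : η ≤ 0.2158) :
    wa3.lin η y < wa2.lin η y := by
  have hI1 := C3_inner hS
  rw [lina2, lina3]
  have e1 := abs_le.1 enc_s2
  have e2 := abs_le.1 enc_s3
  have e3 := abs_le.1 enc_ta2
  have e4 := abs_le.1 enc_ta3
  have e5 := abs_le.1 enc_b3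
  set I := inner ℝ ξ y with hI
  have h4 : (s3 - s2) * I ≤ (s3 - s2) * 1 :=
    mul_le_mul_of_nonneg_left hI1 (by linarith [e1.2, e2.1])
  have h5 : b3 * η ≤ 1.3249297 * 0.2158 :=
    mul_le_mul (by linarith [e5.2]) hη' hη (by norm_num)
  have h6 : (s3 - s2) * I = s3 * I - s2 * I := by ring
  linarith [e3.2, e4.1, e1.1, e2.2]

/-- `I7` for every `y` and every copy of `a3` with `inner ξ' y ≤ inner ξ y`. -/
theorem I7' {η : ℝ} {y ξ' : E3} (hS : OnS η y) (hη : 0 ≤ η) (hη' : η ≤ 0.2158)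
    (h : inner ℝ ξ' y ≤ inner ℝ ξ y) :
    b3 * η + s3 * inner ℝ ξ' y - ta3 < wa2.lin η y := by
  have h1 := I7 hS hη hη'
  rw [lina3] at h1
  have e2 := abs_le.1 enc_s3
  have h2 : s3 * inner ℝ ξ' y ≤ s3 * inner ℝ ξ y :=
    mul_le_mul_of_nonneg_left h (by linarith [e2.1])
  linarith

end Kus64
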