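import Pool.Agent.helper64.Kus.C1

/-!
# C4: the covering inequality -- MODULE, replace the sorries

`cover_D`: `y ∈ D`, `1-κ² ≤ ‖y‖² ≤ 1`, `κ ∈ {29/100, 7/20}`: one of the three column functions is
`> -κ`.  Suppose all three are `≤ -κ`.  Write `v1 = w310.v`, `v2 = w220.v`, `v3 = w211.v`,
`v1' = s 2 v1`, `v3' = s 1 v3`, `v3'' = s 2 (s 1 v3)`; as `y ∈ D`, `inner v1' y ≤ inner v1 y` and
`inner v3'' y, inner v3' y ≤ inner v3 y` (reflection formula; for `v3''`: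
`inner (s 2 (s 1 v3)) y = inner (s 1 v3) y - 2 inner (α 2) (s 1 v3) inner (α 2) y`,
`inner (α 2) (s 1 v3) = 1/2 ≥ 0`), so the copies are `≤ -κ` too.

TRIPLE LEMMA.  `p1,p2,p3` with `‖pi‖ = τi ∈ [3.19, 3.44]`, `inner pi pj = τi τj - 1/2` (`i ≠ j`;
from `q = 1`), `y = Σ ai pi`, `ai ≥ 0`, `inner pi y - τi ≤ -κ`.  Put `S = Σ ai`, `τ = Σ ai τi`,
`Y = ‖y‖²`.  Then `Y = Σ ai inner pi y ≤ τ - κ S` and
`Y = τ² - (a1a2+a1a3+a2a3) ≥ τ² - S²/3`.  So `Y+κS ≤ τ ≤ 3.44 S`, `(Y+κS)² ≤ τ² ≤ Y + S²/3`,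
`3.19² S² ≤ τ² ≤ Y+S²/3` gives `S ≤ .32`, and `S ≥ Y/(3.44-κ)`.  With `Y ∈ [1-κ²,1]`:
`Y² - Y + 2κSY - (1/3-κ²)S² > 0` (for `κ=.35`: `≥ -.1075+.174-.0216`; for `κ=.29`:
`≥ -.0771+.154-.026`), contradiction.

DECOMPOSITION of `D` (`x,y,z` coordinates of `y`; `m = v3+v3' = (2x3,0,2z3)`,
`m' = v1+v1' = (φ/2, 2y1+1/2, 2z1-(φ-1)/2)`, `v3+v3'+v3'' = (3x3+φ/2) • ax3`):
Case 1: `y ≤ x/(2x3)`.
 1a `z ≥ x z3/x3`: `y = β v2 + γ v3 + μ m`, `γ = 2y`, `μ = (x/x3-2y)/2`, `β = (z - x z3/x3)/t2`;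
    triple `(v2, v3, v3')`.
 1b `z ≤ x z3/x3`: `y = γ v3 + μ m + λ ax3`, `γ = 2y`, `λ = (2/φ)(x z3 - z x3) ≥ 0`,
    `2 μ x3 = x - 2 y x3 - λ ≥ 0` because `z ≥ φ²x+φy` and `z3 = φ²x3+φ/2`; triple `(v3,v3',v3'')`.
Case 2: `y ≥ x/(2x3)`; `γ' = x/x3`, `α' = (y - x/(2x3))/y1 ≥ 0`, `β' = (z - α' z1 - γ' z3)/t2`.
 2a `β' ≥ 0`: `y = α' v1 + β' v2 + γ' v3`; triple `(v1,v2,v3)`.
 2b `β' < 0`: put `a = 2 inner (α 2) y ≥ 0`.  Since `inner (α 2) v1 = 1/2`,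
    `inner (α 2) v2 = t2 (φ-1)/2`, `inner (α 2) v3 = 0`: `a = α' + β' t2 (φ-1) < α'`.
    Put `w = y - a y1 ≥ x/(2x3)`.  Let `Δ = x3 (2y1+1/2) - φ/4 > 0`,
    `μ = (x3 w - x/2)/Δ ≥ 0`, `γ = (x (2y1+1/2) - (φ/2) w)/Δ`; then
    `y = a v1 + μ m' + γ v3` (check the first two coordinates and `inner (α 2)`).
    If `γ ≥ 0`: triple `(v1,v1',v3)`.
    If `γ < 0`: `y = λ ax5 + a v1 + μ' m'` with `μ' = 2x/φ ≥ 0`, `λ = w - μ' (2y1+1/2) ≥ 0`.
    Then `inner v1 y ≥ ys ‖y‖`, because `inner v1 ax5 = ys ‖ax5‖`, `inner v1 v1 = t1² ≥ ys ‖v1‖`,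
    `inner v1 m' = 2t1²-1/2 ≥ ys ‖m'‖` (`‖m'‖ = √(4t1²-1) ≤ 2 t1`, `t1 - 1/(4t1) > ys`), triangle
    inequality.  So `w310.lin ≥ ys √(1-κ²) - t1 > -κ` (numbers: `3.1145+.35 > 3.4319`,
    `3.1819+.29 > 3.4319`), contradiction.
-/

open Set

namespace Kus64

private theorem triple_ineq {κ Y S τ P : ℝ} (hκ : κ = 29 / 100 ∨ κ = 7 / 20) (hP : 3 * P ≤ S ^ 2)
    (hS0 : 0 ≤ S) (h1 : 3.19 * S ≤ τ) (h2 : τ ≤ 3.44 * S) (hY1 : 1 - κ ^ 2 ≤ Y) (hY2 : Y ≤ 1)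
    (e1 : Y ≤ τ - κ * S) (e2 : Y = τ ^ 2 - P) : False := by
  have hτ2 : (3.19 * S) ^ 2 ≤ τ ^ 2 := pow_le_pow_left₀ (by positivity) h1 2
  have hS2 : S ^ 2 ≤ 0.1024 := by nlinarith
  rcases hκ with rfl | rfl
  · have hY : 0.9159 ≤ Y := by norm_num at hY1 ⊢; linarith
    have hSl : Y ≤ 3.15 * S := by linarith
    have h3 : (Y + 29 / 100 * S) ^ 2 ≤ τ ^ 2 := pow_le_pow_left₀ (by nlinarith) (by linarith) 2
    have h4 : Y * Y ≤ Y * (3.15 * S) := mul_le_mul_of_nonneg_left hSl (by linarith)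
    nlinarith [mul_nonneg (sub_nonneg.2 hY) (sub_nonneg.2 hY)]
  · have hY : 0.8775 ≤ Y := by norm_num at hY1 ⊢; linarith
    have hSl : Y ≤ 3.09 * S := by linarith
    have h3 : (Y + 7 / 20 * S) ^ 2 ≤ τ ^ 2 := pow_le_pow_left₀ (by nlinarith) (by linarith) 2
    have h4 : Y * Y ≤ Y * (3.09 * S) := mul_le_mul_of_nonneg_left hSl (by linarith)
    nlinarith [mul_nonneg (sub_nonneg.2 hY) (sub_nonneg.2 hY)]

private theorem triple_real {x y z p0 p1 p2 q0 q1 q2 r0 r1 r2 τ1 τ2 τ3 a1 a2 a3 κ : ℝ}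
    (hκ : κ = 29 / 100 ∨ κ = 7 / 20)
    (hp : p0 ^ 2 + p1 ^ 2 + p2 ^ 2 = τ1 ^ 2) (hq : q0 ^ 2 + q1 ^ 2 + q2 ^ 2 = τ2 ^ 2)
    (hr : r0 ^ 2 + r1 ^ 2 + r2 ^ 2 = τ3 ^ 2)
    (hpq : p0 * q0 + p1 * q1 + p2 * q2 = τ1 * τ2 - 1 / 2)
    (hpr : p0 * r0 + p1 * r1 + p2 * r2 = τ1 * τ3 - 1 / 2)
    (hqr : q0 * r0 + q1 * r1 + q2 * r2 = τ2 * τ3 - 1 / 2)
    (hx : x = a1 * p0 + a2 * q0 + a3 * r0) (hy : y = a1 * p1 + a2 * q1 + a3 * r1)
    (hz : z = a1 * p2 + a2 * q2 + a3 * r2)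
    (ha1 : 0 ≤ a1) (ha2 : 0 ≤ a2) (ha3 : 0 ≤ a3)
    (b1 : 3.19 ≤ τ1 ∧ τ1 ≤ 3.44) (b2 : 3.19 ≤ τ2 ∧ τ2 ≤ 3.44) (b3 : 3.19 ≤ τ3 ∧ τ3 ≤ 3.44)
    (m1 : p0 * x + p1 * y + p2 * z ≤ τ1 - κ) (m2 : q0 * x + q1 * y + q2 * z ≤ τ2 - κ)
    (m3 : r0 * x + r1 * y + r2 * z ≤ τ3 - κ)
    (hY1 : 1 - κ ^ 2 ≤ x ^ 2 + y ^ 2 + z ^ 2) (hY2 : x ^ 2 + y ^ 2 + z ^ 2 ≤ 1) : False := by
  have e1 : x ^ 2 + y ^ 2 + z ^ 2 = a1 * (p0 * x + p1 * y + p2 * z) +
      a2 * (q0 * x + q1 * y + q2 * z) + a3 * (r0 * x + r1 * y + r2 * z) := by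
    linear_combination x * hx + y * hy + z * hz
  have e2 : x ^ 2 + y ^ 2 + z ^ 2 = (a1 * τ1 + a2 * τ2 + a3 * τ3) ^ 2 -
      (a1 * a2 + a1 * a3 + a2 * a3) := by
    rw [hx, hy, hz]
    linear_combination a1 ^ 2 * hp + a2 ^ 2 * hq + a3 ^ 2 * hr + 2 * a1 * a2 * hpq +
      2 * a1 * a3 * hpr + 2 * a2 * a3 * hqr
  refine triple_ineq (Y := x ^ 2 + y ^ 2 + z ^ 2) (S := a1 + a2 + a3)
    (τ := a1 * τ1 + a2 * τ2 + a3 * τ3) (P := a1 * a2 + a1 * a3 + a2 * a3) hκ ?_ ?_ ?_ ?_ hY1 hY2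
    ?_ e2
  · nlinarith [sq_nonneg (a1 - a2), sq_nonneg (a1 - a3), sq_nonneg (a2 - a3)]
  · positivity
  · nlinarith [mul_le_mul_of_nonneg_left b1.1 ha1, mul_le_mul_of_nonneg_left b2.1 ha2,
      mul_le_mul_of_nonneg_left b3.1 ha3]
  · nlinarith [mul_le_mul_of_nonneg_left b1.2 ha1, mul_le_mul_of_nonneg_left b2.2 ha2,
      mul_le_mul_of_nonneg_left b3.2 ha3]
  · have k1 := mul_le_mul_of_nonneg_left m1 ha1
    have k2 := mul_le_mul_of_nonneg_left m2 ha2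
    have k3 := mul_le_mul_of_nonneg_left m3 ha3
    rw [e1]
    linarith

/-- the last case: the point lies in the cone of the five-fold axis, `v1` and `m'` -/
private theorem last_case {a c p N t x y z κ l A μ Ys : ℝ} (hκ : κ = 29 / 100 ∨ κ = 7 / 20)
    (hp : p ^ 2 = p + 1) (hc : c = p * (a + 1)) (ht : a ^ 2 + c ^ 2 = t ^ 2)
    (hYs : Ys ^ 2 * (1 + p ^ 2) = (a + p * c) ^ 2)
    (ha0 : 0 ≤ a) (hc0 : 0 ≤ c) (hp0 : 0 ≤ p)
    (bt : 3.4318 ≤ t ∧ t ≤ 3.4319) (bY : 3.3247 ≤ Ys ∧ Ys ≤ 3.3248)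
    (hl : 0 ≤ l) (hA : 0 ≤ A) (hμ : 0 ≤ μ)
    (hx : x = μ * (p / 2)) (hy : y = l + A * a + μ * (2 * a + 1 / 2))
    (hz : z = l * p + A * c + μ * (2 * c - (p - 1) / 2))
    (hN : N = x ^ 2 + y ^ 2 + z ^ 2) (hY1 : 1 - κ ^ 2 ≤ N)
    (m1 : a * y + c * z ≤ t - κ) : False := by
  have hs : 0 ≤ a + p * c := by positivity
  -- value of the linear function
  have e1 : a * y + c * z = l * (a + p * c) + A * t ^ 2 + μ * (2 * t ^ 2 - 1 / 2) := by
    have h1 : a * (1 / 2) - c * ((p - 1) / 2) = -(1 / 2) := by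
      rw [hc]; linear_combination (-(a + 1) / 2) * hp
    rw [hy, hz]
    linear_combination (A + 2 * μ) * ht + μ * h1
  have e2 : N = l ^ 2 * (1 + p ^ 2) + A ^ 2 * t ^ 2 + μ ^ 2 * (4 * t ^ 2 - 1) +
      2 * l * A * (a + p * c) + 4 * l * μ * (a + p * c) + 2 * A * μ * (2 * t ^ 2 - 1 / 2) := by
    have h1 : a * (1 / 2) - c * ((p - 1) / 2) = -(1 / 2) := by
      rw [hc]; linear_combination (-(a + 1) / 2) * hp
    rw [hN, hx, hy, hz]
    linear_combination (A ^ 2 + 4 * μ ^ 2 + 4 * A * μ) * ht + (4 * μ ^ 2 + 2 * A * μ) * h1 +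
      (μ ^ 2 / 2 - l * μ) * hp
  have ht2 : 11.777 ≤ t ^ 2 ∧ t ^ 2 ≤ 11.778 := by constructor <;> nlinarith
  have hY2 : 11.0536 ≤ Ys ^ 2 ∧ Ys ^ 2 ≤ 11.0543 := by constructor <;> nlinarith
  have key : Ys ^ 2 * N ≤ (a * y + c * z) ^ 2 := by
    rw [e1, e2]
    have k0 : (l * (a + p * c) + A * t ^ 2 + μ * (2 * t ^ 2 - 1 / 2)) ^ 2 -
        Ys ^ 2 * (l ^ 2 * (1 + p ^ 2) + A ^ 2 * t ^ 2 + μ ^ 2 * (4 * t ^ 2 - 1) +
        2 * l * A * (a + p * c) + 4 * l * μ * (a + p * c) + 2 * A * μ * (2 * t ^ 2 - 1 / 2)) =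
        A ^ 2 * (t ^ 2 * (t ^ 2 - Ys ^ 2)) +
        μ ^ 2 * ((2 * t ^ 2 - 1 / 2) ^ 2 - Ys ^ 2 * (4 * t ^ 2 - 1)) +
        l * A * (2 * (a + p * c) * (t ^ 2 - Ys ^ 2)) +
        l * μ * (2 * (a + p * c) * (2 * t ^ 2 - 1 / 2 - 2 * Ys ^ 2)) +
        A * μ * (2 * (2 * t ^ 2 - 1 / 2) * (t ^ 2 - Ys ^ 2)) := by
      linear_combination (-l ^ 2) * hYs
    have c1 : 0 ≤ t ^ 2 - Ys ^ 2 := by linarith [ht2.1, hY2.2]
    have c2 : 0 ≤ (2 * t ^ 2 - 1 / 2) ^ 2 - Ys ^ 2 * (4 * t ^ 2 - 1) := by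
      nlinarith [ht2.1, ht2.2, hY2.2, hY2.1]
    have c3 : 0 ≤ 2 * t ^ 2 - 1 / 2 - 2 * Ys ^ 2 := by linarith [ht2.1, hY2.2]
    have c4 : 0 ≤ 2 * t ^ 2 - 1 / 2 := by linarith [ht2.1]
    have d1 : 0 ≤ A ^ 2 * (t ^ 2 * (t ^ 2 - Ys ^ 2)) := by positivity
    have d2 : 0 ≤ μ ^ 2 * ((2 * t ^ 2 - 1 / 2) ^ 2 - Ys ^ 2 * (4 * t ^ 2 - 1)) := by positivity
    have d3 : 0 ≤ l * A * (2 * (a + p * c) * (t ^ 2 - Ys ^ 2)) := by positivity
    have d4 : 0 ≤ l * μ * (2 * (a + p * c) * (2 * t ^ 2 - 1 / 2 - 2 * Ys ^ 2)) := by positivity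
    have d5 : 0 ≤ A * μ * (2 * (2 * t ^ 2 - 1 / 2) * (t ^ 2 - Ys ^ 2)) := by positivity
    linarith
  have hm0 : 0 ≤ a * y + c * z := by
    rw [e1]
    have c4 : 0 ≤ 2 * t ^ 2 - 1 / 2 := by linarith [ht2.1]
    positivity
  have k1 : (a * y + c * z) ^ 2 ≤ (t - κ) ^ 2 := pow_le_pow_left₀ hm0 m1 2
  have k2 : Ys ^ 2 * (1 - κ ^ 2) ≤ Ys ^ 2 * N := mul_le_mul_of_nonneg_left hY1 (sq_nonneg _)
  rcases hκ with rfl | rfl
  · have k3 : (t - 29 / 100) ^ 2 ≤ 9.88 := by nlinarith [bt.1, bt.2]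
    have k4 : 10 ≤ Ys ^ 2 * (1 - (29 / 100) ^ 2) := by
      norm_num; linarith [hY2.1]
    linarith
  · have k3 : (t - 7 / 20) ^ 2 ≤ 9.5 := by nlinarith [bt.1, bt.2]
    have k4 : 9.6 ≤ Ys ^ 2 * (1 - (7 / 20) ^ 2) := by
      norm_num; linarith [hY2.1]
    linarith

private theorem cover_real {x y z κ : ℝ} (hκ : κ = 29 / 100 ∨ κ = 7 / 20) (hx : 0 ≤ x) (hy : 0 ≤ y)
    (hz : φ ^ 2 * x + φ * y ≤ z)
    (hY1 : 1 - κ ^ 2 ≤ x ^ 2 + y ^ 2 + z ^ 2) (hY2 : x ^ 2 + y ^ 2 + z ^ 2 ≤ 1)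
    (l1 : y1 * y + z1 * z - t1 ≤ -κ) (l2 : t2 * z - t2 ≤ -κ)
    (l3 : x3 * x + 1 / 2 * y + z3 * z - t3 ≤ -κ) : False := by
  have hφ := φ_sq
  obtain ⟨φl, φu⟩ := φ_bounds
  have hφ0 : 0 < φ := by linarith
  have bx3 := abs_le.1 enc_x3
  have by1 := abs_le.1 enc_y1
  have bz1 := abs_le.1 enc_z1
  have bt1 := abs_le.1 enc_t1
  have bt2 := abs_le.1 enc_t2
  have bz3 := abs_le.1 enc_z3
  have bt3 := abs_le.1 enc_t3
  have bys := abs_le.1 enc_ys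
  have hX : 0 < x3 := by linarith [bx3.1]
  have hA : 0 < y1 := by linarith [by1.1]
  have hT2 : 0 < t2 := by linarith [bt2.1]
  have hZ3 : 0 < z3 := by linarith [bz3.1]
  have hZ1 : 0 < z1 := by linarith [bz1.1]
  have R1 := null310
  have R3 := null211
  have dz1 : z1 = φ * (y1 + 1) := rfl
  have dz3 : z3 = φ ^ 2 * x3 + φ / 2 := rfl
  have dt1 : t1 = z1 + δ := rfl
  have dt3 : t3 = z3 + δ := rfl
  have hδ := δ_pos
  have R2 : 2 * t2 * δ = 1 := by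
    rw [show t2 = 1 / (2 * δ) from rfl]; field_simp
  have R12 : z1 * t2 = t1 * t2 - 1 / 2 := by rw [dt1]; linear_combination (-(1 : ℝ) / 2) * R2
  have R23 : z3 * t2 = t3 * t2 - 1 / 2 := by rw [dt3]; linear_combination (-(1 : ℝ) / 2) * R2
  have R13 : 1 / 2 * y1 + z1 * z3 = t1 * t3 - 1 / 2 := by
    have h := q_310_211
    unfold Site.q w310 w211 at h
    simp only [EuclideanSpace.norm_sq_eq, Fin.sum_univ_three, PiLp.sub_apply, Real.norm_eq_abs,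
      sq_abs] at h
    simp at h
    linear_combination (-1 / 2 : ℝ) * h + (1 / 2 : ℝ) * R1 + (1 / 2 : ℝ) * R3
  -- inner products with `α 2`
  have i1 : -φ / 2 * 0 - 1 / 2 * y1 + (φ - 1) / 2 * z1 = 1 / 2 := by
    rw [dz1]; linear_combination ((y1 + 1) / 2) * hφ
  have i3 : -φ / 2 * x3 - 1 / 2 * (1 / 2) + (φ - 1) / 2 * z3 = 0 := by
    rw [dz3]; linear_combination (x3 * φ / 2 + 1 / 4) * hφ
  have hα : 0 ≤ -φ / 2 * x - 1 / 2 * y + (φ - 1) / 2 * z := by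
    have h1 : (φ - 1) / 2 * (φ ^ 2 * x + φ * y) ≤ (φ - 1) / 2 * z :=
      mul_le_mul_of_nonneg_left hz (by linarith)
    have h2 : (φ - 1) / 2 * (φ ^ 2 * x + φ * y) = φ / 2 * x + 1 / 2 * y := by
      linear_combination (x * φ / 2 + y / 2) * hφ
    linarith
  have B1 : (3.19 : ℝ) ≤ t1 ∧ t1 ≤ 3.44 := ⟨by linarith [bt1.1], by linarith [bt1.2]⟩
  have B2 : (3.19 : ℝ) ≤ t2 ∧ t2 ≤ 3.44 := ⟨by linarith [bt2.1], by linarith [bt2.2]⟩
  have B3 : (3.19 : ℝ) ≤ t3 ∧ t3 ≤ 3.44 := ⟨by linarith [bt3.1], by linarith [bt3.2]⟩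
  rcases le_total y (x / (2 * x3)) with hc | hc
  · have hc' : 2 * y * x3 ≤ x := by
      rw [le_div_iff₀ (by positivity)] at hc; linarith
    rcases le_total (x * z3 / x3) z with hd | hd
    · -- case 1a : v2, v3, v3'
      refine triple_real (x := x) (y := y) (z := z) (p0 := 0) (p1 := 0) (p2 := t2) (q0 := x3)
        (q1 := 1 / 2) (q2 := z3) (r0 := x3) (r1 := -1 / 2) (r2 := z3) (τ1 := t2) (τ2 := t3)
        (τ3 := t3) (a1 := (z - x * z3 / x3) / t2) (a2 := 2 * y + (x / x3 - 2 * y) / 2)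
        (a3 := (x / x3 - 2 * y) / 2) hκ (by ring) R3 (by linear_combination R3)
        (by linear_combination R23) (by linear_combination R23) (by linear_combination R3)
        ?_ ?_ ?_ ?_ ?_ ?_ B2 B3 B3 (by linarith) (by linarith) (by linarith) hY1 hY2
      · field_simp; ring
      · field_simp; ring
      · field_simp; ring
      · exact div_nonneg (by linarith) hT2.le
      · have : 0 ≤ x / x3 - 2 * y := by
          rw [sub_nonneg, le_div_iff₀ hX]; exact hc'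
        linarith
      · have : 0 ≤ x / x3 - 2 * y := by
          rw [sub_nonneg, le_div_iff₀ hX]; exact hc'
        linarith
    · -- case 1b : v3, v3', v3''
      have hd' : z * x3 ≤ x * z3 := by
        rw [le_div_iff₀ hX] at hd; exact hd
      set l : ℝ := 2 / φ * (x * z3 - z * x3) with hl
      have hl0 : 0 ≤ l := mul_nonneg (by positivity) (by linarith)
      have hlφ : l * φ = 2 * (x * z3 - z * x3) := by rw [hl]; field_simp
      have hμ0 : 0 ≤ x - 2 * y * x3 - l := by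
        have h1 : x3 * (φ ^ 2 * x + φ * y) ≤ x3 * z := mul_le_mul_of_nonneg_left hz hX.le
        have h2 : l * φ ≤ (x - 2 * y * x3) * φ := by
          rw [hlφ, dz3]; nlinarith
        have := le_of_mul_le_mul_right h2 hφ0
        linarith
      set μ : ℝ := (x - 2 * y * x3 - l) / (2 * x3) with hμ
      have hμ0' : 0 ≤ μ := div_nonneg hμ0 (by positivity)
      have hμx : μ * (2 * x3) = x - 2 * y * x3 - l := by rw [hμ]; field_simp
      set K : ℝ := 3 * x3 + φ / 2 with hK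
      have hK0 : 0 < K := by positivity
      set ρ : ℝ := l / K with hρ
      have hρ0 : 0 ≤ ρ := div_nonneg hl0 hK0.le
      have hρK : ρ * K = l := by rw [hρ]; field_simp
      refine triple_real (x := x) (y := y) (z := z) (p0 := x3) (p1 := 1 / 2) (p2 := z3)
        (q0 := x3) (q1 := -1 / 2) (q2 := z3) (r0 := x3 + φ / 2) (r1 := 0)
        (r2 := z3 - (φ - 1) / 2) (τ1 := t3) (τ2 := t3) (τ3 := t3) (a1 := 2 * y + μ + ρ)
        (a2 := μ + ρ) (a3 := ρ) hκ R3 (by linear_combination R3) ?_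
        (by linear_combination R3) ?_ ?_ ?_ (by ring) ?_ (by positivity) (by positivity) hρ0
        B3 B3 B3 (by linarith) (by linarith) ?_ hY1 hY2
      · linear_combination R3 - 2 * i3 + (1 / 2 : ℝ) * hφ
      · linear_combination R3 - i3
      · linear_combination R3 - i3
      · have : ρ * (3 * x3 + φ / 2) = l := hρK
        linear_combination (-1 : ℝ) * hμx - this
      · have h1 : ρ * (3 * x3 + φ / 2) = l := hρK
        have h2 : z * x3 = (2 * y + 2 * μ) * z3 * x3 + l * φ ^ 2 * x3 := by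
          have e : (2 * y + 2 * μ) * x3 = x - l := by linarith
          have e2 : (2 * y + 2 * μ) * z3 * x3 = (x - l) * z3 := by
            rw [← e]; ring
          rw [e2, dz3]
          rw [dz3] at hlφ
          linear_combination (1 / 2 : ℝ) * hlφ
        have h3 : z = (2 * y + 2 * μ) * z3 + l * φ ^ 2 := by
          have : z * x3 = ((2 * y + 2 * μ) * z3 + l * φ ^ 2) * x3 := by rw [h2]; ring
          exact mul_right_cancel₀ hX.ne' this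
        have h4 : ρ * (3 * z3 - (φ - 1) / 2) = l * φ ^ 2 := by
          rw [← h1, dz3]
          linear_combination (-ρ * (φ / 2 + 1 / 2)) * hφ
        rw [h3]
        linear_combination (-1 : ℝ) * h4
      · have : (x3 + φ / 2) * x + 0 * y + (z3 - (φ - 1) / 2) * z =
          (x3 * x + 1 / 2 * y + z3 * z) - y - (-φ / 2 * x - 1 / 2 * y + (φ - 1) / 2 * z) := by ring
        rw [this]; linarith
  · have hc' : x ≤ 2 * y * x3 := by
      rw [div_le_iff₀ (by positivity)] at hc; linarith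
    set α' : ℝ := (y - x / (2 * x3)) / y1 with hα'
    have hα0 : 0 ≤ α' := div_nonneg (by linarith) hA.le
    have hαy : α' * y1 = y - x / (2 * x3) := by rw [hα']; field_simp
    set γ' : ℝ := x / x3 with hγ'
    have hγ0 : 0 ≤ γ' := div_nonneg hx hX.le
    have hγx : γ' * x3 = x := by rw [hγ']; field_simp
    have hγ2 : x / (2 * x3) = γ' / 2 := by rw [hγ']; field_simp
    rw [hγ2] at hαy
    set β' : ℝ := (z - α' * z1 - γ' * z3) / t2 with hβ'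
    have hβt : β' * t2 = z - α' * z1 - γ' * z3 := by rw [hβ']; field_simp
    rcases le_total 0 β' with hb | hb
    · -- case 2a : v1, v2, v3
      refine triple_real (x := x) (y := y) (z := z) (p0 := 0) (p1 := y1) (p2 := z1) (q0 := 0)
        (q1 := 0) (q2 := t2) (r0 := x3) (r1 := 1 / 2) (r2 := z3) (τ1 := t1) (τ2 := t2)
        (τ3 := t3) (a1 := α') (a2 := β') (a3 := γ') hκ (by linear_combination R1) (by ring) R3
        (by linear_combination R12) (by linear_combination R13) (by linear_combination R23)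
        ?_ ?_ ?_ hα0 hb hγ0 B1 B2 B3 (by linarith) (by linarith) (by linarith) hY1 hY2
      · linear_combination (-1 : ℝ) * hγx
      · linear_combination (-1 : ℝ) * hαy
      · linear_combination (-1 : ℝ) * hβt
    · set A : ℝ := 2 * (-φ / 2 * x - 1 / 2 * y + (φ - 1) / 2 * z) with hAdef
      have hA0 : 0 ≤ A := by linarith
      have hAle : A ≤ α' := by
        have h1 : A = α' + β' * t2 * (φ - 1) := by
          rw [hβt, hAdef]
          linear_combination (2 * α') * i1 + (2 * γ') * i3 + φ * hγx + hαy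
        have h2 : β' * t2 * (φ - 1) ≤ 0 :=
          mul_nonpos_of_nonpos_of_nonneg (mul_nonpos_of_nonpos_of_nonneg hb hT2.le) (by linarith)
        linarith
      set w : ℝ := y - A * y1 with hw
      have hw0 : γ' / 2 ≤ w := by
        have : A * y1 ≤ α' * y1 := mul_le_mul_of_nonneg_right hAle hA.le
        linarith
      have hwX : x / 2 ≤ x3 * w := by
        have : x3 * (γ' / 2) ≤ x3 * w := mul_le_mul_of_nonneg_left hw0 hX.le
        linarith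
      have hα2z : (φ - 1) / 2 * z = A / 2 + φ / 2 * x + 1 / 2 * y := by rw [hAdef]; ring
      have hφ1 : (φ - 1) / 2 ≠ 0 := by
        have : 0 < (φ - 1) / 2 := by linarith
        exact this.ne'
      set Δ : ℝ := x3 * (2 * y1 + 1 / 2) - φ / 4 with hΔ
      have hΔ0 : 0 < Δ := by
        have h1 : 0.85 * 2.5 ≤ x3 * (2 * y1 + 1 / 2) :=
          mul_le_mul (by linarith [bx3.1]) (by linarith [by1.1]) (by norm_num) hX.le
        rw [hΔ]; linarith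
      set μ : ℝ := (x3 * w - x / 2) / Δ with hμ
      have hμ0 : 0 ≤ μ := div_nonneg (by linarith) hΔ0.le
      have hμΔ : μ * Δ = x3 * w - x / 2 := by rw [hμ]; field_simp
      set γ : ℝ := (x * (2 * y1 + 1 / 2) - φ / 2 * w) / Δ with hγ
      have hγΔ : γ * Δ = x * (2 * y1 + 1 / 2) - φ / 2 * w := by rw [hγ]; field_simp
      rcases le_total 0 γ with hg | hg
      · -- v1, v1', v3
        have ex : x = μ * (φ / 2) + γ * x3 := by
          have : x * Δ = (μ * (φ / 2) + γ * x3) * Δ := by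
            have : (μ * (φ / 2) + γ * x3) * Δ = (μ * Δ) * (φ / 2) + (γ * Δ) * x3 := by ring
            rw [this, hμΔ, hγΔ, hΔ]; ring
          exact mul_right_cancel₀ hΔ0.ne' this
        have ey : y = A * y1 + μ * (2 * y1 + 1 / 2) + γ * (1 / 2) := by
          have : w * Δ = (μ * (2 * y1 + 1 / 2) + γ * (1 / 2)) * Δ := by
            have : (μ * (2 * y1 + 1 / 2) + γ * (1 / 2)) * Δ =
              (μ * Δ) * (2 * y1 + 1 / 2) + (γ * Δ) * (1 / 2) := by ring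
            rw [this, hμΔ, hγΔ, hΔ]; ring
          have := mul_right_cancel₀ hΔ0.ne' this
          rw [hw] at this; linarith
        have ez : z = A * z1 + μ * (2 * z1 - (φ - 1) / 2) + γ * z3 := by
          apply mul_left_cancel₀ hφ1
          rw [hα2z]
          linear_combination (-(A + 2 * μ)) * i1 - γ * i3 + (φ / 2) * ex + (1 / 2 : ℝ) * ey +
            (μ / 2) * hφ
        refine triple_real (x := x) (y := y) (z := z) (p0 := 0) (p1 := y1) (p2 := z1)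
          (q0 := φ / 2) (q1 := y1 + 1 / 2) (q2 := z1 - (φ - 1) / 2) (r0 := x3) (r1 := 1 / 2)
          (r2 := z3) (τ1 := t1) (τ2 := t1) (τ3 := t3) (a1 := A + μ) (a2 := μ) (a3 := γ) hκ
          (by linear_combination R1) ?_ R3 ?_ (by linear_combination R13) ?_ ?_ ?_ ?_
          (by positivity) hμ0 hg B1 B1 B3 (by linarith) ?_ (by linarith) hY1 hY2
        · linear_combination R1 - 2 * i1 + (1 / 2 : ℝ) * hφ
        · linear_combination R1 - i1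
        · linear_combination R13 - i3
        · linear_combination ex
        · linear_combination ey
        · linear_combination ez
        · have : φ / 2 * x + (y1 + 1 / 2) * y + (z1 - (φ - 1) / 2) * z =
            (y1 * y + z1 * z) - (-φ / 2 * x - 1 / 2 * y + (φ - 1) / 2 * z) := by ring
          rw [this]; linarith
      · -- last case
        set ν' : ℝ := 2 * x / φ with hν'
        have hν0 : 0 ≤ ν' := by positivity
        have hνφ : ν' * φ = 2 * x := by rw [hν']; field_simp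
        set lam : ℝ := w - ν' * (2 * y1 + 1 / 2) with hlam
        have hlam0 : 0 ≤ lam := by
          have h1 : x * (2 * y1 + 1 / 2) - φ / 2 * w ≤ 0 := by
            rw [← hγΔ]; exact mul_nonpos_of_nonpos_of_nonneg hg hΔ0.le
          have h2 : ν' * φ * (2 * y1 + 1 / 2) ≤ φ * w := by rw [hνφ]; linarith
          have h3 : (ν' * (2 * y1 + 1 / 2)) * φ ≤ w * φ := by linarith
          have := le_of_mul_le_mul_right h3 hφ0
          linarith
        have hYs : ys ^ 2 * (1 + φ ^ 2) = (y1 + φ * z1) ^ 2 := by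
          have hpos : 0 < 1 + φ ^ 2 := by positivity
          rw [show ys = (y1 + φ * z1) / √(1 + φ ^ 2) from rfl, div_pow, Real.sq_sqrt hpos.le]
          field_simp
        have ex : x = ν' * (φ / 2) := by linear_combination (-1 / 2 : ℝ) * hνφ
        have ey : y = lam + A * y1 + ν' * (2 * y1 + 1 / 2) := by rw [hlam, hw]; ring
        have ez : z = lam * φ + A * z1 + ν' * (2 * z1 - (φ - 1) / 2) := by
          apply mul_left_cancel₀ hφ1
          rw [hα2z]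
          linear_combination (-(A + 2 * ν')) * i1 + (φ / 2) * ex + (1 / 2 : ℝ) * ey +
            (ν' / 2 - lam / 2) * hφ
        exact last_case (x := x) (y := y) (z := z) (N := x ^ 2 + y ^ 2 + z ^ 2) hκ hφ dz1 R1 hYs
          hA.le hZ1.le hφ0.le ⟨by linarith [bt1.1], by linarith [bt1.2]⟩
          ⟨by linarith [bys.1], by linarith [bys.2]⟩ hlam0 hA0 hν0 ex ey ez rfl hY1 (by linarith)

theorem cover_D {κ : ℝ} (hκ : κ = 29 / 100 ∨ κ = 7 / 20) {y : E3} (hy : y ∈ D)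
    (h1 : 1 - κ ^ 2 ≤ ‖y‖ ^ 2) (h2 : ‖y‖ ≤ 1) (η : ℝ) :
    -κ < w310.lin η y ∨ -κ < w220.lin η y ∨ -κ < w211.lin η y := by
  by_contra hcon
  simp only [not_or, not_lt] at hcon
  obtain ⟨c1, c2, c3⟩ := hcon
  rw [lin310] at c1
  rw [lin220] at c2
  rw [lin211] at c3
  rw [mem_D_iff] at hy
  have hn : ‖y‖ ^ 2 = y 0 ^ 2 + y 1 ^ 2 + y 2 ^ 2 := by
    simp [EuclideanSpace.norm_sq_eq, Fin.sum_univ_three]
  have h3 : ‖y‖ ^ 2 ≤ 1 := pow_le_one₀ (norm_nonneg _) h2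
  rw [hn] at h1 h3
  exact cover_real hκ hy.1 hy.2.1 hy.2.2 h1 h3 c1 c2 c3

end Kus64
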