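import Pool.Agent.helper64.Kus.B2
import Pool.Agent.helper64.Kus.C4

/-!
# D1: symmetries of the set of sites, finiteness, reduction to six functions
(module completed by helper36)

* `Small` is finite (`G_finite`, image of `G × reps`), stable under `Site.map g` (`g ∈ G`) and under
  `Site.flip` (`flip` fixes `w310,w220,w211,wa2`, exchanges `wa1, wa3`).
* `t > 0` for every small site, `wC.t = wE.t = 0`; so `wC, wE ∉ Small`, and `F = lin` on `Small`.
* `F_map`: `inner (g v) (g y) = inner v y`; `wC.map g = wC`, `wE.map g = wE` as `g 0 = 0`.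
* `max6`: for `y ∈ D`, `0 ≤ η` every site is beaten by one of the six: `wE` by `wC`
  (`-max (-η) (7/10+η) = -(7/10+η) ≤ -max η (7/10-η)`), `r.map g` by `r` (`inner_le`; `r.v ∈ D`),
  `wa1.map g` by `wa3` (`-b3 η ≤ b3 η`).
* `cover`: reduction of `C4.cover_D` to the chamber: `g y ∈ D`, then `w.map g⁻¹`.
-/

open Set

namespace Kus64

theorem rep_cases {r : Site} (hr : r ∈ reps) :
    r = w310 ∨ r = w220 ∨ r = w211 ∨ r = wa2 ∨ r = wa3 ∨ r = wa1 := by
  simpa [reps] using hr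

theorem reps_finite : reps.Finite := by
  unfold reps
  exact Set.toFinite _

theorem map_map' (g h : E3 ≃ₗᵢ[ℝ] E3) (w : Site) : (w.map h).map g = w.map (g * h) := rfl

theorem map_one' (w : Site) : w.map 1 = w := rfl

theorem map_inv1 (g : E3 ≃ₗᵢ[ℝ] E3) (w : Site) : (w.map g).map g⁻¹ = w := by
  rw [map_map', inv_mul_cancel, map_one']

theorem map_inv2 (g : E3 ≃ₗᵢ[ℝ] E3) (w : Site) : (w.map g⁻¹).map g = w := by
  rw [map_map', mul_inv_cancel, map_one']

theorem wC_map (g : E3 ≃ₗᵢ[ℝ] E3) : wC.map g = wC := by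
  ext1 <;> simp [Site.map, wC]

theorem wE_map (g : E3 ≃ₗᵢ[ℝ] E3) : wE.map g = wE := by
  ext1 <;> simp [Site.map, wE]

theorem wC_flip : wC.flip = wE := by
  ext1 <;> simp [Site.flip, wC, wE]

theorem wE_flip : wE.flip = wC := by
  ext1 <;> simp [Site.flip, wC, wE]

theorem map_flip (g : E3 ≃ₗᵢ[ℝ] E3) (w : Site) : (w.map g).flip = w.flip.map g := rfl

theorem rep_flip {r : Site} (hr : r ∈ reps) : r.flip ∈ reps := by
  rcases rep_cases hr with rfl | rfl | rfl | rfl | rfl | rfl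
  · have : w310.flip = w310 := by ext1 <;> simp [Site.flip, w310]
    rw [this]; exact hr
  · have : w220.flip = w220 := by ext1 <;> simp [Site.flip, w220]
    rw [this]; exact hr
  · have : w211.flip = w211 := by ext1 <;> simp [Site.flip, w211]
    rw [this]; exact hr
  · have : wa2.flip = wa2 := by ext1 <;> simp [Site.flip, wa2]
    rw [this]; exact hr
  · have : wa3.flip = wa1 := by ext1 <;> simp [Site.flip, wa3, wa1]
    rw [this]; simp [reps]
  · have : wa1.flip = wa3 := by ext1 <;> simp [Site.flip, wa3, wa1]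
    rw [this]; simp [reps]

theorem Small_finite : Small.Finite := by
  have h : Small = Set.image2 (fun g r => Site.map g r) (G : Set (E3 ≃ₗᵢ[ℝ] E3)) reps := by
    ext w
    constructor
    · rintro ⟨g, hg, r, hr, rfl⟩
      exact ⟨g, hg, r, hr, rfl⟩
    · rintro ⟨g, hg, r, hr, rfl⟩
      exact ⟨g, hg, r, hr, rfl⟩
  rw [h]
  exact G_finite.image2 _ reps_finite

theorem Sites_finite : Sites.Finite := by
  unfold Sites
  exact (Set.toFinite _).union Small_finite

theorem Small_map {g : E3 ≃ₗᵢ[ℝ] E3} (hg : g ∈ G) {w : Site} (hw : w ∈ Small) :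
    w.map g ∈ Small := by
  obtain ⟨h, hh, r, hr, rfl⟩ := hw
  exact ⟨g * h, G.mul_mem hg hh, r, hr, rfl⟩

theorem Sites_cases {w : Site} (hw : w ∈ Sites) : w = wC ∨ w = wE ∨ w ∈ Small := by
  rcases hw with hw | hw
  · rcases hw with hw | hw
    · exact Or.inl hw
    · exact Or.inr (Or.inl hw)
  · exact Or.inr (Or.inr hw)

theorem wC_mem : wC ∈ Sites := Or.inl (Or.inl rfl)
theorem wE_mem : wE ∈ Sites := Or.inl (Or.inr rfl)
theorem small_mem {w : Site} (hw : w ∈ Small) : w ∈ Sites := Or.inr hw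

theorem Sites_map {g : E3 ≃ₗᵢ[ℝ] E3} (hg : g ∈ G) {w : Site} (hw : w ∈ Sites) :
    w.map g ∈ Sites := by
  rcases Sites_cases hw with rfl | rfl | h
  · rw [wC_map]; exact wC_mem
  · rw [wE_map]; exact wE_mem
  · exact small_mem (Small_map hg h)

theorem Small_flip {w : Site} (hw : w ∈ Small) : w.flip ∈ Small := by
  obtain ⟨h, hh, r, hr, rfl⟩ := hw
  exact ⟨h, hh, r.flip, rep_flip hr, rfl⟩

theorem Sites_flip {w : Site} (hw : w ∈ Sites) : w.flip ∈ Sites := by
  rcases Sites_cases hw with rfl | rfl | h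
  · rw [wC_flip]; exact wE_mem
  · rw [wE_flip]; exact wC_mem
  · exact small_mem (Small_flip h)

theorem map_map (g h : E3 ≃ₗᵢ[ℝ] E3) (w : Site) : (w.map h).map g = w.map (g * h) := rfl
theorem map_inv {g : E3 ≃ₗᵢ[ℝ] E3} (w : Site) : (w.map g).map g⁻¹ = w := map_inv1 g w
theorem flip_flip (w : Site) : w.flip.flip = w := by
  ext1 <;> simp [Site.flip]

theorem reps_subset : reps ⊆ Small := fun r hr => ⟨1, G.one_mem, r, hr, rfl⟩

theorem six_mem (i : Fin 6) : six i ∈ Sites := by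
  fin_cases i
  · exact wC_mem
  all_goals
    refine small_mem (reps_subset ?_)
    simp [six, reps]

/-- small sites have positive `t` -/
theorem Small_t {w : Site} (hw : w ∈ Small) : 3 < w.t := by
  obtain ⟨g, hg, r, hr, rfl⟩ := hw
  show 3 < r.t
  have h1 := abs_le.1 enc_t1
  have h2 := abs_le.1 enc_t2
  have h3 := abs_le.1 enc_t3
  have h4 := abs_le.1 enc_ta2
  have h5 := abs_le.1 enc_ta3
  rcases rep_cases hr with rfl | rfl | rfl | rfl | rfl | rfl
  · show 3 < t1
    norm_num at h1; linarith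
  · show 3 < t2
    norm_num at h2; linarith
  · show 3 < t3
    norm_num at h3; linarith
  · show 3 < ta2
    norm_num at h4; linarith
  · show 3 < ta3
    norm_num at h5; linarith
  · show 3 < ta3
    norm_num at h5; linarith

theorem wC_notin : wC ∉ Small := fun h => by
  have h1 : (3 : ℝ) < 0 := Small_t h
  linarith
theorem wE_notin : wE ∉ Small := fun h => by
  have h1 : (3 : ℝ) < 0 := Small_t h
  linarith
/-- the possible values of `b` on small sites -/
theorem Small_b {w : Site} (hw : w ∈ Small) : w.b = 0 ∨ w.b = b3 ∨ w.b = -b3 := by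
  obtain ⟨g, hg, r, hr, rfl⟩ := hw
  show r.b = 0 ∨ r.b = b3 ∨ r.b = -b3
  rcases rep_cases hr with rfl | rfl | rfl | rfl | rfl | rfl
  · exact Or.inl rfl
  · exact Or.inl rfl
  · exact Or.inl rfl
  · exact Or.inl rfl
  · exact Or.inr (Or.inl rfl)
  · exact Or.inr (Or.inr rfl)

theorem wE_ne_wC : wE ≠ wC := fun h => by
  have h1 : (1 : ℝ) = -1 := congrArg Site.b h
  linarith

theorem F_lin {w : Site} (h1 : w ≠ wC) (h2 : w ≠ wE) (η : ℝ) (y : E3) :
    F w η y = w.lin η y := by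
  simp only [F, if_neg h1, if_neg h2]

theorem F_small {w : Site} (hw : w ∈ Small) (η : ℝ) (y : E3) : F w η y = w.lin η y :=
  F_lin (fun h => wC_notin (h ▸ hw)) (fun h => wE_notin (h ▸ hw)) η y
theorem F_C (η : ℝ) (y : E3) : F wC η y = -max η (7 / 10 - η) := by
  simp only [F, if_true]
theorem F_E (η : ℝ) (y : E3) : F wE η y = -max (-η) (7 / 10 + η) := by
  simp only [F, if_neg wE_ne_wC, if_true]

theorem lin_map (g : E3 ≃ₗᵢ[ℝ] E3) (w : Site) (η : ℝ) (y : E3) :
    (w.map g).lin η (g y) = w.lin η y := by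
  simp only [Site.lin, Site.map, LinearIsometryEquiv.inner_map_map]

theorem lin_map_inv (g : E3 ≃ₗᵢ[ℝ] E3) (w : Site) (η : ℝ) (y : E3) :
    (w.map g⁻¹).lin η y = w.lin η (g y) := by
  rw [← lin_map g (w.map g⁻¹) η y, map_inv2]

theorem lin_flip (w : Site) (η : ℝ) (y : E3) : w.flip.lin (-η) y = w.lin η y := by
  simp only [Site.lin, Site.flip]
  ring

/-- invariance of `F` for all sites -/
theorem F_map' (g : E3 ≃ₗᵢ[ℝ] E3) (w : Site) (η : ℝ) (y : E3) :
    F (w.map g) η (g y) = F w η y := by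
  by_cases h1 : w = wC
  · rw [h1, wC_map, F_C, F_C]
  by_cases h2 : w = wE
  · rw [h2, wE_map, F_E, F_E]
  rw [F_lin h1 h2, F_lin, lin_map]
  · intro h
    apply h1
    rw [← map_inv1 g w, h, wC_map]
  · intro h
    apply h2
    rw [← map_inv1 g w, h, wE_map]

theorem F_flip' (w : Site) (η : ℝ) (y : E3) : F w.flip (-η) y = F w η y := by
  by_cases h1 : w = wC
  · rw [h1, wC_flip, F_C, F_E, neg_neg, sub_eq_add_neg]
  by_cases h2 : w = wE
  · rw [h2, wE_flip, F_C, F_E, sub_neg_eq_add]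
  rw [F_lin h1 h2, F_lin, lin_flip]
  · intro h
    apply h2
    rw [← flip_flip w, h, wC_flip]
  · intro h
    apply h1
    rw [← flip_flip w, h, wE_flip]

theorem F_map {g : E3 ≃ₗᵢ[ℝ] E3} (_hg : g ∈ G) {w : Site} (_hw : w ∈ Sites) (η : ℝ) (y : E3) :
    F (w.map g) η (g y) = F w η y := F_map' g w η y
theorem F_flip {w : Site} (_hw : w ∈ Sites) (η : ℝ) (y : E3) :
    F w.flip (-η) y = F w η y := F_flip' w η y

theorem OnS_map {η : ℝ} {y : E3} (g : E3 ≃ₗᵢ[ℝ] E3) (h : OnS η y) : OnS η (g y) := by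
  unfold OnS at h ⊢
  rw [LinearIsometryEquiv.norm_map]
  exact h
theorem OnS_flip {η : ℝ} {y : E3} (h : OnS η y) : OnS (-η) y := by
  unfold OnS at h ⊢
  rw [neg_sq]
  exact h

theorem Act_map {g : E3 ≃ₗᵢ[ℝ] E3} (hg : g ∈ G) {w : Site} {η : ℝ} {y : E3} (h : Act w η y) :
    Act (w.map g) η (g y) := by
  refine ⟨Sites_map hg h.1, fun w' hw' => ?_⟩
  have h1 := h.2 (w'.map g⁻¹) (Sites_map (G.inv_mem hg) hw')
  have h2 := F_map' g (w'.map g⁻¹) η y
  rw [map_inv2] at h2
  rw [h2, F_map']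
  exact h1
theorem Act_flip {w : Site} {η : ℝ} {y : E3} (h : Act w η y) : Act w.flip (-η) y := by
  refine ⟨Sites_flip h.1, fun w' hw' => ?_⟩
  have h1 := h.2 w'.flip (Sites_flip hw')
  have h2 := F_flip' w'.flip η y
  rw [flip_flip] at h2
  rw [h2, F_flip']
  exact h1

theorem cellS_map {g : E3 ≃ₗᵢ[ℝ] E3} (hg : g ∈ G) {w : Site} {p : ℝ × E3} (hp : p ∈ cellS w) :
    (p.1, g p.2) ∈ cellS (w.map g) := by
  refine ⟨OnS_map g hp.1, fun w' hw' hne => ?_⟩
  have h1 := hp.2 (w'.map g⁻¹) (Sites_map (G.inv_mem hg) hw') (fun h => hne (by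
    rw [← h, map_inv2]))
  have h2 := F_map' g (w'.map g⁻¹) p.1 p.2
  rw [map_inv2] at h2
  show F w' p.1 (g p.2) < F (w.map g) p.1 (g p.2)
  rw [h2, F_map']
  exact h1
theorem cellS_flip {w : Site} {p : ℝ × E3} (hp : p ∈ cellS w) :
    (-p.1, p.2) ∈ cellS w.flip := by
  refine ⟨OnS_flip hp.1, fun w' hw' hne => ?_⟩
  have h1 := hp.2 w'.flip (Sites_flip hw') (fun h => hne (by
    rw [← h, flip_flip]))
  have h2 := F_flip' w'.flip p.1 p.2
  rw [flip_flip] at h2
  show F w' (-p.1) p.2 < F w.flip (-p.1) p.2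
  rw [h2, F_flip']
  exact h1

theorem rep_mem_D {r : Site} (hr : r ∈ reps) : r.v ∈ D := by
  rcases rep_cases hr with rfl | rfl | rfl | rfl | rfl | rfl
  · exact w310_mem
  · exact w220_mem
  · exact w211_mem
  · exact wa2_mem
  · exact wa3_mem
  · exact wa3_mem

theorem lin_map_le' {g : E3 ≃ₗᵢ[ℝ] E3} (hg : g ∈ G) {r : Site} (hr : r ∈ reps) {η : ℝ} {y : E3}
    (hy : y ∈ D) : (r.map g).lin η y ≤ r.lin η y := by
  have h := inner_le (rep_mem_D hr) hy hg
  simp only [Site.lin, Site.map]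
  linarith

/-- reduction to six functions in the chamber -/
theorem max6 {η : ℝ} {y : E3} (hη : 0 ≤ η) (hy : y ∈ D) {w : Site} (hw : w ∈ Sites) :
    ∃ i : Fin 6, F w η y ≤ F (six i) η y := by
  have key : ∀ {g : E3 ≃ₗᵢ[ℝ] E3}, g ∈ G → ∀ {r : Site}, r ∈ reps → ∀ {r' : Site},
      r' ∈ reps → r.lin η y ≤ r'.lin η y → F (r.map g) η y ≤ F r' η y := by
    intro g hg r hr r' hr' h
    rw [F_small (Small_map hg (reps_subset hr)), F_small (reps_subset hr')]
    exact (lin_map_le' hg hr hy).trans h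
  rcases Sites_cases hw with rfl | rfl | h
  · exact ⟨0, le_rfl⟩
  · refine ⟨0, ?_⟩
    show F wE η y ≤ F wC η y
    rw [F_E, F_C]
    apply neg_le_neg
    refine max_le ?_ ?_
    · refine le_trans ?_ (le_max_right _ _)
      linarith
    · refine le_trans ?_ (le_max_right _ _)
      linarith
  · obtain ⟨g, hg, r, hr, rfl⟩ := h
    rcases rep_cases hr with rfl | rfl | rfl | rfl | rfl | rfl
    · exact ⟨1, key hg hr hr le_rfl⟩
    · exact ⟨2, key hg hr hr le_rfl⟩
    · exact ⟨3, key hg hr hr le_rfl⟩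
    · exact ⟨4, key hg hr hr le_rfl⟩
    · exact ⟨5, key hg hr hr le_rfl⟩
    · refine ⟨5, key hg hr (r' := wa3) (by simp [reps]) ?_⟩
      have h3 := abs_le.1 enc_b3
      norm_num at h3
      have h4 : 0 ≤ b3 * η := mul_nonneg (by linarith) hη
      show -b3 * η + inner ℝ (s3 • ξ) y - ta3 ≤ b3 * η + inner ℝ (s3 • ξ) y - ta3
      linarith

/-- more precisely, a small site `r.map g` is beaten by its representative -/
theorem lin_map_le {g : E3 ≃ₗᵢ[ℝ] E3} (hg : g ∈ G) {r : Site} (hr : r ∈ reps) {η : ℝ} {y : E3}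
    (hy : y ∈ D) : (r.map g).lin η y ≤ r.lin η y := lin_map_le' hg hr hy

/-- covering in general position -/
theorem cover {κ : ℝ} (hκ : κ = 29 / 100 ∨ κ = 7 / 20) {y : E3}
    (h1 : 1 - κ ^ 2 ≤ ‖y‖ ^ 2) (h2 : ‖y‖ ≤ 1) (η : ℝ) :
    ∃ w ∈ Small, w.b = 0 ∧ -κ < w.lin η y := by
  obtain ⟨g, hg, hgy⟩ := exists_mem_D y
  have key : ∀ {r : Site}, r ∈ reps → r.b = 0 → -κ < r.lin η (g y) →
      ∃ w ∈ Small, w.b = 0 ∧ -κ < w.lin η y := by
    intro r hr hb h
    refine ⟨r.map g⁻¹, ⟨g⁻¹, G.inv_mem hg, r, hr, rfl⟩, hb, ?_⟩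
    rw [lin_map_inv]
    exact h
  rcases cover_D hκ hgy (by rw [LinearIsometryEquiv.norm_map]; exact h1)
    (by rw [LinearIsometryEquiv.norm_map]; exact h2) η with h | h | h
  · exact key (r := w310) (by simp [reps]) rfl h
  · exact key (r := w220) (by simp [reps]) rfl h
  · exact key (r := w211) (by simp [reps]) rfl h

end Kus64
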