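import Pool.Agent.helper64.Kus.C2
import Pool.Agent.helper64.Kus.C3
import Pool.Agent.helper64.Kus.D1

/-!
# D2: validity: two sites which are active at the same point have `q = 1` -- MODULE

* `act_C`: if `wC` is active then `η > 7/20`: if `|η| ≤ 7/20` then `‖y‖² ≥ 1-(7/20)²` and by
  `cover` some small site is `> -7/20 ≥ F wC`; if `η < -7/20` then
  `F wC = -(7/10-η) < η = F wE` (as `-max (-η) (7/10+η) = η`).  `act_E` by flip.
* `valid_D`: the case `y ∈ D`, `0 ≤ η`.  Let `w ≠ w'` be active.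
  `wE` is not active (`act_E`).  For an active small site `w = r.map g`, `r ∈ reps`: also `r` is
  active (`lin_map_le`), and `r ≠ wa1` unless ...: if `r = wa1` then `wa3` is at least as good,
  with equality only for `η = 0` (`b3 > 0`), but at `η = 0` `wa3 < wa2` by `I7`: contradiction.
  So the active representatives are among `w310,w220,w211,wa2,wa3` and possibly `wC`.
  EXCLUSIONS (all by C2, C3): write `x=y 0` etc.
   (E1) `x = 0` ⇒ `w211` not active (`I1`; `-1 ≤ F wC` because `0 ≤ η ≤ 1`);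
   (E2) `inner (α 2) y = 0` ⇒ `w220` not active (`I2`);
   (E3) `y 1 = 0` ⇒ `w310, wa2, wa3` not active (`I3`);
   (E4) `x = 0`, `inner (α 2) y = 0` ⇒ `w310` not active (`I4`; for `η ≥ .46` `F wC = -η`);
   (E5) `wa2` or `wa3` active ⇒ `w220`, `w211` not active (`I5`: an active `w220` satisfies
        `w310.lin ≤ w220.lin`, so `wa2.lin, wa3.lin < w220.lin`);
   (E6) `wa2` and `wC` are not both active: `wC` active ⇒ `η > 7/20`, `wa2` active ⇒
        `-η = F wC ≤ wa2.lin` ⇒ `wa2 < wa3` (`I6`).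
  So every pair of different active REPRESENTATIVES (with `wC`) is one of
  `C310, C220, C211, Ca3, 310-220, 310-211, 220-211, 310-a2, 310-a3, a2-a3`: `q = 1` (A3).
  Now copies: `w = r.map g` active: `inner (g r.v) y = inner r.v y`.  WLOG compare `r.map g` and
  `r'.map g'`.  Case distinction by the set `Z = {i | inner (α i) y = 0}`:
   * `Z = ∅` or `Z` fixes: `inner_eq_fix`: if every `s i`, `i ∈ Z`, fixes `r.v`, then `r.map g = r`.
   * `Z ⊆ {0}`: active reps are all fixed by `s 0` (only `w211` is not, E1). So copies = reps.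
   * `Z = {2}`: fixed by `s 2`: `w211, wa2, wa3`; not fixed: `w310` (`w220` excluded by E2).
     `inner_eq_one`: copies of `w310` are `w310`, `w310.map (s 2)`.  `q w310 (w310.map (s 2)) = 1`,
     and for another active rep `r` (fixed by `s 2`): `q (w310.map (s 2)) r = q w310 r = 1`.
   * `Z = {1}`: active small reps only `w220` (fixed by `s 1`), `w211`; copies `w211`,
     `w211.map (s 1)`: as before.
   * `Z = {1,2}` (three-fold axis): active small reps: only `w211` (E2, E3); copies by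
     `inner_eq_three`: `w211`, `w211.map (s 1)`, `w211.map (s 2 * s 1)`, mutually `q = 1`
     (`q_211_s1`, `q_211_s2s1`, `q_211_s1_s2s1`).
   * `Z = {0,2}` (five-fold axis): active small reps only `wa2, wa3` (E1, E2, E4), fixed by
     `s 0`, `s 2`: no copies.
   * `Z = {0,1}` (two-fold axis): only `w220` (E1, E3), fixed.
   * `Z = {0,1,2}`: `y = 0`, `η = 1`: all small sites have `lin ≤ b3 - ta3` or `-t < -3`, below
     `F wC = -1`: only `wC` is active.
  `wC.map g = wC`, and `q wC (r.map g) = q wC r`.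
* `valid`: general `(η,y)`: by `Act_map` with `g y ∈ D` (`exists_mem_D`) and `Act_flip`; `q_map`,
  `q_flip`.
-/

open Set

namespace Kus64

/-! ### The reflections fix the representatives -/

theorem h28_fix {i : Fin 3} {v : E3} (h : inner ℝ (α i) v = 0) : s i v = v := by
  rw [s_apply, h]
  simp

theorem h28_s0_310 : s 0 w310.v = w310.v := h28_fix (by rw [inner_α0]; rfl)
theorem h28_s0_220 : s 0 w220.v = w220.v := h28_fix (by rw [inner_α0]; rfl)
theorem h28_s1_220 : s 1 w220.v = w220.v := h28_fix (by rw [inner_α1]; rfl)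

theorem h28_s2_211 : s 2 w211.v = w211.v := by
  refine h28_fix ?_
  rw [inner_α2]
  have h0 : w211.v 0 = x3 := rfl
  have h1 : w211.v 1 = 1 / 2 := rfl
  have h2 : w211.v 2 = z3 := rfl
  rw [h0, h1, h2, z3]
  linear_combination ((φ - 1) / 2 * x3 + x3 / 2 + 1 / 4) * φ_sq

theorem h28_ξ0 : ξ 0 = 0 := by simp [ξ, ax5]
theorem h28_s0_ξ (c : ℝ) : s 0 (c • ξ) = c • ξ := by
  refine h28_fix ?_
  rw [inner_smul_right, inner_α0, h28_ξ0, mul_zero]

theorem h28_s2_ξ (c : ℝ) : s 2 (c • ξ) = c • ξ := by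
  refine h28_fix ?_
  rw [inner_smul_right, ξ, inner_smul_right, inner_α2]
  have h0 : ax5 0 = 0 := rfl
  have h1 : ax5 1 = 1 := rfl
  have h2 : ax5 2 = φ := rfl
  rw [h0, h1, h2]
  have : -φ / 2 * 0 - 1 / 2 * 1 + (φ - 1) / 2 * φ = 0 := by linear_combination (1 / 2) * φ_sq
  rw [this, mul_zero, mul_zero]

theorem h28_map_eq {w : Site} {g : E3 ≃ₗᵢ[ℝ] E3} (h : g w.v = w.v) : w.map g = w := by
  rw [Site.map, h]

theorem h28_map_eq' {w : Site} {g g' : E3 ≃ₗᵢ[ℝ] E3} (h : g w.v = g' w.v) :
    w.map g = w.map g' := by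
  rw [Site.map, h, Site.map]

/-! ### The cut-off functions -/

theorem h28_FC_le {η : ℝ} (h : η ≤ 7 / 20) (y : E3) : F wC η y ≤ -(7 / 20) := by
  rw [F_C]
  have := le_max_right η (7 / 10 - η)
  linarith

theorem h28_FC_ge {η : ℝ} (h : 7 / 20 ≤ η) (y : E3) : F wC η y = -η := by
  rw [F_C, max_eq_left]
  linarith

theorem h28_wC_mem : wC ∈ Sites := Or.inl (Or.inl rfl)
theorem h28_wE_mem : wE ∈ Sites := Or.inl (Or.inr rfl)

theorem act_C {η : ℝ} {y : E3} (hS : OnS η y) (h : Act wC η y) : 7 / 20 < η := by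
  by_contra hcon
  push Not at hcon
  have hS' : η ^ 2 + ‖y‖ ^ 2 = 1 := hS
  rcases le_or_gt (-(7 / 20)) η with h1 | h1
  · have h2 : η ^ 2 ≤ (7 / 20) ^ 2 := sq_le_sq' h1 hcon
    have h3 : ‖y‖ ≤ 1 := by nlinarith [norm_nonneg y, sq_nonneg η]
    obtain ⟨w, hw, -, hlt⟩ := cover (κ := 7 / 20) (Or.inr rfl) (y := y) (by linarith) h3 η
    have h4 := h.2 w (Or.inr hw)
    rw [F_small hw] at h4
    have h5 := h28_FC_le hcon y
    linarith
  · have h2 := h.2 wE h28_wE_mem
    rw [F_C, F_E, max_eq_left (by linarith), max_eq_right (by linarith)] at h2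
    linarith

theorem h28_flip_E : wE.flip = wC := by
  simp [wE, wC, Site.flip]

theorem act_E {η : ℝ} {y : E3} (hS : OnS η y) (h : Act wE η y) : η < -(7 / 20) := by
  have h1 := Act_flip h
  rw [h28_flip_E] at h1
  have h2 := act_C (OnS_flip hS) h1
  linarith

/-! ### Exclusions -/

theorem h28_mem_small {r : Site} (hr : r ∈ reps) : r ∈ Small := reps_subset hr

theorem h28_r310 : w310 ∈ reps := by simp [reps]
theorem h28_r220 : w220 ∈ reps := by simp [reps]
theorem h28_r211 : w211 ∈ reps := by simp [reps]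
theorem h28_ra2 : wa2 ∈ reps := by simp [reps]
theorem h28_ra3 : wa3 ∈ reps := by simp [reps]
theorem h28_ra1 : wa1 ∈ reps := by simp [reps]

/-- an active small site beats every small site -/
theorem h28_le {η : ℝ} {y : E3} {w w' : Site} (hw : w ∈ Small) (hw' : w' ∈ Small)
    (h : Act w η y) : w'.lin η y ≤ w.lin η y := by
  have := h.2 w' (Or.inr hw')
  rwa [F_small hw, F_small hw'] at this

theorem h28_leC {η : ℝ} {y : E3} {w : Site} (hw : w ∈ Small) (h : Act w η y) :
    F wC η y ≤ w.lin η y := by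
  have := h.2 wC h28_wC_mem
  rwa [F_small hw] at this

theorem h28_b3_pos : 0 < b3 := by
  have := abs_le.1 enc_b3
  linarith [this.1]

/-- the exclusions in the chamber -/
theorem excl {η : ℝ} {y : E3} (hS : OnS η y) (hη : 0 ≤ η) (hy : y ∈ D) :
    (y 0 = 0 → ¬ Act w211 η y) ∧ (inner ℝ (α 2) y = 0 → ¬ Act w220 η y) ∧
    (y 1 = 0 → ¬ Act w310 η y ∧ ¬ Act wa2 η y ∧ ¬ Act wa3 η y) ∧
    (y 0 = 0 → inner ℝ (α 2) y = 0 → ¬ Act w310 η y) ∧
    ((Act wa2 η y ∨ Act wa3 η y) → ¬ Act w220 η y ∧ ¬ Act w211 η y) ∧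
    (Act wa2 η y → ¬ Act wC η y) ∧ ¬ Act wE η y ∧
    (∀ g ∈ G, ¬ Act (wa1.map g) η y) := by
  have hη1 : η ≤ 1 := by
    have hS' : η ^ 2 + ‖y‖ ^ 2 = 1 := hS
    nlinarith [sq_nonneg ‖y‖, sq_nonneg (η - 1)]
  have m310 := h28_mem_small h28_r310
  have m220 := h28_mem_small h28_r220
  have m211 := h28_mem_small h28_r211
  have ma2 := h28_mem_small h28_ra2
  have ma3 := h28_mem_small h28_ra3
  refine ⟨?_, ?_, ?_, ?_, ?_, ?_, ?_, ?_⟩
  · intro h0 hA
    rcases I1 hy hS hη h0 with h1 | h1 | h1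
    · exact absurd (h28_le m211 m310 hA) (not_le.2 h1)
    · exact absurd (h28_le m211 m220 hA) (not_le.2 h1)
    · have h2 := h28_leC m211 hA
      rw [F_C] at h2
      have h3 : max η (7 / 10 - η) ≤ 1 := max_le hη1 (by linarith)
      linarith
  · intro h0 hA
    exact absurd (h28_le m220 m211 hA) (not_le.2 (I2 hy hS hη h0))
  · intro h0
    obtain ⟨h1, h2, h3⟩ := I3 hy hS hη h0
    exact ⟨fun hA => absurd (h28_le m310 m220 hA) (not_le.2 h1),
      fun hA => absurd (h28_le ma2 m220 hA) (not_le.2 h2),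
      fun hA => absurd (h28_le ma3 m220 hA) (not_le.2 h3)⟩
  · intro h0 h2 hA
    rcases I4 hy hS hη h0 h2 with h1 | h1 | ⟨h3, h1⟩
    · exact absurd (h28_le m310 ma2 hA) (not_le.2 h1)
    · exact absurd (h28_le m310 ma3 hA) (not_le.2 h1)
    · have h4 := h28_leC m310 hA
      rw [h28_FC_ge (by linarith) y] at h4
      linarith
  · intro hA
    constructor
    · intro hB
      obtain ⟨h1, h2⟩ := I5_220 hy hS hη (h28_le m220 m310 hB)
      rcases hA with hA | hA
      · exact absurd (h28_le ma2 m220 hA) (not_le.2 h1)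
      · exact absurd (h28_le ma3 m220 hA) (not_le.2 h2)
    · intro hB
      obtain ⟨h1, h2⟩ := I5_211 hy hS hη (h28_le m211 m310 hB)
      rcases hA with hA | hA
      · exact absurd (h28_le ma2 m211 hA) (not_le.2 h1)
      · exact absurd (h28_le ma3 m211 hA) (not_le.2 h2)
  · intro hA hC
    have h1 := act_C hS hC
    have h2 := h28_leC ma2 hA
    rw [h28_FC_ge h1.le y] at h2
    exact absurd (h28_le ma2 ma3 hA) (not_le.2 (I6 hS h1.le h2))
  · intro hE
    have := act_E hS hE
    linarith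
  · intro g hg hA
    have mg1 : wa1.map g ∈ Small := ⟨g, hg, wa1, h28_ra1, rfl⟩
    have mg3 : wa3.map g ∈ Small := ⟨g, hg, wa3, h28_ra3, rfl⟩
    have h1 := h28_le mg1 mg3 hA
    have e1 : (wa1.map g).lin η y = -b3 * η + s3 * inner ℝ (g ξ) y - ta3 := by
      simp only [Site.lin, Site.map, wa1, map_smul, inner_smul_left]
      simp
    have e3 : (wa3.map g).lin η y = b3 * η + s3 * inner ℝ (g ξ) y - ta3 := by
      simp only [Site.lin, Site.map, wa3, map_smul, inner_smul_left]
      simp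
    rw [e1, e3] at h1
    have h2 : b3 * η ≤ 0 := by linarith
    have h3 : η = 0 := by
      rcases hη.eq_or_lt with h | h
      · exact h.symm
      · exact absurd h2 (not_le.2 (mul_pos h28_b3_pos h))
    have h4 := h28_le mg1 ma2 hA
    have h5 := I7' hS hη (by rw [h3]; norm_num) (inner_le ξ_mem hy hg)
    rw [e1] at h4
    rw [h3] at h4 h5
    linarith

/-! ### Classification of the active sites -/

/-- the possible active sites in the chamber -/
theorem h28_class {η : ℝ} {y : E3} (hS : OnS η y) (hη : 0 ≤ η) (hy : y ∈ D) {w : Site}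
    (h : Act w η y) :
    (w = wC ∧ Act wC η y) ∨ (w = w310 ∧ Act w310 η y) ∨
    (w = w310.map (s 2) ∧ Act w310 η y ∧ inner ℝ (α 2) y = 0) ∨
    (w = w220 ∧ Act w220 η y) ∨ (w = w211 ∧ Act w211 η y) ∨
    (w = w211.map (s 1) ∧ Act w211 η y ∧ y 1 = 0) ∨
    (w = w211.map (s 2 * s 1) ∧ Act w211 η y ∧ y 1 = 0 ∧ inner ℝ (α 2) y = 0) ∨
    (w = wa2 ∧ Act wa2 η y) ∨ (w = wa3 ∧ Act wa3 η y) := by
  obtain ⟨x1, x2, x3, x4, x5, x6, x7, x8⟩ := excl hS hη hy
  rcases h.1 with (hC | hE) | hs
  · left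
    exact ⟨hC, hC ▸ h⟩
  · exact absurd (hE ▸ h) x7
  obtain ⟨g, hg, r, hr, rfl⟩ := hs
  have hms : r.map g ∈ Small := ⟨g, hg, r, hr, rfl⟩
  have hrs : r ∈ Small := h28_mem_small hr
  have hle1 := lin_map_le hg hr hy (η := η)
  have hle2 := h28_le hms hrs h
  have heq : (r.map g).lin η y = r.lin η y := le_antisymm hle1 hle2
  have hAr : Act r η y := by
    refine ⟨Or.inr hrs, fun w' hw' => ?_⟩
    have := h.2 w' hw'
    rwa [F_small hms, heq, ← F_small hrs] at this
  have hin : inner ℝ (g r.v) y = inner ℝ r.v y := by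
    have h1 : (r.map g).lin η y = r.b * η + inner ℝ (g r.v) y - r.t := rfl
    have h2 : r.lin η y = r.b * η + inner ℝ r.v y - r.t := rfl
    rw [h1, h2] at heq
    linarith
  have hD0 : 0 ≤ inner ℝ (α 0) y := hy 0
  have hD1 : 0 ≤ inner ℝ (α 1) y := hy 1
  have hD2 : 0 ≤ inner ℝ (α 2) y := hy 2
  rcases hr with rfl | rfl | rfl | rfl | rfl | rfl
  · -- `w310`
    have h1 : inner ℝ (α 1) y ≠ 0 := fun h1 => (x3 ((inner_α1 y).symm.trans h1)).1 hAr
    by_cases h2 : inner ℝ (α 2) y = 0
    · have h0 : inner ℝ (α 0) y ≠ 0 := fun h0 => x4 ((inner_α0 y).symm.trans h0) h2 hAr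
      rcases inner_eq_one w310_mem hy hg hin 2 (by
        intro i hi
        fin_cases i
        · exact hD0.lt_of_ne' h0
        · exact hD1.lt_of_ne' h1
        · exact absurd rfl hi) with h3 | h3
      · exact Or.inr (Or.inl ⟨h28_map_eq h3, hAr⟩)
      · exact Or.inr (Or.inr (Or.inl ⟨h28_map_eq' h3, hAr, h2⟩))
    · have h3 := inner_eq_fix w310_mem hy hg hin (by
        intro i hi
        fin_cases i
        · exact h28_s0_310
        · exact absurd hi h1
        · exact absurd hi h2)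
      exact Or.inr (Or.inl ⟨h28_map_eq h3, hAr⟩)
  · -- `w220`
    have h2 : inner ℝ (α 2) y ≠ 0 := fun h2 => x2 h2 hAr
    have h3 := inner_eq_fix w220_mem hy hg hin (by
      intro i hi
      fin_cases i
      · exact h28_s0_220
      · exact h28_s1_220
      · exact absurd hi h2)
    exact Or.inr (Or.inr (Or.inr (Or.inl ⟨h28_map_eq h3, hAr⟩)))
  · -- `w211`
    have h0 : inner ℝ (α 0) y ≠ 0 := fun h0 => x1 ((inner_α0 y).symm.trans h0) hAr
    by_cases h1 : inner ℝ (α 1) y = 0
    · have h1' : y 1 = 0 := (inner_α1 y).symm.trans h1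
      by_cases h2 : inner ℝ (α 2) y = 0
      · rcases inner_eq_three w211_mem hy hg hin (hD0.lt_of_ne' h0) h28_s2_211 with h3 | h3 | h3
        · exact Or.inr (Or.inr (Or.inr (Or.inr (Or.inl ⟨h28_map_eq h3, hAr⟩))))
        · exact Or.inr (Or.inr (Or.inr (Or.inr (Or.inr (Or.inl
            ⟨h28_map_eq' h3, hAr, h1'⟩)))))
        · refine Or.inr (Or.inr (Or.inr (Or.inr (Or.inr (Or.inr (Or.inl
            ⟨h28_map_eq' ?_, hAr, h1', h2⟩))))))
          rw [h3]
          rfl
      · rcases inner_eq_one w211_mem hy hg hin 1 (by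
          intro i hi
          fin_cases i
          · exact hD0.lt_of_ne' h0
          · exact absurd rfl hi
          · exact hD2.lt_of_ne' h2) with h3 | h3
        · exact Or.inr (Or.inr (Or.inr (Or.inr (Or.inl ⟨h28_map_eq h3, hAr⟩))))
        · exact Or.inr (Or.inr (Or.inr (Or.inr (Or.inr (Or.inl
            ⟨h28_map_eq' h3, hAr, h1'⟩)))))
    · have h3 := inner_eq_fix w211_mem hy hg hin (by
        intro i hi
        fin_cases i
        · exact absurd hi h0
        · exact absurd hi h1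
        · exact h28_s2_211)
      exact Or.inr (Or.inr (Or.inr (Or.inr (Or.inl ⟨h28_map_eq h3, hAr⟩))))
  · -- `wa2`
    have h1 : inner ℝ (α 1) y ≠ 0 := fun h1 => (x3 ((inner_α1 y).symm.trans h1)).2.1 hAr
    have h3 := inner_eq_fix wa2_mem hy hg hin (by
      intro i hi
      fin_cases i
      · exact h28_s0_ξ _
      · exact absurd hi h1
      · exact h28_s2_ξ _)
    exact Or.inr (Or.inr (Or.inr (Or.inr (Or.inr (Or.inr (Or.inr (Or.inl
      ⟨h28_map_eq h3, hAr⟩)))))))
  · -- `wa3`
    have h1 : inner ℝ (α 1) y ≠ 0 := fun h1 => (x3 ((inner_α1 y).symm.trans h1)).2.2 hAr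
    have h3 := inner_eq_fix wa3_mem hy hg hin (by
      intro i hi
      fin_cases i
      · exact h28_s0_ξ _
      · exact absurd hi h1
      · exact h28_s2_ξ _)
    exact Or.inr (Or.inr (Or.inr (Or.inr (Or.inr (Or.inr (Or.inr (Or.inr
      ⟨h28_map_eq h3, hAr⟩)))))))
  · exact absurd h (x8 g hg)

/-! ### The table of the values of `q` -/

theorem h28_mapC (g : E3 ≃ₗᵢ[ℝ] E3) : wC.map g = wC := h28_map_eq (by simp [wC])

theorem h28_qC_map (g : E3 ≃ₗᵢ[ℝ] E3) {w : Site} (h : wC.q w = 1) : wC.q (w.map g) = 1 := by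
  rw [← h28_mapC g, q_map, h]

theorem h28_q_map_left (g : E3 ≃ₗᵢ[ℝ] E3) {w w' : Site} (hf : g w'.v = w'.v) (h : w.q w' = 1) :
    (w.map g).q w' = 1 := by
  have h1 : w'.map g = w' := h28_map_eq hf
  rw [← h1, q_map, h]

theorem h28_sym {w w' : Site} (h : w.q w' = 1) : w'.q w = 1 := by rw [q_symm, h]

theorem valid_D {η : ℝ} {y : E3} (hS : OnS η y) (hη : 0 ≤ η) (hy : y ∈ D) {w w' : Site}
    (hne : w ≠ w') (h : Act w η y) (h' : Act w' η y) : w.q w' = 1 := by
  obtain ⟨x1, x2, x3, x4, x5, x6, x7, x8⟩ := excl hS hη hy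
  have c1 : wC.q (w310.map (s 2)) = 1 := h28_qC_map _ q_C_310
  have c2 : wC.q (w211.map (s 1)) = 1 := h28_qC_map _ q_C_211
  have c3 : wC.q (w211.map (s 2 * s 1)) = 1 := h28_qC_map _ q_C_211
  have c4 : (w310.map (s 2)).q w211 = 1 := h28_q_map_left _ h28_s2_211 q_310_211
  have c5 : (w310.map (s 2)).q wa2 = 1 := h28_q_map_left _ (h28_s2_ξ _) q_310_a2
  have c6 : (w310.map (s 2)).q wa3 = 1 := h28_q_map_left _ (h28_s2_ξ _) q_310_a3
  have c7 : (w211.map (s 1)).q w220 = 1 := h28_q_map_left _ h28_s1_220 (h28_sym q_220_211)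
  rcases h28_class hS hη hy h with ⟨rfl, a⟩ | ⟨rfl, a⟩ | ⟨rfl, a, b⟩ | ⟨rfl, a⟩ | ⟨rfl, a⟩ |
    ⟨rfl, a, b⟩ | ⟨rfl, a, b, c⟩ | ⟨rfl, a⟩ | ⟨rfl, a⟩ <;>
  rcases h28_class hS hη hy h' with ⟨rfl, a'⟩ | ⟨rfl, a'⟩ | ⟨rfl, a', b'⟩ | ⟨rfl, a'⟩ |
    ⟨rfl, a'⟩ | ⟨rfl, a', b'⟩ | ⟨rfl, a', b', c'⟩ | ⟨rfl, a'⟩ | ⟨rfl, a'⟩ <;>
  first
  | exact absurd rfl hne
  | with_reducible exact q_C_310
  | with_reducible exact q_C_220
  | with_reducible exact q_C_211
  | with_reducible exact q_C_a3
  | with_reducible exact q_310_220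
  | with_reducible exact q_310_211
  | with_reducible exact q_220_211
  | with_reducible exact q_310_a2
  | with_reducible exact q_310_a3
  | with_reducible exact q_a2_a3
  | with_reducible exact q_310_s2
  | with_reducible exact q_211_s1
  | with_reducible exact q_211_s2s1
  | with_reducible exact q_211_s1_s2s1
  | with_reducible exact c1
  | with_reducible exact c2
  | with_reducible exact c3
  | with_reducible exact c4
  | with_reducible exact c5
  | with_reducible exact c6
  | with_reducible exact c7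
  | with_reducible exact h28_sym q_C_310
  | with_reducible exact h28_sym q_C_220
  | with_reducible exact h28_sym q_C_211
  | with_reducible exact h28_sym q_C_a3
  | with_reducible exact h28_sym q_310_220
  | with_reducible exact h28_sym q_310_211
  | with_reducible exact h28_sym q_220_211
  | with_reducible exact h28_sym q_310_a2
  | with_reducible exact h28_sym q_310_a3
  | with_reducible exact h28_sym q_a2_a3
  | with_reducible exact h28_sym q_310_s2
  | with_reducible exact h28_sym q_211_s1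
  | with_reducible exact h28_sym q_211_s2s1
  | with_reducible exact h28_sym q_211_s1_s2s1
  | with_reducible exact h28_sym c1
  | with_reducible exact h28_sym c2
  | with_reducible exact h28_sym c3
  | with_reducible exact h28_sym c4
  | with_reducible exact h28_sym c5
  | with_reducible exact h28_sym c6
  | with_reducible exact h28_sym c7
  | with_reducible exact absurd a' (x6 a)
  | with_reducible exact absurd a (x6 a')
  | with_reducible exact absurd a (x3 b').1
  | with_reducible exact absurd a' (x3 b).1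
  | with_reducible exact absurd a' (x2 b)
  | with_reducible exact absurd a (x2 b')
  | with_reducible exact absurd a (x2 c')
  | with_reducible exact absurd a' (x2 c)
  | with_reducible exact absurd a (x5 (Or.inl a')).1
  | with_reducible exact absurd a (x5 (Or.inl a')).2
  | with_reducible exact absurd a (x5 (Or.inr a')).1
  | with_reducible exact absurd a (x5 (Or.inr a')).2
  | with_reducible exact absurd a' (x5 (Or.inl a)).1
  | with_reducible exact absurd a' (x5 (Or.inl a)).2
  | with_reducible exact absurd a' (x5 (Or.inr a)).1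
  | with_reducible exact absurd a' (x5 (Or.inr a)).2

theorem h28_map_inj {g : E3 ≃ₗᵢ[ℝ] E3} {w w' : Site} (h : w.map g = w'.map g) : w = w' := by
  have h1 := congrArg (fun u => Site.map g⁻¹ u) h
  simp only [map_map, inv_mul_cancel] at h1
  have h2 : ∀ u : Site, u.map 1 = u := fun u => h28_map_eq rfl
  rwa [h2, h2] at h1

/-- VALIDITY. -/
theorem valid {η : ℝ} {y : E3} (hS : OnS η y) {w w' : Site}
    (hne : w ≠ w') (h : Act w η y) (h' : Act w' η y) : w.q w' = 1 := by
  obtain ⟨g, hg, hgy⟩ := exists_mem_D y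
  have h1 := Act_map hg h
  have h1' := Act_map hg h'
  have hS1 := OnS_map g hS
  rw [← q_map g w w']
  have hne1 : w.map g ≠ w'.map g := fun e => hne (h28_map_inj e)
  rcases le_total 0 η with hη | hη
  · exact valid_D hS1 hη hgy hne1 h1 h1'
  · rw [← q_flip]
    refine valid_D (OnS_flip hS1) (by linarith) hgy (fun e => hne1 ?_) (Act_flip h1) (Act_flip h1')
    rw [← flip_flip (w.map g), e, flip_flip]

/-- An active site agrees near the point with its affine function. -/
theorem F_eq_lin {η : ℝ} {y : E3} (hS : OnS η y) {w : Site} (h : Act w η y) :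
    F w η y = w.lin η y := by
  rcases h.1 with (hC | hE) | hs
  · subst hC
    rw [h28_FC_ge (act_C hS h).le y]
    simp [Site.lin, wC]
  · have hE' : w = wE := hE
    subst hE'
    have h1 := act_E hS h
    rw [F_E, max_eq_left (by linarith)]
    simp [Site.lin, wE]
  · exact F_small hs _ _

/-- For the chamber: the active sites among the six. -/
theorem act_six {η : ℝ} {y : E3} (hη : 0 ≤ η) (hy : y ∈ D) (i : Fin 6) :
    Act (six i) η y ↔ ∀ j, F (six j) η y ≤ F (six i) η y := by
  constructor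
  · intro h j
    exact h.2 _ (six_mem j)
  · intro h
    refine ⟨six_mem i, fun w hw => ?_⟩
    obtain ⟨j, hj⟩ := max6 hη hy hw
    exact hj.trans (h j)

end Kus64
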