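import Pool.Agent.helper64.Kus.D2

/-!
# E1: centres of the cells and segment lemmas 

`up y = √(1-‖y‖²)` is the height of the upper point over `y` in the unit ball.

CENTRES.  At `(0, v̂)`, `v̂ = v/t`, of a column rep `w` (`‖v‖ = t`): `lin w = 0`.
 Another rep column `w'`: `inner v' v̂ - t' = (t t' - 1/2)/t - t' = -1/(2t) < 0`.  `wa2` at `v̂310`:
 `(s2 ys - ta2 t1)/t1 < 0`, etc.: just use the approximations C1 at the three points
 (`v̂310 ≈ (0,.298477,.954416)`, `v̂220 = (0,0,1)`, `v̂211 ≈ (.266536,.156507,.951033)`) : all other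
 five functions are `< -0.1` there (`F wC = -7/10`).  `v̂ ∈ D`, so every site `r.map g` is
 `≤ r.lin < 0` if `r ≠ w` (`lin_map_le`), and for `r = w`, `w.map g ≠ w`: `inner (g v) v̂ < t` strictly
 (`inner_lt_one_iff_real_of_norm_one` / Cauchy-Schwarz equality).  `wE`: `-7/10`.
 At `(0, ξ)`: `wa2.lin = s2 - ta2 ≈ -.03994`, `w310 ≈ -.10710`, `w220 ≈ -.4773`, `w211 ≈ -.3473`,
 `wa3 ≈ -.32599`, `F wC = -7/10`; for `wa2.map g ≠ wa2`: `s2 inner (g ξ) ξ - ta2 < s2 - ta2`.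
 At `(1, 0)`: `F wC = -1`, `F wE = -17/10`, small sites `≤ b3 - ta3` or `-t < -3`.
 `a3`: the point `(0.38, 0.92499 ξ)` (`r = √(1-.38²)`): `wa3 ≈ -.3169`, `w310 ≈ -.3564`,
 `wa2 ≈ -.4461`, `F wC = -.38`, `w220 ≈ -.6814`, `w211 ≈ -.56`; copies of `a3` at `gξ ≠ ξ` are
 strictly smaller, copies of `a1` too (`η > 0`).

SEGMENTS.  `y_s = (1-s) y0 + s y1` (`AffineMap.lineMap`/`(1-s)•y0+s•y1`).
 `up_concave`: `up y_s ≥ (1-s) up y0 + s up y1`: square, using
 `inner y0 y1 + up y0 * up y1 ≤ 1` (Cauchy-Schwarz in the sphere, `≤ (…)/2`).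
 `up_tangent`: `up y * up z + inner y z ≤ 1`.
 `avoidC`: put `L s = w.lin (up y_s) y_s`, `H s = L s + up y_s = (w.b+1) up y_s + affine`, concave in
 the sense `H((1-θ)a+θb) ≥ (1-θ) H a + θ H b`.  If `up y_s ≤ 7/20`: `‖y_s‖² ≥ 1-(7/20)²`, by `cover` a
 site with `b = 0` is `> -7/20`, so `L s > -7/20 ≥ F wC, F wE`.  If `up y_s > 7/20`: we find `a ≤ s`
 with `up y_a ≥ 7/20`, `H a > 0`: if `up y_0 ≤ 7/20` use the intermediate value theorem for `up` on
 `[0,s]`: `up y_a = 7/20`, and `cover` gives `H a > 0`; otherwise `a = 0`.  Same with `b ≥ s`.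
 Then `H s > 0`, i.e. `F wC = -up y_s < L s`; `F wE ≤ -(7/10) - up y_s < F wC`.
-/

open Set

namespace Kus64

/-- height over a point of the unit ball -/
noncomputable def up (y : E3) : ℝ := √(1 - ‖y‖ ^ 2)

theorem up_nonneg (y : E3) : 0 ≤ up y := Real.sqrt_nonneg _

theorem E1_one_sub {y : E3} (hy : ‖y‖ ≤ 1) : 0 ≤ 1 - ‖y‖ ^ 2 := by
  nlinarith [norm_nonneg y]

theorem up_sq {y : E3} (hy : ‖y‖ ≤ 1) : up y ^ 2 = 1 - ‖y‖ ^ 2 := by
  unfold up
  exact Real.sq_sqrt (E1_one_sub hy)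

theorem OnS_up {y : E3} (hy : ‖y‖ ≤ 1) : OnS (up y) y := by
  unfold OnS
  rw [up_sq hy]; ring

theorem up_eq {η : ℝ} {y : E3} (hS : OnS η y) (hη : 0 ≤ η) : up y = η := by
  unfold OnS at hS
  unfold up
  have h : 1 - ‖y‖ ^ 2 = η ^ 2 := by linarith
  rw [h, Real.sqrt_sq hη]

theorem up_tangent {y z : E3} (hy : ‖y‖ ≤ 1) (hz : ‖z‖ ≤ 1) : up y * up z + inner ℝ y z ≤ 1 := by
  have h1 : inner ℝ y z ≤ ‖y‖ * ‖z‖ := real_inner_le_norm y z
  have h2 := up_sq hy
  have h3 := up_sq hz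
  nlinarith [sq_nonneg (up y - up z), sq_nonneg (‖y‖ - ‖z‖)]

theorem E1_norm_seg (y z : E3) (θ : ℝ) :
    ‖(1 - θ) • y + θ • z‖ ^ 2
      = (1 - θ) ^ 2 * ‖y‖ ^ 2 + 2 * ((1 - θ) * θ * inner ℝ y z) + θ ^ 2 * ‖z‖ ^ 2 := by
  rw [norm_add_sq_real, inner_smul_left, inner_smul_right, norm_smul, norm_smul, mul_pow, mul_pow]
  simp only [Real.norm_eq_abs, sq_abs, conj_trivial]
  ring

theorem up_concave {y z : E3} (hy : ‖y‖ ≤ 1) (hz : ‖z‖ ≤ 1) {θ : ℝ} (hθ : θ ∈ Icc (0 : ℝ) 1) :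
    (1 - θ) * up y + θ * up z ≤ up ((1 - θ) • y + θ • z) := by
  obtain ⟨h0, h1⟩ := hθ
  apply Real.le_sqrt_of_sq_le
  rw [E1_norm_seg]
  have h2 := up_sq hy
  have h3 := up_sq hz
  have h4 := up_tangent hy hz
  have h5 : 0 ≤ θ * (1 - θ) := mul_nonneg h0 (by linarith)
  have h6 : θ * (1 - θ) * (up y * up z + inner ℝ y z) ≤ θ * (1 - θ) * 1 :=
    mul_le_mul_of_nonneg_left h4 h5
  have h7 : ((1 - θ) * up y + θ * up z) ^ 2
      = (1 - θ) ^ 2 * up y ^ 2 + 2 * (θ * (1 - θ) * (up y * up z)) + θ ^ 2 * up z ^ 2 := by ring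
  rw [h7, h2, h3]
  nlinarith [h6]

theorem up_cont : Continuous up := by
  unfold up
  exact Real.continuous_sqrt.comp (continuous_const.sub (continuous_norm.pow 2))

/-- `c` is a centre of `S`: every other point of `S` is joined to `c` inside `S` by a path which
meets `c` only at its end. -/
def Star (S : Set (ℝ × E3)) (c : ℝ × E3) : Prop :=
  c ∈ S ∧ ∀ p ∈ S, p ≠ c → ∃ γ : ℝ → ℝ × E3, ContinuousOn γ (Icc 0 1) ∧ γ 0 = p ∧ γ 1 = c ∧
    (∀ r ∈ Icc (0 : ℝ) 1, γ r ∈ S) ∧ ∀ r ∈ Ico (0 : ℝ) 1, γ r ≠ c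

/-! ### Centres -/

theorem E1_mem_D {r : Site} (hr : r ∈ reps) : r.v ∈ D := by
  unfold reps at hr
  simp only [mem_insert_iff, mem_singleton_iff] at hr
  rcases hr with rfl | rfl | rfl | rfl | rfl | rfl
  · exact w310_mem
  · exact w220_mem
  · exact w211_mem
  · exact wa2_mem
  · exact wa3_mem
  · exact wa3_mem

theorem E1_D_smul {c : ℝ} (hc : 0 ≤ c) {v : E3} (hv : v ∈ D) : c • v ∈ D := by
  intro i
  rw [inner_smul_right]
  exact mul_nonneg hc (hv i)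

theorem E1_inner_lt {g : E3 ≃ₗᵢ[ℝ] E3} {v : E3} (h : g v ≠ v) :
    inner ℝ (g v) v < ‖v‖ ^ 2 := by
  have hv : ‖v‖ ≠ 0 := by
    intro h0
    rw [norm_eq_zero] at h0
    apply h
    rw [h0, map_zero]
  have h1 : inner ℝ (g v) v < ‖g v‖ * ‖v‖ := by
    rw [inner_lt_norm_mul_iff_real]
    rw [LinearIsometryEquiv.norm_map]
    intro h2
    exact h (smul_right_injective E3 hv h2)
  rw [LinearIsometryEquiv.norm_map] at h1
  rw [sq]
  exact h1

theorem centre_of {r : Site} (hr : r ∈ reps) {c η : ℝ} (hc : 0 < c)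
    (hS : OnS η (c • r.v)) (hC : F wC η (c • r.v) < r.lin η (c • r.v))
    (hE : F wE η (c • r.v) < r.lin η (c • r.v))
    (h : ∀ r' ∈ reps, r' ≠ r → r'.lin η (c • r.v) < r.lin η (c • r.v)) :
    (η, c • r.v) ∈ cellS r := by
  have hD : c • r.v ∈ D := E1_D_smul hc.le (E1_mem_D hr)
  refine ⟨hS, ?_⟩
  intro w' hw' hne
  simp only
  rw [F_small (reps_subset hr)]
  unfold Sites at hw'
  rcases hw' with hw' | hw'
  · simp only [mem_insert_iff, mem_singleton_iff] at hw'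
    rcases hw' with rfl | rfl
    · exact hC
    · exact hE
  · rw [F_small hw']
    obtain ⟨g, hg, r', hr', rfl⟩ := hw'
    by_cases hrr : r' = r
    · subst hrr
      have hgv : g r'.v ≠ r'.v := by
        intro h1
        apply hne
        unfold Site.map
        rw [h1]
      have h2 := E1_inner_lt hgv
      unfold Site.lin Site.map
      simp only
      rw [inner_smul_right, inner_smul_right, real_inner_self_eq_norm_sq]
      have h3 : c * inner ℝ (g r'.v) r'.v < c * ‖r'.v‖ ^ 2 := mul_lt_mul_of_pos_left h2 hc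
      linarith
    · exact lt_of_le_of_lt (lin_map_le hg hr' hD) (h r' hr' hrr)

theorem E1_FC0 (y : E3) : F wC 0 y = -(7 / 10) := by
  rw [F_C]; norm_num

theorem E1_FE0 (y : E3) : F wE 0 y = -(7 / 10) := by
  rw [F_E]; norm_num

theorem E1_wa1_zero (y : E3) : wa1.lin 0 y = wa3.lin 0 y := by
  unfold Site.lin wa1 wa3
  simp

theorem E1_t_pos : 0 < t1 ∧ 0 < t2 ∧ 0 < t3 := by
  have h1 := abs_le.1 enc_t1
  have h2 := abs_le.1 enc_t2
  have h3 := abs_le.1 enc_t3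
  refine ⟨?_, ?_, ?_⟩ <;> linarith [h1.1, h2.1, h3.1]

theorem E1_310_ne : w310 ≠ w220 ∧ w310 ≠ w211 ∧ w310 ≠ wa2 ∧ w310 ≠ wa3 ∧ w310 ≠ wa1 := by
  have h1 := abs_le.1 enc_t1
  have h2 := abs_le.1 enc_t2
  have h3 := abs_le.1 enc_t3
  have h4 := abs_le.1 enc_ta2
  have h5 := abs_le.1 enc_ta3
  refine ⟨?_, ?_, ?_, ?_, ?_⟩ <;> intro h <;> have h' := congrArg Site.t h <;>
    simp only [w310, w220, w211, wa2, wa3, wa1] at h' <;>
    linarith [h1.1, h2.1, h3.1, h1.2, h2.2, h3.2, h4.1, h4.2, h5.1, h5.2]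

theorem E1_norm_col {v : E3} {t : ℝ} (ht : 0 < t) (hv : ‖v‖ = t) : ‖t⁻¹ • v‖ = 1 := by
  rw [norm_smul, hv, norm_inv, Real.norm_eq_abs, abs_of_pos ht]
  exact inv_mul_cancel₀ ht.ne'

theorem E1_lin_col {r : Site} (hb : r.b = 0) (ht : 0 < r.t) (hv : ‖r.v‖ = r.t) (η : ℝ) :
    r.lin η (r.t⁻¹ • r.v) = 0 := by
  unfold Site.lin
  rw [hb, inner_smul_right, real_inner_self_eq_norm_sq, hv]
  field_simp
  ring

theorem centre_310 : ((0 : ℝ), t1⁻¹ • w310.v) ∈ cellS w310 := by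
  have ht := E1_t_pos.1
  have e1 := abs_le.1 enc_t1
  have ey := abs_le.1 enc_y1
  have ez := abs_le.1 enc_z1
  have hn : ‖t1⁻¹ • w310.v‖ = 1 := E1_norm_col ht norm_v310
  have hl : w310.lin 0 (t1⁻¹ • w310.v) = 0 := E1_lin_col (r := w310) rfl ht norm_v310 0
  have c0 : (t1⁻¹ • w310.v) 0 = 0 := by simp [w310]
  have c1 : (t1⁻¹ • w310.v) 1 = t1⁻¹ * y1 := by simp [w310]
  have c2 : (t1⁻¹ • w310.v) 2 = t1⁻¹ * z1 := by simp [w310]
  have b1 : (t1⁻¹ • w310.v) 1 ≤ 0.2985 := by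
    rw [c1, inv_mul_le_iff₀ ht]
    linarith [e1.1, ey.2]
  have b2 : (t1⁻¹ • w310.v) 2 ≤ 0.9545 := by
    rw [c2, inv_mul_le_iff₀ ht]
    linarith [e1.1, ez.2]
  have a2 := abs_le.1 (app220 (η := 0) hn.le)
  have a3 := abs_le.1 (app211 (η := 0) hn.le)
  have a4 := abs_le.1 (appa2 (η := 0) hn.le)
  have a5 := abs_le.1 (appa3 (η := 0) (by norm_num) hn.le)
  rw [c0] at a3
  refine centre_of (by simp [reps]) (inv_pos.2 ht) ?_ ?_ ?_ ?_
  · unfold OnS; rw [hn]; norm_num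
  · rw [E1_FC0, hl]; norm_num
  · rw [E1_FE0, hl]; norm_num
  · intro r' hr' hne
    rw [hl]
    unfold reps at hr'
    simp only [mem_insert_iff, mem_singleton_iff] at hr'
    rcases hr' with rfl | rfl | rfl | rfl | rfl | rfl
    · exact absurd rfl hne
    · linarith [a2.2]
    · linarith [a3.2]
    · linarith [a4.2]
    · linarith [a5.2]
    · rw [E1_wa1_zero]; linarith [a5.2]

theorem E1_ax2 : ax2 = t2⁻¹ • w220.v := by
  have ht := E1_t_pos.2.1
  ext i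
  fin_cases i <;> simp [ax2, w220, ht.ne']

theorem centre_220 : ((0 : ℝ), ax2) ∈ cellS w220 := by
  rw [E1_ax2]
  have ht := E1_t_pos.2.1
  have hn : ‖t2⁻¹ • w220.v‖ = 1 := E1_norm_col ht norm_v220
  have hl : w220.lin 0 (t2⁻¹ • w220.v) = 0 := E1_lin_col (r := w220) rfl ht norm_v220 0
  have c0 : (t2⁻¹ • w220.v) 0 = 0 := by simp [w220]
  have c1 : (t2⁻¹ • w220.v) 1 = 0 := by simp [w220]
  have c2 : (t2⁻¹ • w220.v) 2 = 1 := by simp [w220, ht.ne']
  have a2 := abs_le.1 (app310 (η := 0) hn.le)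
  have a3 := abs_le.1 (app211 (η := 0) hn.le)
  have a4 := abs_le.1 (appa2 (η := 0) hn.le)
  have a5 := abs_le.1 (appa3 (η := 0) (by norm_num) hn.le)
  rw [c1, c2] at a2 a4 a5
  rw [c0, c1, c2] at a3
  refine centre_of (by simp [reps]) (inv_pos.2 ht) ?_ ?_ ?_ ?_
  · unfold OnS; rw [hn]; norm_num
  · rw [E1_FC0, hl]; norm_num
  · rw [E1_FE0, hl]; norm_num
  · intro r' hr' hne
    rw [hl]
    unfold reps at hr'
    simp only [mem_insert_iff, mem_singleton_iff] at hr'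
    rcases hr' with rfl | rfl | rfl | rfl | rfl | rfl
    · linarith [a2.2]
    · exact absurd rfl hne
    · linarith [a3.2]
    · linarith [a4.2]
    · linarith [a5.2]
    · rw [E1_wa1_zero]; linarith [a5.2]

theorem centre_211 : ((0 : ℝ), t3⁻¹ • w211.v) ∈ cellS w211 := by
  have ht := E1_t_pos.2.2
  have e1 := abs_le.1 enc_t3
  have ex := abs_le.1 enc_x3
  have ez := abs_le.1 enc_z3
  have hn : ‖t3⁻¹ • w211.v‖ = 1 := E1_norm_col ht norm_v211
  have hl : w211.lin 0 (t3⁻¹ • w211.v) = 0 := E1_lin_col (r := w211) rfl ht norm_v211 0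
  have c1 : (t3⁻¹ • w211.v) 1 = t3⁻¹ * (1 / 2) := by simp [w211]
  have c2 : (t3⁻¹ • w211.v) 2 = t3⁻¹ * z3 := by simp [w211]
  have b1 : (t3⁻¹ • w211.v) 1 ≤ 0.1566 := by
    rw [c1, inv_mul_le_iff₀ ht]
    linarith [e1.1]
  have b2 : (t3⁻¹ • w211.v) 2 ≤ 0.9511 := by
    rw [c2, inv_mul_le_iff₀ ht]
    linarith [e1.1, ez.2]
  have a2 := abs_le.1 (app220 (η := 0) hn.le)
  have a3 := abs_le.1 (app310 (η := 0) hn.le)
  have a4 := abs_le.1 (appa2 (η := 0) hn.le)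
  have a5 := abs_le.1 (appa3 (η := 0) (by norm_num) hn.le)
  refine centre_of (by simp [reps]) (inv_pos.2 ht) ?_ ?_ ?_ ?_
  · unfold OnS; rw [hn]; norm_num
  · rw [E1_FC0, hl]; norm_num
  · rw [E1_FE0, hl]; norm_num
  · intro r' hr' hne
    rw [hl]
    unfold reps at hr'
    simp only [mem_insert_iff, mem_singleton_iff] at hr'
    rcases hr' with rfl | rfl | rfl | rfl | rfl | rfl
    · linarith [a3.2]
    · linarith [a2.2]
    · exact absurd rfl hne
    · linarith [a4.2]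
    · linarith [a5.2]
    · rw [E1_wa1_zero]; linarith [a5.2]

theorem E1_sqrt_bounds : 1.902112 < √(1 + φ ^ 2) ∧ √(1 + φ ^ 2) < 1.902114 := by
  have h := φ_bounds
  have h2 := φ_sq
  constructor
  · apply Real.lt_sqrt_of_sq_lt
    rw [h2]
    norm_num
    linarith [h.1]
  · rw [Real.sqrt_lt' (by norm_num), h2]
    norm_num
    linarith [h.2]

theorem E1_ξ0 : ξ 0 = 0 := by simp [ξ, ax5]
theorem E1_ξ1 : 0.5257 ≤ ξ 1 ∧ ξ 1 ≤ 0.5258 := by
  have h := E1_sqrt_bounds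
  have hpos : 0 < √(1 + φ ^ 2) := by linarith [h.1]
  have e : ξ 1 = (√(1 + φ ^ 2))⁻¹ * 1 := by simp [ξ, ax5]
  rw [e]
  constructor
  · rw [le_inv_mul_iff₀ hpos]; linarith [h.2]
  · rw [inv_mul_le_iff₀ hpos]; linarith [h.1]
theorem E1_ξ2 : 0.8506 ≤ ξ 2 ∧ ξ 2 ≤ 0.8507 := by
  have h := E1_sqrt_bounds
  have hφ := φ_bounds
  have hpos : 0 < √(1 + φ ^ 2) := by linarith [h.1]
  have e : ξ 2 = (√(1 + φ ^ 2))⁻¹ * φ := by simp [ξ, ax5]
  rw [e]
  constructor
  · rw [le_inv_mul_iff₀ hpos]; linarith [h.2, hφ.1]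
  · rw [inv_mul_le_iff₀ hpos]; linarith [h.1, hφ.2]

theorem E1_lina2_ξ (η c : ℝ) : wa2.lin η (c • ξ) = s2 * c - ta2 := by
  unfold Site.lin wa2
  simp only
  rw [inner_smul_left, inner_smul_right, real_inner_self_eq_norm_sq, norm_ξ]
  simp

theorem E1_lina3_ξ (η c : ℝ) : wa3.lin η (c • ξ) = b3 * η + s3 * c - ta3 := by
  unfold Site.lin wa3
  simp only
  rw [inner_smul_left, inner_smul_right, real_inner_self_eq_norm_sq, norm_ξ]
  simp

theorem E1_lina1_ξ (η c : ℝ) : wa1.lin η (c • ξ) = -b3 * η + s3 * c - ta3 := by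
  unfold Site.lin wa1
  simp only
  rw [inner_smul_left, inner_smul_right, real_inner_self_eq_norm_sq, norm_ξ]
  simp

theorem centre_a2 : ((0 : ℝ), ξ) ∈ cellS wa2 := by
  have es := abs_le.1 enc_s2
  have et := abs_le.1 enc_ta2
  have es3 := abs_le.1 enc_s3
  have et3 := abs_le.1 enc_ta3
  have hs2 : 0 < s2 := by linarith [es.1]
  have hx : ξ = s2⁻¹ • wa2.v := by
    unfold wa2
    simp only
    rw [smul_smul, inv_mul_cancel₀ hs2.ne', one_smul]
  have hn : ‖ξ‖ = 1 := norm_ξ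
  have hl : wa2.lin 0 ξ = s2 - ta2 := by
    have := E1_lina2_ξ 0 1
    rw [one_smul] at this
    rw [this]; ring
  have hl3 : wa3.lin 0 ξ = s3 - ta3 := by
    have := E1_lina3_ξ 0 1
    rw [one_smul] at this
    rw [this]; ring
  have a2 := abs_le.1 (app220 (η := 0) hn.le)
  have a3 := abs_le.1 (app310 (η := 0) hn.le)
  have a4 := abs_le.1 (app211 (η := 0) hn.le)
  rw [E1_ξ0] at a4
  have k1 := E1_ξ1
  have k2 := E1_ξ2
  have key : ((0 : ℝ), s2⁻¹ • wa2.v) ∈ cellS wa2 := by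
    refine centre_of (by simp [reps]) (inv_pos.2 hs2) ?_ ?_ ?_ ?_
    · rw [← hx]; unfold OnS; rw [hn]; norm_num
    · rw [← hx, E1_FC0, hl]; linarith [es.1, et.2]
    · rw [← hx, E1_FE0, hl]; linarith [es.1, et.2]
    · intro r' hr' hne
      rw [← hx, hl]
      unfold reps at hr'
      simp only [mem_insert_iff, mem_singleton_iff] at hr'
      rcases hr' with rfl | rfl | rfl | rfl | rfl | rfl
      · linarith [a3.2, es.1, et.2, k1.2, k2.2]
      · linarith [a2.2, es.1, et.2, k1.2, k2.2]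
      · linarith [a4.2, es.1, et.2, k1.2, k2.2]
      · exact absurd rfl hne
      · rw [hl3]; linarith [es.1, et.2, es3.2, et3.1]
      · rw [E1_wa1_zero, hl3]; linarith [es.1, et.2, es3.2, et3.1]
  rw [← hx] at key
  exact key

theorem centre_a3 : ∃ c, c ∈ cellS wa3 := by
  refine ⟨((5 / 13 : ℝ), (12 / 13 : ℝ) • ξ), ?_⟩
  have es := abs_le.1 enc_s2
  have et := abs_le.1 enc_ta2
  have es3 := abs_le.1 enc_s3
  have et3 := abs_le.1 enc_ta3
  have eb3 := abs_le.1 enc_b3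
  have hs3 : 0 < s3 := by linarith [es3.1]
  have hx : (12 / 13 : ℝ) • ξ = ((12 / 13) * s3⁻¹) • wa3.v := by
    unfold wa3
    simp only
    rw [smul_smul, mul_assoc, inv_mul_cancel₀ hs3.ne', mul_one]
  have hn : ‖(12 / 13 : ℝ) • ξ‖ = 12 / 13 := by
    rw [norm_smul, norm_ξ]; norm_num
  have hn1 : ‖(12 / 13 : ℝ) • ξ‖ ≤ 1 := by rw [hn]; norm_num
  have hl3 := E1_lina3_ξ (5 / 13) (12 / 13)
  have hl1 := E1_lina1_ξ (5 / 13) (12 / 13)
  have hl2 := E1_lina2_ξ (5 / 13) (12 / 13)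
  have k1 := E1_ξ1
  have k2 := E1_ξ2
  have c0 : ((12 / 13 : ℝ) • ξ) 0 = 0 := by
    rw [PiLp.smul_apply, E1_ξ0]; simp
  have c1 : ((12 / 13 : ℝ) • ξ) 1 = 12 / 13 * ξ 1 := by
    rw [PiLp.smul_apply]; simp
  have c2 : ((12 / 13 : ℝ) • ξ) 2 = 12 / 13 * ξ 2 := by
    rw [PiLp.smul_apply]; simp
  have a2 := abs_le.1 (app220 (η := 5 / 13) hn1)
  have a3 := abs_le.1 (app310 (η := 5 / 13) hn1)
  have a4 := abs_le.1 (app211 (η := 5 / 13) hn1)
  rw [c2] at a2
  rw [c1, c2] at a3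
  rw [c0, c1, c2] at a4
  have key : ((5 / 13 : ℝ), ((12 / 13) * s3⁻¹) • wa3.v) ∈ cellS wa3 := by
    refine centre_of (by simp [reps]) (mul_pos (by norm_num) (inv_pos.2 hs3)) ?_ ?_ ?_ ?_
    · rw [← hx]; unfold OnS; rw [hn]; norm_num
    · rw [← hx, F_C, hl3]
      have : max (5 / 13 : ℝ) (7 / 10 - 5 / 13) = 5 / 13 := by norm_num
      rw [this]
      linarith [es3.1, et3.2, eb3.1]
    · rw [← hx, F_E, hl3]
      have : max (-(5 / 13) : ℝ) (7 / 10 + 5 / 13) = 141 / 130 := by norm_num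
      rw [this]
      linarith [es3.1, et3.2, eb3.1]
    · intro r' hr' hne
      rw [← hx, hl3]
      unfold reps at hr'
      simp only [mem_insert_iff, mem_singleton_iff] at hr'
      rcases hr' with rfl | rfl | rfl | rfl | rfl | rfl
      · linarith [a3.2, es3.1, et3.2, eb3.1, k1.2, k2.2]
      · linarith [a2.2, es3.1, et3.2, eb3.1, k1.2, k2.2]
      · linarith [a4.2, es3.1, et3.2, eb3.1, k1.2, k2.2]
      · rw [hl2]; linarith [es.2, et.1, es3.1, et3.2, eb3.1]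
      · exact absurd rfl hne
      · rw [hl1]; linarith [eb3.1]
  rw [← hx] at key
  exact key

theorem centre_C : ((1 : ℝ), (0 : E3)) ∈ cellS wC := by
  have eb3 := abs_le.1 enc_b3
  refine ⟨?_, ?_⟩
  · unfold OnS; simp
  · intro w' hw' hne
    simp only
    have hFC : F wC 1 0 = -1 := by rw [F_C]; norm_num
    rw [hFC]
    unfold Sites at hw'
    rcases hw' with hw' | hw'
    · simp only [mem_insert_iff, mem_singleton_iff] at hw'
      rcases hw' with rfl | rfl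
      · exact absurd rfl hne
      · rw [F_E]; norm_num
    · rw [F_small hw']
      have ht := Small_t hw'
      unfold Site.lin
      rw [inner_zero_right]
      rcases Small_b hw' with hb | hb | hb
      · rw [hb]; linarith
      · rw [hb]; linarith [eb3.2]
      · rw [hb]; linarith [eb3.1]

/-! ### Segments -/

theorem E1_ball {y z : E3} (hy : ‖y‖ ≤ 1) (hz : ‖z‖ ≤ 1) {θ : ℝ} (hθ : θ ∈ Icc (0 : ℝ) 1) :
    ‖(1 - θ) • y + θ • z‖ ≤ 1 := by
  have h1 : ‖(1 - θ) • y + θ • z‖ ≤ ‖(1 - θ) • y‖ + ‖θ • z‖ := norm_add_le _ _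
  rw [norm_smul, norm_smul, Real.norm_eq_abs, Real.norm_eq_abs,
    abs_of_nonneg (by linarith [hθ.2] : (0 : ℝ) ≤ 1 - θ), abs_of_nonneg hθ.1] at h1
  have h2 : (1 - θ) * ‖y‖ ≤ (1 - θ) * 1 := mul_le_mul_of_nonneg_left hy (by linarith [hθ.2])
  have h3 : θ * ‖z‖ ≤ θ * 1 := mul_le_mul_of_nonneg_left hz hθ.1
  linarith

theorem E1_seg {w : Site} (hb : 0 ≤ w.b) {p q : E3} (hp : ‖p‖ ≤ 1) (hq : ‖q‖ ≤ 1)
    (h1 : -up p < w.lin (up p) p) (h2 : -up q < w.lin (up q) q) {τ : ℝ}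
    (hτ : τ ∈ Icc (0 : ℝ) 1) :
    -up ((1 - τ) • p + τ • q) <
      w.lin (up ((1 - τ) • p + τ • q)) ((1 - τ) • p + τ • q) := by
  have hc := up_concave hp hq hτ
  unfold Site.lin at *
  rw [inner_add_right, inner_smul_right, inner_smul_right]
  have hb1 : 0 < w.b + 1 := by linarith
  have h3 := mul_le_mul_of_nonneg_left hc hb1.le
  have h4 : 0 < (w.b + 1) * up p + inner ℝ w.v p - w.t := by linarith
  have h5 : 0 < (w.b + 1) * up q + inner ℝ w.v q - w.t := by linarith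
  have h6 : 0 < (1 - τ) * ((w.b + 1) * up p + inner ℝ w.v p - w.t)
      + τ * ((w.b + 1) * up q + inner ℝ w.v q - w.t) := by
    rcases eq_or_lt_of_le hτ.1 with h0 | h0
    · rw [← h0]; simpa using h4
    · have : 0 ≤ (1 - τ) * ((w.b + 1) * up p + inner ℝ w.v p - w.t) :=
        mul_nonneg (by linarith [hτ.2]) h4.le
      have := mul_pos h0 h5
      linarith
  nlinarith [h3, h6]

theorem E1_low {w : Site} {p : E3} (hp : ‖p‖ ≤ 1) (hu : up p ≤ 7 / 20)
    (hsm : ∀ w' ∈ Small, w'.b = 0 → w'.lin (up p) p ≤ w.lin (up p) p) :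
    -(7 / 20) < w.lin (up p) p := by
  have h1 : 1 - (7 / 20 : ℝ) ^ 2 ≤ ‖p‖ ^ 2 := by
    have := up_sq hp
    have h0 := up_nonneg p
    nlinarith
  obtain ⟨w', hw', hb', hl⟩ := cover (κ := 7 / 20) (Or.inr rfl) h1 hp (up p)
  exact lt_of_lt_of_le hl (hsm w' hw' hb')

theorem avoidC {w : Site} (hw : w ∈ Small) (hb : 0 ≤ w.b) {y z : E3} (hy : ‖y‖ ≤ 1)
    (hz : ‖z‖ ≤ 1)
    (hsm : ∀ θ ∈ Icc (0 : ℝ) 1, ∀ w' ∈ Small, w'.b = 0 →
      w'.lin (up ((1 - θ) • y + θ • z)) ((1 - θ) • y + θ • z) ≤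
        w.lin (up ((1 - θ) • y + θ • z)) ((1 - θ) • y + θ • z))
    (hy' : up y ≤ 7 / 20 ∨ -up y < w.lin (up y) y)
    (hz' : up z ≤ 7 / 20 ∨ -up z < w.lin (up z) z) {θ : ℝ} (hθ : θ ∈ Icc (0 : ℝ) 1) :
    F wC (up ((1 - θ) • y + θ • z)) ((1 - θ) • y + θ • z) <
        w.lin (up ((1 - θ) • y + θ • z)) ((1 - θ) • y + θ • z) ∧
      F wE (up ((1 - θ) • y + θ • z)) ((1 - θ) • y + θ • z) <
        w.lin (up ((1 - θ) • y + θ • z)) ((1 - θ) • y + θ • z) := by
  rw [F_C, F_E]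
  by_cases hu : up ((1 - θ) • y + θ • z) ≤ 7 / 20
  · have h1 := E1_low (w := w) (E1_ball hy hz hθ) hu (hsm θ hθ)
    have h2 := le_max_right (up ((1 - θ) • y + θ • z)) (7 / 10 - up ((1 - θ) • y + θ • z))
    have h3 := le_max_right (-up ((1 - θ) • y + θ • z)) (7 / 10 + up ((1 - θ) • y + θ • z))
    have h4 := up_nonneg ((1 - θ) • y + θ • z)
    constructor <;> linarith
  · push Not at hu
    have hcont : Continuous fun a : ℝ => up ((1 - a) • y + a • z) :=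
      up_cont.comp (((continuous_const.sub continuous_id).smul continuous_const).add
        (continuous_id.smul continuous_const))
    -- a point on the left
    obtain ⟨a, ha, hHa⟩ : ∃ a ∈ Icc (0 : ℝ) θ,
        -up ((1 - a) • y + a • z) < w.lin (up ((1 - a) • y + a • z)) ((1 - a) • y + a • z) := by
      by_cases h0 : up y ≤ 7 / 20
      · have hiv := intermediate_value_Icc hθ.1 hcont.continuousOn
        have hmem : (7 / 20 : ℝ) ∈ Icc (up ((1 - (0 : ℝ)) • y + (0 : ℝ) • z))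
            (up ((1 - θ) • y + θ • z)) := by
          constructor
          · simpa using h0
          · exact hu.le
        obtain ⟨a, ha, hfa⟩ := hiv hmem
        refine ⟨a, ha, ?_⟩
        have ha' : a ∈ Icc (0 : ℝ) 1 := ⟨ha.1, ha.2.trans hθ.2⟩
        simp only at hfa
        have h1 := E1_low (w := w) (E1_ball hy hz ha') hfa.le (hsm a ha')
        rw [hfa] at h1 ⊢
        linarith
      · refine ⟨0, ⟨le_refl _, hθ.1⟩, ?_⟩
        rcases hy' with h | h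
        · exact absurd h h0
        · simpa using h
    obtain ⟨b, hb', hHb⟩ : ∃ b ∈ Icc θ (1 : ℝ),
        -up ((1 - b) • y + b • z) < w.lin (up ((1 - b) • y + b • z)) ((1 - b) • y + b • z) := by
      by_cases h0 : up z ≤ 7 / 20
      · have hiv := intermediate_value_Icc' hθ.2 hcont.continuousOn
        have hmem : (7 / 20 : ℝ) ∈ Icc (up ((1 - (1 : ℝ)) • y + (1 : ℝ) • z))
            (up ((1 - θ) • y + θ • z)) := by
          constructor
          · simpa using h0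
          · exact hu.le
        obtain ⟨a, ha, hfa⟩ := hiv hmem
        refine ⟨a, ha, ?_⟩
        have ha' : a ∈ Icc (0 : ℝ) 1 := ⟨hθ.1.trans ha.1, ha.2⟩
        simp only at hfa
        have h1 := E1_low (w := w) (E1_ball hy hz ha') hfa.le (hsm a ha')
        rw [hfa] at h1 ⊢
        linarith
      · refine ⟨1, ⟨hθ.2, le_refl _⟩, ?_⟩
        rcases hz' with h | h
        · exact absurd h h0
        · simpa using h
    have ha01 : a ∈ Icc (0 : ℝ) 1 := ⟨ha.1, ha.2.trans hθ.2⟩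
    have hb01 : b ∈ Icc (0 : ℝ) 1 := ⟨hθ.1.trans hb'.1, hb'.2⟩
    have hH : -up ((1 - θ) • y + θ • z) <
        w.lin (up ((1 - θ) • y + θ • z)) ((1 - θ) • y + θ • z) := by
      rcases eq_or_lt_of_le (ha.2.trans hb'.1) with hab | hab
      · have : θ = a := le_antisymm (hab ▸ hb'.1) ha.2
        rw [this]; exact hHa
      · set τ : ℝ := (θ - a) / (b - a) with hτ
        have hba : 0 < b - a := by linarith
        have hτ0 : τ ∈ Icc (0 : ℝ) 1 := by
          constructor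
          · exact div_nonneg (by linarith [ha.2]) hba.le
          · rw [hτ, div_le_one hba]; linarith [hb'.1]
        have hkey := E1_seg hb (E1_ball hy hz ha01) (E1_ball hy hz hb01) hHa hHb hτ0
        have hθτ : θ = (1 - τ) * a + τ * b := by
          rw [hτ]; field_simp; ring
        have hpt : (1 - τ) • ((1 - a) • y + a • z) + τ • ((1 - b) • y + b • z)
            = (1 - θ) • y + θ • z := by
          rw [hθτ]
          module
        rw [hpt] at hkey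
        exact hkey
    have h2 := le_max_left (up ((1 - θ) • y + θ • z)) (7 / 10 - up ((1 - θ) • y + θ • z))
    have h3 := le_max_right (-up ((1 - θ) • y + θ • z)) (7 / 10 + up ((1 - θ) • y + θ • z))
    constructor <;> linarith

end Kus64
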