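import Pool.Agent.helper64.Kus.E1

/-!
# E2: the cells of the columns `220` and `211` are star-shaped

`no_a3`: let `w ∈ {w220, w211}`, `0 ≤ η`, and `w` at least as good at `(η,y)` as every small site
with `b = 0`.  Choose `h ∈ G`, `h y ∈ D`.  `inner w.v (h y) ≥ inner (h w.v) (h y) = inner w.v y`
(`inner_le`), and the hypothesis for `w.map h⁻¹` gives `inner w.v y ≥ inner (h⁻¹ w.v) y
= inner w.v (h y)`; so `w.lin η y = w.lin η (h y)`.  Similarly `w310.lin η (h y)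
= (w310.map h⁻¹).lin η y ≤ w.lin η y = w.lin η (h y)`.  By `I5_220`/`I5_211` at `h y`:
`wa3.lin η (h y) < w.lin η (h y)`.  A small site with `b ≠ 0` is `wa3.map g` or `wa1.map g`; its
value at `y` is `≤ b3 η + s3 inner (g ξ) y - ta3 = b3 η + s3 inner (h g ξ) (h y) - ta3
≤ wa3.lin η (h y)` (`inner_le`).

STAR.  Let `p = (η,y) ∈ cellS w`, `w` one of the two, `v̂ = w.v/t`, centre `c = (0, v̂)`.
Suppose first `η ≥ 0`, `η = up y`.  `y_s = (1-s) y + s v̂`, `γ s = (up y_s, y_s)`.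
 * small `w' ≠ w` with `b = 0`: `lin` does not involve `η`; `s ↦ w.lin - w'.lin` is affine,
   positive at `s = 0` (`p ∈ cellS w`) and `s = 1` (`centre`), so positive.
 * small `w'` with `b ≠ 0`: `no_a3` at `y_s`.
 * `wC, wE`: `avoidC` (`p ∈ cellS w`: `F wC η y < w.lin`, which is `-η < w.lin` if `η > 7/20`).
 So `γ s ∈ cellS w`; `γ s = c` iff `y_s = v̂` iff `(1-s)(y - v̂) = 0`; `y = v̂` would give `η = 0`,
 `p = c`.
If `η < 0`: reflect (`cellS_flip`, `w.flip = w` as `b = 0`): `γ s = (-up y_s, y_s)`.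
-/

open Set

namespace Kus64

namespace E2h

theorem lin_map (w : Site) (g : E3 ≃ₗᵢ[ℝ] E3) (η : ℝ) (y : E3) :
    (w.map g).lin η (g y) = w.lin η y := by
  simp only [Site.lin, Site.map]
  rw [LinearIsometryEquiv.inner_map_map]

theorem lin_map_inv (w : Site) (g : E3 ≃ₗᵢ[ℝ] E3) (η : ℝ) (y : E3) :
    (w.map g⁻¹).lin η y = w.lin η (g y) := by
  rw [← lin_map w g⁻¹ η (g y)]
  congr 1
  change y = (g⁻¹ * g) y
  simp

/-- the hypotheses on `w` used below -/
theorem two_small {w : Site} (hw : w = w220 ∨ w = w211) : w ∈ Small ∧ w.b = 0 ∧ w.v ∈ D ∧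
    w.flip = w ∧ w ∈ reps := by
  rcases hw with h | h
  · subst h
    have h1 : w220 ∈ reps := by simp [reps]
    exact ⟨reps_subset h1, rfl, w220_mem, by simp [Site.flip, w220], h1⟩
  · subst h
    have h1 : w211 ∈ reps := by simp [reps]
    exact ⟨reps_subset h1, rfl, w211_mem, by simp [Site.flip, w211], h1⟩

end E2h

open E2h

theorem no_a3 {w : Site} (hw : w = w220 ∨ w = w211) {η : ℝ} {y : E3} (hS : OnS η y) (hη : 0 ≤ η)
    (h : ∀ w' ∈ Small, w'.b = 0 → w'.lin η y ≤ w.lin η y) :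
    ∀ w' ∈ Small, w'.b ≠ 0 → w'.lin η y < w.lin η y := by
  obtain ⟨hwS, hwb, hwD, _, hwr⟩ := two_small hw
  obtain ⟨k, hk, hkD⟩ := exists_mem_D y
  have hkinv : k⁻¹ ∈ G := G.inv_mem hk
  -- `w.lin η (k y) = w.lin η y`
  have e1 : w.lin η y ≤ w.lin η (k y) := by
    have h1 := lin_map_le hk hwr (η := η) hkD
    rwa [lin_map] at h1
  have e2 : w.lin η (k y) ≤ w.lin η y := by
    have h1 := h (w.map k⁻¹) (Small_map hkinv hwS) (by simpa [Site.map] using hwb)
    rwa [lin_map_inv] at h1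
  have h310r : w310 ∈ reps := by simp [reps]
  have e3 : w310.lin η (k y) ≤ w.lin η (k y) := by
    have h1 := h (w310.map k⁻¹) (Small_map hkinv (reps_subset h310r)) (by simp [Site.map, w310])
    rw [lin_map_inv] at h1
    exact h1.trans e1
  have e4 : wa3.lin η (k y) < w.lin η (k y) := by
    rcases hw with hw | hw
    · subst hw
      exact (I5_220 hkD (OnS_map k hS) hη e3).2
    · subst hw
      exact (I5_211 hkD (OnS_map k hS) hη e3).2
  intro w' hw' hb'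
  obtain ⟨g, hg, r, hr, rfl⟩ := hw'
  have hrb : r.b ≠ 0 := hb'
  have e5 : (r.map g).lin η y ≤ r.lin η (k y) := by
    have h1 := lin_map_le (G.mul_mem hk hg) hr (η := η) hkD
    rwa [← map_map, lin_map] at h1
  have hb3 : 0 ≤ b3 := by
    have h1 := enc_b3
    rw [abs_le] at h1
    linarith [h1.1]
  have e6 : r.lin η (k y) ≤ wa3.lin η (k y) := by
    simp only [reps, Set.mem_insert_iff, Set.mem_singleton_iff] at hr
    rcases hr with hr | hr | hr | hr | hr | hr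
    · exact absurd (by rw [hr]; rfl) hrb
    · exact absurd (by rw [hr]; rfl) hrb
    · exact absurd (by rw [hr]; rfl) hrb
    · exact absurd (by rw [hr]; rfl) hrb
    · rw [hr]
    · rw [hr]
      simp only [Site.lin, wa1, wa3]
      have : 0 ≤ b3 * η := mul_nonneg hb3 hη
      linarith
  linarith

namespace E2h

/-- For sites with `w.flip = w` and centres on the equator, upper points suffice. -/
theorem star_of_upper {w : Site} (hf : w.flip = w) {z : E3} (hc : ((0 : ℝ), z) ∈ cellS w)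
    (h : ∀ (η : ℝ) (y : E3), 0 ≤ η → (η, y) ∈ cellS w → (η, y) ≠ ((0 : ℝ), z) →
      ∃ γ : ℝ → ℝ × E3, ContinuousOn γ (Icc 0 1) ∧ γ 0 = (η, y) ∧ γ 1 = ((0 : ℝ), z) ∧
        (∀ r ∈ Icc (0 : ℝ) 1, γ r ∈ cellS w) ∧ ∀ r ∈ Ico (0 : ℝ) 1, γ r ≠ ((0 : ℝ), z)) :
    Star (cellS w) ((0 : ℝ), z) := by
  refine ⟨hc, ?_⟩
  rintro ⟨η, y⟩ hp hne
  by_cases hη : 0 ≤ η
  · exact h η y hη hp hne
  · have hη' : 0 ≤ -η := by linarith [not_le.mp hη]
    have hp' : (-η, y) ∈ cellS w := by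
      have := cellS_flip hp
      rwa [hf] at this
    have hne' : (-η, y) ≠ ((0 : ℝ), z) := by
      intro he
      rw [Prod.mk.injEq] at he
      apply hne
      rw [Prod.mk.injEq]
      exact ⟨by linarith [he.1], he.2⟩
    obtain ⟨γ, hγc, hγ0, hγ1, hγS, hγne⟩ := h (-η) y hη' hp' hne'
    refine ⟨fun r => (-(γ r).1, (γ r).2), ?_, ?_, ?_, ?_, ?_⟩
    · exact (hγc.fst.neg).prodMk hγc.snd
    · simp [hγ0]
    · simp [hγ1]
    · intro r hr
      have h1 := cellS_flip (hγS r hr)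
      rwa [hf] at h1
    · intro r hr he
      apply hγne r hr
      rw [Prod.mk.injEq] at he
      rw [Prod.ext_iff]
      exact ⟨by simpa using he.1, he.2⟩

theorem F_C_eq {η : ℝ} (hη : 7 / 20 ≤ η) (y : E3) : F wC η y = -η := by
  rw [F_C, max_eq_left (by linarith)]

theorem norm_le_of_OnS {η : ℝ} {y : E3} (h : OnS η y) : ‖y‖ ≤ 1 := by
  have h1 : η ^ 2 + ‖y‖ ^ 2 = 1 := h
  nlinarith [sq_nonneg η, norm_nonneg y]

theorem norm_seg {y z : E3} (hy : ‖y‖ ≤ 1) (hz : ‖z‖ ≤ 1) {θ : ℝ} (hθ : θ ∈ Icc (0 : ℝ) 1) :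
    ‖(1 - θ) • y + θ • z‖ ≤ 1 := by
  have h1 : 0 ≤ 1 - θ := by linarith [hθ.2]
  calc ‖(1 - θ) • y + θ • z‖ ≤ ‖(1 - θ) • y‖ + ‖θ • z‖ := norm_add_le _ _
    _ = (1 - θ) * ‖y‖ + θ * ‖z‖ := by
        rw [norm_smul, norm_smul, Real.norm_of_nonneg h1, Real.norm_of_nonneg hθ.1]
    _ ≤ (1 - θ) * 1 + θ * 1 :=
        add_le_add (mul_le_mul_of_nonneg_left hy h1) (mul_le_mul_of_nonneg_left hz hθ.1)
    _ = 1 := by ring

/-- sites with `b = 0`: the function is affine along segments -/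
theorem lin_seg {w : Site} (hb : w.b = 0) (η η1 η2 : ℝ) (y z : E3) (θ : ℝ) :
    w.lin η ((1 - θ) • y + θ • z) = (1 - θ) * w.lin η1 y + θ * w.lin η2 z := by
  simp only [Site.lin, hb, inner_add_right, inner_smul_right]
  ring

/-- the path over a segment -/
theorem seg_path {S : Set (ℝ × E3)} {η : ℝ} {y z : E3} (hS : OnS η y) (hη : 0 ≤ η)
    {ζ : ℝ} (hz : OnS ζ z) (hζ : 0 ≤ ζ) (hne : (η, y) ≠ (ζ, z))
    (h : ∀ θ ∈ Icc (0 : ℝ) 1, (up ((1 - θ) • y + θ • z), (1 - θ) • y + θ • z) ∈ S) :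
    ∃ γ : ℝ → ℝ × E3, ContinuousOn γ (Icc 0 1) ∧ γ 0 = (η, y) ∧ γ 1 = (ζ, z) ∧
      (∀ r ∈ Icc (0 : ℝ) 1, γ r ∈ S) ∧ ∀ r ∈ Ico (0 : ℝ) 1, γ r ≠ (ζ, z) := by
  refine ⟨fun θ => (up ((1 - θ) • y + θ • z), (1 - θ) • y + θ • z), ?_, ?_, ?_, h, ?_⟩
  · apply Continuous.continuousOn
    have h1 : Continuous fun θ : ℝ => (1 - θ) • y + θ • z := by fun_prop
    exact (up_cont.comp h1).prodMk h1
  · simp [up_eq hS hη]
  · simp [up_eq hz hζ]
  · intro r hr he
    have h2 : (1 - r) • y + r • z = z := congrArg Prod.snd he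
    have h3 : (1 - r) • (y - z) = 0 := by
      have : (1 - r) • (y - z) = ((1 - r) • y + r • z) - z := by
        rw [smul_sub, sub_smul 1 r z, one_smul]
        abel
      rw [this, h2, sub_self]
    rcases smul_eq_zero.mp h3 with h4 | h4
    · have := hr.2
      linarith
    · have h5 : y = z := sub_eq_zero.mp h4
      apply hne
      rw [h5] at hS ⊢
      have h6 := up_eq hS hη
      have h7 := up_eq hz hζ
      rw [← h6, ← h7]

theorem star_col {w : Site} (hw : w = w220 ∨ w = w211) {z : E3}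
    (hc : ((0 : ℝ), z) ∈ cellS w) : Star (cellS w) ((0 : ℝ), z) := by
  obtain ⟨hwS, hwb, hwD, hwf, hwr⟩ := two_small hw
  apply star_of_upper hwf hc
  intro η y hη hp hne
  have hSy : OnS η y := hp.1
  have hSz : OnS 0 z := hc.1
  have hy := norm_le_of_OnS hSy
  have hz := norm_le_of_OnS hSz
  apply seg_path hSy hη hSz le_rfl hne
  have hwC : w ≠ wC := fun he => wC_notin (he ▸ hwS)
  have hwE : w ≠ wE := fun he => wE_notin (he ▸ hwS)
  -- columns
  have hcol : ∀ θ ∈ Icc (0 : ℝ) 1, ∀ w' ∈ Small, w'.b = 0 → w' ≠ w →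
      w'.lin (up ((1 - θ) • y + θ • z)) ((1 - θ) • y + θ • z) <
        w.lin (up ((1 - θ) • y + θ • z)) ((1 - θ) • y + θ • z) := by
    intro θ hθ w' hw' hb' hne'
    rw [lin_seg hb' _ η 0, lin_seg hwb _ η 0]
    have h1 := hp.2 w' (Or.inr hw') hne'
    have h2 := hc.2 w' (Or.inr hw') hne'
    rw [F_small hw', F_small hwS] at h1 h2
    have h1' : 0 < w.lin η y - w'.lin η y := sub_pos.mpr h1
    have h2' : 0 < w.lin 0 z - w'.lin 0 z := sub_pos.mpr h2
    have h3 : 0 < (1 - θ) * (w.lin η y - w'.lin η y) + θ * (w.lin 0 z - w'.lin 0 z) := by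
      rcases eq_or_lt_of_le hθ.1 with h0 | h0
      · rw [← h0]
        simpa using h1'
      · have h4 : 0 ≤ (1 - θ) * (w.lin η y - w'.lin η y) :=
          mul_nonneg (by linarith [hθ.2]) h1'.le
        have h5 : 0 < θ * (w.lin 0 z - w'.lin 0 z) := mul_pos h0 h2'
        linarith
    linarith
  have hcol' : ∀ θ ∈ Icc (0 : ℝ) 1, ∀ w' ∈ Small, w'.b = 0 →
      w'.lin (up ((1 - θ) • y + θ • z)) ((1 - θ) • y + θ • z) ≤
        w.lin (up ((1 - θ) • y + θ • z)) ((1 - θ) • y + θ • z) := by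
    intro θ hθ w' hw' hb'
    by_cases hne' : w' = w
    · rw [hne']
    · exact (hcol θ hθ w' hw' hb' hne').le
  have hy' : up y ≤ 7 / 20 ∨ -up y < w.lin (up y) y := by
    rw [up_eq hSy hη]
    by_cases h1 : η ≤ 7 / 20
    · exact Or.inl h1
    · right
      have h2 := hp.2 wC (Or.inl (Or.inl rfl)) (Ne.symm hwC)
      rwa [F_C_eq (by linarith [not_le.mp h1]), F_small hwS] at h2
  have hz' : up z ≤ 7 / 20 ∨ -up z < w.lin (up z) z := by
    rw [up_eq hSz le_rfl]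
    left
    norm_num
  intro θ hθ
  have hseg := norm_seg hy hz hθ
  have hSs := OnS_up hseg
  refine ⟨hSs, ?_⟩
  intro w' hw' hne'
  have hCE := avoidC hwS (by rw [hwb]) hy hz hcol' hy' hz' hθ
  simp only
  rw [F_small hwS]
  rcases hw' with (hw' | hw') | hw'
  · rw [hw']
    exact hCE.1
  · rw [Set.mem_singleton_iff] at hw'
    rw [hw']
    exact hCE.2
  · rw [F_small hw']
    by_cases hb' : w'.b = 0
    · exact hcol θ hθ w' hw' hb' hne'
    · exact no_a3 hw hSs (up_nonneg _) (hcol' θ hθ) w' hw' hb'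

end E2h

theorem star_220 : Star (cellS w220) ((0 : ℝ), ax2) := star_col (Or.inl rfl) centre_220

theorem star_211 : Star (cellS w211) ((0 : ℝ), t3⁻¹ • w211.v) := star_col (Or.inr rfl) centre_211

end Kus64
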