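import Pool.Agent.helper64.Kus.E2

/-!
# E3: the cells of the columns `310` are star-shaped

`own_a3`: suppose `w310` is strictly better at `y` than every other small site with `b = 0`.  Then
`inner (g ξ) y ≤ inner ξ y` for all `g ∈ G`.  Proof: `h ∈ G`, `h y ∈ D`, `v1 = w310.v ∈ D`.
`inner v1 (h y) ≥ inner (h v1) (h y) = inner v1 y`, i.e. `inner (h⁻¹ v1) y ≥ inner v1 y`, so
`h⁻¹ v1 = v1` by strictness.  Then `inner (h⁻¹ ξ) v1 = inner ξ (h v1) = inner ξ v1`, and
`v1` is on the mirror of `α 0` only (`inner (α 1) v1 = y1 > 0`, `inner (α 2) v1 = 1/2`), so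
`inner_eq_one` gives `h⁻¹ ξ = ξ` or `h⁻¹ ξ = s 0 ξ = ξ`.  Finally
`inner (g ξ) y = inner (h g ξ) (h y) ≤ inner ξ (h y) = inner (h⁻¹ ξ) y = inner ξ y`.

STAR.  `p = (η,y) ∈ cellS w310`, `η ≥ 0` (the case `η < 0` by reflection as in E2), `v̂ = v1/t1`,
`y_s = (1-s)y + s v̂`, `γ s = (up y_s, y_s)`.  Sites with `b = 0`: affine as in E2; `wC, wE`:
`avoidC`.  Copies `wa3.map g` and `wa1.map g`: their value at `γ s` is
`≤ b3 (up y_s) + s3 inner ξ y_s - ta3 = wa3.lin (γ s)` by `own_a3` at `y_s`; so it remains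
 (*)  `h(s) := w310.lin y_s - wa3.lin (up y_s) y_s > 0` for all `s ∈ [0,1]`.
`h(s) = T - inner q y_s - b3 up y_s`, `T = ta3 - t1`, `q = s3 ξ - v1`; `h(0) > 0`.
 (a) if `up y_s ≤ .2158`: `wa3.lin < wa2.lin` (`I7`) `< w310.lin`.
 (b) if `up y_s > .2158`: let `a ≤ s` be `0` if `up y_0 ≥ .2158`, otherwise a point of `[0,s]` with
     `up y_a = .2158` (intermediate values).  Then `h(a) > 0` (by (a) in the second case), and
     `e := up y_a ≥ .2158`.  Put `y' = y_a`, `s' = (s-a)/(1-a)` so that `y_s = (1-s')y' + s' v̂`.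
     `up_tangent` with `(y', y_s)`: `up y_s ≤ (1 - inner y' y_s)/e
       = (1-s') e + s' (1 - inner y' v̂)/e`  (`1-‖y'‖² = e²`).  Hence
     `h(s) ≥ (1-s') h(a) + s' (T - inner q v̂ - b3 (1 - inner y' v̂)/e)`, and
     `T - inner q v̂ = ta3 - s3 ys/t1 = (1+2 b3)/(2 t1) ≥ .5317` (`a3_310_const`),
     `1 - inner y' v̂ = -w310.lin y'/t1`.  Bounds for `-w310.lin y'`:
       `e ≤ .29`: `< .29` by `cover` with `κ = .29` (and `w310` is the best site with `b = 0`), so
          `b3 (1 - inner y' v̂)/e ≤ 1.32493*.29/(3.43187*.2158) < .519`;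
       `.29 ≤ e ≤ .35`: `< .35` by `cover`, `≤ 1.32493*.35/(3.43187*.29) < .4660`;
       `e ≥ .35`: only if `a = 0`; `p ∈ cellS`: `-η < w310.lin` (for `e = η > 7/20`), so
          `≤ b3/t1 < .3861`.
     So `h(s) > 0`.
-/

open Set

namespace Kus64

open E2h

theorem own_a3 {y : E3} {η : ℝ}
    (h : ∀ w' ∈ Small, w'.b = 0 → w' ≠ w310 → w'.lin η y < w310.lin η y)
    {g : E3 ≃ₗᵢ[ℝ] E3} (hg : g ∈ G) : inner ℝ (g ξ) y ≤ inner ℝ ξ y := by
  obtain ⟨k, hk, hkD⟩ := exists_mem_D y
  have hkinv : k⁻¹ ∈ G := G.inv_mem hk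
  have h310r : w310 ∈ reps := by simp [reps]
  have hadj : ∀ u v : E3, inner ℝ (k⁻¹ u) v = inner ℝ u (k v) := by
    intro u v
    have h1 := LinearIsometryEquiv.inner_map_map k (k⁻¹ u) v
    rw [← h1]
    congr 1
    change (k * k⁻¹) u = u
    simp
  have h1 : inner ℝ w310.v y ≤ inner ℝ w310.v (k y) := by
    have h2 := inner_le w310_mem hkD hk
    rwa [LinearIsometryEquiv.inner_map_map] at h2
  have hfix : w310.map k⁻¹ = w310 := by
    by_contra hne
    have h2 := h (w310.map k⁻¹) (Small_map hkinv (reps_subset h310r)) (by simp [Site.map, w310]) hne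
    have h3 : inner ℝ (k⁻¹ w310.v) y < inner ℝ w310.v y := by
      simp only [Site.lin, Site.map] at h2
      linarith
    rw [hadj] at h3
    linarith
  have hfix1 : k⁻¹ w310.v = w310.v := congrArg Site.v hfix
  have hfix2 : k w310.v = w310.v := by
    conv_rhs => rw [← show (k * k⁻¹) w310.v = w310.v by simp]
    change k w310.v = k (k⁻¹ w310.v)
    rw [hfix1]
  have hξ : k⁻¹ ξ = ξ := by
    have h2 : inner ℝ (k⁻¹ ξ) w310.v = inner ℝ ξ w310.v := by rw [hadj, hfix2]
    have hpos : ∀ i : Fin 3, i ≠ 0 → 0 < inner ℝ (α i) w310.v := by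
      have h3 := y1_mem.1
      have h4 := abs_le.1 enc_z1
      have h5 := φ_bounds
      intro i hi
      fin_cases i
      · exact absurd rfl hi
      · change 0 < inner ℝ (α 1) w310.v
        rw [inner_α1]
        change 0 < y1
        linarith
      · change 0 < inner ℝ (α 2) w310.v
        rw [inner_α2]
        change 0 < -φ / 2 * 0 - 1 / 2 * y1 + (φ - 1) / 2 * z1
        have h6 : (0.618 : ℝ) * 3.2 ≤ (φ - 1) * z1 :=
          mul_le_mul (by linarith) (by linarith) (by norm_num) (by linarith)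
        have h7 := y1_mem.2
        linarith
    have hs0 : s 0 ξ = ξ := by
      have := h28_s0_ξ 1
      simpa using this
    rcases inner_eq_one ξ_mem w310_mem hkinv h2 0 hpos with h3 | h3
    · exact h3
    · rw [h3, hs0]
  have e1 : inner ℝ (g ξ) y = inner ℝ ((k * g) ξ) (k y) := by
    change _ = inner ℝ (k (g ξ)) (k y)
    rw [LinearIsometryEquiv.inner_map_map]
  rw [e1]
  refine (inner_le ξ_mem hkD (G.mul_mem hk hg)).trans (le_of_eq ?_)
  rw [← hadj, hξ]

/-- the main inequality -/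
theorem E3_key {y : E3} {η : ℝ} (hSy : OnS η y) (hη : 0 ≤ η) (h3y : wa3.lin η y < w310.lin η y)
    (hCy : η ≤ 7 / 20 ∨ -η < w310.lin η y) {z : E3} (hzdef : z = t1⁻¹ • w310.v)
    (hSz : OnS 0 z)
    (hcol : ∀ θ ∈ Icc (0 : ℝ) 1, ∀ w' ∈ Small, w'.b = 0 → w' ≠ w310 →
      w'.lin (up ((1 - θ) • y + θ • z)) ((1 - θ) • y + θ • z) <
        w310.lin (up ((1 - θ) • y + θ • z)) ((1 - θ) • y + θ • z))
    {θ : ℝ} (hθ : θ ∈ Icc (0 : ℝ) 1) :
    wa3.lin (up ((1 - θ) • y + θ • z)) ((1 - θ) • y + θ • z) <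
      w310.lin (up ((1 - θ) • y + θ • z)) ((1 - θ) • y + θ • z) := by
  have hy := norm_le_of_OnS hSy
  have hz := norm_le_of_OnS hSz
  have ha2 : wa2 ∈ Small := reps_subset (by simp [reps])
  have ha2b : wa2.b = 0 := rfl
  have ha2n : wa2 ≠ w310 := fun h => E1_310_ne.2.2.1 h.symm
  -- (a)
  have hlow : ∀ τ ∈ Icc (0 : ℝ) 1, up ((1 - τ) • y + τ • z) ≤ 0.2158 →
      wa3.lin (up ((1 - τ) • y + τ • z)) ((1 - τ) • y + τ • z) <
        w310.lin (up ((1 - τ) • y + τ • z)) ((1 - τ) • y + τ • z) := by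
    intro τ hτ hu
    exact (I7 (OnS_up (norm_seg hy hz hτ)) (up_nonneg _) hu).trans (hcol τ hτ wa2 ha2 ha2b ha2n)
  by_cases hu : up ((1 - θ) • y + θ • z) ≤ 0.2158
  · exact hlow θ hθ hu
  push Not at hu
  have ht1 : 0 < t1 := E1_t_pos.1
  have ht1' := abs_le.1 enc_t1
  have hb3' := abs_le.1 enc_b3
  have hb3 : 0 < b3 := by linarith
  have hcont : Continuous fun a : ℝ => up ((1 - a) • y + a • z) :=
    up_cont.comp (((continuous_const.sub continuous_id).smul continuous_const).add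
      (continuous_id.smul continuous_const))
  have hz310 : w310.lin 0 z = 0 := by
    rw [hzdef]
    simp only [Site.lin, inner_smul_right, real_inner_self_eq_norm_sq, norm_v310]
    change (0 : ℝ) * 0 + t1⁻¹ * t1 ^ 2 - t1 = 0
    field_simp
    ring
  -- the values `L = -w310.lin` for points over the segment which are not low
  have hL : ∀ τ ∈ Icc (0 : ℝ) 1, 0.2158 ≤ up ((1 - τ) • y + τ • z) →
      (7 / 20 ≤ up ((1 - τ) • y + τ • z) → -up ((1 - τ) • y + τ • z) <
        w310.lin (up ((1 - τ) • y + τ • z)) ((1 - τ) • y + τ • z)) →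
      2 * b3 * (-w310.lin (up ((1 - τ) • y + τ • z)) ((1 - τ) • y + τ • z)) <
        (1 + 2 * b3) * up ((1 - τ) • y + τ • z) := by
    intro τ hτ hu1 hu2
    have hn := norm_seg hy hz hτ
    have husq := up_sq hn
    have hcov : ∀ κ : ℝ, κ = 29 / 100 ∨ κ = 7 / 20 → up ((1 - τ) • y + τ • z) ≤ κ →
        -κ < w310.lin (up ((1 - τ) • y + τ • z)) ((1 - τ) • y + τ • z) := by
      intro κ hκ huκ
      have hκ0 : 0 ≤ κ := by rcases hκ with h | h <;> rw [h] <;> norm_num
      obtain ⟨w', hw', hb', hl⟩ := cover hκ (y := (1 - τ) • y + τ • z)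
        (by nlinarith [up_nonneg ((1 - τ) • y + τ • z)]) hn (up ((1 - τ) • y + τ • z))
      by_cases hne : w' = w310
      · rwa [hne] at hl
      · exact hl.trans (hcol τ hτ w' hw' hb' hne)
    set e := up ((1 - τ) • y + τ • z) with he
    set L := w310.lin e ((1 - τ) • y + τ • z) with hLdef
    rcases le_total e (29 / 100) with h1 | h1
    · have h2 := hcov _ (Or.inl rfl) h1
      have h3 : 2 * b3 * (-L) < 2 * b3 * (29 / 100) := mul_lt_mul_of_pos_left (by linarith) (by linarith)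
      have h4 : (1 + 2 * b3) * 0.2158 ≤ (1 + 2 * b3) * e := mul_le_mul_of_nonneg_left hu1 (by linarith)
      linarith
    · rcases le_total e (7 / 20) with h5 | h5
      · have h2 := hcov _ (Or.inr rfl) h5
        have h3 : 2 * b3 * (-L) < 2 * b3 * (7 / 20) := mul_lt_mul_of_pos_left (by linarith) (by linarith)
        have h4 : (1 + 2 * b3) * (29 / 100) ≤ (1 + 2 * b3) * e :=
          mul_le_mul_of_nonneg_left h1 (by linarith)
        linarith
      · have h2 := hu2 h5
        have h3 : 2 * b3 * (-L) < 2 * b3 * e := mul_lt_mul_of_pos_left (by linarith) (by linarith)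
        linarith
  -- a good point on the left
  obtain ⟨a, haI, hae, hha, haL⟩ : ∃ a ∈ Icc (0 : ℝ) θ, 0.2158 ≤ up ((1 - a) • y + a • z) ∧
      wa3.lin (up ((1 - a) • y + a • z)) ((1 - a) • y + a • z) <
        w310.lin (up ((1 - a) • y + a • z)) ((1 - a) • y + a • z) ∧
      2 * b3 * (-w310.lin (up ((1 - a) • y + a • z)) ((1 - a) • y + a • z)) <
        (1 + 2 * b3) * up ((1 - a) • y + a • z) := by
    by_cases h0 : up y ≤ 0.2158
    · have hiv := intermediate_value_Icc hθ.1 hcont.continuousOn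
      have hmem : (0.2158 : ℝ) ∈ Icc (up ((1 - (0 : ℝ)) • y + (0 : ℝ) • z))
          (up ((1 - θ) • y + θ • z)) := by
        constructor
        · simpa using h0
        · exact hu.le
      obtain ⟨a, ha, hfa⟩ := hiv hmem
      simp only at hfa
      have ha' : a ∈ Icc (0 : ℝ) 1 := ⟨ha.1, ha.2.trans hθ.2⟩
      refine ⟨a, ha, hfa.ge, hlow a ha' hfa.le, hL a ha' hfa.ge ?_⟩
      intro h1
      rw [hfa] at h1
      norm_num at h1
    · push Not at h0
      have hη0 : up y = η := up_eq hSy hη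
      have e0 : (1 - (0 : ℝ)) • y + (0 : ℝ) • z = y := by simp
      refine ⟨0, ⟨le_rfl, hθ.1⟩, ?_, ?_, ?_⟩
      · rw [e0]
        exact h0.le
      · rw [e0, hη0]
        exact h3y
      · refine hL 0 ⟨le_rfl, zero_le_one⟩ ?_ ?_
        · rw [e0]
          exact h0.le
        · rw [e0, hη0]
          intro h1
          rcases hCy with h2 | h2
          · have h3 : η = 7 / 20 := le_antisymm h2 h1
            have h4 : 1 - (7 / 20 : ℝ) ^ 2 ≤ ‖y‖ ^ 2 := by
              have h5 : η ^ 2 + ‖y‖ ^ 2 = 1 := hSy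
              rw [h3] at h5
              linarith
            obtain ⟨w', hw', hb', hl⟩ := cover (κ := 7 / 20) (Or.inr rfl) h4 hy η
            rw [h3] at hl ⊢
            by_cases hne : w' = w310
            · rwa [hne] at hl
            · have h6 := hcol 0 ⟨le_rfl, zero_le_one⟩ w' hw' hb' hne
              rw [e0, hη0, h3] at h6
              exact hl.trans h6
          · exact h2
  have ha' : a ∈ Icc (0 : ℝ) 1 := ⟨haI.1, haI.2.trans hθ.2⟩
  rcases eq_or_lt_of_le haI.2 with haθ | haθ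
  · rw [← haθ]
    exact hha
  have ha1 : 0 < 1 - a := by linarith [hθ.2]
  set τ : ℝ := (θ - a) / (1 - a) with hτ
  have hτ0 : 0 < τ := div_pos (by linarith) ha1
  have hτ1 : τ ≤ 1 := by
    rw [hτ, div_le_one ha1]
    linarith [hθ.2]
  have hθτ : θ = (1 - τ) * a + τ := by
    rw [hτ]
    field_simp
    ring
  set Y : E3 := (1 - a) • y + a • z with hY
  have hpt : (1 - θ) • y + θ • z = (1 - τ) • Y + τ • z := by
    rw [hY, hθτ]
    module
  have hYn : ‖Y‖ ≤ 1 := norm_seg hy hz ha'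
  have hθn : ‖(1 - θ) • y + θ • z‖ ≤ 1 := norm_seg hy hz hθ
  have htan := up_tangent hYn hθn
  set U := up ((1 - θ) • y + θ • z) with hU
  set e := up Y with he
  have hesq : e ^ 2 = 1 - ‖Y‖ ^ 2 := up_sq hYn
  rw [hpt, inner_add_right, inner_smul_right, inner_smul_right, real_inner_self_eq_norm_sq] at htan
  rw [hpt]
  have hYz : inner ℝ Y z = 1 + w310.lin e Y / t1 := by
    rw [hzdef, inner_smul_right, real_inner_comm]
    simp only [Site.lin]
    change t1⁻¹ * inner ℝ w310.v Y = 1 + (0 * e + inner ℝ w310.v Y - t1) / t1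
    field_simp
    ring
  set P := w310.lin e Y with hP
  set Q := wa3.lin e Y with hQ
  have hPl : w310.lin U ((1 - τ) • Y + τ • z) = (1 - τ) * P + τ * 0 := by
    rw [hP, ← hz310]
    exact lin_seg rfl U e 0 Y z τ
  have hQl : wa3.lin U ((1 - τ) • Y + τ • z) =
      (1 - τ) * (Q - b3 * e) + τ * (-((1 + 2 * b3) / (2 * t1))) + b3 * U := by
    rw [← a3_310_const, hQ]
    simp only [Site.lin, inner_add_right, inner_smul_right]
    have h1 : inner ℝ wa3.v z = s3 * ys / t1 := by
      rw [hzdef, inner_smul_right]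
      change t1⁻¹ * inner ℝ (s3 • ξ) w310.v = s3 * ys / t1
      rw [inner_smul_left, real_inner_comm, inner_v310_ξ]
      simp only [conj_trivial]
      field_simp
    rw [h1]
    change b3 * U + ((1 - τ) * inner ℝ wa3.v Y + τ * (s3 * ys / t1)) - ta3 =
      (1 - τ) * (b3 * e + inner ℝ wa3.v Y - ta3 - b3 * e) + τ * -(ta3 - s3 * ys / t1) + b3 * U
    ring
  rw [hPl, hQl]
  rw [hYz] at htan
  have he0 : 0 < e := by linarith
  -- e U ≤ (1-τ) e² - τ P / t1
  have h1 : e * U ≤ (1 - τ) * e ^ 2 - τ * (P / t1) := by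
    rw [hesq]
    linarith
  have h2 : 0 < e * ((1 - τ) * (P - Q + b3 * e) + τ * ((1 + 2 * b3) / (2 * t1)) - b3 * U) := by
    have h3 : b3 * (e * U) ≤ b3 * ((1 - τ) * e ^ 2 - τ * (P / t1)) :=
      mul_le_mul_of_nonneg_left h1 hb3.le
    have h4 : 0 ≤ (1 - τ) * (e * (P - Q)) :=
      mul_nonneg (by linarith) (mul_nonneg he0.le (by linarith))
    have h5 : 0 < τ * (((1 + 2 * b3) * e - 2 * b3 * (-P)) / (2 * t1)) :=
      mul_pos hτ0 (div_pos (by linarith) (by linarith))
    have h6 : e * ((1 - τ) * (P - Q + b3 * e) + τ * ((1 + 2 * b3) / (2 * t1)) - b3 * U) =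
        (1 - τ) * (e * (P - Q)) + τ * (((1 + 2 * b3) * e - 2 * b3 * (-P)) / (2 * t1)) +
          (b3 * ((1 - τ) * e ^ 2 - τ * (P / t1)) - b3 * (e * U)) := by
      field_simp
      ring
    rw [h6]
    linarith
  have h7 := (mul_pos_iff_of_pos_left he0).1 h2
  linarith

theorem star_310 : Star (cellS w310) ((0 : ℝ), t1⁻¹ • w310.v) := by
  have hwr : w310 ∈ reps := by simp [reps]
  have hwS : w310 ∈ Small := reps_subset hwr
  have hwb : w310.b = 0 := rfl
  have hwf : w310.flip = w310 := by simp [Site.flip, w310]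
  have hc := centre_310
  apply star_of_upper hwf hc
  intro η y hη hp hne
  have hSy : OnS η y := hp.1
  have hSz : OnS 0 (t1⁻¹ • w310.v) := hc.1
  set z : E3 := t1⁻¹ • w310.v with hzdef
  have hy := norm_le_of_OnS hSy
  have hz := norm_le_of_OnS hSz
  apply seg_path hSy hη hSz le_rfl hne
  have hwC : w310 ≠ wC := fun he => wC_notin (he ▸ hwS)
  have hwE : w310 ≠ wE := fun he => wE_notin (he ▸ hwS)
  -- columns
  have hcol : ∀ θ ∈ Icc (0 : ℝ) 1, ∀ w' ∈ Small, w'.b = 0 → w' ≠ w310 →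
      w'.lin (up ((1 - θ) • y + θ • z)) ((1 - θ) • y + θ • z) <
        w310.lin (up ((1 - θ) • y + θ • z)) ((1 - θ) • y + θ • z) := by
    intro θ hθ w' hw' hb' hne'
    rw [lin_seg hb' _ η 0, lin_seg hwb _ η 0]
    have h1 := hp.2 w' (Or.inr hw') hne'
    have h2 := hc.2 w' (Or.inr hw') hne'
    rw [F_small hw', F_small hwS] at h1 h2
    have h1' : 0 < w310.lin η y - w'.lin η y := sub_pos.mpr h1
    have h2' : 0 < w310.lin 0 z - w'.lin 0 z := sub_pos.mpr h2
    have h3 : 0 < (1 - θ) * (w310.lin η y - w'.lin η y) + θ * (w310.lin 0 z - w'.lin 0 z) := by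
      rcases eq_or_lt_of_le hθ.1 with h0 | h0
      · rw [← h0]
        simpa using h1'
      · have h4 : 0 ≤ (1 - θ) * (w310.lin η y - w'.lin η y) :=
          mul_nonneg (by linarith [hθ.2]) h1'.le
        have h5 : 0 < θ * (w310.lin 0 z - w'.lin 0 z) := mul_pos h0 h2'
        linarith
    linarith
  have hcol' : ∀ θ ∈ Icc (0 : ℝ) 1, ∀ w' ∈ Small, w'.b = 0 →
      w'.lin (up ((1 - θ) • y + θ • z)) ((1 - θ) • y + θ • z) ≤
        w310.lin (up ((1 - θ) • y + θ • z)) ((1 - θ) • y + θ • z) := by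
    intro θ hθ w' hw' hb'
    by_cases hne' : w' = w310
    · rw [hne']
    · exact (hcol θ hθ w' hw' hb' hne').le
  have hCy : η ≤ 7 / 20 ∨ -η < w310.lin η y := by
    by_cases h1 : η ≤ 7 / 20
    · exact Or.inl h1
    · right
      have h2 := hp.2 wC (Or.inl (Or.inl rfl)) (Ne.symm hwC)
      rwa [F_C_eq (by linarith [not_le.mp h1]), F_small hwS] at h2
  have hy' : up y ≤ 7 / 20 ∨ -up y < w310.lin (up y) y := by
    rw [up_eq hSy hη]
    exact hCy
  have hz' : up z ≤ 7 / 20 ∨ -up z < w310.lin (up z) z := by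
    rw [up_eq hSz le_rfl]
    left
    norm_num
  have ha3r : wa3 ∈ reps := by simp [reps]
  have ha3y : wa3.lin η y < w310.lin η y := by
    have h1 := hp.2 wa3 (Or.inr (reps_subset ha3r)) (fun h => E1_310_ne.2.2.2.1 h.symm)
    rwa [F_small (reps_subset ha3r), F_small hwS] at h1
  have hb3 : 0 ≤ b3 := by
    have h1 := enc_b3
    rw [abs_le] at h1
    linarith [h1.1]
  have hs3 : 0 ≤ s3 := by
    have h1 := enc_s3
    rw [abs_le] at h1
    linarith [h1.1]
  intro θ hθ
  have hseg := norm_seg hy hz hθ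
  have hSs := OnS_up hseg
  refine ⟨hSs, ?_⟩
  intro w' hw' hne'
  have hCE := avoidC hwS (by rw [hwb]) hy hz hcol' hy' hz' hθ
  simp only
  rw [F_small hwS]
  rcases hw' with (hw' | hw') | hw'
  · rw [hw']
    exact hCE.1
  · rw [Set.mem_singleton_iff] at hw'
    rw [hw']
    exact hCE.2
  · rw [F_small hw']
    by_cases hb' : w'.b = 0
    · exact hcol θ hθ w' hw' hb' hne'
    · refine lt_of_le_of_lt ?_ (E3_key hSy hη ha3y hCy hzdef hSz hcol hθ)
      obtain ⟨g, hg, r, hr, rfl⟩ := hw'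
      have hrb : r.b ≠ 0 := hb'
      have hown := own_a3 (hcol θ hθ) hg
      have hU := up_nonneg ((1 - θ) • y + θ • z)
      set U := up ((1 - θ) • y + θ • z) with hUdef
      have h1 : s3 * inner ℝ (g ξ) ((1 - θ) • y + θ • z) ≤
          s3 * inner ℝ ξ ((1 - θ) • y + θ • z) := mul_le_mul_of_nonneg_left hown hs3
      have h2 : ∀ v : E3, inner ℝ (g (s3 • ξ)) v = s3 * inner ℝ (g ξ) v := by
        intro v
        rw [map_smul, inner_smul_left]
        simp only [conj_trivial]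
      have h3 : ∀ v : E3, inner ℝ (s3 • ξ) v = s3 * inner ℝ ξ v := by
        intro v
        rw [inner_smul_left]
        simp only [conj_trivial]
      simp only [reps, Set.mem_insert_iff, Set.mem_singleton_iff] at hr
      rcases hr with hr | hr | hr | hr | hr | hr
      · exact absurd (by rw [hr]; rfl) hrb
      · exact absurd (by rw [hr]; rfl) hrb
      · exact absurd (by rw [hr]; rfl) hrb
      · exact absurd (by rw [hr]; rfl) hrb
      · rw [hr]
        simp only [Site.lin, Site.map, wa3]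
        rw [h2, h3]
        linarith
      · rw [hr]
        simp only [Site.lin, Site.map, wa1, wa3]
        rw [h2, h3]
        have : 0 ≤ b3 * U := mul_nonneg hb3 hU
        linarith

end Kus64
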