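import Pool.Agent.helper64.Kus.E1

/-!
# E4: the cell of `a2` is star-shaped
(module completed by helper52)

Path: radially to the unit sphere, then along the chord to `ξ`.
-/

open Set

namespace Kus64

namespace E4aux

theorem lin_aff {w : Site} (hw : w.b = 0) (η η₁ η₂ θ : ℝ) (y z : E3) :
    w.lin η ((1 - θ) • y + θ • z) = (1 - θ) * w.lin η₁ y + θ * w.lin η₂ z := by
  unfold Site.lin
  rw [hw, inner_add_right, inner_smul_right, inner_smul_right]
  ring

theorem lin0 {w : Site} (hw : w.b = 0) (η r : ℝ) (u : E3) :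
    w.lin η (r • u) = r * inner ℝ w.v u - w.t := by
  unfold Site.lin
  rw [hw, inner_smul_right]
  ring

theorem b3_pos : 0 < b3 := by
  have := abs_le.mp enc_b3
  linarith [this.1]

theorem s3_pos : 0 < s3 := by
  have := abs_le.mp enc_s3
  linarith [this.1]

theorem s2_pos : 0 < s2 := by
  have := abs_le.mp enc_s2
  linarith [this.1]

theorem mema2 : wa2 ∈ Small := reps_subset (by simp [reps])
theorem mema3 : wa3 ∈ Small := reps_subset (by simp [reps])

theorem ne_a3 : wa3 ≠ wa2 := by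
  intro h
  have h1 : ta3 = ta2 := congrArg Site.t h
  have h2 := abs_le.mp enc_ta2
  have h3 := abs_le.mp enc_ta3
  rw [h1] at h3
  linarith [h2.2, h3.1]

theorem ne_C : wC ≠ wa2 := fun h => wC_notin (h ▸ mema2)

theorem flipa2 : wa2.flip = wa2 := by
  unfold Site.flip wa2
  simp

/-- sites with `b = 0` have `t ≤ ta2` -/
theorem t_le {w : Site} (hw : w ∈ Small) (hb : w.b = 0) : w.t ≤ ta2 := by
  obtain ⟨g, hg, r, hr, rfl⟩ := hw
  show r.t ≤ ta2
  have hb' : r.b = 0 := hb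
  have h0 := b3_pos
  have h1 := (abs_le.mp enc_t1).2
  have h2 := (abs_le.mp enc_t2).2
  have h3 := (abs_le.mp enc_t3).2
  have h4 := (abs_le.mp enc_ta2).1
  rcases rep_cases hr with rfl | rfl | rfl | rfl | rfl | rfl
  · show t1 ≤ ta2
    linarith
  · show t2 ≤ ta2
    linarith
  · show t3 ≤ ta2
    linarith
  · exact le_refl _
  · exact absurd hb' h0.ne'
  · exact absurd hb' (neg_ne_zero.mpr h0.ne')

/-- small sites with `b ≠ 0` are beaten by `wa3` (upper half) when `ξ` owns `y`. -/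
theorem small_b_le {y : E3} {η : ℝ} (hη : 0 ≤ η) (hown : ∀ g ∈ G, inner ℝ (g ξ) y ≤ inner ℝ ξ y)
    {w : Site} (hw : w ∈ Small) (hb : w.b ≠ 0) : w.lin η y ≤ wa3.lin η y := by
  obtain ⟨g, hg, r, hr, rfl⟩ := hw
  have hr' : r = wa3 ∨ r = wa1 := by
    rcases rep_cases hr with h | h | h | h | h | h
    · exact absurd (show (r.map g).b = 0 by rw [h]; rfl) hb
    · exact absurd (show (r.map g).b = 0 by rw [h]; rfl) hb
    · exact absurd (show (r.map g).b = 0 by rw [h]; rfl) hb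
    · exact absurd (show (r.map g).b = 0 by rw [h]; rfl) hb
    · exact Or.inl h
    · exact Or.inr h
  have h1 : inner ℝ (g (s3 • ξ)) y ≤ inner ℝ (s3 • ξ) y := by
    rw [map_smul, inner_smul_left, inner_smul_left]
    exact mul_le_mul_of_nonneg_left (hown g hg) (by simpa using s3_pos.le)
  have hb3 := b3_pos
  rcases hr' with h | h
  · rw [h]
    show b3 * η + inner ℝ (g (s3 • ξ)) y - ta3 ≤ b3 * η + inner ℝ (s3 • ξ) y - ta3
    linarith
  · rw [h]
    show -b3 * η + inner ℝ (g (s3 • ξ)) y - ta3 ≤ b3 * η + inner ℝ (s3 • ξ) y - ta3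
    have := mul_nonneg hb3.le hη
    linarith

/-- `ξ` owns `y` if `wa2` beats the other sites with `b = 0`. -/
theorem own_a2 {y : E3} {η : ℝ}
    (h : ∀ w' ∈ Small, w'.b = 0 → w' ≠ wa2 → w'.lin η y < wa2.lin η y)
    {g : E3 ≃ₗᵢ[ℝ] E3} (hg : g ∈ G) : inner ℝ (g ξ) y ≤ inner ℝ ξ y := by
  have hs := s2_pos
  by_cases hne : wa2.map g = wa2
  · have h1 : g (s2 • ξ) = s2 • ξ := congrArg Site.v hne
    rw [map_smul] at h1
    have h2 : g ξ = ξ := smul_right_injective E3 hs.ne' h1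
    rw [h2]
  · have h1 := h (wa2.map g) (Small_map hg mema2) rfl hne
    have h2 : inner ℝ (g (s2 • ξ)) y < inner ℝ (s2 • ξ) y := by
      have h3 : 0 * η + inner ℝ (g (s2 • ξ)) y - ta2 < 0 * η + inner ℝ (s2 • ξ) y - ta2 := h1
      linarith
    rw [map_smul, inner_smul_left, inner_smul_left] at h2
    simp only [conj_trivial] at h2
    exact (lt_of_mul_lt_mul_left h2 hs.le).le

/-- membership in the cell from three conditions -/
theorem mem_cell {z : E3} (hz : ‖z‖ ≤ 1) (he : up z ≤ 7 / 20)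
    (hsm : ∀ w' ∈ Small, w'.b = 0 → w' ≠ wa2 → w'.lin (up z) z < wa2.lin (up z) z)
    (h3 : wa3.lin (up z) z < wa2.lin (up z) z)
    (hl : -(7 / 20) < wa2.lin (up z) z) : (up z, z) ∈ cellS wa2 := by
  refine ⟨OnS_up hz, fun w' hw' hne => ?_⟩
  show F w' (up z) z < F wa2 (up z) z
  rw [F_small mema2]
  have hu := up_nonneg z
  rcases Sites_cases hw' with rfl | rfl | h
  · rw [F_C]
    have := le_max_right (up z) (7 / 10 - up z)
    linarith
  · rw [F_E]
    have := le_max_right (-up z) (7 / 10 + up z)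
    linarith
  · rw [F_small h]
    by_cases hb : w'.b = 0
    · exact hsm w' h hb hne
    · exact (small_b_le hu (fun g hg => own_a2 hsm hg) h hb).trans_lt h3

theorem OnS_norm_le {η : ℝ} {y : E3} (h : OnS η y) : ‖y‖ ≤ 1 := by
  unfold OnS at h
  have h1 : 0 ≤ ‖y‖ := norm_nonneg y
  nlinarith [sq_nonneg η]

/-- lower bound of `wa2` by `cover` -/
theorem low_cover {y : E3} {η : ℝ} (hS : OnS η y) (hη : 0 ≤ η) (hηκ : η ≤ 7 / 20)
    (h : ∀ w' ∈ Small, w'.b = 0 → w' ≠ wa2 → w'.lin η y < wa2.lin η y) :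
    -(7 / 20) < wa2.lin η y := by
  have h1 : ‖y‖ ^ 2 = 1 - η ^ 2 := by unfold OnS at hS; linarith
  obtain ⟨w, hw, hb, hl⟩ := cover (Or.inr rfl : (7 / 20 : ℝ) = 29 / 100 ∨ (7 / 20 : ℝ) = 7 / 20)
    (y := y) (by rw [h1]; nlinarith) (OnS_norm_le hS) η
  by_cases hne : w = wa2
  · rw [← hne]; exact hl
  · exact hl.trans (h w hw hb hne)

theorem up_smul {u : E3} (hu : ‖u‖ = 1) {r : ℝ} (hr : 0 ≤ r) (hr1 : r ≤ 1) :
    ‖r • u‖ ≤ 1 ∧ up (r • u) ^ 2 = 1 - r ^ 2 := by
  have h1 : ‖r • u‖ = r := by rw [norm_smul, hu, mul_one, Real.norm_eq_abs, abs_of_nonneg hr]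
  refine ⟨by rw [h1]; exact hr1, ?_⟩
  rw [up_sq (by rw [h1]; exact hr1), h1]

/-- the radial part -/
theorem radial {u : E3} {r0 : ℝ} (hr0 : 0 < r0) (hu : ‖u‖ = 1)
    (he : up (r0 • u) ≤ 7 / 20)
    (hsm : ∀ w' ∈ Small, w'.b = 0 → w' ≠ wa2 →
      w'.lin (up (r0 • u)) (r0 • u) < wa2.lin (up (r0 • u)) (r0 • u))
    (h3 : wa3.lin (up (r0 • u)) (r0 • u) < wa2.lin (up (r0 • u)) (r0 • u))
    (hl : -(7 / 20) < wa2.lin (up (r0 • u)) (r0 • u)) {r : ℝ} (h1 : r0 ≤ r) (h2 : r ≤ 1) :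
    (up (r • u), r • u) ∈ cellS wa2 := by
  have hr : 0 ≤ r := hr0.le.trans h1
  obtain ⟨hn0, hu0⟩ := up_smul hu hr0.le (h1.trans h2)
  obtain ⟨hn, hur⟩ := up_smul hu hr h2
  have hp0 := up_nonneg (r0 • u)
  have hpr := up_nonneg (r • u)
  have hmono : up (r • u) ≤ up (r0 • u) := by
    rw [← pow_le_pow_iff_left₀ hpr hp0 two_ne_zero, hu0, hur]
    nlinarith
  have hc1 : |inner ℝ ξ u| ≤ 1 := by
    refine (abs_real_inner_le_norm ξ u).trans ?_
    rw [norm_ξ, hu]
    norm_num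
  have hs2 := abs_le.mp enc_s2
  have hs3 := abs_le.mp enc_s3
  have hb3 := abs_le.mp enc_b3
  have ht2 := abs_le.mp enc_ta2
  have hc := abs_le.mp hc1
  have hla : ∀ η r : ℝ, wa2.lin η (r • u) = r * (s2 * inner ℝ ξ u) - ta2 := by
    intro η r
    rw [lina2, inner_smul_right]
    ring
  refine mem_cell hn (hmono.trans he) ?_ ?_ ?_
  · intro w' hw' hb' hne
    have h4 := hsm w' hw' hb' hne
    rw [lin0 hb', lin0 (show wa2.b = 0 from rfl)] at h4 ⊢
    have h5 := t_le hw' hb'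
    have h6 : wa2.t = ta2 := rfl
    rw [h6] at h4 ⊢
    have h7 : 0 < r0 * (inner ℝ wa2.v u - inner ℝ w'.v u) := by linarith
    have h8 : 0 < inner ℝ wa2.v u - inner ℝ w'.v u := (mul_pos_iff_of_pos_left hr0).mp h7
    have h9 : r0 * (inner ℝ wa2.v u - inner ℝ w'.v u) ≤ r * (inner ℝ wa2.v u - inner ℝ w'.v u) :=
      mul_le_mul_of_nonneg_right h1 h8.le
    linarith
  · have hb : ∀ η r : ℝ, wa3.lin η (r • u) = b3 * η + r * (s3 * inner ℝ ξ u) - ta3 := by
      intro η r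
      rw [lina3, inner_smul_right]
      ring
    rw [hla, hb] at h3 ⊢
    -- gain of the height
    have h4 : (up (r0 • u) - up (r • u)) * (up (r0 • u) + up (r • u)) = (r - r0) * (r + r0) := by
      have : (up (r0 • u) - up (r • u)) * (up (r0 • u) + up (r • u)) =
        up (r0 • u) ^ 2 - up (r • u) ^ 2 := by ring
      rw [this, hu0, hur]
      ring
    have h5 : (up (r0 • u) - up (r • u)) * (up (r0 • u) + up (r • u)) ≤
        (up (r0 • u) - up (r • u)) * (7 / 10) :=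
      mul_le_mul_of_nonneg_left (by linarith) (by linarith)
    have h6 : (9 / 10 : ℝ) ≤ r0 := by
      by_contra hcon
      push Not at hcon
      have h7 : up (r0 • u) ^ 2 ≤ (7 / 20) ^ 2 := pow_le_pow_left₀ hp0 he 2
      rw [hu0] at h7
      nlinarith
    have h7 : (r - r0) * (18 / 10) ≤ (r - r0) * (r + r0) :=
      mul_le_mul_of_nonneg_left (by linarith) (by linarith)
    have h8 : (r - r0) * (18 / 10) ≤ (up (r0 • u) - up (r • u)) * (7 / 10) := by linarith
    have h9 : (r - r0) * ((s3 - s2) * inner ℝ ξ u) ≤ (r - r0) * (12 / 10) := by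
      apply mul_le_mul_of_nonneg_left _ (by linarith)
      have h10 : (s3 - s2) * inner ℝ ξ u ≤ (s3 - s2) * 1 :=
        mul_le_mul_of_nonneg_left hc.2 (by linarith [hs2.2, hs3.1])
      linarith [hs2.1, hs3.2]
    have h10 : 1.3 * (up (r0 • u) - up (r • u)) ≤ b3 * (up (r0 • u) - up (r • u)) :=
      mul_le_mul_of_nonneg_right (by linarith [hb3.1]) (by linarith)
    nlinarith
  · rw [hla] at hl ⊢
    have h4 : 0 < r0 * (s2 * inner ℝ ξ u) := by linarith [ht2.1]
    have h5 : 0 < s2 * inner ℝ ξ u := (mul_pos_iff_of_pos_left hr0).mp h4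
    have h6 : r0 * (s2 * inner ℝ ξ u) ≤ r * (s2 * inner ℝ ξ u) :=
      mul_le_mul_of_nonneg_right h1 h5.le
    linarith

/-- the chord -/
theorem chord {u : E3} (hu : ((0 : ℝ), u) ∈ cellS wa2) {θ : ℝ} (hθ : θ ∈ Icc (0 : ℝ) 1) :
    (up ((1 - θ) • u + θ • ξ), (1 - θ) • u + θ • ξ) ∈ cellS wa2 := by
  have hcen := centre_a2
  have hS : OnS 0 u := hu.1
  have hn : ‖u‖ ^ 2 = 1 := by unfold OnS at hS; linarith
  have hsmu : ∀ w' ∈ Small, w'.b = 0 → w' ≠ wa2 → w'.lin 0 u < wa2.lin 0 u := by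
    intro w' hw' _ hne
    have := hu.2 w' (small_mem hw') hne
    rwa [F_small hw', F_small mema2] at this
  have hsmξ : ∀ w' ∈ Small, w'.b = 0 → w' ≠ wa2 → w'.lin 0 ξ < wa2.lin 0 ξ := by
    intro w' hw' _ hne
    have := hcen.2 w' (small_mem hw') hne
    rwa [F_small hw', F_small mema2] at this
  have hlu := low_cover hS (le_refl _) (by norm_num) hsmu
  have hlξ := low_cover hcen.1 (le_refl _) (by norm_num) hsmξ
  set z := (1 - θ) • u + θ • ξ with hz
  have hzsq : ‖z‖ ^ 2 = 1 - 2 * (θ * (1 - θ)) * (1 - inner ℝ ξ u) := by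
    rw [hz, E1_norm_seg, hn, norm_ξ, real_inner_comm]
    ring
  have hs2 := abs_le.mp enc_s2
  have ht2 := abs_le.mp enc_ta2
  have hc : 0.94 ≤ inner ℝ ξ u := by
    rw [lina2] at hlu
    by_contra hcon
    push Not at hcon
    have h1 : s2 * inner ℝ ξ u ≤ s2 * 0.94 := mul_le_mul_of_nonneg_left hcon.le s2_pos.le
    linarith [hs2.2, ht2.1]
  have hc1 : inner ℝ ξ u ≤ 1 := by
    have h1 := real_inner_le_norm ξ u
    have h2 : ‖u‖ = 1 := by
      have := norm_nonneg u
      nlinarith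
    rw [norm_ξ, h2] at h1
    linarith
  have hθ2 : 0 ≤ θ * (1 - θ) := mul_nonneg hθ.1 (by linarith [hθ.2])
  have hθ3 : θ * (1 - θ) ≤ 1 / 4 := by nlinarith [sq_nonneg (θ - 1 / 2)]
  have hprod : 0 ≤ θ * (1 - θ) * (1 - inner ℝ ξ u) := mul_nonneg hθ2 (by linarith)
  have hprod2 : θ * (1 - θ) * (1 - inner ℝ ξ u) ≤ 1 / 4 * 0.06 :=
    mul_le_mul hθ3 (by linarith) (by linarith) (by norm_num)
  have hzn : ‖z‖ ≤ 1 := by
    rw [← pow_le_pow_iff_left₀ (norm_nonneg z) zero_le_one two_ne_zero, hzsq]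
    linarith
  have hupz : up z ≤ 0.2158 := by
    rw [← pow_le_pow_iff_left₀ (up_nonneg z) (by norm_num) two_ne_zero, up_sq hzn, hzsq]
    norm_num at hprod2 ⊢
    linarith
  have hsmz : ∀ w' ∈ Small, w'.b = 0 → w' ≠ wa2 → w'.lin (up z) z < wa2.lin (up z) z := by
    intro w' hw' hb hne
    have h1 := hsmu w' hw' hb hne
    have h2 := hsmξ w' hw' hb hne
    rw [hz, lin_aff hb _ 0 0, lin_aff (show wa2.b = 0 from rfl) _ 0 0]
    rcases eq_or_lt_of_le hθ.1 with h0 | h0
    · rw [← h0]; simpa using h1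
    · have h3 := mul_lt_mul_of_pos_left h2 h0
      have h4 := mul_le_mul_of_nonneg_left h1.le (by linarith [hθ.2] : (0 : ℝ) ≤ 1 - θ)
      linarith
  refine mem_cell hzn (hupz.trans (by norm_num)) hsmz (I7 (OnS_up hzn) (up_nonneg z) hupz) ?_
  rw [hz, lin_aff (show wa2.b = 0 from rfl) _ 0 0]
  rcases eq_or_lt_of_le hθ.1 with h0 | h0
  · rw [← h0]; simpa using hlu
  · have h3 := mul_lt_mul_of_pos_left hlξ h0
    have h4 := mul_le_mul_of_nonneg_left hlu.le (by linarith [hθ.2] : (0 : ℝ) ≤ 1 - θ)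
    linarith

theorem path_nonneg {p : ℝ × E3} (hp : p ∈ cellS wa2) (hη0 : 0 ≤ p.1) (hne : p ≠ ((0 : ℝ), ξ)) :
    ∃ γ : ℝ → ℝ × E3, ContinuousOn γ (Icc 0 1) ∧ γ 0 = p ∧ γ 1 = ((0 : ℝ), ξ) ∧
      (∀ r ∈ Icc (0 : ℝ) 1, γ r ∈ cellS wa2) ∧ ∀ r ∈ Ico (0 : ℝ) 1, γ r ≠ ((0 : ℝ), ξ) := by
  obtain ⟨η, y⟩ := p
  have hS : OnS η y := hp.1
  have hη : 0 ≤ η := hη0
  have hall : ∀ w' ∈ Sites, w' ≠ wa2 → F w' η y < wa2.lin η y := by
    intro w' hw' hn
    have h1 : F w' η y < F wa2 η y := hp.2 w' hw' hn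
    rwa [F_small mema2] at h1
  have h3 : wa3.lin η y < wa2.lin η y := by
    have := hall wa3 (small_mem mema3) ne_a3
    rwa [F_small mema3] at this
  have hsm : ∀ w' ∈ Small, w'.b = 0 → w' ≠ wa2 → w'.lin η y < wa2.lin η y := by
    intro w' hw' _ hn
    have := hall w' (small_mem hw') hn
    rwa [F_small hw'] at this
  have hη7 : η ≤ 7 / 20 := by
    by_contra hcon
    push Not at hcon
    have h1 := hall wC wC_mem ne_C
    rw [F_C, max_eq_left (by linarith)] at h1
    have h2 := I6 hS hcon.le h1.le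
    linarith
  have hl := low_cover hS hη hη7 hsm
  have hyn := OnS_norm_le hS
  have hup := up_eq hS hη
  set r0 := ‖y‖ with hr0def
  have hr0 : 0 < r0 := by
    rcases eq_or_lt_of_le (norm_nonneg y) with h | h
    · exfalso
      unfold OnS at hS
      rw [← h] at hS
      nlinarith
    · exact h
  set u : E3 := r0⁻¹ • y with hu_def
  have hu : ‖u‖ = 1 := by
    rw [hu_def, norm_smul, norm_inv, Real.norm_eq_abs, abs_of_pos hr0]
    exact inv_mul_cancel₀ hr0.ne'
  have hyu : r0 • u = y := by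
    rw [hu_def, smul_smul, mul_inv_cancel₀ hr0.ne', one_smul]
  have hrad : ∀ r : ℝ, r0 ≤ r → r ≤ 1 → (up (r • u), r • u) ∈ cellS wa2 := by
    intro r h1 h2
    apply radial hr0 hu _ _ _ _ h1 h2
    · rw [hyu, hup]; exact hη7
    · rw [hyu, hup]; exact hsm
    · rw [hyu, hup]; exact h3
    · rw [hyu, hup]; exact hl
  have hup1 : up u = 0 := by
    unfold up
    rw [hu]
    simp
  by_cases huξ : u = ξ
  · -- the radial part only
    have hr1 : r0 < 1 := by
      rcases eq_or_lt_of_le hyn with h | h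
      · exfalso
        apply hne
        rw [h, one_smul] at hyu
        rw [← hyu, huξ] at hup ⊢
        rw [← hup, ← huξ, hup1]
      · exact h
    refine ⟨fun θ => (up ((r0 + θ * (1 - r0)) • u), (r0 + θ * (1 - r0)) • u), ?_, ?_, ?_, ?_, ?_⟩
    · have hc : Continuous fun θ : ℝ => (r0 + θ * (1 - r0)) • u := by fun_prop
      exact ((up_cont.comp hc).prodMk hc).continuousOn
    · simp only [zero_mul, add_zero]
      rw [hyu, hup]
    · simp only [one_mul, add_sub_cancel, one_smul]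
      rw [hup1, huξ]
    · intro θ hθ
      apply hrad
      · nlinarith [hθ.1]
      · nlinarith [hθ.2]
    · intro θ hθ hc
      have h1 : (r0 + θ * (1 - r0)) • u = ξ := congrArg Prod.snd hc
      have h2 : ‖(r0 + θ * (1 - r0)) • u‖ = 1 := by rw [h1, norm_ξ]
      have h4 : 0 ≤ r0 + θ * (1 - r0) := by nlinarith [hθ.1]
      rw [norm_smul, hu, mul_one, Real.norm_eq_abs, abs_of_nonneg h4] at h2
      nlinarith [hθ.2]
  · -- radial part and chord
    have hu0 : ((0 : ℝ), u) ∈ cellS wa2 := by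
      have := hrad 1 hyn (le_refl _)
      rwa [one_smul, hup1] at this
    set Y : ℝ → E3 := fun θ => (1 - max 0 (2 * θ - 1)) • (min 1 (r0 + 2 * θ * (1 - r0)) • u) +
      max 0 (2 * θ - 1) • ξ with hY
    have hYc : Continuous Y := by
      rw [hY]
      fun_prop
    have hY1 : ∀ θ : ℝ, 0 ≤ θ → θ ≤ 1 / 2 → Y θ = (r0 + 2 * θ * (1 - r0)) • u := by
      intro θ _ h2
      have h4 : max 0 (2 * θ - 1) = 0 := max_eq_left (by linarith)
      have h5 : min 1 (r0 + 2 * θ * (1 - r0)) = r0 + 2 * θ * (1 - r0) :=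
        min_eq_right (by nlinarith)
      simp only [hY, h4, h5, sub_zero, one_smul, zero_smul, add_zero]
    have hY2 : ∀ θ : ℝ, 1 / 2 ≤ θ → Y θ = (1 - (2 * θ - 1)) • u + (2 * θ - 1) • ξ := by
      intro θ h2
      have h4 : max 0 (2 * θ - 1) = 2 * θ - 1 := max_eq_right (by linarith)
      have h5 : min 1 (r0 + 2 * θ * (1 - r0)) = 1 := min_eq_left (by nlinarith)
      simp only [hY, h4, h5, one_smul]
    refine ⟨fun θ => (up (Y θ), Y θ), ?_, ?_, ?_, ?_, ?_⟩
    · exact ((up_cont.comp hYc).prodMk hYc).continuousOn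
    · simp only
      rw [hY1 0 (le_refl _) (by norm_num)]
      simp only [mul_zero, zero_mul, add_zero]
      rw [hyu, hup]
    · simp only
      rw [hY2 1 (by norm_num)]
      have h1 : (1 - (2 * 1 - 1) : ℝ) = 0 := by norm_num
      have h2 : (2 * 1 - 1 : ℝ) = 1 := by norm_num
      rw [h1, h2, zero_smul, zero_add, one_smul]
      refine Prod.ext ?_ rfl
      show up ξ = 0
      unfold up
      rw [norm_ξ]
      simp
    · intro θ hθ
      simp only
      rcases le_total θ (1 / 2) with h | h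
      · rw [hY1 θ hθ.1 h]
        apply hrad
        · nlinarith [hθ.1]
        · nlinarith [hθ.1]
      · rw [hY2 θ h]
        exact chord hu0 ⟨by linarith, by linarith [hθ.2]⟩
    · intro θ hθ hc
      have h1 : Y θ = ξ := congrArg Prod.snd hc
      rcases le_total θ (1 / 2) with h | h
      · rw [hY1 θ hθ.1 h] at h1
        have h4 : 0 ≤ r0 + 2 * θ * (1 - r0) := by nlinarith [hθ.1]
        have h2 : ‖(r0 + 2 * θ * (1 - r0)) • u‖ = 1 := by rw [h1, norm_ξ]
        rw [norm_smul, hu, mul_one, Real.norm_eq_abs, abs_of_nonneg h4] at h2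
        rw [h2, one_smul] at h1
        exact huξ h1
      · rw [hY2 θ h] at h1
        have h2 : (1 - (2 * θ - 1)) • (u - ξ) = 0 := by
          have : (1 - (2 * θ - 1)) • (u - ξ) =
              ((1 - (2 * θ - 1)) • u + (2 * θ - 1) • ξ) - ξ := by
            module
          rw [this, h1, sub_self]
        rcases smul_eq_zero.mp h2 with h5 | h5
        · linarith [hθ.2]
        · exact huξ (sub_eq_zero.mp h5)

end E4aux

open E4aux

theorem star_a2 : Star (cellS wa2) ((0 : ℝ), ξ) := by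
  refine ⟨centre_a2, fun p hp hne => ?_⟩
  rcases le_total 0 p.1 with hη | hη
  · exact path_nonneg hp hη hne
  · have hp' : (-p.1, p.2) ∈ cellS wa2 := by
      have := cellS_flip hp
      rwa [flipa2] at this
    have hne' : (-p.1, p.2) ≠ ((0 : ℝ), ξ) := by
      intro hc
      apply hne
      have h1 : -p.1 = 0 := congrArg Prod.fst hc
      have h2 : p.2 = ξ := congrArg Prod.snd hc
      refine Prod.ext ?_ h2
      show p.1 = 0
      linarith
    obtain ⟨γ, hγc, hγ0, hγ1, hγm, hγn⟩ := path_nonneg hp' (by show 0 ≤ -p.1; linarith) hne'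
    refine ⟨fun r => (-(γ r).1, (γ r).2), ?_, ?_, ?_, ?_, ?_⟩
    · exact (hγc.fst.neg).prodMk hγc.snd
    · simp [hγ0]
    · simp only [hγ1]
      simp
    · intro r hr
      have := cellS_flip (hγm r hr)
      rwa [flipa2] at this
    · intro r hr hc
      apply hγn r hr
      have h1 : -(γ r).1 = 0 := congrArg Prod.fst hc
      have h2 : (γ r).2 = ξ := congrArg Prod.snd hc
      refine Prod.ext ?_ h2
      show (γ r).1 = 0
      linarith

end Kus64
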