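import Pool.Agent.helper64.Kus.E2

/-!
# E5: the cells of `a3` and `C`

`a3`.  If `(η,y) ∈ cellS wa3` then `η > 0` (for `η ≤ 0` `wa1` is at least as good, `wa1 ≠ wa3`).
Fix any `c = (η1, z) ∈ cellS wa3` (`centre_a3`) and `p = (η,y) ∈ cellS wa3`; `η = up y`,
`η1 = up z`.  `y_s = (1-s)y + s z`.  For small `w' ≠ wa3`: `wa3.lin - w'.lin
= (b3-w'.b) up y_s + affine(s)`, `b3-w'.b ≥ 0` (`Small_b`), so by `up_concave` it is
`≥ (1-s)(value at 0) + s (value at 1) > 0`.  `wC`, `wE`: `avoidC`.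
`γ s = (up y_s, y_s)`; `γ s = c` for `s < 1` would give `y_s = z`, `y = z`, `p = c`.

`C`.  `p = (η,y) ∈ cellS wC`; then `η > 7/20` (`act_C`; `p ∈ cellS` implies `Act`).
`y_s = (1-s) y`, `e = up y_s ≥ η > 7/20`, centre `(1,0)`.  `F wC = -e`.  `F wE = -(7/10+e) < -e`.
Small `w' = (b';v';t')`: let `c' = 1+max b' 0 ∈ {1, 1+b3}` (`b' e ≤ (max b' 0) e`, and for
`b' = -b3`: compare with `w'.flip`, whose value at `(η,y)` is also `< F wC`).
To show `t' - inner v' y_s - c' e > 0`, knowing it for `s = 0` (`e = η`).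
Let `r = ‖y‖`; if `r = 0` the point is the centre.  `a = inner v' (y/r)`, `ρ = (1-s) r`,
`f(ρ) = ρ a + c' √(1-ρ²)`; know `f(r) < t'`.
 Case A `a ≥ c' r/η`: by tangent `√(1-ρ²) ≤ (1-ρ r)/η`,
   `f(ρ) ≤ ρ (a - c' r/η) + c'/η ≤ r (a - c' r/η) + c'/η = f(r) < t'`.
 Case B `a < c' r/η`: if `a ≤ 0`, `f(ρ) ≤ c' < t'`; otherwise Cauchy-Schwarz:
   `f(ρ) ≤ √(a²+c'²) ≤ √(c'² r²/η²+c'²) = c'/η ≤ c'/.35 < t'`
   (`1/.35 = 2.858 < 3.19 ≤ t'` for `b' = 0`; `(1+b3)/.35 < 6.643 < 6.919 < ta3`).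
-/

open Set

namespace Kus64

namespace E5h

theorem b3_pos : 0 < b3 := by
  have h1 := enc_b3
  rw [abs_le] at h1
  linarith [h1.1]

theorem wa3_reps : wa3 ∈ reps := by simp [reps]
theorem wa1_reps : wa1 ∈ reps := by simp [reps]

theorem wa1_ne : wa1 ≠ wa3 := by
  intro h
  have h1 : wa1.b = wa3.b := by rw [h]
  have h2 : -b3 = b3 := h1
  have := b3_pos
  linarith

theorem a3_pos {η : ℝ} {y : E3} (hp : (η, y) ∈ cellS wa3) : 0 < η := by
  have h1 := hp.2 wa1 (Or.inr (reps_subset wa1_reps)) wa1_ne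
  rw [F_small (reps_subset wa1_reps), F_small (reps_subset wa3_reps)] at h1
  simp only [Site.lin, wa1, wa3] at h1
  have h2 : 0 < 2 * b3 * η := by linarith
  have h3 : 0 < 2 * b3 := by linarith [b3_pos]
  exact pos_of_mul_pos_right h2 h3.le

theorem seg_a3 {w' : Site} (hw' : w' ∈ Small) {y z : E3} (hy : ‖y‖ ≤ 1) (hz : ‖z‖ ≤ 1)
    {θ : ℝ} (hθ : θ ∈ Icc (0 : ℝ) 1) :
    (1 - θ) * (wa3.lin (up y) y - w'.lin (up y) y) +
        θ * (wa3.lin (up z) z - w'.lin (up z) z) ≤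
      wa3.lin (up ((1 - θ) • y + θ • z)) ((1 - θ) • y + θ • z) -
        w'.lin (up ((1 - θ) • y + θ • z)) ((1 - θ) • y + θ • z) := by
  have h1 := up_concave hy hz hθ
  have h2 : 0 ≤ b3 - w'.b := by
    have := b3_pos
    rcases Small_b hw' with h | h | h <;> rw [h] <;> linarith
  have h3 := mul_le_mul_of_nonneg_left h1 h2
  have h4 : wa3.b = b3 := rfl
  simp only [Site.lin, h4, inner_add_right, inner_smul_right]
  linarith

end E5h

open E2h E5h

theorem star_a3 : ∃ c, Star (cellS wa3) c := by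
  obtain ⟨⟨ζ, z⟩, hc⟩ := centre_a3
  refine ⟨(ζ, z), hc, ?_⟩
  rintro ⟨η, y⟩ hp hne
  have hη : 0 < η := a3_pos hp
  have hζ : 0 < ζ := a3_pos hc
  have hSy : OnS η y := hp.1
  have hSz : OnS ζ z := hc.1
  have hy := norm_le_of_OnS hSy
  have hz := norm_le_of_OnS hSz
  have hw3 : wa3 ∈ Small := reps_subset wa3_reps
  apply seg_path hSy hη.le hSz hζ.le hne
  have hsm : ∀ θ ∈ Icc (0 : ℝ) 1, ∀ w' ∈ Small, w' ≠ wa3 →
      w'.lin (up ((1 - θ) • y + θ • z)) ((1 - θ) • y + θ • z) <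
        wa3.lin (up ((1 - θ) • y + θ • z)) ((1 - θ) • y + θ • z) := by
    intro θ hθ w' hw' hne'
    have h0 := seg_a3 hw' hy hz hθ
    have h1 := hp.2 w' (Or.inr hw') hne'
    have h2 := hc.2 w' (Or.inr hw') hne'
    rw [F_small hw', F_small hw3] at h1 h2
    rw [up_eq hSy hη.le, up_eq hSz hζ.le] at h0
    have h1' : 0 < wa3.lin η y - w'.lin η y := sub_pos.mpr h1
    have h2' : 0 < wa3.lin ζ z - w'.lin ζ z := sub_pos.mpr h2
    have h3 : 0 < (1 - θ) * (wa3.lin η y - w'.lin η y) + θ * (wa3.lin ζ z - w'.lin ζ z) := by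
      rcases eq_or_lt_of_le hθ.1 with h4 | h4
      · rw [← h4]
        simpa using h1'
      · have h5 : 0 ≤ (1 - θ) * (wa3.lin η y - w'.lin η y) :=
          mul_nonneg (by linarith [hθ.2]) h1'.le
        have h6 : 0 < θ * (wa3.lin ζ z - w'.lin ζ z) := mul_pos h4 h2'
        linarith
    linarith
  have hwC : wC ≠ wa3 := fun he => wC_notin (he ▸ hw3)
  have hCup : ∀ (e : ℝ) (u : E3), 0 ≤ e → (e, u) ∈ cellS wa3 →
      up u ≤ 7 / 20 ∨ -up u < wa3.lin (up u) u := by
    intro e u he hu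
    rw [up_eq hu.1 he]
    by_cases h1 : e ≤ 7 / 20
    · exact Or.inl h1
    · right
      have h2 := hu.2 wC (Or.inl (Or.inl rfl)) hwC
      rwa [F_C_eq (by linarith [not_le.mp h1]), F_small hw3] at h2
  intro θ hθ
  refine ⟨OnS_up (norm_seg hy hz hθ), ?_⟩
  intro w' hw' hne'
  have hCE := avoidC hw3 b3_pos.le hy hz (fun θ hθ w' hw' hb' => by
      by_cases h1 : w' = wa3
      · rw [h1]
      · exact (hsm θ hθ w' hw' h1).le) (hCup η y hη.le hp) (hCup ζ z hζ.le hc) hθ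
  simp only
  rw [F_small hw3]
  rcases hw' with (hw' | hw') | hw'
  · rw [hw']
    exact hCE.1
  · rw [Set.mem_singleton_iff] at hw'
    rw [hw']
    exact hCE.2
  · rw [F_small hw']
    exact hsm θ hθ w' hw' hne'

namespace E5h

/-- the radial estimate -/
theorem radial {A c t η r2 l e : ℝ} (hη : 7 / 20 < η) (hη1 : η ^ 2 + r2 = 1)
    (hc : 0 ≤ c) (hl0 : 0 ≤ l) (hl1 : l ≤ 1) (hct : c < 7 / 20 * t)
    (hT : η * e + l * r2 ≤ 1) (h0 : A + c * η < t) : l * A + c * e < t := by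
  have hη0 : 0 < η := by linarith
  have h1 : η * (l * A + c * e) ≤ l * (A * η - c * r2) + c := by
    have := mul_le_mul_of_nonneg_left hT hc
    nlinarith
  have h2 : η * (l * A + c * e) < η * t := by
    rcases le_total (c * r2) (A * η) with h3 | h3
    · have h4 : l * (A * η - c * r2) ≤ A * η - c * r2 := by
        have : 0 ≤ A * η - c * r2 := by linarith
        nlinarith
      have h5 : A * η - c * r2 + c = η * (A + c * η) := by
        have : r2 = 1 - η ^ 2 := by linarith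
        rw [this]
        ring
      have h6 : η * (A + c * η) < η * t := mul_lt_mul_of_pos_left h0 hη0
      linarith
    · have h4 : l * (A * η - c * r2) ≤ 0 :=
        mul_nonpos_of_nonneg_of_nonpos hl0 (by linarith)
      have ht : 0 < t := by linarith
      have h5 : 7 / 20 * t < η * t := mul_lt_mul_of_pos_right hη ht
      linarith
  exact lt_of_mul_lt_mul_left h2 hη0.le

/-- the constant of a small site -/
theorem small_const {w : Site} (hw : w ∈ Small) : 1 + |w.b| < 7 / 20 * w.t := by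
  have h3 := Small_t hw
  obtain ⟨g, hg, r, hr, rfl⟩ := hw
  have hb3 := b3_pos
  have e1 := enc_b3
  have e2 := enc_ta3
  rw [abs_le] at e1 e2
  have hz : ∀ r' : Site, r = r' → r'.b = 0 → 1 + |(r.map g).b| < 7 / 20 * (r.map g).t := by
    intro r' hr' hb
    have h4 : (r.map g).b = 0 := by
      rw [hr']
      exact hb
    rw [h4, abs_zero]
    linarith
  simp only [reps, Set.mem_insert_iff, Set.mem_singleton_iff] at hr
  rcases hr with hr | hr | hr | hr | hr | hr
  · exact hz _ hr rfl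
  · exact hz _ hr rfl
  · exact hz _ hr rfl
  · exact hz _ hr rfl
  · rw [hr]
    change 1 + |b3| < 7 / 20 * ta3
    rw [abs_of_pos hb3]
    linarith [e1.2, e2.1]
  · rw [hr]
    change 1 + |-b3| < 7 / 20 * ta3
    rw [abs_neg, abs_of_pos hb3]
    linarith [e1.2, e2.1]

end E5h

theorem star_C : Star (cellS wC) ((1 : ℝ), (0 : E3)) := by
  refine ⟨centre_C, ?_⟩
  rintro ⟨η, y⟩ hp hne
  have hSy : OnS η y := hp.1
  have hAct : Act wC η y := by
    refine ⟨Or.inl (Or.inl rfl), ?_⟩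
    intro w' hw'
    by_cases h1 : w' = wC
    · rw [h1]
    · exact (hp.2 w' hw' h1).le
  have hη : 7 / 20 < η := act_C hSy hAct
  have hη0 : 0 ≤ η := by linarith
  have hy := norm_le_of_OnS hSy
  have hSz : OnS 1 (0 : E3) := by simp [OnS]
  have hz0 : ‖(0 : E3)‖ ≤ 1 := by simp
  apply seg_path hSy hη0 hSz zero_le_one hne
  intro θ hθ
  have hseg := norm_seg hy hz0 hθ
  have hl0 : 0 ≤ 1 - θ := by linarith [hθ.2]
  have hl1 : 1 - θ ≤ 1 := by linarith [hθ.1]
  set u : E3 := (1 - θ) • y + θ • (0 : E3) with hu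
  have hu' : u = (1 - θ) • y := by rw [hu, smul_zero, add_zero]
  have hSu : OnS (up u) u := OnS_up hseg
  have hupy := up_eq hSy hη0
  -- `up u ≥ η`
  have heη : η ≤ up u := by
    have h1 : η ^ 2 + ‖y‖ ^ 2 = 1 := hSy
    have h2 : up u ^ 2 + ‖u‖ ^ 2 = 1 := hSu
    have h3 : ‖u‖ ≤ ‖y‖ := by
      rw [hu', norm_smul, Real.norm_of_nonneg hl0]
      have := norm_nonneg y
      nlinarith
    have h4 : ‖u‖ ^ 2 ≤ ‖y‖ ^ 2 := pow_le_pow_left₀ (norm_nonneg _) h3 2
    have h5 : η ^ 2 ≤ up u ^ 2 := by linarith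
    exact (pow_le_pow_iff_left₀ hη0 (up_nonneg u) two_ne_zero).mp h5
  have he : 7 / 20 ≤ up u := by linarith
  refine ⟨hSu, ?_⟩
  intro w' hw' hne'
  simp only
  rw [F_C_eq he]
  rcases hw' with (hw' | hw') | hw'
  · exact absurd hw' hne'
  · rw [Set.mem_singleton_iff] at hw'
    rw [hw', F_E, max_eq_right (by linarith)]
    linarith
  · rw [F_small hw']
    -- the estimate at `y` with `|b|`
    have h0 : inner ℝ w'.v y + (1 + |w'.b|) * η < w'.t := by
      have h1 := hp.2 w' (Or.inr hw') hne'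
      have hfl := Small_flip hw'
      have hfne : w'.flip ≠ wC := fun h => wC_notin (h ▸ hfl)
      have h2 := hp.2 w'.flip (Or.inr hfl) hfne
      simp only at h1 h2
      rw [F_C_eq hη.le, F_small hw'] at h1
      rw [F_C_eq hη.le, F_small hfl] at h2
      simp only [Site.lin] at h1
      simp only [Site.lin, Site.flip] at h2
      rcases abs_choice w'.b with h3 | h3 <;> rw [h3] <;> linarith
    have hT : η * up u + (1 - θ) * ‖y‖ ^ 2 ≤ 1 := by
      have h1 := up_tangent hy hseg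
      have h2 : inner ℝ y u = (1 - θ) * ‖y‖ ^ 2 := by
        rw [hu', inner_smul_right, real_inner_self_eq_norm_sq]
      rw [hupy, h2] at h1
      exact h1
    have h4 := radial hη hSy (by positivity : (0 : ℝ) ≤ 1 + |w'.b|) hl0 hl1
      (small_const hw') hT h0
    have h5 : w'.b * up u ≤ |w'.b| * up u :=
      mul_le_mul_of_nonneg_right (le_abs_self _) (up_nonneg _)
    have h6 : w'.lin (up u) u = w'.b * up u + (1 - θ) * inner ℝ w'.v y - w'.t := by
      simp only [Site.lin]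
      rw [hu', inner_smul_right]
    rw [h6]
    linarith

end Kus64
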