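import Pool.Agent.helper64.Kus.E2
import Pool.Agent.helper64.Kus.E3
import Pool.Agent.helper64.Kus.E4
import Pool.Agent.helper64.Kus.E5

/-!
# E6: all cells

`Star_map`: if `Star (cellS w) c` then `Star (cellS (w.map g)) (c.1, g c.2)` (`cellS_map` for `g` and
`g⁻¹`; the paths are mapped by the homeomorphism `(η,y) ↦ (η, g y)`); `Star_flip` likewise with
`(η,y) ↦ (-η,y)`.  Every site is `wC`, `wE = wC.flip`, or `r.map g`, `wa1 = wa3.flip`.
-/

open Set

namespace Kus64

/-- Transport of stars along a pair of mutually inverse continuous maps. -/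
theorem Star_transport {S T : Set (ℝ × E3)} {c : ℝ × E3} (f f' : ℝ × E3 → ℝ × E3)
    (hf : Continuous f) (h1 : ∀ p ∈ S, f p ∈ T) (h2 : ∀ p ∈ T, f' p ∈ S)
    (h3 : ∀ p, f (f' p) = p) (h4 : ∀ p, f' (f p) = p) (h : Star S c) : Star T (f c) := by
  obtain ⟨hc, hs⟩ := h
  refine ⟨h1 c hc, fun p hp hpc => ?_⟩
  have hne : f' p ≠ c := by
    intro hh
    apply hpc
    rw [← hh, h3]
  obtain ⟨γ, hγ, hγ0, hγ1, hγS, hγc⟩ := hs (f' p) (h2 p hp) hne
  refine ⟨fun r => f (γ r), hf.comp_continuousOn hγ, ?_, ?_, ?_, ?_⟩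
  · simp only [hγ0, h3]
  · simp only [hγ1]
  · intro r hr
    exact h1 _ (hγS r hr)
  · intro r hr hh
    apply hγc r hr
    have := congrArg f' hh
    simpa only [h4] using this

theorem Star_map {g : E3 ≃ₗᵢ[ℝ] E3} (hg : g ∈ G) {w : Site} {c : ℝ × E3}
    (h : Star (cellS w) c) : Star (cellS (w.map g)) (c.1, g c.2) := by
  have hgi : g⁻¹ ∈ G := G.inv_mem hg
  have key : ∀ x : E3, g (g⁻¹ x) = x := fun x => by
    have : (g * g⁻¹) x = x := by rw [mul_inv_cancel]; rfl
    exact this
  have key' : ∀ x : E3, g⁻¹ (g x) = x := fun x => by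
    have : (g⁻¹ * g) x = x := by rw [inv_mul_cancel]; rfl
    exact this
  refine Star_transport (S := cellS w) (fun p => (p.1, g p.2)) (fun p => (p.1, g⁻¹ p.2)) ?_ ?_ ?_ ?_ ?_ h
  · exact continuous_fst.prodMk (g.continuous.comp continuous_snd)
  · intro p hp
    exact cellS_map hg hp
  · intro p hp
    have := cellS_map hgi hp
    rwa [map_inv] at this
  · intro p
    simp only [key]
  · intro p
    simp only [key']

theorem Star_flip {w : Site} {c : ℝ × E3} (h : Star (cellS w) c) :
    Star (cellS w.flip) (-c.1, c.2) := by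
  refine Star_transport (S := cellS w) (fun p => (-p.1, p.2)) (fun p => (-p.1, p.2)) ?_ ?_ ?_ ?_ ?_ h
  · exact continuous_fst.neg.prodMk continuous_snd
  · intro p hp
    exact cellS_flip hp
  · intro p hp
    have := cellS_flip hp
    rwa [flip_flip] at this
  · intro p
    simp only [neg_neg]
  · intro p
    simp only [neg_neg]

theorem flip_wC : wC.flip = wE := by
  simp [Site.flip, wC, wE]

theorem flip_wa3 : wa3.flip = wa1 := by
  simp [Site.flip, wa3, wa1]

theorem star_all {w : Site} (hw : w ∈ Sites) : ∃ c, Star (cellS w) c := by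
  rcases hw with hw | hw
  · rcases hw with rfl | hw
    · exact ⟨_, star_C⟩
    · have hw' : w = wE := hw
      subst hw'
      have := Star_flip star_C
      rw [flip_wC] at this
      exact ⟨_, this⟩
  · obtain ⟨g, hg, r, hr, rfl⟩ := hw
    have hr' : ∃ c, Star (cellS r) c := by
      rcases hr with rfl | rfl | rfl | rfl | rfl | hr
      · exact ⟨_, star_310⟩
      · exact ⟨_, star_220⟩
      · exact ⟨_, star_211⟩
      · exact ⟨_, star_a2⟩
      · exact star_a3
      · have hr1 : r = wa1 := hr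
        subst hr1
        obtain ⟨c, hc⟩ := star_a3
        have := Star_flip hc
        rw [flip_wa3] at this
        exact ⟨_, this⟩
    obtain ⟨c, hc⟩ := hr'
    exact ⟨_, Star_map hg hc⟩

/-- The 42 points at infinity: each is the centre of its cell. -/
theorem star_inf {p : E3} (hp : ∃ g ∈ G, p = g ξ ∨ p = g ax2) :
    ∃ w ∈ Small, Star (cellS w) ((0 : ℝ), p) := by
  obtain ⟨g, hg, rfl | rfl⟩ := hp
  · refine ⟨wa2.map g, ⟨g, hg, wa2, ?_, rfl⟩, ?_⟩
    · simp [reps]
    · exact Star_map hg star_a2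
  · refine ⟨w220.map g, ⟨g, hg, w220, ?_, rfl⟩, ?_⟩
    · simp [reps]
    · exact Star_map hg star_220

end Kus64
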