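import Pool.Agent.helper64.Kus.D2
import Pool.Agent.helper14.Kus3.Defs

/-!
# Films on the three-sphere: definitions
-/

open Set Metric MeasureTheory

namespace Kus64

open Kusner (E4 vec Phi)

/-- The film between the sites `w` and `w'`. -/
def filmS (w w' : Site) : Set E4 :=
  {Y | ‖Y‖ = 1 ∧ Act w (Y 0) (vec Y) ∧ Act w' (Y 0) (vec Y)}

/-- The integral of the averaged second variation over a part of the film. -/
noncomputable def II (w w' : Site) (Δ : Set E4) : ℝ :=
  ∫ Y in filmS w w' ∩ Δ, Phi (Y 0) ((w.b - w'.b) - (w.t - w'.t) * Y 0) ∂μH[2]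

/-- The chamber `{η ≥ 0, y ∈ D}` in four-space. -/
def DD : Set E4 := {Y | 0 ≤ Y 0 ∧ vec Y ∈ D}

/-- The total over the chamber. -/
noncomputable def chamberTotal : ℝ :=
  (∑ i : Fin 6, ∑ j : Fin 6, if i < j then II (six i) (six j) DD else 0) +
    1 / 2 * (II w310 (w310.map (s 2)) DD + II w211 (w211.map (s 1)) DD)

end Kus64
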