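import Pool.Agent.helper64.Kus.Base

/-!
# Flat diagrams: definitions

`F : Fin (k+1) → E3 → ℝ` are continuous functions; the cells are the sets where one of them is the
strict maximum; near every point where it is maximal `F i` is the Moebius function
`x ↦ C + ⟪b, x⟫ + A ‖x‖²`, and functions which are maximal at the same point satisfy `q = 1`.
-/

open Set Metric MeasureTheory Kusner
open scoped ContDiff Topology

namespace Kus64

/-- A Moebius function. -/
structure MF where
  /-- coefficient of `‖x‖²` -/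
  A : ℝ
  /-- linear coefficient -/
  b : E3
  /-- constant coefficient -/
  C : ℝ

noncomputable def MF.ev (g : MF) (x : E3) : ℝ := g.C + inner ℝ g.b x + g.A * ‖x‖ ^ 2

noncomputable def MF.q (g h : MF) : ℝ := ‖g.b - h.b‖ ^ 2 - 4 * (g.A - h.A) * (g.C - h.C)

/-- `F i` is maximal at `x`. -/
def ActF {k : ℕ} (F : Fin (k + 1) → E3 → ℝ) (i : Fin (k + 1)) (x : E3) : Prop :=
  ∀ j, F j x ≤ F i x

/-- The open cell of `F i`. -/
def cellF {k : ℕ} (F : Fin (k + 1) → E3 → ℝ) (i : Fin (k + 1)) : Set E3 :=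
  {x | ∀ j, j ≠ i → F j x < F i x}

/-- The bounded cells. -/
def OmF {k : ℕ} (F : Fin (k + 1) → E3 → ℝ) (i : Fin k) : Set E3 := cellF F i.castSucc

/-- A flat diagram. -/
structure Diagram {k : ℕ} (F : Fin (k + 1) → E3 → ℝ) (g : Fin (k + 1) → MF) : Prop where
  cont : ∀ i, Continuous (F i)
  loc : ∀ x i, ActF F i x → ∀ᶠ z in 𝓝 x, F i z = (g i).ev z
  unit : ∀ x i j, i ≠ j → ActF F i x → ActF F j x → (g i).q (g j) = 1
  ext : ∃ R : ℝ, ∀ x : E3, R < ‖x‖ → ∀ j, j ≠ Fin.last k → F j x < F (Fin.last k) x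
  conn : ∀ i, IsConnected (cellF F i)

end Kus64
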