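import Pool.Agent.helper64.Kus.Q4

/-!
# R1: the group of order 240 acting on four-space, invariance of the film integrals

`TT g ε` is the linear isometry `(η, y) ↦ (± η, g y)` (`norm_sq_E4`, or build it as
`LinearIsometryEquiv`); `TS g ε` the corresponding action on sites.
* `integral_TT`: `IsometryEquiv.measurePreserving_hausdorffMeasure` for the isometry equivalence
  with inverse `TT g⁻¹ ε`, `MeasurePreserving.setIntegral_image_emb` (or `..setIntegral_preimage_emb`).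
* `filmS_TT`: `Act_map`, `Act_flip` in both directions.
* `Phi_even`: `Phi` is a polynomial in `e²`, `m²`.
* `v`-data of `TS`: `(TS g ε w).b = ± w.b`, `(TS g ε w).t = w.t`.
-/

open Set Metric MeasureTheory

namespace Kus64

open Kusner (E4 vec Phi)

/-- the sign -/
def sg (ε : Bool) : ℝ := if ε then -1 else 1

noncomputable def TT (g : E3 ≃ₗᵢ[ℝ] E3) (ε : Bool) (Y : E4) : E4 := up4 (sg ε * Y 0, g (vec Y))

noncomputable def TS (g : E3 ≃ₗᵢ[ℝ] E3) (ε : Bool) (w : Site) : Site := ⟨sg ε * w.b, g w.v, w.t⟩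

theorem TT_zero (g : E3 ≃ₗᵢ[ℝ] E3) (ε : Bool) (Y : E4) : TT g ε Y 0 = sg ε * Y 0 := up4_zero _
theorem vec_TT (g : E3 ≃ₗᵢ[ℝ] E3) (ε : Bool) (Y : E4) : vec (TT g ε Y) = g (vec Y) := vec_up4 _

theorem sg_mul (ε δ : Bool) : sg ε * sg δ = sg (xor ε δ) := by
  cases ε <;> cases δ <;> simp [sg]

theorem sg_sq (ε : Bool) : sg ε ^ 2 = 1 := by
  cases ε <;> simp [sg]

theorem TT_TT (g h : E3 ≃ₗᵢ[ℝ] E3) (ε δ : Bool) (Y : E4) :
    TT g ε (TT h δ Y) = TT (g * h) (xor ε δ) Y := by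
  have h1 : TT g ε (TT h δ Y) = up4 (sg ε * TT h δ Y 0, g (vec (TT h δ Y))) := rfl
  rw [h1, TT_zero, vec_TT, ← mul_assoc, sg_mul]
  rfl

theorem TT_one (Y : E4) : TT 1 false Y = Y := by
  have h1 : TT 1 false Y = up4 (1 * Y 0, vec Y) := rfl
  rw [h1, one_mul, up4_vec]

theorem TS_TS (g h : E3 ≃ₗᵢ[ℝ] E3) (ε δ : Bool) (w : Site) :
    TS g ε (TS h δ w) = TS (g * h) (xor ε δ) w := by
  have h1 : TS g ε (TS h δ w) = ⟨sg ε * (sg δ * w.b), g (h w.v), w.t⟩ := rfl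
  rw [h1, ← mul_assoc, sg_mul]
  rfl

theorem TS_one (w : Site) : TS 1 false w = w := by
  have h1 : TS 1 false w = ⟨1 * w.b, w.v, w.t⟩ := rfl
  rw [h1, one_mul]

theorem vec_sub (Y Z : E4) : vec (Y - Z) = vec Y - vec Z := by
  ext i
  fin_cases i <;> simp [vec]

theorem TT_isometry (g : E3 ≃ₗᵢ[ℝ] E3) (ε : Bool) : Isometry (TT g ε) := by
  refine Isometry.of_dist_eq fun Y Z => ?_
  rw [dist_eq_norm, dist_eq_norm]
  have h1 : ‖TT g ε Y - TT g ε Z‖ ^ 2 = ‖Y - Z‖ ^ 2 := by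
    rw [norm_sq_E4, norm_sq_E4 (Y - Z), vec_sub, vec_sub, vec_TT, vec_TT, ← map_sub,
      LinearIsometryEquiv.norm_map]
    have h2 : (TT g ε Y - TT g ε Z) 0 = sg ε * (Y - Z) 0 := by
      rw [PiLp.sub_apply, PiLp.sub_apply, TT_zero, TT_zero, mul_sub]
    rw [h2, mul_pow, sg_sq, one_mul]
  exact (sq_eq_sq₀ (norm_nonneg _) (norm_nonneg _)).mp h1

theorem TT_continuous (g : E3 ≃ₗᵢ[ℝ] E3) (ε : Bool) : Continuous (TT g ε) :=
  (TT_isometry g ε).continuous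

theorem TS_false (g : E3 ≃ₗᵢ[ℝ] E3) (w : Site) : TS g false w = w.map g := by
  have h1 : TS g false w = ⟨1 * w.b, g w.v, w.t⟩ := rfl
  rw [h1, one_mul]
  rfl

theorem TS_true (g : E3 ≃ₗᵢ[ℝ] E3) (w : Site) : TS g true w = (w.map g).flip := by
  have h1 : TS g true w = ⟨-1 * w.b, g w.v, w.t⟩ := rfl
  rw [h1, neg_one_mul]
  rfl

theorem TS_mem {g : E3 ≃ₗᵢ[ℝ] E3} (hg : g ∈ G) (ε : Bool) {w : Site} (hw : w ∈ Sites) :
    TS g ε w ∈ Sites := by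
  cases ε
  · rw [TS_false]
    exact Sites_map hg hw
  · rw [TS_true]
    exact Sites_flip (Sites_map hg hw)

theorem TT_inv_left (g : E3 ≃ₗᵢ[ℝ] E3) (ε : Bool) (Y : E4) : TT g⁻¹ ε (TT g ε Y) = Y := by
  rw [TT_TT, inv_mul_cancel, Bool.xor_self, TT_one]

theorem TT_inv_right (g : E3 ≃ₗᵢ[ℝ] E3) (ε : Bool) (Y : E4) : TT g ε (TT g⁻¹ ε Y) = Y := by
  rw [TT_TT, mul_inv_cancel, Bool.xor_self, TT_one]

theorem TS_inv_left (g : E3 ≃ₗᵢ[ℝ] E3) (ε : Bool) (w : Site) : TS g⁻¹ ε (TS g ε w) = w := by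
  rw [TS_TS, inv_mul_cancel, Bool.xor_self, TS_one]

/-- `TT g ε` as an isometry equivalence. -/
noncomputable def TTe (g : E3 ≃ₗᵢ[ℝ] E3) (ε : Bool) : E4 ≃ᵢ E4 where
  toFun := TT g ε
  invFun := TT g⁻¹ ε
  left_inv := TT_inv_left g ε
  right_inv := TT_inv_right g ε
  isometry_toFun := TT_isometry g ε

/-- change of variables -/
theorem integral_TT (g : E3 ≃ₗᵢ[ℝ] E3) (ε : Bool) (A : Set E4) (h : E4 → ℝ) :
    ∫ Y in A, h (TT g ε Y) ∂μH[2] = ∫ Z in TT g ε '' A, h Z ∂μH[2] :=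
  (((TTe g ε).measurePreserving_hausdorffMeasure 2).setIntegral_image_emb
    (TTe g ε).toHomeomorph.measurableEmbedding h A).symm

theorem TT_norm (g : E3 ≃ₗᵢ[ℝ] E3) (ε : Bool) (Y : E4) : ‖TT g ε Y‖ = ‖Y‖ := by
  have h1 : ‖TT g ε Y‖ ^ 2 = ‖Y‖ ^ 2 := by
    rw [norm_sq_E4, norm_sq_E4 Y, vec_TT, TT_zero, LinearIsometryEquiv.norm_map, mul_pow, sg_sq,
      one_mul]
  exact (sq_eq_sq₀ (norm_nonneg _) (norm_nonneg _)).mp h1

theorem Act_TT {g : E3 ≃ₗᵢ[ℝ] E3} (hg : g ∈ G) (ε : Bool) {w : Site} {Y : E4}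
    (h : Act w (Y 0) (vec Y)) : Act (TS g ε w) (TT g ε Y 0) (vec (TT g ε Y)) := by
  rw [TT_zero, vec_TT]
  cases ε
  · rw [TS_false]
    have h1 : sg false * Y 0 = Y 0 := one_mul _
    rw [h1]
    exact Act_map hg h
  · rw [TS_true]
    have h1 : sg true * Y 0 = -Y 0 := neg_one_mul _
    rw [h1]
    exact Act_flip (Act_map hg h)

theorem filmS_TT_sub {g : E3 ≃ₗᵢ[ℝ] E3} (hg : g ∈ G) (ε : Bool) {w w' : Site} {Y : E4}
    (h : Y ∈ filmS w w') : TT g ε Y ∈ filmS (TS g ε w) (TS g ε w') :=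
  ⟨(TT_norm g ε Y).trans h.1, Act_TT hg ε h.2.1, Act_TT hg ε h.2.2⟩

theorem filmS_TT {g : E3 ≃ₗᵢ[ℝ] E3} (hg : g ∈ G) (ε : Bool) {w w' : Site} :
    TT g ε '' filmS w w' = filmS (TS g ε w) (TS g ε w') := by
  refine Subset.antisymm ?_ fun Z hZ => ?_
  · rintro _ ⟨Y, hY, rfl⟩
    exact filmS_TT_sub hg ε hY
  · refine ⟨TT g⁻¹ ε Z, ?_, TT_inv_right g ε Z⟩
    have h1 := filmS_TT_sub (G.inv_mem hg) ε hZ
    rwa [TS_inv_left, TS_inv_left] at h1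

theorem Phi_even_left (e m : ℝ) : Phi (-e) m = Phi e m := by
  unfold Phi
  ring
theorem Phi_even_right (e m : ℝ) : Phi e (-m) = Phi e m := by
  unfold Phi
  ring

/-- the integrand of `II` -/
noncomputable def PW (w w' : Site) (Y : E4) : ℝ :=
  Phi (Y 0) ((w.b - w'.b) - (w.t - w'.t) * Y 0)

theorem PW_TT (g : E3 ≃ₗᵢ[ℝ] E3) (ε : Bool) (w w' : Site) (Y : E4) :
    PW (TS g ε w) (TS g ε w') (TT g ε Y) = PW w w' Y := by
  have h1 : PW (TS g ε w) (TS g ε w') (TT g ε Y) =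
      Phi (TT g ε Y 0) ((sg ε * w.b - sg ε * w'.b) - (w.t - w'.t) * TT g ε Y 0) := rfl
  rw [h1, TT_zero]
  cases ε
  · have h2 : sg false = 1 := rfl
    rw [h2, one_mul, one_mul, one_mul]
    rfl
  · have h2 : sg true = -1 := rfl
    rw [h2, neg_one_mul, Phi_even_left]
    have h3 : (-1 * w.b - -1 * w'.b) - (w.t - w'.t) * -Y 0 =
        -((w.b - w'.b) - (w.t - w'.t) * Y 0) := by ring
    rw [h3, Phi_even_right]
    rfl

theorem PW_symm (w w' : Site) (Y : E4) : PW w w' Y = PW w' w Y := by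
  unfold PW
  have h3 : (w.b - w'.b) - (w.t - w'.t) * Y 0 = -((w'.b - w.b) - (w'.t - w.t) * Y 0) := by ring
  rw [h3, Phi_even_right]

theorem II_eq (w w' : Site) (Δ : Set E4) :
    II w w' Δ = ∫ Y in filmS w w' ∩ Δ, PW w w' Y ∂μH[2] := rfl

theorem II_symm (w w' : Site) (Δ : Set E4) : II w w' Δ = II w' w Δ := by
  rw [II_eq, II_eq, filmS_symm]
  simp only [PW_symm w w']

theorem PW_continuous (w w' : Site) : Continuous (PW w w') := by
  have h0 : Continuous fun Y : E4 => Y 0 := (EuclideanSpace.proj (𝕜 := ℝ) (0 : Fin 4)).continuous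
  unfold PW Phi
  fun_prop

end Kus64
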