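import Pool.Agent.helper64.Kus.Z2
import Pool.Agent.helper35.Kus3.F9

/-!
# Z3: assembly of the field part with vanishing first derivative 

Copy helper35's `P.Asm.second_pole` and `P.unstable_of_total` (`F9.lean`) and add the first derivative.
In `second_pole` the ball of radius `R` contains all `st '' S j l`, also the mirror images, because
`st '' (fl4 '' S j l) = st '' S (τ j) (τ l)` (up to order of the indices this is one of the films; it
is contained in the same union, which ranges over all `j, l`).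
For `j < l` with `S j l` nonempty let `d j l` be the derivative from `film_flip` (`0` if empty or
`j = l`; `S j l = S l j`, so define it for all `j ≠ l`, e.g. `d j l := deriv (fun t => μH[2] (..)) 0`,
symmetric in `j, l`).  `film_flip` gives `d (τ j) (τ l) = - d j l` (uniqueness of derivatives).  So
`area' (0) = Σ_{j<l} d j l = (1/2) Σ_{j≠l} d j l` and `Σ_{j≠l} d j l = Σ_{j≠l} d (τ j) (τ l) = - Σ_{j≠l} d j l`.
-/

open Set Metric MeasureTheory
open scoped ContDiff Topology

namespace Kusner

open P P.Asm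

/-- The second variation for one pole. -/
theorem second_pole' {n k : ℕ} (Ω : Fin k → Set E3) {a b p : E3} (hF : Frame a b p)
    (ho : ∀ j, IsOpen (Ω j)) (hb : ∀ j, Bornology.IsBounded (Ω j))
    (hne : ∀ j, (Ω j).Nonempty) (hd : Pairwise fun j l => Disjoint (Ω j) (Ω l))
    (w0 wt : Fin n → Fin n → ℝ) (wv : Fin n → Fin n → E3) (S : Fin n → Fin n → Set E4)
    (hS : ∀ j l, IsCompact (S j l)) (hS1 : ∀ j l, ∀ Y ∈ S j l, ‖Y‖ = 1)
    (hS2 : ∀ j l, ∀ Y ∈ S j l, w0 j l * Y 0 + inner ℝ (wv j l) (vec Y) = wt j l)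
    (hw : ∀ j l, j ≠ l → (S j l).Nonempty →
      w0 j l ^ 2 + ‖wv j l‖ ^ 2 - wt j l ^ 2 = 1 ∧ wv j l ≠ 0)
    (hSp : ∀ j l, ∀ Y ∈ S j l, inner ℝ p (vec Y) ≠ 1)
    (hsym : ∀ j l, S j l = S l j) (τ : Equiv.Perm (Fin n))
    (hτ : ∀ j l, S (τ j) (τ l) = fl4 '' S j l)
    (harea : ∀ φ t, area Ω φ t = ∑ j : Fin n, ∑ l : Fin n,
      if j < l then (μH[2] (φ t '' (st a b p '' S j l))).toReal else 0) :
    ∃ (φ : ℝ → E3 → E3) (ε : ℝ), 0 < ε ∧ IsDeformation φ ∧ PreservesVolumes Ω φ ∧
      HasDerivAt (area Ω φ) 0 0 ∧ Second (area Ω φ) (ε ^ 2 * ∑ j : Fin n, ∑ l : Fin n,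
        if j < l then ∫ Y in S j l, fi p (w0 j l) (wt j l) (wv j l) Y ∂μH[2] else 0) := by
  classical
  -- a ball containing all films
  have hK : ∀ j l, IsCompact (st a b p '' S j l) := fun j l =>
    (hS j l).image_of_continuousOn (st_continuousOn a b p (hSp j l))
  have hKu : IsCompact (⋃ j, ⋃ l, st a b p '' S j l) :=
    isCompact_iUnion fun j => isCompact_iUnion fun l => hK j l
  obtain ⟨R0, hR0⟩ := hKu.isBounded.subset_ball 0
  set R : ℝ := max R0 1 with hRdef
  have hR : 0 < R := lt_of_lt_of_le one_pos (le_max_right _ _)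
  let χ : ContDiffBump (0 : E3) := ⟨R, R + 1, hR, by linarith⟩
  have hχ : ContDiff ℝ ∞ (χ : E3 → ℝ) := χ.contDiff
  have hχc : HasCompactSupport (χ : E3 → ℝ) := χ.hasCompactSupport
  have hone : ∀ x ∈ ball (0 : E3) R, χ x = 1 := fun x hx =>
    χ.one_of_mem_closedBall (ball_subset_closedBall hx)
  obtain ⟨φ, ε, hε, hφ, hvol, hM, hW⟩ := exists_test_deformation Ω ho hb hne hd
    (fieldX_contDiff hχ) (fieldX_compact hχ hχc) (fieldX_div hχ)
  have hball : ∀ j l, st a b p '' S j l ⊆ ball 0 R := by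
    intro j l
    refine Subset.trans ?_ (ball_subset_ball (le_max_left R0 1))
    refine Subset.trans ?_ hR0
    exact Subset.trans (subset_iUnion (fun l => st a b p '' S j l) l)
      (subset_iUnion (fun j => ⋃ l, st a b p '' S j l) j)
  have h1 : area Ω φ = fun t => ∑ j : Fin n, ∑ l : Fin n,
      if j < l then (μH[2] (φ t '' (st a b p '' S j l))).toReal else 0 := by
    funext t
    exact harea φ t
  -- the first derivatives
  set α : Fin n → Fin n → ℝ → ℝ := fun j l t => (μH[2] (φ t '' (st a b p '' S j l))).toReal with hα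
  have hfl : ∀ j l, j ≠ l → HasDerivAt (α j l) (deriv (α j l) 0) 0 ∧
      deriv (α (τ j) (τ l)) 0 = - deriv (α j l) 0 := by
    intro j l hjl
    rcases (S j l).eq_empty_or_nonempty with he | hn
    · have e1 : α j l = fun _ => 0 := by
        funext t
        simp only [hα, he, image_empty, measure_empty, ENNReal.toReal_zero]
      have e2 : α (τ j) (τ l) = fun _ => 0 := by
        funext t
        simp only [hα, hτ, he, image_empty, measure_empty, ENNReal.toReal_zero]
      rw [e1, e2]
      simp only [deriv_const, neg_zero, and_true]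
      exact hasDerivAt_const _ _
    · obtain ⟨hw1, hw2⟩ := hw j l hjl hn
      obtain ⟨d, hd1, hd2⟩ := film_flip hF hχ isOpen_ball hone hφ hM hw1 hw2
        (hS j l).measurableSet (hS1 j l) (hS2 j l) (hSp j l) (hK j l).isBounded
        (fun Y hY => hball j l (mem_image_of_mem _ hY))
        (fun Y hY => hball (τ j) (τ l) (mem_image_of_mem _ (by
          rw [hτ]; exact mem_image_of_mem _ hY)))
      have e1 : HasDerivAt (α j l) d 0 := hd1
      have e2 : HasDerivAt (α (τ j) (τ l)) (-d) 0 := by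
        simp only [hα, hτ]
        exact hd2
      rw [e1.deriv, e2.deriv]
      exact ⟨e1, rfl⟩
  have hsymα : ∀ j l, α j l = α l j := by
    intro j l
    simp only [hα, hsym j l]
  have hzero : ∑ j : Fin n, ∑ l : Fin n, (if j < l then deriv (α j l) 0 else 0) = 0 := by
    have hA : ∑ j : Fin n, ∑ l : Fin n, (if j ≠ l then deriv (α j l) 0 else 0) =
        - ∑ j : Fin n, ∑ l : Fin n, (if j ≠ l then deriv (α j l) 0 else 0) := by
      conv_lhs => rw [← Equiv.sum_comp τ]
      rw [← Finset.sum_neg_distrib]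
      refine Finset.sum_congr rfl fun j _ => ?_
      rw [← Equiv.sum_comp τ, ← Finset.sum_neg_distrib]
      refine Finset.sum_congr rfl fun l _ => ?_
      by_cases hjl : j = l
      · simp [hjl]
      · have hne' : τ j ≠ τ l := fun h => hjl (τ.injective h)
        rw [if_pos hne', if_pos hjl]
        exact (hfl j l hjl).2
    have hB : ∑ j : Fin n, ∑ l : Fin n, (if j ≠ l then deriv (α j l) 0 else 0) =
        (∑ j : Fin n, ∑ l : Fin n, (if j < l then deriv (α j l) 0 else 0)) +
        ∑ j : Fin n, ∑ l : Fin n, (if j < l then deriv (α j l) 0 else 0) := by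
      have hC : ∑ j : Fin n, ∑ l : Fin n, (if j < l then deriv (α j l) 0 else 0) =
          ∑ j : Fin n, ∑ l : Fin n, (if l < j then deriv (α j l) 0 else 0) := by
        rw [Finset.sum_comm]
        refine Finset.sum_congr rfl fun j _ => Finset.sum_congr rfl fun l _ => ?_
        rw [hsymα l j]
      conv_rhs => rw [hC]
      conv_rhs => enter [1]; rw [← hC]
      rw [← Finset.sum_add_distrib]
      refine Finset.sum_congr rfl fun j _ => ?_
      rw [← Finset.sum_add_distrib]
      refine Finset.sum_congr rfl fun l _ => ?_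
      rcases lt_trichotomy j l with h | h | h
      · simp [h, h.ne, h.not_gt]
      · simp [h]
      · simp [h, h.ne', h.not_gt]
    linarith
  have hder : HasDerivAt (area Ω φ) 0 0 := by
    rw [h1]
    refine HasDerivAt.congr_deriv (HasDerivAt.fun_sum fun j _ => HasDerivAt.fun_sum fun l _ => ?_)
      hzero
    by_cases hjl : j < l
    · simp only [if_pos hjl]
      exact (hfl j l hjl.ne).1
    · simp only [if_neg hjl]
      exact hasDerivAt_const _ _
  refine ⟨φ, ε, hε, hφ, hvol, hder, ?_⟩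
  have hW' : ∀ x, HasDerivAt (fun t => deriv (fun s => fderiv ℝ (φ s) x) t)
      (ε ^ 2 • fderiv ℝ (accX χ) x) 0 := hW
  have hone1 : ∀ j l, Second
      (fun t => if j < l then (μH[2] (φ t '' (st a b p '' S j l))).toReal else 0)
      (ε ^ 2 * if j < l then ∫ Y in S j l, fi p (w0 j l) (wt j l) (wv j l) Y ∂μH[2] else 0) := by
    intro j l
    by_cases hjl : j < l
    · simp only [if_pos hjl]
      rcases (S j l).eq_empty_or_nonempty with he | hn
      · rw [he]
        simp only [image_empty, measure_empty, ENNReal.toReal_zero, Measure.restrict_empty,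
          integral_zero_measure, mul_zero]
        exact second_zero
      · obtain ⟨hw1, hw2⟩ := hw j l hjl.ne hn
        have hsub := hball j l
        exact film_second hF hχ isOpen_ball hone hφ hM hW' hw1 hw2 (hS j l).measurableSet
          (hS1 j l) (hS2 j l) (hSp j l) (hK j l).isBounded
          (fun Y hY => hsub (mem_image_of_mem _ hY))
    · simp only [if_neg hjl, mul_zero]
      exact second_zero
  have hsum := second_sum Finset.univ (fun j _ => second_sum Finset.univ (fun l _ => hone1 j l))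
  rw [h1]
  simp only [Finset.mul_sum]
  exact hsum

theorem unstable_of_total' {n k : ℕ} (Ω : PIdx → Fin k → Set E3) (a b : PIdx → E3)
    (hF : ∀ i, Frame (a i) (b i) (pole i))
    (ho : ∀ i j, IsOpen (Ω i j)) (hb : ∀ i j, Bornology.IsBounded (Ω i j))
    (hne : ∀ i j, (Ω i j).Nonempty)
    (hd : ∀ i, Pairwise fun j l => Disjoint (Ω i j) (Ω i l))
    (w0 wt : Fin n → Fin n → ℝ) (wv : Fin n → Fin n → E3) (S : Fin n → Fin n → Set E4)
    (hS : ∀ j l, IsCompact (S j l)) (hS1 : ∀ j l, ∀ Y ∈ S j l, ‖Y‖ = 1)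
    (hS2 : ∀ j l, ∀ Y ∈ S j l, w0 j l * Y 0 + inner ℝ (wv j l) (vec Y) = wt j l)
    (hw : ∀ j l, j ≠ l → (S j l).Nonempty →
      w0 j l ^ 2 + ‖wv j l‖ ^ 2 - wt j l ^ 2 = 1 ∧ wv j l ≠ 0)
    (hSp : ∀ i j l, ∀ Y ∈ S j l, inner ℝ (pole i) (vec Y) ≠ 1)
    (hsym : ∀ j l, S j l = S l j) (τ : Equiv.Perm (Fin n))
    (hτ : ∀ j l, S (τ j) (τ l) = fl4 '' S j l)
    (harea : ∀ i φ t, area (Ω i) φ t = ∑ j : Fin n, ∑ l : Fin n,
      if j < l then (μH[2] (φ t '' (st (a i) (b i) (pole i) '' S j l))).toReal else 0)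
    (hneg : ∑ j : Fin n, ∑ l : Fin n, (if j < l then
      ∫ Y in S j l, Phi (Y 0) (w0 j l - wt j l * Y 0) ∂μH[2] else 0) < 0) :
    ∃ i φ, IsDeformation φ ∧ PreservesVolumes (Ω i) φ ∧ HasDerivAt (area (Ω i) φ) 0 0 ∧
      ∃ A2 < 0, Second (area (Ω i) φ) A2 := by
  classical
  set I : PIdx → ℝ := fun i => ∑ j : Fin n, ∑ l : Fin n,
    if j < l then ∫ Y in S j l, fi (pole i) (w0 j l) (wt j l) (wv j l) Y ∂μH[2] else 0 with hI
  have hone : ∀ j l, (∑ i : PIdx, pw i *
      (if j < l then ∫ Y in S j l, fi (pole i) (w0 j l) (wt j l) (wv j l) Y ∂μH[2] else 0)) =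
      if j < l then ∫ Y in S j l, Phi (Y 0) (w0 j l - wt j l * Y 0) ∂μH[2] else 0 := by
    intro j l
    by_cases hjl : j < l
    · simp only [if_pos hjl]
      rcases (S j l).eq_empty_or_nonempty with he | hn
      · rw [he]
        simp
      · obtain ⟨hw1, hw2⟩ := hw j l hjl.ne hn
        have hfin : μH[2] (S j l) < ⊤ := film_lt_top hw1 hw2 (hS1 j l) (hS2 j l)
        have hint : ∀ i : PIdx, IntegrableOn (fun Y => pw i * fi (pole i) (w0 j l) (wt j l)
            (wv j l) Y) (S j l) μH[2] := fun i =>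
          integrableOn_of_continuous (hS j l) hfin
            (continuous_const.mul (continuous_fi (pole i) (w0 j l) (wt j l) (wv j l)))
        have h1 : ∀ i : PIdx, pw i * ∫ Y in S j l, fi (pole i) (w0 j l) (wt j l) (wv j l) Y ∂μH[2]
            = ∫ Y in S j l, pw i * fi (pole i) (w0 j l) (wt j l) (wv j l) Y ∂μH[2] := fun i =>
          (integral_const_mul _ _).symm
        simp only [h1]
        rw [← integral_finsetSum Finset.univ (fun i _ => hint i)]
        refine setIntegral_congr_fun (hS j l).measurableSet fun Y hY => ?_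
        exact cubature_film hw1 (hS1 j l Y hY) (hS2 j l Y hY)
    · simp only [if_neg hjl, mul_zero, Finset.sum_const_zero]
  have htot : ∑ i : PIdx, pw i * I i < 0 := by
    have h2 : ∑ i : PIdx, pw i * I i = ∑ j : Fin n, ∑ l : Fin n, (if j < l then
        ∫ Y in S j l, Phi (Y 0) (w0 j l - wt j l * Y 0) ∂μH[2] else 0) := by
      simp only [hI, Finset.mul_sum]
      rw [Finset.sum_comm]
      refine Finset.sum_congr rfl fun j _ => ?_
      rw [Finset.sum_comm]
      refine Finset.sum_congr rfl fun l _ => ?_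
      exact hone j l
    rw [h2]
    exact hneg
  obtain ⟨i, hi⟩ : ∃ i, I i < 0 := by
    by_contra hcon
    push Not at hcon
    have : 0 ≤ ∑ i : PIdx, pw i * I i :=
      Finset.sum_nonneg fun i _ => mul_nonneg (pw_pos i).le (hcon i)
    linarith
  obtain ⟨φ, ε, hε, hφ, hvol, hder, hsec⟩ := second_pole' (Ω i) (hF i) (ho i) (hb i) (hne i) (hd i)
    w0 wt wv S hS hS1 hS2 hw (hSp i) hsym τ hτ (harea i)
  exact ⟨i, φ, hφ, hvol, hder, _, mul_neg_of_pos_of_neg (pow_pos hε 2) hi, hsec⟩


end Kusner
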