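import Pool.Agent.helper64.Kus.Q7
import Pool.Agent.helper64.Kus.R1
import Pool.Agent.helper64.Kus.Z3

/-!
# Q8: assembly of the geometric part with vanishing first derivative

Copy the proof of `Q7.geometric_part` (helper20) and use `unstable_of_total'` instead of
`unstable_of_total`.  `τ` is the permutation of `Fin (k+1)` with `e (τ j) = (e j).flip` (`Sites_flip`,
`flip_flip`, `Enum`); `filmS w.flip w'.flip = fl4 '' filmS w w'` from `R1.filmS_TT` with `g = 1`,
`ε = true` (`TT 1 true = fl4`, `TS 1 true w = w.flip`), and `∅` for equal indices.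
-/

open Set Metric MeasureTheory Filter Kusner
open scoped Topology

namespace Kus64

theorem TT_true_one (Y : E4) : TT 1 true Y = fl4 Y := by
  have h1 : TT 1 true Y = up4 (-1 * Y 0, vec Y) := rfl
  rw [h1, neg_one_mul]
  ext i
  fin_cases i <;> simp [up4, fl4, vec]

theorem TS_true_one (w : Site) : TS 1 true w = w.flip := by
  rw [TS_true]
  rfl

theorem filmS_flip (w w' : Site) : filmS w.flip w'.flip = fl4 '' filmS w w' := by
  have h1 := filmS_TT (G.one_mem) true (w := w) (w' := w')
  rw [TS_true_one, TS_true_one] at h1
  rw [← h1]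
  exact image_congr fun Y _ => TT_true_one Y

theorem geometric_part' {k : ℕ} {e : Fin (k + 1) → Site} (he : Enum e)
    (hneg : ∑ j, ∑ l, (if j < l then II (e j) (e l) univ else 0) < 0) :
    ∃ Ω : Fin k → Set E3, IsCluster Ω ∧ (∀ i, Bornology.IsBounded (Ω i)) ∧
      (∀ i, IsConnected (cell Ω i)) ∧ HasSphericalInterfaces Ω ∧ ObeysPlateau Ω ∧
      PressureBalanced Ω ∧ ∃ φ : ℝ → E3 → E3, IsDeformation φ ∧ PreservesVolumes Ω φ ∧
        (∀ t i j, i ≠ j → μH[2] (φ t '' interface Ω i j) < ⊤) ∧
        HasDerivAt (area Ω φ) 0 0 ∧ ∃ A2 < 0, Second (area Ω φ) A2 := by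
  classical
  choose a b hF using fun i : PIdx => exists_frame (norm_pole i)
  have hsite : ∀ i : PIdx, ∃ j : Fin (k + 1), Star (cellS (e j)) ((0 : ℝ), pole i) := by
    intro i
    obtain ⟨w, hw, hst⟩ := star_inf (pole_orbit i)
    have hwS : w ∈ Sites := Or.inr hw
    rw [← he.rng] at hwS
    obtain ⟨j, rfl⟩ := hwS
    exact ⟨j, hst⟩
  choose j0 hj0 using hsite
  have hinf : ∀ i : PIdx, Star (cellS ((e ∘ Equiv.swap (Fin.last k) (j0 i)) (Fin.last k)))
      ((0 : ℝ), pole i) := by
    intro i
    have : (e ∘ Equiv.swap (Fin.last k) (j0 i)) (Fin.last k) = e (j0 i) := by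
      rw [Function.comp_apply, Equiv.swap_apply_left]
    rw [this]
    exact hj0 i
  have he' : ∀ i : PIdx, Enum (e ∘ Equiv.swap (Fin.last k) (j0 i)) := fun i => he.perm _
  have hD : ∀ i : PIdx, Diagram
      (fun j => Ff (a i) (b i) (pole i) ((e ∘ Equiv.swap (Fin.last k) (j0 i)) j))
      (fun j => mf (a i) (b i) (pole i) ((e ∘ Equiv.swap (Fin.last k) (j0 i)) j)) :=
    fun i => diagram (hF i) (he' i) (hinf i)
  have hene : ∀ {j l : Fin (k + 1)}, j ≠ l → e j ≠ e l := fun h h' => h (he.inj h')
  have hex : ∀ j : Fin (k + 1), ∃ t : Fin (k + 1), e t = (e j).flip := by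
    intro j
    have h1 : (e j).flip ∈ Set.range e := by
      rw [he.rng]
      exact Sites_flip (he.mem j)
    exact h1
  choose τ0 hτ0 using hex
  have hinv : Function.Involutive τ0 := fun j => he.inj (by rw [hτ0, hτ0, flip_flip])
  obtain ⟨i, φ, hφ, hV, hd0, A2, hA2, hSec⟩ := unstable_of_total' (n := k + 1)
    (fun i => OmF (fun j => Ff (a i) (b i) (pole i) ((e ∘ Equiv.swap (Fin.last k) (j0 i)) j)))
    a b hF
    (fun i j => (isCluster_OmF (hD i)).isOpen j)
    (fun i j => bounded_OmF (hD i) j)
    (fun i j => ((hD i).conn j.castSucc).nonempty)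
    (fun i => (isCluster_OmF (hD i)).disjoint)
    (fun j l => (e j).b - (e l).b) (fun j l => (e j).t - (e l).t)
    (fun j l => (e j).v - (e l).v)
    (fun j l => if j = l then ∅ else filmS (e j) (e l))
    (by
      intro j l
      by_cases h : j = l
      · rw [if_pos h]; exact isCompact_empty
      · rw [if_neg h]; exact filmS_compact _ _)
    (by
      intro j l Y hY
      by_cases h : j = l
      · rw [if_pos h] at hY; exact absurd hY (notMem_empty _)
      · rw [if_neg h] at hY; exact filmS_norm hY)
    (by
      intro j l Y hY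
      by_cases h : j = l
      · rw [if_pos h] at hY; exact absurd hY (notMem_empty _)
      · rw [if_neg h] at hY; exact filmS_lin hY)
    (by
      intro j l hjl hne
      rw [if_neg hjl] at hne
      exact ⟨filmS_q (hene hjl) hne, filmS_v (hene hjl) hne⟩)
    (by
      intro i j l Y hY
      by_cases h : j = l
      · rw [if_pos h] at hY; exact absurd hY (notMem_empty _)
      · rw [if_neg h] at hY
        exact filmS_pole (hF i) ((he' i).mem (Fin.last k)) (hinf i).1 (hene h) hY)
    (by
      intro j l
      by_cases h : j = l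
      · rw [if_pos h, if_pos h.symm]
      · rw [if_neg h, if_neg (Ne.symm h), filmS_symm])
    (hinv.toPerm τ0)
    (by
      intro j l
      change (if τ0 j = τ0 l then ∅ else filmS (e (τ0 j)) (e (τ0 l))) = _
      by_cases h : j = l
      · rw [if_pos h, if_pos (congrArg τ0 h), image_empty]
      · rw [if_neg h, if_neg (fun h' => h (hinv.injective h')), hτ0, hτ0, filmS_flip])
    (by
      intro i φ t
      have h1 := sum_perm (Equiv.swap (Fin.last k) (j0 i))
        (fun j l => (μH[2] (φ t '' (st (a i) (b i) (pole i) '' filmS (e j) (e l)))).toReal)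
        (fun j l => by rw [filmS_symm])
      unfold area
      calc _ = ∑ j : Fin (k + 1), ∑ l : Fin (k + 1), (if j < l then
            (μH[2] (φ t '' (st (a i) (b i) (pole i) ''
              filmS (e (Equiv.swap (Fin.last k) (j0 i) j))
                (e (Equiv.swap (Fin.last k) (j0 i) l))))).toReal else 0) := by
            apply Finset.sum_congr rfl
            intro j _
            apply Finset.sum_congr rfl
            intro l _
            by_cases h : j < l
            · rw [if_pos h, if_pos h, interface_eq (hF i) (he' i) (hinf i) h.ne]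
              rfl
            · rw [if_neg h, if_neg h]
        _ = _ := h1
        _ = _ := by
            apply Finset.sum_congr rfl
            intro j _
            apply Finset.sum_congr rfl
            intro l _
            by_cases h : j < l
            · rw [if_pos h, if_pos h, if_neg h.ne]
            · rw [if_neg h, if_neg h])
    (by
      have e1 : (∑ j : Fin (k + 1), ∑ l : Fin (k + 1), (if j < l then
          ∫ Y in (if j = l then ∅ else filmS (e j) (e l)),
            Phi (Y 0) ((e j).b - (e l).b - ((e j).t - (e l).t) * Y 0) ∂μH[2] else 0)) =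
          ∑ j, ∑ l, (if j < l then II (e j) (e l) univ else 0) := by
        apply Finset.sum_congr rfl
        intro j _
        apply Finset.sum_congr rfl
        intro l _
        by_cases h : j < l
        · rw [if_pos h, if_pos h, if_neg h.ne]
          unfold II
          rw [inter_univ]
        · rw [if_neg h, if_neg h]
      rw [e1]
      exact hneg)
  refine ⟨_, isCluster_OmF (hD i), bounded_OmF (hD i), fun j => ?_, spherical_OmF (hD i),
    plateau_OmF (hD i), balanced_OmF (hD i), φ, hφ, hV, fun t j l hjl => ?_, hd0, A2, hA2, hSec⟩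
  · rw [cell_OmF (hD i)]
    exact (hD i).conn j
  · exact interface_lt_top (hF i) (he' i) (hinf i) hφ t hjl

end Kus64
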