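import Pool.Agent.helper64.Kus.R6
import Pool.Agent.helper64.Kus.Q8
import Pool.Agent.helper14.Kus3.Chamber

/-!
# Kusner's question, connected cells: the main theorem
-/

open Set Metric MeasureTheory Filter Kusner
open scoped Topology

namespace Kus64

/-- There is an unstable cluster with connected cells, spherical interfaces, Plateau's laws and
Laplace's law. -/
theorem main : ∃ (k : ℕ) (Ω : Fin k → Set E3), IsCluster Ω ∧ (∀ i, Bornology.IsBounded (Ω i)) ∧
    (∀ i, IsConnected (cell Ω i)) ∧ HasSphericalInterfaces Ω ∧ ObeysPlateau Ω ∧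
    PressureBalanced Ω ∧ ∃ φ : ℝ → E3 → E3, IsDeformation φ ∧ PreservesVolumes Ω φ ∧
      (∀ t i j, i ≠ j → μH[2] (φ t '' interface Ω i j) < ⊤) ∧
      Differentiable ℝ (area Ω φ) ∧ deriv (area Ω φ) 0 = 0 ∧
      ∃ a < 0, HasDerivAt (deriv (area Ω φ)) a 0 := by
  obtain ⟨k, e, he⟩ := exists_enum
  obtain ⟨Ω, h1, h2, h3, h4, h5, h6, φ, h7, h8, h9, h10, a, ha, A', hA', hA''⟩ :=
    geometric_part' he (total_neg he chamber_neg)
  have hd : deriv (area Ω φ) = A' := funext fun t => (hA' t).deriv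
  exact ⟨k, Ω, h1, h2, h3, h4, h5, h6, φ, h7, h8, h9, fun t => (hA' t).differentiableAt,
    h10.deriv, a, ha, hd ▸ hA''⟩

end Kus64
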