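import Pool.Agent.helper64.Kus.Flat

/-!
# P1: topology of a flat diagram

* `grad_dist`: if `i ≠ j` are active at `x`, `Gi := (g i).b + (2 A_i) • x`, then `‖Gi - Gj‖ = 1`:
  with `b, A, C` the differences, `C + ⟪b,x⟫ + A‖x‖² = 0` (both values equal, `loc` at `x` itself:
  `Filter.Eventually.self_of_nhds`), so `‖b + 2A x‖² = ‖b‖²+4A(⟪b,x⟫+A‖x‖²) = ‖b‖² - 4AC = 1`.
* `act_closure`: if `i` is active at `x` then `x ∈ closure (cellF F i)`.  Let `S` be the set of
  active indices, `d = Σ_{j ∈ S} (Gi - Gj)`.  For `j ∈ S`, `j ≠ i`: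
  `⟪Gi - Gj, d⟫ = Σ_l ⟪Gi-Gj, Gi-Gl⟫ ≥ 1 > 0`, because `⟪Gi-Gj,Gi-Gl⟫ = 1/2` for distinct `i,j,l`
  (three vectors with mutual distances one), `= 1` for `l = j`, `= 0` for `l = i`.
  For small `t > 0`: `(g i).ev (x+t d) - (g j).ev (x+t d) = t ⟪Gi-Gj,d⟫ + t² (A_i-A_j)‖d‖² > 0`,
  non active indices stay smaller by continuity.  So `x + t d ∈ cellF F i` for small `t > 0`
  (if `S = {i}` then `x ∈ cellF F i` already).
* `closure_cellF = {x | ActF F i x}` (`⊆`: closed by continuity).
* `cell_OmF`: for the last index: `closure (⋃ i, OmF F i) = ⋃ i, closure _ = {x | some i ≠ last is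
  active}` (finite union), its complement is `cellF F (last)`, because the maximum is attained.
* `interface_OmF`: `frontier (cellF F i) = {x | i active, x ∉ cellF F i}` (open set).
-/

open Set Metric MeasureTheory Kusner
open scoped ContDiff Topology

namespace Kus64

variable {k : ℕ} {F : Fin (k + 1) → E3 → ℝ} {g : Fin (k + 1) → MF}

theorem exists_act (F : Fin (k + 1) → E3 → ℝ) (x : E3) : ∃ i, ActF F i x :=
  Finite.exists_max (fun j => F j x)

theorem isOpen_cellF (h : Diagram F g) (i : Fin (k + 1)) : IsOpen (cellF F i) := by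
  have e : cellF F i = ⋂ j ∈ {j | j ≠ i}, {x | F j x < F i x} := by
    ext x
    simp only [cellF, mem_ofPred_eq, mem_iInter]
  rw [e]
  exact (Set.toFinite _).isOpen_biInter fun j _ => isOpen_lt (h.cont j) (h.cont i)

theorem disjoint_cellF {i j : Fin (k + 1)} (hij : i ≠ j) : Disjoint (cellF F i) (cellF F j) := by
  rw [Set.disjoint_left]
  intro x hx hy
  exact lt_asymm (hx j hij.symm) (hy i hij)

theorem isClosed_act (h : Diagram F g) (i : Fin (k + 1)) : IsClosed {x | ActF F i x} := by
  have e : {x | ActF F i x} = ⋂ j, {x | F j x ≤ F i x} := by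
    ext x
    simp only [ActF, mem_ofPred_eq, mem_iInter]
  rw [e]
  exact isClosed_iInter fun j => isClosed_le (h.cont j) (h.cont i)

private theorem ev_eq (h : Diagram F g) {x : E3} {i : Fin (k + 1)} (hi : ActF F i x) :
    F i x = (g i).ev x := (h.loc x i hi).self_of_nhds

private theorem act_eq {x : E3} {i j : Fin (k + 1)} (hi : ActF F i x) (hj : ActF F j x) :
    F i x = F j x := le_antisymm (hj i) (hi j)

theorem grad_dist (h : Diagram F g) {x : E3} {i j : Fin (k + 1)} (hij : i ≠ j)
    (hi : ActF F i x) (hj : ActF F j x) :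
    ‖((g i).b + (2 * (g i).A) • x) - ((g j).b + (2 * (g j).A) • x)‖ = 1 := by
  have hu := h.unit x i j hij hi hj
  have he : (g i).ev x = (g j).ev x := by
    rw [← ev_eq h hi, ← ev_eq h hj]; exact act_eq hi hj
  simp only [MF.q] at hu
  simp only [MF.ev] at he
  have e1 : ((g i).b + (2 * (g i).A) • x) - ((g j).b + (2 * (g j).A) • x) =
      ((g i).b - (g j).b) + (2 * ((g i).A - (g j).A)) • x := by module
  rw [e1]
  have e2 : ‖((g i).b - (g j).b) + (2 * ((g i).A - (g j).A)) • x‖ ^ 2 = 1 := by
    rw [@norm_add_sq_real, norm_smul, inner_smul_right, inner_sub_left, Real.norm_eq_abs, mul_pow,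
      sq_abs]
    linear_combination hu + 4 * ((g i).A - (g j).A) * he
  have h0 := norm_nonneg (((g i).b - (g j).b) + (2 * ((g i).A - (g j).A)) • x)
  nlinarith

private theorem ev_line (m : MF) (x d : E3) (t : ℝ) :
    m.ev (x + t • d) = m.ev x + t * inner ℝ (m.b + (2 * m.A) • x) d + t ^ 2 * (m.A * ‖d‖ ^ 2) := by
  simp only [MF.ev]
  rw [@norm_add_sq_real, norm_smul, inner_smul_right, inner_add_right, inner_smul_right,
    inner_add_left, inner_smul_left, Real.norm_eq_abs, mul_pow, sq_abs]
  simp only [conj_trivial]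
  ring

theorem act_closure (h : Diagram F g) {x : E3} {i : Fin (k + 1)} (hi : ActF F i x) :
    x ∈ closure (cellF F i) := by
  classical
  set Gr : Fin (k + 1) → E3 := fun j => (g j).b + (2 * (g j).A) • x with hGr
  set S : Finset (Fin (k + 1)) := Finset.univ.filter fun j => ActF F j x with hS
  set d : E3 := ∑ l ∈ S, (Gr i - Gr l) with hd
  have hlim : Filter.Tendsto (fun t : ℝ => x + t • d) (𝓝[>] 0) (𝓝 x) := by
    have h1 : Filter.Tendsto (fun t : ℝ => x + t • d) (𝓝 0) (𝓝 (x + (0 : ℝ) • d)) :=
      (Continuous.tendsto (by fun_prop) 0)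
    rw [zero_smul, add_zero] at h1
    exact h1.mono_left nhdsWithin_le_nhds
  refine mem_closure_of_tendsto hlim ?_
  have key : ∀ j, ∀ᶠ t : ℝ in 𝓝[>] 0, j ≠ i → F j (x + t • d) < F i (x + t • d) := by
    intro j
    by_cases hji : j = i
    · exact Filter.Eventually.of_forall fun t hne => absurd hji hne
    by_cases hj : ActF F j x
    · -- active
      have hGd : 1 ≤ inner ℝ (Gr i - Gr j) d := by
        rw [hd, inner_sum]
        have hinn : ∀ l, inner ℝ (Gr i - Gr j) (Gr i - Gr l) =
            (‖Gr i - Gr j‖ ^ 2 + ‖Gr i - Gr l‖ ^ 2 - ‖Gr l - Gr j‖ ^ 2) / 2 := by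
          intro l
          have e : Gr l - Gr j = (Gr i - Gr j) - (Gr i - Gr l) := by abel
          rw [e, norm_sub_sq_real (Gr i - Gr j) (Gr i - Gr l)]; ring
        have hij1 : ‖Gr i - Gr j‖ = 1 := grad_dist h (Ne.symm hji) hi hj
        have hnn : ∀ l ∈ S, 0 ≤ inner ℝ (Gr i - Gr j) (Gr i - Gr l) := by
          intro l hl
          have hl' : ActF F l x := (Finset.mem_filter.mp hl).2
          rw [hinn l, hij1]
          by_cases hli : l = i
          · rw [hli, hij1, sub_self, norm_zero]; norm_num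
          · by_cases hlj : l = j
            · rw [hlj, sub_self, norm_zero, hij1]; norm_num
            · have a1 : ‖Gr i - Gr l‖ = 1 := grad_dist h (Ne.symm hli) hi hl'
              have a2 : ‖Gr l - Gr j‖ = 1 := grad_dist h hlj hl' hj
              rw [a1, a2]; norm_num
        have hjS : j ∈ S := Finset.mem_filter.mpr ⟨Finset.mem_univ _, hj⟩
        have h1 := Finset.single_le_sum (f := fun l => inner ℝ (Gr i - Gr j) (Gr i - Gr l)) hnn hjS
        have h2 : inner ℝ (Gr i - Gr j) (Gr i - Gr j) = 1 := by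
          rw [real_inner_self_eq_norm_sq, hij1]; norm_num
        simp only [h2] at h1
        exact h1
      have hloci := hlim.eventually (h.loc x i hi)
      have hlocj := hlim.eventually (h.loc x j hj)
      have hcont : Filter.Tendsto (fun t : ℝ => t * (((g i).A - (g j).A) * ‖d‖ ^ 2)) (𝓝[>] 0)
          (𝓝 0) := by
        have h1 : Filter.Tendsto (fun t : ℝ => t * (((g i).A - (g j).A) * ‖d‖ ^ 2)) (𝓝 0)
            (𝓝 (0 * (((g i).A - (g j).A) * ‖d‖ ^ 2))) := (Continuous.tendsto (by fun_prop) 0)
        rw [zero_mul] at h1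
        exact h1.mono_left nhdsWithin_le_nhds
      have hsm : ∀ᶠ t : ℝ in 𝓝[>] 0, -1 < t * (((g i).A - (g j).A) * ‖d‖ ^ 2) :=
        hcont.eventually (lt_mem_nhds (by norm_num))
      have hpos : ∀ᶠ t : ℝ in 𝓝[>] 0, 0 < t := self_mem_nhdsWithin
      filter_upwards [hloci, hlocj, hsm, hpos] with t h1 h2 h3 h4 _
      rw [h1, h2, ev_line, ev_line]
      have e0 : (g i).ev x = (g j).ev x := by
        rw [← ev_eq h hi, ← ev_eq h hj]; exact act_eq hi hj
      rw [e0]
      have e1 : inner ℝ (Gr i - Gr j) d = inner ℝ ((g i).b + (2 * (g i).A) • x) d -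
          inner ℝ ((g j).b + (2 * (g j).A) • x) d := by
        rw [inner_sub_left]
      rw [e1] at hGd
      have h5 := mul_le_mul_of_nonneg_left hGd h4.le
      have h6 := mul_lt_mul_of_pos_left h3 h4
      nlinarith
    · -- not active
      have hlt : F j x < F i x := by
        by_contra hc
        push Not at hc
        exact hj fun l => (hi l).trans hc
      have h1 := hlim.eventually
        ((h.cont j).continuousAt.eventually_lt (h.cont i).continuousAt hlt)
      filter_upwards [h1] with t ht _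
      exact ht
  have := Filter.eventually_all.mpr key
  filter_upwards [this] with t ht
  exact ht

private theorem cell_act {x : E3} {i : Fin (k + 1)} (hx : x ∈ cellF F i) : ActF F i x := by
  intro j
  by_cases hji : j = i
  · rw [hji]
  · exact (hx j hji).le

theorem closure_cellF (h : Diagram F g) (i : Fin (k + 1)) :
    closure (cellF F i) = {x | ActF F i x} := by
  apply Subset.antisymm
  · exact closure_minimal (fun x hx => cell_act hx) (isClosed_act h i)
  · intro x hx
    exact act_closure h hx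

theorem cell_OmF (h : Diagram F g) (i : Fin (k + 1)) : cell (OmF F) i = cellF F i := by
  refine Fin.lastCases ?_ (fun i => ?_) i
  · rw [cell, Fin.snoc_last, closure_iUnion_of_finite]
    ext x
    simp only [OmF, closure_cellF h, mem_compl_iff, mem_iUnion, mem_ofPred_eq, not_exists]
    constructor
    · intro hx j hj
      obtain ⟨a, ha⟩ := exists_act F x
      have hal : a = Fin.last k := by
        by_contra hne
        obtain ⟨b, hb⟩ := Fin.exists_castSucc_eq.mpr hne
        exact hx b (hb ▸ ha)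
      subst hal
      by_contra hc
      push Not at hc
      obtain ⟨b, hb⟩ := Fin.exists_castSucc_eq.mpr hj
      exact hx b fun l => by rw [hb]; exact (ha l).trans hc
    · intro hx b hb
      exact (hx b.castSucc (Fin.castSucc_ne_last b)).not_ge (hb (Fin.last k))
  · rw [cell, Fin.snoc_castSucc]; rfl

theorem frontier_cellF (h : Diagram F g) (i : Fin (k + 1)) :
    frontier (cellF F i) = {x | ActF F i x ∧ ∃ j, j ≠ i ∧ ActF F j x} := by
  rw [(isOpen_cellF h i).frontier_eq, closure_cellF h]
  ext x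
  simp only [mem_sdiff, mem_ofPred_eq]
  refine and_congr_right fun hi => ?_
  constructor
  · intro hx
    simp only [cellF, mem_ofPred_eq, not_forall, not_lt] at hx
    obtain ⟨j, hj, hle⟩ := hx
    exact ⟨j, hj, fun l => (hi l).trans hle⟩
  · rintro ⟨j, hj, hja⟩ hx
    exact (hx j hj).not_ge (hja i)

theorem interface_OmF (h : Diagram F g) {i j : Fin (k + 1)} (hij : i ≠ j) :
    interface (OmF F) i j = {x | ActF F i x ∧ ActF F j x} := by
  rw [interface, cell_OmF h, cell_OmF h, frontier_cellF h, frontier_cellF h]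
  ext x
  simp only [mem_inter_iff, mem_ofPred_eq]
  constructor
  · rintro ⟨⟨h1, -⟩, h2, -⟩
    exact ⟨h1, h2⟩
  · rintro ⟨h1, h2⟩
    exact ⟨⟨h1, j, hij.symm, h2⟩, h2, i, hij, h1⟩

theorem film_OmF (h : Diagram F g) :
    film (OmF F) = {x | ∃ i j, i ≠ j ∧ ActF F i x ∧ ActF F j x} := by
  ext x
  simp only [film, mem_iUnion, mem_ofPred_eq]
  constructor
  · rintro ⟨i, j, hij, hx⟩
    rw [interface_OmF h hij] at hx
    exact ⟨i, j, hij, hx⟩
  · rintro ⟨i, j, hij, hx⟩
    refine ⟨i, j, hij, ?_⟩
    rw [interface_OmF h hij]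
    exact hx

end Kus64
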