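import Pool.Agent.helper64.Kus.P1

/-!
# P2: cluster, spherical interfaces, pressures

* `isCluster_OmF`: cells are open, disjoint, nonempty (volume `> 0`: `IsOpen.measure_pos`), bounded
  by `ext` (`OmF F i ⊆ closedBall 0 R`).
* `spherical_OmF`: if `interface i j` is empty any sphere works; otherwise at a point of it both are
  active, so `q = 1`.  With `A,b,C` the differences the interface lies in
  `{C + ⟪b,x⟫ + A‖x‖² = 0}`; for `A ≠ 0` this is the sphere with centre `-(2A)⁻¹ • b` and radius
  `1/(2|A|)` (`‖x + b/(2A)‖² = (‖b‖²-4AC)/(4A²)`), for `A = 0` the plane `⟪b,x⟫ = -C`, `‖b‖ = 1`.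
* `balanced_OmF`: `P i := 4 (A_last - A_i)`.  If `A := A_i - A_j < 0`: `(g i).ev > (g j).ev` exactly
  inside the sphere of radius `r = 1/(-2A)`, `P i - P j = -4A = 2/r`; `Inside i j c r`: at `p` in the
  interface with no third closed cell, the active indices are exactly `i, j`; in a small ball all
  the other `F l` are smaller than `F i, F j` and `F i = (g i).ev`, `F j = (g j).ev`.
  `A > 0`: exchange `i` and `j`.  `A = 0`: plane, `P i = P j`.
-/

open Set Metric MeasureTheory Kusner
open scoped ContDiff Topology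

namespace Kus64

variable {k : ℕ} {F : Fin (k + 1) → E3 → ℝ} {g : Fin (k + 1) → MF}

theorem OmF_subset (h : Diagram F g) : ∃ R : ℝ, ∀ i : Fin k, OmF F i ⊆ closedBall 0 R := by
  obtain ⟨R, hR⟩ := h.ext
  refine ⟨R, fun i x hx => ?_⟩
  rw [mem_closedBall_zero_iff]
  by_contra hc
  have hlt := hR x (not_le.1 hc) i.castSucc (Fin.castSucc_lt_last i).ne
  have hx' : ∀ j, j ≠ i.castSucc → F j x < F i.castSucc x := hx
  have := hx' (Fin.last k) (Fin.castSucc_lt_last i).ne'
  linarith

theorem bounded_OmF (h : Diagram F g) (i : Fin k) : Bornology.IsBounded (OmF F i) := by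
  obtain ⟨R, hR⟩ := OmF_subset h
  exact isBounded_closedBall.subset (hR i)

theorem isCluster_OmF (h : Diagram F g) : IsCluster (OmF F) := by
  refine ⟨fun i => isOpen_cellF h _, fun i j hij => ?_, fun i => ?_, fun i => ?_⟩
  · exact disjoint_cellF fun e => hij (Fin.castSucc_injective k e)
  · exact (isOpen_cellF h _).measure_pos volume (h.conn _).nonempty
  · exact (bounded_OmF h i).measure_lt_top

/-- centre of the sphere separating two Moebius functions -/
noncomputable def cen (p q : MF) : E3 := (-(2 * (p.A - q.A))⁻¹) • (p.b - q.b)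

theorem ev_sub (p q : MF) (z : E3) :
    p.ev z - q.ev z = (p.C - q.C) + inner ℝ (p.b - q.b) z + (p.A - q.A) * ‖z‖ ^ 2 := by
  unfold MF.ev
  rw [inner_sub_left]
  ring

theorem ev_sub_sphere (p q : MF) (hA : p.A - q.A ≠ 0) (hq : p.q q = 1) (z : E3) :
    p.ev z - q.ev z = (p.A - q.A) * (‖z - cen p q‖ ^ 2 - (1 / (2 * (p.A - q.A))) ^ 2) := by
  rw [ev_sub, norm_sub_sq_real]
  unfold cen
  rw [inner_smul_right, norm_smul, mul_pow, Real.norm_eq_abs, sq_abs,
    real_inner_comm (p.b - q.b) z]
  unfold MF.q at hq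
  have e : ‖p.b - q.b‖ ^ 2 = 1 + 4 * (p.A - q.A) * (p.C - q.C) := by linarith
  rw [e]
  field_simp
  ring

theorem q_comm (p q : MF) : p.q q = q.q p := by
  unfold MF.q
  rw [norm_sub_rev]
  ring

theorem act_ev (h : Diagram F g) {x : E3} {i j : Fin (k + 1)} (hi : ActF F i x)
    (hj : ActF F j x) : (g i).ev x = (g j).ev x := by
  have e1 := (h.loc x i hi).self_of_nhds
  have e2 := (h.loc x j hj).self_of_nhds
  rw [← e1, ← e2]
  exact le_antisymm (hj i) (hi j)

/-- both active: `x` lies on the sphere -/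
theorem act_sphere (h : Diagram F g) {x : E3} {i j : Fin (k + 1)} (hij : i ≠ j)
    (hi : ActF F i x) (hj : ActF F j x) (hA : (g i).A - (g j).A ≠ 0) :
    ‖x - cen (g i) (g j)‖ = |1 / (2 * ((g i).A - (g j).A))| := by
  have e := ev_sub_sphere (g i) (g j) hA (h.unit x i j hij hi hj) x
  rw [act_ev h hi hj, sub_self] at e
  have e2 : ‖x - cen (g i) (g j)‖ ^ 2 = (1 / (2 * ((g i).A - (g j).A))) ^ 2 := by
    rcases mul_eq_zero.1 e.symm with h0 | h0
    · exact absurd h0 hA
    · linarith
  rw [← abs_norm]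
  exact (sq_eq_sq_iff_abs_eq_abs _ _).1 e2

theorem act_plane (h : Diagram F g) {x : E3} {i j : Fin (k + 1)}
    (hi : ActF F i x) (hj : ActF F j x) (hA : (g i).A - (g j).A = 0) :
    inner ℝ ((g i).b - (g j).b) x = -((g i).C - (g j).C) := by
  have e := ev_sub (g i) (g j) x
  rw [act_ev h hi hj, sub_self, hA] at e
  linarith

theorem plane_ne (h : Diagram F g) {x : E3} {i j : Fin (k + 1)} (hij : i ≠ j)
    (hi : ActF F i x) (hj : ActF F j x) (hA : (g i).A - (g j).A = 0) :
    (g i).b - (g j).b ≠ 0 := by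
  intro h0
  have hq := h.unit x i j hij hi hj
  unfold MF.q at hq
  rw [h0, hA] at hq
  simp at hq

theorem spherical_OmF (h : Diagram F g) : HasSphericalInterfaces (OmF F) := by
  intro i j hij
  rw [interface_OmF h hij]
  by_cases hne : ({x | ActF F i x ∧ ActF F j x} : Set E3).Nonempty
  · obtain ⟨x0, hi0, hj0⟩ := hne
    by_cases hA : (g i).A - (g j).A = 0
    · right
      refine ⟨(g i).b - (g j).b, plane_ne h hij hi0 hj0 hA, -((g i).C - (g j).C), ?_⟩
      rintro x ⟨hi, hj⟩
      exact act_plane h hi hj hA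
    · left
      refine ⟨cen (g i) (g j), |1 / (2 * ((g i).A - (g j).A))|, abs_pos.2 (by
        apply one_div_ne_zero
        exact mul_ne_zero two_ne_zero hA), ?_⟩
      rintro x ⟨hi, hj⟩
      rw [mem_sphere, dist_eq_norm]
      exact act_sphere h hij hi hj hA
  · left
    refine ⟨0, 1, one_pos, ?_⟩
    rw [not_nonempty_iff_eq_empty.1 hne]
    exact empty_subset _

/-- `A_i < A_j`: the cell `i` is inside. -/
theorem inside_of_lt (h : Diagram F g) {i j : Fin (k + 1)} (hij : i ≠ j) {x0 : E3}
    (hi0 : ActF F i x0) (hj0 : ActF F j x0) (hA : (g i).A - (g j).A < 0) :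
    Inside (OmF F) i j (cen (g i) (g j)) (1 / (-2 * ((g i).A - (g j).A))) := by
  have hr0 : 0 < -2 * ((g i).A - (g j).A) := by linarith
  have hr : |1 / (2 * ((g i).A - (g j).A))| = 1 / (-2 * ((g i).A - (g j).A)) := by
    rw [abs_div, abs_one, abs_of_neg (by linarith)]
    congr 1
    ring
  have hq := h.unit x0 i j hij hi0 hj0
  obtain ⟨A, hAdef⟩ : ∃ A, A = (g i).A - (g j).A := ⟨_, rfl⟩
  constructor
  · rw [interface_OmF h hij]
    rintro x ⟨hi, hj⟩
    rw [mem_sphere, dist_eq_norm, ← hr]
    exact act_sphere h hij hi hj hA.ne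
  · intro p hp hl
    rw [interface_OmF h hij] at hp
    obtain ⟨hi, hj⟩ := hp
    have hFij : F i p = F j p := le_antisymm (hj i) (hi j)
    have hlt : ∀ l, l ≠ i → l ≠ j → F l p < F i p := by
      intro l hli hlj
      have h1 := hl l hli hlj
      rw [cell_OmF h, closure_cellF h] at h1
      have h2 : ¬ ActF F l p := h1
      unfold ActF at h2
      push Not at h2
      obtain ⟨m, hm⟩ := h2
      exact lt_of_lt_of_le hm (hi m)
    have ev1 : ∀ᶠ z in 𝓝 p, ∀ l, l ≠ i → l ≠ j → F l z < F i z := by
      rw [Filter.eventually_all]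
      intro l
      by_cases hli : l = i
      · exact Filter.Eventually.of_forall fun z h1 => absurd hli h1
      by_cases hlj : l = j
      · exact Filter.Eventually.of_forall fun z _ h1 => absurd hlj h1
      have := (h.cont l).continuousAt.eventually_lt (h.cont i).continuousAt (hlt l hli hlj)
      exact this.mono fun z hz _ _ => hz
    have ev2 : ∀ᶠ z in 𝓝 p, ∀ l, l ≠ i → l ≠ j → F l z < F j z := by
      rw [Filter.eventually_all]
      intro l
      by_cases hli : l = i
      · exact Filter.Eventually.of_forall fun z h1 => absurd hli h1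
      by_cases hlj : l = j
      · exact Filter.Eventually.of_forall fun z _ h1 => absurd hlj h1
      have := (h.cont l).continuousAt.eventually_lt (h.cont j).continuousAt
        (hFij ▸ hlt l hli hlj)
      exact this.mono fun z hz _ _ => hz
    have ev := (ev1.and ev2).and ((h.loc p i hi).and (h.loc p j hj))
    obtain ⟨ε, hε, hball⟩ := Metric.eventually_nhds_iff_ball.1 ev
    refine ⟨ε, hε, ?_, ?_⟩
    · rintro z ⟨hz, hzc⟩
      obtain ⟨⟨h1, -⟩, h3, h4⟩ := hball z hz
      rw [cell_OmF h]
      intro l hli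
      by_cases hlj : l = j
      · subst hlj
        rw [h3, h4, ← sub_pos, ev_sub_sphere _ _ hA.ne hq]
        apply mul_pos_of_neg_of_neg hA
        rw [mem_ball, dist_eq_norm] at hzc
        rw [← sq_abs (1 / (2 * ((g i).A - (g l).A))), hr]
        have := norm_nonneg (z - cen (g i) (g l))
        nlinarith
      · exact h1 l hli hlj
    · rintro z ⟨hz, hzc⟩
      obtain ⟨⟨-, h2⟩, h3, h4⟩ := hball z hz
      rw [cell_OmF h]
      intro l hlj
      by_cases hli : l = i
      · subst hli
        rw [h3, h4, ← sub_neg, ev_sub_sphere _ _ hA.ne hq]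
        apply mul_neg_of_neg_of_pos hA
        rw [mem_compl_iff, mem_closedBall, not_le, dist_eq_norm] at hzc
        rw [← sq_abs (1 / (2 * ((g l).A - (g j).A))), hr]
        have : 0 < 1 / (-2 * ((g l).A - (g j).A)) := by positivity
        nlinarith
      · exact h2 l hli hlj

theorem balanced_OmF (h : Diagram F g) : PressureBalanced (OmF F) := by
  refine ⟨fun i => 4 * ((g (Fin.last k)).A - (g i).A), by ring, fun i j hij hne => ?_⟩
  rw [interface_OmF h hij] at hne
  obtain ⟨x0, hi0, hj0⟩ := hne
  rcases lt_trichotomy ((g i).A - (g j).A) 0 with hA | hA | hA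
  · left
    refine ⟨_, _, ?_, inside_of_lt h hij hi0 hj0 hA, ?_⟩
    · apply one_div_pos.2
      linarith
    · rw [div_div_eq_mul_div, div_one]
      ring
  · right; right
    refine ⟨(g i).b - (g j).b, plane_ne h hij hi0 hj0 hA, -((g i).C - (g j).C), ?_, ?_⟩
    · rw [interface_OmF h hij]
      rintro x ⟨hi, hj⟩
      exact act_plane h hi hj hA
    · linarith
  · right; left
    have hA' : (g j).A - (g i).A < 0 := by linarith
    refine ⟨_, _, ?_, inside_of_lt h hij.symm hj0 hi0 hA', ?_⟩
    · apply one_div_pos.2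
      linarith
    · rw [div_div_eq_mul_div, div_one]
      ring

end Kus64
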