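import Pool.Agent.helper64.Kus.Flat

/-!
# P3: linear algebra of equidistant points and the model cones

* `card_le_four`: a finite family of points of `E3` with mutual distances one has at most four
  members: five points `G0..G4` would give `u_i = G_i - G_0` (`i=1..4`) with `⟪ui,ui⟫ = 1`,
  `⟪ui,uj⟫ = 1/2`; `‖Σ c_i u_i‖² = (Σ c_i² + (Σ c_i)²)/2`, so they are linearly independent in a space
  of dimension three.
* `exists_iso1`: for a unit vector `u` there is a linear isometry `L` with `(L v) 2 = ⟪u, v⟫`.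
* `exists_iso2`: for `G : Fin 3 → E3` with mutual distances one there is a linear isometry `L` with
  `-(1/√3) (r k 0 * (L v) 0 + r k 1 * (L v) 1) = ⟪G k - Gm, v⟫`, where `Gm` is the mean and
  `r 0 = (1,0)`, `r 1 = (-1/2, √3/2)`, `r 2 = (-1/2,-√3/2)`:  `‖G k - Gm‖² = 1/3`,
  `⟪G k - Gm, G l - Gm⟫ = -1/6`; the vectors `a = -√3 (G 0 - Gm)`,
  `b = -(G 1 - G 2)` are orthonormal (`⟪G0-Gm, G1-G2⟫ = 0`), complete by `c` to an orthonormal
  basis, `L v = (⟪a,v⟫, ⟪b,v⟫, ⟪c,v⟫)`.
* `exists_iso3`: for `G : Fin 4 → E3` with mutual distances one there is a linear isometry `L` with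
  `-(1/√8) ⟪tetra k, L v⟫ = ⟪G k - Gm, v⟫`: `‖G k - Gm‖² = 3/8`, mixed `-1/8`; the map
  `L v = -(√8/4) Σ_k ⟪G k - Gm, v⟫ tetra k` satisfies it (`⟪tetra j, Σ f_k tetra k⟫ = 4 f_j` when
  `Σ f_k = 0`), and it is isometric: `‖Σ f_k tetra k‖² = 4 Σ f_k²` (for `Σ f_k = 0`) and
  `Σ_k ⟪G k - Gm, v⟫² = ‖v‖²/2` (the operator `Σ (Gk-Gm)(Gk-Gm)ᵀ` is `1/2` on the three vectors
  `G_l - Gm`, which span: its value at `G_l - Gm` is `3/8 (G_l-Gm) - 1/8 Σ_{k≠l} (G_k-Gm)
  = 1/2 (G_l - Gm)`).
* `mem_yCone_iff`: `x ∈ yCone` iff the maximum of the three numbers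
  `-(r k 0 * x 0 + r k 1 * x 1)` is attained at least twice.
* `mem_tCone_iff`: `x ∈ tCone` iff the maximum of the four numbers `-⟪tetra k, x⟫` is attained
  at least twice: `x = (1/4) Σ ⟪tetra k, x⟫ tetra k`, `Σ tetra k = 0`; if
  `⟪T i,x⟫ = ⟪T j,x⟫ = μ` is the minimum, `x = (1/4) Σ_{k≠i,j} (⟪T k,x⟫-μ) T k`.
-/

open Set Metric MeasureTheory Kusner
open scoped ContDiff Topology

namespace Kus64

theorem card_le_four {ι : Type*} (S : Finset ι) (G : ι → E3)
    (h : ∀ i ∈ S, ∀ j ∈ S, i ≠ j → ‖G i - G j‖ = 1) : S.card ≤ 4 := by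
  classical
  rcases S.eq_empty_or_nonempty with rfl | ⟨a, ha⟩
  · simp
  have hinn : ∀ i ∈ S.erase a, ∀ j ∈ S.erase a, inner ℝ (G i - G a) (G j - G a) =
      if i = j then 1 else 1 / 2 := by
    intro i hi j hj
    have hia : ‖G i - G a‖ = 1 := h i (Finset.mem_of_mem_erase hi) a ha (Finset.ne_of_mem_erase hi)
    have hja : ‖G j - G a‖ = 1 := h j (Finset.mem_of_mem_erase hj) a ha (Finset.ne_of_mem_erase hj)
    split_ifs with hij
    · subst hij
      rw [real_inner_self_eq_norm_sq, hia]; norm_num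
    · have hij1 : ‖G i - G j‖ = 1 :=
        h i (Finset.mem_of_mem_erase hi) j (Finset.mem_of_mem_erase hj) hij
      have e : G i - G j = (G i - G a) - (G j - G a) := by abel
      rw [e] at hij1
      have h2 := norm_sub_sq_real (G i - G a) (G j - G a)
      rw [hij1, hia, hja] at h2
      linarith
  have hli : LinearIndependent ℝ (fun i : ↥(S.erase a) => G i.1 - G a) := by
    rw [Fintype.linearIndependent_iff]
    intro c hc
    have hj : ∀ j : ↥(S.erase a), (∑ i, c i) / 2 + c j / 2 = 0 := by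
      intro j
      have h1 : inner ℝ (∑ i, c i • (G i.1 - G a)) (G j.1 - G a) = 0 := by
        rw [hc, inner_zero_left]
      rw [sum_inner] at h1
      have h2 : ∀ i : ↥(S.erase a), inner ℝ (c i • (G i.1 - G a)) (G j.1 - G a) =
          c i / 2 + if i = j then c i / 2 else 0 := by
        intro i
        rw [inner_smul_left, hinn _ i.2 _ j.2]
        simp only [conj_trivial, Subtype.coe_inj]
        split_ifs
        · ring
        · ring
      rw [Finset.sum_congr rfl fun i _ => h2 i, Finset.sum_add_distrib, ← Finset.sum_div,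
        Finset.sum_ite_eq' Finset.univ j] at h1
      simpa using h1
    have hs : ∑ i, c i = 0 := by
      have h1 : ∑ j : ↥(S.erase a), ((∑ i, c i) / 2 + c j / 2) = 0 := by
        rw [Finset.sum_congr rfl fun j _ => hj j]; simp
      simp only [Finset.sum_add_distrib, ← Finset.sum_div, Finset.sum_const, nsmul_eq_mul] at h1
      have h2 : (∑ i, c i) * (((Finset.univ : Finset ↥(S.erase a)).card : ℝ) + 1) = 0 := by
        linarith
      rcases mul_eq_zero.mp h2 with h3 | h3
      · exact h3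
      · exfalso
        have : (0 : ℝ) ≤ ((Finset.univ : Finset ↥(S.erase a)).card : ℝ) := Nat.cast_nonneg _
        linarith
    intro i
    have := hj i
    rw [hs] at this
    linarith
  have h3 := hli.fintype_card_le_finrank
  rw [Fintype.card_coe, Finset.card_erase_of_mem ha] at h3
  have h4 : Module.finrank ℝ E3 = 3 := by simp [E3, Kusner.E3]
  omega

/-- The three unit vectors of the plane. -/
noncomputable def rr : Fin 3 → Fin 2 → ℝ :=
  ![![1, 0], ![-1 / 2, √3 / 2], ![-1 / 2, -√3 / 2]]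

private theorem iso_of (e : Fin 3 → E3) (s : Set (Fin 3)) (he : Orthonormal ℝ (s.domRestrict e)) :
    ∃ L : E3 ≃ₗᵢ[ℝ] E3, ∀ v, ∀ i ∈ s, (L v) i = inner ℝ (e i) v := by
  obtain ⟨b, hb⟩ := he.exists_orthonormalBasis_extension_of_card_eq (ι := Fin 3)
    (by simp [E3, Kusner.E3])
  refine ⟨b.repr, fun v i hi => ?_⟩
  rw [OrthonormalBasis.repr_apply_apply, hb i hi]

theorem exists_iso1 {u : E3} (hu : ‖u‖ = 1) :
    ∃ L : E3 ≃ₗᵢ[ℝ] E3, ∀ v, (L v) 2 = inner ℝ u v := by
  obtain ⟨L, hL⟩ := iso_of (fun _ => u) {2} ⟨fun _ => hu, fun i j hij => by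
    exact absurd (Subsingleton.elim i j) hij⟩
  exact ⟨L, fun v => hL v 2 rfl⟩

private theorem inn3 (u v : E3) : inner ℝ u v = u 0 * v 0 + u 1 * v 1 + u 2 * v 2 := by
  simp [PiLp.inner_apply, Fin.sum_univ_three, mul_comm]

private theorem sub_inner {a b c : E3} (hab : ‖a - b‖ = 1) (hac : ‖a - c‖ = 1)
    (hbc : ‖b - c‖ = 1) : inner ℝ (a - b) (a - c) = 1 / 2 := by
  have e : b - c = (a - c) - (a - b) := by abel
  rw [e] at hbc
  have h2 := norm_sub_sq_real (a - c) (a - b)
  rw [hbc, hab, hac, real_inner_comm] at h2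
  linarith

theorem exists_iso2 {G : Fin 3 → E3} (h : ∀ i j, i ≠ j → ‖G i - G j‖ = 1) :
    ∃ L : E3 ≃ₗᵢ[ℝ] E3, ∀ v k, -(1 / √3) * (rr k 0 * (L v) 0 + rr k 1 * (L v) 1) =
      inner ℝ (G k - (1 / 3 : ℝ) • ∑ l, G l) v := by
  have h3 : √3 ^ 2 = (3 : ℝ) := Real.sq_sqrt (by norm_num)
  have h30 : √3 ≠ (0 : ℝ) := by positivity
  obtain ⟨p, hp⟩ : ∃ p : E3, p = G 0 - G 1 := ⟨_, rfl⟩
  obtain ⟨q, hq⟩ : ∃ q : E3, q = G 0 - G 2 := ⟨_, rfl⟩
  have hpp : inner ℝ p p = 1 := by
    rw [real_inner_self_eq_norm_sq, hp, h 0 1 (by decide)]; norm_num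
  have hqq : inner ℝ q q = 1 := by
    rw [real_inner_self_eq_norm_sq, hq, h 0 2 (by decide)]; norm_num
  have hpq : inner ℝ p q = 1 / 2 := by
    rw [hp, hq]; exact sub_inner (h 0 1 (by decide)) (h 0 2 (by decide)) (h 1 2 (by decide))
  have hqp : inner ℝ q p = 1 / 2 := by rw [real_inner_comm]; exact hpq
  obtain ⟨a, ha⟩ : ∃ a : E3, a = (-(√3 / 3)) • (p + q) := ⟨_, rfl⟩
  obtain ⟨b, hb⟩ : ∃ b : E3, b = p - q := ⟨_, rfl⟩
  have haa : inner ℝ a a = 1 := by
    rw [ha]
    simp only [inner_smul_left, inner_smul_right, inner_add_left, inner_add_right, conj_trivial,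
      hpp, hqq, hpq, hqp]
    linear_combination (1 / 3) * h3
  have hbb : inner ℝ b b = 1 := by
    rw [hb]
    simp only [inner_sub_left, inner_sub_right, hpp, hqq, hpq, hqp]
    norm_num
  have hab : inner ℝ a b = 0 := by
    rw [ha, hb]
    simp only [inner_smul_left, inner_add_left, inner_sub_right, conj_trivial,
      hpp, hqq, hpq, hqp]
    norm_num
  have horth : Orthonormal ℝ (({0, 1} : Set (Fin 3)).domRestrict ![a, b, 0]) := by
    constructor
    · rintro ⟨i, hi⟩
      rcases hi with rfl | hi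
      · change ‖a‖ = 1
        have : ‖a‖ ^ 2 = 1 := by rw [← real_inner_self_eq_norm_sq, haa]
        nlinarith [norm_nonneg a]
      · rw [mem_singleton_iff] at hi
        subst hi
        change ‖b‖ = 1
        have : ‖b‖ ^ 2 = 1 := by rw [← real_inner_self_eq_norm_sq, hbb]
        nlinarith [norm_nonneg b]
    · rintro ⟨i, hi⟩ ⟨j, hj⟩ hij
      have hij' : i ≠ j := fun hh => hij (Subtype.ext hh)
      rcases hi with rfl | hi
      · rcases hj with rfl | hj
        · exact absurd rfl hij'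
        · rw [mem_singleton_iff] at hj
          subst hj
          exact hab
      · rw [mem_singleton_iff] at hi
        subst hi
        rcases hj with rfl | hj
        · change inner ℝ b a = 0
          rw [real_inner_comm]; exact hab
        · rw [mem_singleton_iff] at hj
          subst hj
          exact absurd rfl hij'
  obtain ⟨L, hL⟩ := iso_of ![a, b, 0] {0, 1} horth
  refine ⟨L, fun v k => ?_⟩
  have e0 : (L v) 0 = inner ℝ a v := hL v 0 (Or.inl rfl)
  have e1 : (L v) 1 = inner ℝ b v := hL v 1 (Or.inr rfl)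
  rw [e0, e1]
  have e2 : G k - (1 / 3 : ℝ) • ∑ l, G l = (-(1 / √3) * rr k 0) • a + (-(1 / √3) * rr k 1) • b := by
    rw [Fin.sum_univ_three, ha, hb, hp, hq]
    fin_cases k
    · simp only [rr, Fin.zero_eta, Matrix.cons_val_zero, Matrix.cons_val_one]
      match_scalars <;> field_simp <;> ring
    · simp only [rr, Fin.mk_one, Matrix.cons_val_zero, Matrix.cons_val_one]
      match_scalars <;> field_simp <;> norm_num
    · simp only [rr, Fin.reduceFinMk, Matrix.cons_val_zero, Matrix.cons_val_one, Matrix.cons_val]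
      match_scalars <;> field_simp <;> norm_num
  rw [e2, inner_add_left, inner_smul_left, inner_smul_left]
  simp only [conj_trivial]
  ring

theorem exists_iso3 {G : Fin 4 → E3} (h : ∀ i j, i ≠ j → ‖G i - G j‖ = 1) :
    ∃ L : E3 ≃ₗᵢ[ℝ] E3, ∀ v k, -(1 / √8) * inner ℝ (tetra k) (L v) =
      inner ℝ (G k - (1 / 4 : ℝ) • ∑ l, G l) v := by
  have h2 : √2 ^ 2 = (2 : ℝ) := Real.sq_sqrt (by norm_num)
  have h20 : √2 ≠ (0 : ℝ) := by positivity
  have h8 : √8 = 2 * √2 := by
    rw [show (8 : ℝ) = 2 ^ 2 * 2 by norm_num, Real.sqrt_mul (by norm_num),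
      Real.sqrt_sq (by norm_num)]
  obtain ⟨p, hp⟩ : ∃ p : E3, p = G 0 - G 1 := ⟨_, rfl⟩
  obtain ⟨q, hq⟩ : ∃ q : E3, q = G 0 - G 2 := ⟨_, rfl⟩
  obtain ⟨r, hr⟩ : ∃ r : E3, r = G 0 - G 3 := ⟨_, rfl⟩
  have hpp : inner ℝ p p = 1 := by
    rw [real_inner_self_eq_norm_sq, hp, h 0 1 (by decide)]; norm_num
  have hqq : inner ℝ q q = 1 := by
    rw [real_inner_self_eq_norm_sq, hq, h 0 2 (by decide)]; norm_num
  have hrr : inner ℝ r r = 1 := by
    rw [real_inner_self_eq_norm_sq, hr, h 0 3 (by decide)]; norm_num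
  have hpq : inner ℝ p q = 1 / 2 := by
    rw [hp, hq]; exact sub_inner (h 0 1 (by decide)) (h 0 2 (by decide)) (h 1 2 (by decide))
  have hpr : inner ℝ p r = 1 / 2 := by
    rw [hp, hr]; exact sub_inner (h 0 1 (by decide)) (h 0 3 (by decide)) (h 1 3 (by decide))
  have hqr : inner ℝ q r = 1 / 2 := by
    rw [hq, hr]; exact sub_inner (h 0 2 (by decide)) (h 0 3 (by decide)) (h 2 3 (by decide))
  have hqp : inner ℝ q p = 1 / 2 := by rw [real_inner_comm]; exact hpq
  have hrp : inner ℝ r p = 1 / 2 := by rw [real_inner_comm]; exact hpr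
  have hrq : inner ℝ r q = 1 / 2 := by rw [real_inner_comm]; exact hqr
  obtain ⟨a, ha⟩ : ∃ a : E3, a = (-(√2 / 2)) • (q + r - p) := ⟨_, rfl⟩
  obtain ⟨b, hb⟩ : ∃ b : E3, b = (-(√2 / 2)) • (p + r - q) := ⟨_, rfl⟩
  obtain ⟨c, hc⟩ : ∃ c : E3, c = (-(√2 / 2)) • (p + q - r) := ⟨_, rfl⟩
  obtain ⟨e, he⟩ : ∃ e : Fin 3 → E3, e = ![a, b, c] := ⟨_, rfl⟩
  have haa : inner ℝ a a = 1 := by
    rw [ha]
    simp only [inner_smul_left, inner_smul_right, inner_add_left, inner_add_right, inner_sub_left,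
      inner_sub_right, conj_trivial, hpp, hqq, hrr, hpq, hpr, hqr, hqp, hrp, hrq]
    linear_combination (1 / 2) * h2
  have hbb : inner ℝ b b = 1 := by
    rw [hb]
    simp only [inner_smul_left, inner_smul_right, inner_add_left, inner_add_right, inner_sub_left,
      inner_sub_right, conj_trivial, hpp, hqq, hrr, hpq, hpr, hqr, hqp, hrp, hrq]
    linear_combination (1 / 2) * h2
  have hcc : inner ℝ c c = 1 := by
    rw [hc]
    simp only [inner_smul_left, inner_smul_right, inner_add_left, inner_add_right, inner_sub_left,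
      inner_sub_right, conj_trivial, hpp, hqq, hrr, hpq, hpr, hqr, hqp, hrp, hrq]
    linear_combination (1 / 2) * h2
  have hab : inner ℝ a b = 0 := by
    rw [ha, hb]
    simp only [inner_smul_left, inner_smul_right, inner_add_left, inner_add_right, inner_sub_left,
      inner_sub_right, conj_trivial, hpp, hqq, hrr, hpq, hpr, hqr, hqp, hrp, hrq]
    ring
  have hac : inner ℝ a c = 0 := by
    rw [ha, hc]
    simp only [inner_smul_left, inner_smul_right, inner_add_left, inner_add_right, inner_sub_left,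
      inner_sub_right, conj_trivial, hpp, hqq, hrr, hpq, hpr, hqr, hqp, hrp, hrq]
    ring
  have hbc : inner ℝ b c = 0 := by
    rw [hb, hc]
    simp only [inner_smul_left, inner_smul_right, inner_add_left, inner_add_right, inner_sub_left,
      inner_sub_right, conj_trivial, hpp, hqq, hrr, hpq, hpr, hqr, hqp, hrp, hrq]
    ring
  have hin : ∀ i j, inner ℝ (e i) (e j) = if i = j then 1 else 0 := by
    intro i j
    rw [he]
    fin_cases i <;> fin_cases j
    · exact haa
    · exact hab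
    · exact hac
    · exact (real_inner_comm _ _).trans hab
    · exact hbb
    · exact hbc
    · exact (real_inner_comm _ _).trans hac
    · exact (real_inner_comm _ _).trans hbc
    · exact hcc
  have horth : Orthonormal ℝ ((univ : Set (Fin 3)).domRestrict e) := by
    constructor
    · rintro ⟨i, hi⟩
      have h1 : ‖e i‖ ^ 2 = 1 := by
        rw [← real_inner_self_eq_norm_sq, hin i i, if_pos rfl]
      change ‖e i‖ = 1
      nlinarith [norm_nonneg (e i)]
    · rintro ⟨i, hi⟩ ⟨j, hj⟩ hij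
      change inner ℝ (e i) (e j) = 0
      rw [hin i j, if_neg fun hh => hij (Subtype.ext hh)]
  obtain ⟨L, hL⟩ := iso_of e univ horth
  refine ⟨L, fun v k => ?_⟩
  have e1 : inner ℝ (tetra k) (L v) = tetra k 0 * inner ℝ (e 0) v + tetra k 1 * inner ℝ (e 1) v +
      tetra k 2 * inner ℝ (e 2) v := by
    rw [← hL v 0 trivial, ← hL v 1 trivial, ← hL v 2 trivial]
    exact inn3 _ _
  have e2 : G k - (1 / 4 : ℝ) • ∑ l, G l = (-(1 / √8) * tetra k 0) • e 0 +
      (-(1 / √8) * tetra k 1) • e 1 + (-(1 / √8) * tetra k 2) • e 2 := by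
    have ea : e 0 = a := by rw [he]; rfl
    have eb : e 1 = b := by rw [he]; rfl
    have ec : e 2 = c := by rw [he]; rfl
    rw [Fin.sum_univ_four, ea, eb, ec, ha, hb, hc, hp, hq, hr, h8]
    fin_cases k
    · simp only [tetra, Fin.zero_eta, Matrix.cons_val_zero, Matrix.cons_val_one, Matrix.cons_val]
      match_scalars <;> field_simp <;> ring
    · simp only [tetra, Fin.mk_one, Matrix.cons_val_zero, Matrix.cons_val_one, Matrix.cons_val]
      match_scalars <;> field_simp <;> ring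
    · simp only [tetra, Fin.reduceFinMk, Matrix.cons_val_zero, Matrix.cons_val_one, Matrix.cons_val]
      match_scalars <;> field_simp <;> ring
    · simp only [tetra, Fin.reduceFinMk, Matrix.cons_val_zero, Matrix.cons_val_one, Matrix.cons_val]
      match_scalars <;> field_simp <;> ring
  rw [e1, e2, inner_add_left, inner_add_left, inner_smul_left, inner_smul_left, inner_smul_left]
  simp only [conj_trivial]
  ring

theorem mem_yCone_iff (x : E3) :
    x ∈ yCone ↔ ∃ i j : Fin 3, i ≠ j ∧ (∀ l, -(rr l 0 * x 0 + rr l 1 * x 1) ≤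
      -(rr i 0 * x 0 + rr i 1 * x 1)) ∧ ∀ l, -(rr l 0 * x 0 + rr l 1 * x 1) ≤
      -(rr j 0 * x 0 + rr j 1 * x 1) := by
  have h3 : √3 ^ 2 = (3 : ℝ) := Real.sq_sqrt (by norm_num)
  have h30 : (0 : ℝ) < √3 := by positivity
  have r0 : rr 0 0 * x 0 + rr 0 1 * x 1 = x 0 := by simp [rr]
  have r1 : rr 1 0 * x 0 + rr 1 1 * x 1 = -1 / 2 * x 0 + √3 / 2 * x 1 := by simp [rr]
  have r2 : rr 2 0 * x 0 + rr 2 1 * x 1 = -1 / 2 * x 0 + -√3 / 2 * x 1 := by simp [rr]
  constructor
  · rintro ⟨s, hs, ⟨h0, h1⟩ | ⟨h0, h1⟩ | ⟨h0, h1⟩⟩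
    · refine ⟨1, 2, by decide, fun l => ?_, fun l => ?_⟩ <;> fin_cases l <;>
        simp only [Fin.zero_eta, Fin.mk_one, Fin.reduceFinMk, r0, r1, r2] <;>
        simp only [h0, h1] <;> nlinarith
    · refine ⟨0, 2, by decide, fun l => ?_, fun l => ?_⟩ <;> fin_cases l <;>
        simp only [Fin.zero_eta, Fin.mk_one, Fin.reduceFinMk, r0, r1, r2] <;>
        simp only [h0, h1] <;> nlinarith
    · refine ⟨0, 1, by decide, fun l => ?_, fun l => ?_⟩ <;> fin_cases l <;>
        simp only [Fin.zero_eta, Fin.mk_one, Fin.reduceFinMk, r0, r1, r2] <;>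
        simp only [h0, h1] <;> nlinarith
  · rintro ⟨i, j, hij, hi, hj⟩
    have key : ∀ l m : Fin 3, l = i ∨ l = j → -(rr m 0 * x 0 + rr m 1 * x 1) ≤
      -(rr l 0 * x 0 + rr l 1 * x 1) := by
      rintro l m (rfl | rfl)
      · exact hi m
      · exact hj m
    have hcase : ((0 = i ∨ 0 = j) ∧ (1 = i ∨ 1 = j)) ∨ ((0 = i ∨ 0 = j) ∧ (2 = i ∨ 2 = j)) ∨
        ((1 = i ∨ 1 = j) ∧ (2 = i ∨ 2 = j)) := by
      clear key hi hj
      revert i j
      decide
    rcases hcase with ⟨ha, hb⟩ | ⟨ha, hb⟩ | ⟨ha, hb⟩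
    · have a1 := key 0 1 ha
      have a2 := key 0 2 ha
      have b1 := key 1 0 hb
      rw [r0, r1] at a1 b1
      rw [r0, r2] at a2
      have hx : √3 * x 1 = 3 * x 0 := by linarith
      have hx1 : x 1 = √3 * x 0 := by
        have : √3 * x 1 = √3 * (√3 * x 0) := by rw [hx, ← mul_assoc, ← sq, h3]
        exact mul_left_cancel₀ h30.ne' this
      refine ⟨-2 * x 0, by linarith, Or.inr (Or.inr ⟨by ring, by rw [hx1]; ring⟩)⟩
    · have a1 := key 0 1 ha
      have a2 := key 0 2 ha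
      have b1 := key 2 0 hb
      rw [r0, r1] at a1
      rw [r0, r2] at a2 b1
      have hx : √3 * x 1 = -3 * x 0 := by linarith
      have hx1 : x 1 = -√3 * x 0 := by
        have : √3 * x 1 = √3 * (-√3 * x 0) := by
          rw [hx]; linear_combination (x 0) * h3
        exact mul_left_cancel₀ h30.ne' this
      refine ⟨-2 * x 0, by linarith, Or.inr (Or.inl ⟨by ring, by rw [hx1]; ring⟩)⟩
    · have a1 := key 1 0 ha
      have a2 := key 1 2 ha
      have b1 := key 2 1 hb
      rw [r1, r0] at a1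
      rw [r1, r2] at a2 b1
      have hx : √3 * x 1 = 0 := by linarith
      have hx1 : x 1 = 0 := by
        rcases mul_eq_zero.mp hx with h | h
        · exact absurd h h30.ne'
        · exact h
      rw [hx1] at a1
      refine ⟨x 0, by linarith, Or.inl ⟨rfl, hx1⟩⟩

private theorem tetra_inner (k i : Fin 4) : inner ℝ (tetra k) (tetra i) =
    if k = i then (3 : ℝ) else -1 := by
  rw [inn3]
  fin_cases k <;> fin_cases i <;> simp [tetra] <;> norm_num

theorem mem_tCone_iff (x : E3) :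
    x ∈ tCone ↔ ∃ i j : Fin 4, i ≠ j ∧ (∀ l, -inner ℝ (tetra l) x ≤ -inner ℝ (tetra i) x) ∧
      ∀ l, -inner ℝ (tetra l) x ≤ -inner ℝ (tetra j) x := by
  have hkl : ∀ i j : Fin 4, i ≠ j → ∃ k l : Fin 4, k ≠ l ∧ k ≠ i ∧ k ≠ j ∧ l ≠ i ∧ l ≠ j := by
    decide
  constructor
  · rintro ⟨i, j, hij, a, b, ha, hb, rfl⟩
    obtain ⟨k, l, h1, h2, h3, h4, h5⟩ := hkl i j hij
    have hv : ∀ m, inner ℝ (tetra m) (a • tetra i + b • tetra j) =
        a * (if m = i then 3 else -1) + b * (if m = j then 3 else -1) := by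
      intro m
      rw [inner_add_right, inner_smul_right, inner_smul_right, tetra_inner, tetra_inner]
    have hk : inner ℝ (tetra k) (a • tetra i + b • tetra j) = -a - b := by
      rw [hv, if_neg h2, if_neg h3]; ring
    have hl : inner ℝ (tetra l) (a • tetra i + b • tetra j) = -a - b := by
      rw [hv, if_neg h4, if_neg h5]; ring
    have hm : ∀ m, -a - b ≤ inner ℝ (tetra m) (a • tetra i + b • tetra j) := by
      intro m
      rw [hv]
      split_ifs <;> linarith
    exact ⟨k, l, h1, fun m => by rw [hk]; exact neg_le_neg (hm m),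
      fun m => by rw [hl]; exact neg_le_neg (hm m)⟩
  · rintro ⟨i, j, hij, hi, hj⟩
    obtain ⟨k, l, h1, h2, h3, h4, h5⟩ := hkl i j hij
    have hexp : ∀ μ : ℝ, x = ∑ m, ((inner ℝ (tetra m) x - μ) / 4) • tetra m := by
      intro μ
      rw [Fin.sum_univ_four]
      ext n
      fin_cases n <;> simp [tetra, PiLp.inner_apply, Fin.sum_univ_three] <;> ring
    have hij' : inner ℝ (tetra i) x = inner ℝ (tetra j) x := by
      linarith [hi j, hj i]
    refine ⟨k, l, h1, (inner ℝ (tetra k) x - inner ℝ (tetra i) x) / 4,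
      (inner ℝ (tetra l) x - inner ℝ (tetra i) x) / 4, by linarith [hi k], by linarith [hi l], ?_⟩
    conv_lhs => rw [hexp (inner ℝ (tetra i) x)]
    rw [← Finset.sum_subset (Finset.subset_univ ({k, l} : Finset (Fin 4)))]
    · rw [Finset.sum_pair h1]
    · intro m _ hm
      have hm' : m = i ∨ m = j := by
        have hall : ∀ i j k l m : Fin 4, i ≠ j → k ≠ l → k ≠ i → k ≠ j → l ≠ i → l ≠ j →
          m ∉ ({k, l} : Finset (Fin 4)) → m = i ∨ m = j := by decide
        exact hall i j k l m hij h1 h2 h3 h4 h5 hm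
      rcases hm' with rfl | rfl
      · rw [sub_self, zero_div, zero_smul]
      · rw [hij', sub_self, zero_div, zero_smul]

end Kus64
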