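import Pool.Agent.helper64.Kus.P1
import Pool.Agent.helper64.Kus.P3

/-!
# P4: Plateau's laws for a flat diagram

Let `p ∈ film`, `S` the set of indices active at `p`; `2 ≤ |S| ≤ 4` (`film_OmF`, `grad_dist`,
`card_le_four`).  Put `h i = (g i).ev`, `G i = (g i).b + (2 A_i) • p` (the gradient of `h i` at `p`).
There is an open `W ∋ p` such that for `x ∈ W`: `F i x = h i x` for `i ∈ S`, and `F l x < F i x` for
`l ∉ S`, `i ∈ S` (finitely many conditions, continuity).  So for `x ∈ W`: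
`x ∈ film` iff the maximum of `h i x`, `i ∈ S`, is attained at least twice.
Enumerate `S` by `e : Fin m ≃ S` (`m = 2,3,4`; `Finset.equivFin`/`Finset.orderIsoOfFin`).
In all cases `Φ x = L (x - p) + ‖x - p‖ ^ 2 • w` for a suitable constant vector `w`.
-/

open Set Metric MeasureTheory Kusner
open scoped ContDiff Topology

namespace Kus64

variable {k : ℕ} {F : Fin (k + 1) → E3 → ℝ} {g : Fin (k + 1) → MF}

/-- The gradient of a Moebius function. -/
noncomputable def gr (g : MF) (p : E3) : E3 := g.b + (2 * g.A) • p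

lemma ev_expand (g : MF) (p x : E3) :
    g.ev x = g.ev p + inner ℝ (gr g p) (x - p) + g.A * ‖x - p‖ ^ 2 := by
  have h : ‖x‖ ^ 2 = ‖p‖ ^ 2 + 2 * inner ℝ p (x - p) + ‖x - p‖ ^ 2 := by
    have := norm_add_sq_real p (x - p)
    rwa [add_sub_cancel] at this
  have h2 : inner ℝ g.b x = inner ℝ g.b p + inner ℝ g.b (x - p) := by
    rw [← inner_add_right, add_sub_cancel]
  unfold MF.ev gr
  rw [h, h2, inner_add_left, real_inner_smul_left]
  ring

lemma locallyLike_of {S C W : Set E3} {p : E3} (L : E3 ≃ₗᵢ[ℝ] E3) (w : E3) (hW : IsOpen W)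
    (hp : p ∈ W) (h : ∀ x ∈ W, x ∈ S ↔ L (x - p) + ‖x - p‖ ^ 2 • w ∈ C) :
    LocallyLike S C p := by
  refine ⟨W, fun x => L (x - p) + ‖x - p‖ ^ 2 • w, L, hW, hp, ?_, ?_, ?_, h⟩
  · refine ContDiff.contDiffOn ?_
    exact (L.contDiff.comp (contDiff_id.sub contDiff_const)).add
      (((contDiff_id.sub contDiff_const).norm_sq ℝ).smul contDiff_const)
  · simp
  · have h0 : HasFDerivAt (fun x : E3 => x - p) (ContinuousLinearMap.id ℝ E3) p :=
      (hasFDerivAt_id p).sub_const p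
    have hL1 : HasFDerivAt (fun y : E3 => L y) (L.toContinuousLinearEquiv : E3 →L[ℝ] E3)
        ((fun x : E3 => x - p) p) := L.toContinuousLinearEquiv.hasFDerivAt
    have h1 := HasFDerivAt.comp (g := fun y : E3 => L y) (f := fun x : E3 => x - p) p hL1 h0
    have h2 := (h0.norm_sq).smul_const w
    refine (h1.add h2).congr_fderiv ?_
    refine ContinuousLinearMap.ext fun v => ?_
    simp

lemma nhd_film (h : Diagram F g) {p : E3} {m : ℕ} (e : Fin m → Fin (k + 1))
    (he : ∀ i, ActF F i p ↔ ∃ c, e c = i) (hinj : Function.Injective e) (hm : 0 < m) :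
    ∃ W : Set E3, IsOpen W ∧ p ∈ W ∧ ∀ x ∈ W, (x ∈ film (OmF F) ↔
      ∃ a b : Fin m, a ≠ b ∧ (∀ c, (g (e c)).ev x ≤ (g (e a)).ev x) ∧
        ∀ c, (g (e c)).ev x ≤ (g (e b)).ev x) := by
  have h1 : ∀ c, ∀ᶠ z in 𝓝 p, F (e c) z = (g (e c)).ev z := fun c =>
    h.loc p (e c) ((he (e c)).mpr ⟨c, rfl⟩)
  have h2 : ∀ l, ¬ ActF F l p → ∀ c, ∀ᶠ z in 𝓝 p, F l z < F (e c) z := by
    intro l hl c
    have hc : ActF F (e c) p := (he (e c)).mpr ⟨c, rfl⟩
    have hlt : F l p < F (e c) p := by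
      unfold ActF at hl
      push Not at hl
      obtain ⟨j, hj⟩ := hl
      exact lt_of_lt_of_le hj (hc j)
    exact ((h.cont l).continuousAt).eventually_lt ((h.cont (e c)).continuousAt) hlt
  have h3 : ∀ᶠ z in 𝓝 p, (∀ c, F (e c) z = (g (e c)).ev z) ∧
      ∀ l, ¬ ActF F l p → ∀ c, F l z < F (e c) z := by
    refine (Filter.eventually_all.mpr h1).and (Filter.eventually_all.mpr fun l => ?_)
    by_cases hl : ActF F l p
    · exact Filter.Eventually.of_forall fun z hz => absurd hl hz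
    · exact (Filter.eventually_all.mpr (h2 l hl)).mono fun z hz _ => hz
  obtain ⟨W, hW, hWo, hpW⟩ := _root_.eventually_nhds_iff.mp h3
  refine ⟨W, hWo, hpW, fun x hx => ?_⟩
  obtain ⟨hx1, hx2⟩ := hW x hx
  rw [film_OmF h]
  have key : ∀ i, ActF F i x → ∃ c, e c = i := by
    intro i hi
    rw [← he]
    by_contra hn
    exact absurd (hi (e ⟨0, hm⟩)) (not_le.mpr (hx2 i hn _))
  have key2 : ∀ a, ActF F (e a) x ↔ ∀ c, (g (e c)).ev x ≤ (g (e a)).ev x := by
    intro a
    constructor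
    · intro ha c
      rw [← hx1, ← hx1]
      exact ha _
    · intro ha l
      by_cases hl : ActF F l p
      · obtain ⟨c, rfl⟩ := (he l).mp hl
        rw [hx1, hx1]
        exact ha c
      · exact (hx2 l hl a).le
  constructor
  · rintro ⟨i, j, hij, hi, hj⟩
    obtain ⟨a, rfl⟩ := key i hi
    obtain ⟨b, rfl⟩ := key j hj
    exact ⟨a, b, fun hab => hij (by rw [hab]), (key2 a).mp hi, (key2 b).mp hj⟩
  · rintro ⟨a, b, hab, ha, hb⟩
    exact ⟨e a, e b, fun h => hab (hinj h), (key2 a).mpr ha, (key2 b).mpr hb⟩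

/-- Increasing relabelling of the functions. -/
lemma iff_of_scale {m : ℕ} {u v : Fin m → ℝ} {s M : ℝ} (hs : 0 < s)
    (huv : ∀ l, u l = s * (v l - M)) :
    (∃ a b : Fin m, a ≠ b ∧ (∀ c, v c ≤ v a) ∧ ∀ c, v c ≤ v b) ↔
      ∃ a b : Fin m, a ≠ b ∧ (∀ c, u c ≤ u a) ∧ ∀ c, u c ≤ u b := by
  have key : ∀ c a, (v c ≤ v a ↔ u c ≤ u a) := by
    intro c a
    rw [huv, huv, mul_le_mul_iff_right₀ hs, sub_le_sub_iff_right]
  simp only [key]

lemma ev_eq_of_act (h : Diagram F g) {p : E3} {i j : Fin (k + 1)} (hi : ActF F i p)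
    (hj : ActF F j p) : (g i).ev p = (g j).ev p := by
  rw [← (h.loc p i hi).self_of_nhds, ← (h.loc p j hj).self_of_nhds]
  exact le_antisymm (hj i) (hi j)

lemma plateau2 (h : Diagram F g) {p : E3} (e : Fin 2 → Fin (k + 1))
    (he : ∀ i, ActF F i p ↔ ∃ c, e c = i) (hinj : Function.Injective e) :
    LocallyLike (film (OmF F)) planeCone p := by
  obtain ⟨W, hW, hpW, hx⟩ := nhd_film h e he hinj (by norm_num)
  have hact : ∀ c, ActF F (e c) p := fun c => (he _).mpr ⟨c, rfl⟩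
  have hne : e 0 ≠ e 1 := fun hh => absurd (hinj hh) (by decide)
  have hu : ‖gr (g (e 0)) p - gr (g (e 1)) p‖ = 1 := grad_dist h hne (hact 0) (hact 1)
  obtain ⟨L, hL⟩ := exists_iso1 hu
  refine locallyLike_of L (((g (e 0)).A - (g (e 1)).A) • EuclideanSpace.single 2 (1 : ℝ)) hW hpW
    fun x hxW => ?_
  rw [hx x hxW]
  have hev := ev_eq_of_act h (hact 0) (hact 1)
  have e0 := ev_expand (g (e 0)) p x
  have e1 := ev_expand (g (e 1)) p x
  have h3 : (L (x - p) + ‖x - p‖ ^ 2 • (((g (e 0)).A - (g (e 1)).A) •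
      (EuclideanSpace.single 2 (1 : ℝ) : E3))) 2 = (g (e 0)).ev x - (g (e 1)).ev x := by
    have : (L (x - p) + ‖x - p‖ ^ 2 • (((g (e 0)).A - (g (e 1)).A) •
      (EuclideanSpace.single 2 (1 : ℝ) : E3))) 2 = (L (x - p)) 2 +
        ‖x - p‖ ^ 2 * ((g (e 0)).A - (g (e 1)).A) := by
      simp
    rw [this, hL, inner_sub_left, e0, e1, hev]
    ring
  change _ ↔ (L (x - p) + ‖x - p‖ ^ 2 • (((g (e 0)).A - (g (e 1)).A) •
      (EuclideanSpace.single 2 (1 : ℝ) : E3))) 2 = 0
  rw [h3, sub_eq_zero]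
  constructor
  · rintro ⟨a, b, hab, ha, hb⟩
    fin_cases a <;> fin_cases b
    · exact absurd rfl hab
    · exact le_antisymm (hb 0) (ha 1)
    · exact le_antisymm (ha 0) (hb 1)
    · exact absurd rfl hab
  · intro hh
    refine ⟨0, 1, by decide, fun c => ?_, fun c => ?_⟩
    · fin_cases c
      · exact le_refl _
      · exact hh.ge
    · fin_cases c
      · exact hh.le
      · exact le_refl _

lemma plateau3 (h : Diagram F g) {p : E3} (e : Fin 3 → Fin (k + 1))
    (he : ∀ i, ActF F i p ↔ ∃ c, e c = i) (hinj : Function.Injective e) :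
    LocallyLike (film (OmF F)) yCone p := by
  obtain ⟨W, hW, hpW, hx⟩ := nhd_film h e he hinj (by norm_num)
  have hact : ∀ c, ActF F (e c) p := fun c => (he _).mpr ⟨c, rfl⟩
  have hu : ∀ i j, i ≠ j → ‖gr (g (e i)) p - gr (g (e j)) p‖ = 1 := fun i j hij =>
    grad_dist h (fun hh => hij (hinj hh)) (hact i) (hact j)
  obtain ⟨L, hL⟩ := exists_iso2 (G := fun c => gr (g (e c)) p) hu
  set a : Fin 3 → ℝ := fun c => (g (e c)).A with ha
  set w : E3 := !₂[-√3 * (a 0 - (1 / 3) * ∑ l, a l), a 2 - a 1, 0] with hw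
  have h3 : √3 * √3 = 3 := Real.mul_self_sqrt (by norm_num)
  have h3p : 0 < √3 := Real.sqrt_pos.mpr (by norm_num)
  refine locallyLike_of L w hW hpW fun x hxW => ?_
  rw [hx x hxW, mem_yCone_iff]
  refine iff_of_scale (M := (g (e 0)).ev p + inner ℝ ((1 / 3 : ℝ) • ∑ l, gr (g (e l)) p) (x - p) +
    (1 / 3) * (∑ l, a l) * ‖x - p‖ ^ 2) h3p fun l => ?_
  have hev := ev_eq_of_act h (hact 0) (hact l)
  have e0 := ev_expand (g (e l)) p x
  have hLl := hL (x - p) l
  rw [inner_sub_left] at hLl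
  have hw0 : w 0 = -√3 * (a 0 - (1 / 3) * ∑ l, a l) := rfl
  have hw1 : w 1 = a 2 - a 1 := rfl
  have hwl : rr l 0 * w 0 + rr l 1 * w 1 = -√3 * (a l - (1 / 3) * ∑ l, a l) := by
    rw [hw0, hw1, Fin.sum_univ_three]
    fin_cases l
    · simp [rr]
    · simp [rr]
      ring
    · simp [rr]
      ring
  have hlin : rr l 0 * (L (x - p)) 0 + rr l 1 * (L (x - p)) 1 =
      -√3 * (inner ℝ (gr (g (e l)) p) (x - p) -
        inner ℝ ((1 / 3 : ℝ) • ∑ l, gr (g (e l)) p) (x - p)) := by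
    rw [← hLl]
    field_simp
  have hc0 : (L (x - p) + ‖x - p‖ ^ 2 • w) 0 = (L (x - p)) 0 + ‖x - p‖ ^ 2 * w 0 := by simp
  have hc1 : (L (x - p) + ‖x - p‖ ^ 2 • w) 1 = (L (x - p)) 1 + ‖x - p‖ ^ 2 * w 1 := by simp
  have hAl : (g (e l)).A = a l := rfl
  rw [hc0, hc1, e0, hev, hAl]
  linear_combination (-1 : ℝ) * hlin - ‖x - p‖ ^ 2 * hwl

lemma tetra_inner (i j : Fin 4) : inner ℝ (tetra i) (tetra j) = if i = j then (3 : ℝ) else -1 := by
  rw [PiLp.inner_apply, Fin.sum_univ_three]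
  fin_cases i <;> fin_cases j <;> simp [tetra] <;> norm_num

lemma plateau4 (h : Diagram F g) {p : E3} (e : Fin 4 → Fin (k + 1))
    (he : ∀ i, ActF F i p ↔ ∃ c, e c = i) (hinj : Function.Injective e) :
    LocallyLike (film (OmF F)) tCone p := by
  obtain ⟨W, hW, hpW, hx⟩ := nhd_film h e he hinj (by norm_num)
  have hact : ∀ c, ActF F (e c) p := fun c => (he _).mpr ⟨c, rfl⟩
  have hu : ∀ i j, i ≠ j → ‖gr (g (e i)) p - gr (g (e j)) p‖ = 1 := fun i j hij =>
    grad_dist h (fun hh => hij (hinj hh)) (hact i) (hact j)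
  obtain ⟨L, hL⟩ := exists_iso3 (G := fun c => gr (g (e c)) p) hu
  set a : Fin 4 → ℝ := fun c => (g (e c)).A with ha
  set w : E3 := (-√8 / 4) • ∑ l, a l • tetra l with hw
  have h8 : √8 * √8 = 8 := Real.mul_self_sqrt (by norm_num)
  have h8p : 0 < √8 := Real.sqrt_pos.mpr (by norm_num)
  refine locallyLike_of L w hW hpW fun x hxW => ?_
  rw [hx x hxW, mem_tCone_iff]
  refine iff_of_scale (M := (g (e 0)).ev p + inner ℝ ((1 / 4 : ℝ) • ∑ l, gr (g (e l)) p) (x - p) +
    (1 / 4) * (∑ l, a l) * ‖x - p‖ ^ 2) h8p fun l => ?_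
  have hev := ev_eq_of_act h (hact 0) (hact l)
  have e0 := ev_expand (g (e l)) p x
  have hLl := hL (x - p) l
  rw [inner_sub_left] at hLl
  have hwl : inner ℝ (tetra l) w = -√8 * (a l - (1 / 4) * ∑ l, a l) := by
    rw [hw, real_inner_smul_right, inner_sum]
    simp only [real_inner_smul_right, tetra_inner, Fin.sum_univ_four]
    fin_cases l
    · simp
      ring
    · simp
      ring
    · simp
      ring
    · simp
      ring
  have hlin : inner ℝ (tetra l) (L (x - p)) =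
      -√8 * (inner ℝ (gr (g (e l)) p) (x - p) -
        inner ℝ ((1 / 4 : ℝ) • ∑ l, gr (g (e l)) p) (x - p)) := by
    rw [← hLl]
    field_simp
  have hAl : (g (e l)).A = a l := rfl
  rw [inner_add_right, real_inner_smul_right, e0, hev, hAl]
  linear_combination (-1 : ℝ) * hlin - ‖x - p‖ ^ 2 * hwl

theorem plateau_OmF (h : Diagram F g) : ObeysPlateau (OmF F) := by
  classical
  intro p hp
  rw [film_OmF h] at hp
  obtain ⟨i, j, hij, hi, hj⟩ := hp
  set S : Finset (Fin (k + 1)) := Finset.univ.filter (fun i => ActF F i p) with hS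
  have hmem : ∀ i, i ∈ S ↔ ActF F i p := fun i => by simp [hS]
  have hle : S.card ≤ 4 := by
    refine card_le_four S (fun i => gr (g i) p) fun a ha b hb hab => ?_
    exact grad_dist h hab ((hmem a).mp ha) ((hmem b).mp hb)
  have hge : 2 ≤ S.card := by
    have : 1 < S.card := Finset.one_lt_card.mpr ⟨i, (hmem i).mpr hi, j, (hmem j).mpr hj, hij⟩
    omega
  have henum : ∀ m, S.card = m → ∃ e : Fin m → Fin (k + 1), (∀ i, ActF F i p ↔ ∃ c, e c = i) ∧
      Function.Injective e := by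
    intro m hm
    refine ⟨fun c => ((S.equivFinOfCardEq hm).symm c : Fin (k + 1)), fun i => ?_, ?_⟩
    · rw [← hmem]
      constructor
      · intro hi
        exact ⟨S.equivFinOfCardEq hm ⟨i, hi⟩, by simp⟩
      · rintro ⟨c, rfl⟩
        exact ((S.equivFinOfCardEq hm).symm c).2
    · intro a b hab
      exact (S.equivFinOfCardEq hm).symm.injective (Subtype.ext hab)
  have hcases : S.card = 2 ∨ S.card = 3 ∨ S.card = 4 := by omega
  rcases hcases with h2 | h3 | h4
  · obtain ⟨e, he, hinj⟩ := henum 2 h2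
    exact Or.inl (plateau2 h e he hinj)
  · obtain ⟨e, he, hinj⟩ := henum 3 h3
    exact Or.inr (Or.inl (plateau3 h e he hinj))
  · obtain ⟨e, he, hinj⟩ := henum 4 h4
    exact Or.inr (Or.inr (plateau4 h e he hinj))

end Kus64
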