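import Pool.Agent.helper64.Kus.Base
import Pool.Agent.helper14.Kus3.Defs

/-!
# Q1: stereographic projection -- MODULE, replace the sorries

`om x = 2/(1+‖x‖²)` (helper14's Defs).  For a frame `a,b,p`: `ist x = (ω x₂, ω(x₀ a + x₁ b) + (1-ω) p)`.
* `ist_onS`: `ω²‖x‖² + (1-ω)² = 1` because `ω (1+‖x‖²) = 2`.
* `frame_expand`: an orthonormal family of three vectors of `E3` is a basis
  (`y = ⟪a,y⟫ a + ⟪b,y⟫ b + ⟪p,y⟫ p`; e.g. `OrthonormalBasis.mk`/`sum_repr'` for `![a,b,p]`).
* `ist_sp`: for `q = (η,y)` on the sphere with `c = ⟪p,y⟫ ≠ 1`: `x = sp q` has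
  `‖x‖² = (⟪a,y⟫²+⟪b,y⟫²+η²)/(1-c)² = (1-c²)/(1-c)² = (1+c)/(1-c)`, so `om x = 1 - c`.
* `ist_tendsto`: `om x → 0`, `|om x * x i| ≤ 2‖x‖/(1+‖x‖²) → 0` along `cocompact`
  (`tendsto_norm_cocompact_atTop`).
* `exists_frame`: e.g. an orthonormal basis of `E3` extending `p`
  (`Orthonormal.exists_orthonormalBasis_extension_of_card_eq` for `![p]`, or explicitly).
-/

open Set Metric MeasureTheory Filter
open scoped Topology

namespace Kus64

open Kusner (E4 vec om Frame st)

/-- Inverse stereographic projection. -/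
noncomputable def ist (a b p x : E3) : ℝ × E3 :=
  (om x * x 2, (om x * x 0) • a + (om x * x 1) • b + (1 - om x) • p)

/-- Stereographic projection of pairs. -/
noncomputable def sp (a b p : E3) (q : ℝ × E3) : E3 :=
  (1 / (1 - inner ℝ p q.2)) • !₂[inner ℝ a q.2, inner ℝ b q.2, q.1]

/-- The point of four-space with given coordinates. -/
noncomputable def up4 (q : ℝ × E3) : E4 := !₂[q.1, q.2 0, q.2 1, q.2 2]

theorem up4_zero (q : ℝ × E3) : up4 q 0 = q.1 := by simp [up4]
theorem vec_up4 (q : ℝ × E3) : vec (up4 q) = q.2 := by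
  ext i; fin_cases i <;> simp [vec, up4]
theorem up4_vec (Y : E4) : up4 (Y 0, vec Y) = Y := by
  ext i; fin_cases i <;> simp [vec, up4]
theorem norm_sq_E4 (Y : E4) : ‖Y‖ ^ 2 = Y 0 ^ 2 + ‖vec Y‖ ^ 2 := by
  rw [EuclideanSpace.norm_sq_eq, EuclideanSpace.norm_sq_eq]
  simp [vec, Fin.sum_univ_succ]
theorem norm_up4 (q : ℝ × E3) : ‖up4 q‖ = 1 ↔ OnS q.1 q.2 := by
  unfold OnS
  rw [← vec_up4 q, ← up4_zero q, ← norm_sq_E4]
  constructor
  · intro h; rw [h]; norm_num
  · intro h
    have h0 := norm_nonneg (up4 q)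
    nlinarith [h]
theorem onS_of_norm {Y : E4} (h : ‖Y‖ = 1) : OnS (Y 0) (vec Y) := by
  unfold OnS
  rw [← norm_sq_E4, h]; norm_num
theorem continuous_up4 : Continuous up4 := by
  unfold up4
  fun_prop
theorem continuous_vec : Continuous vec := by
  unfold vec
  fun_prop
theorem st_up4 (a b p : E3) (q : ℝ × E3) : st a b p (up4 q) = sp a b p q := by
  unfold st sp
  rw [vec_up4, up4_zero]
theorem st_eq_sp (a b p : E3) (Y : E4) : st a b p Y = sp a b p (Y 0, vec Y) := rfl

theorem om_pos (x : E3) : 0 < om x := by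
  unfold om; positivity
theorem om_continuous : Continuous om := by
  unfold om
  exact continuous_const.div (by fun_prop) (fun x => by positivity)

theorem ist_continuous (a b p : E3) : Continuous (ist a b p) := by
  have h := om_continuous
  unfold ist
  fun_prop

section
variable {a b p : E3}

theorem frame_expand (hF : Frame a b p) (y : E3) :
    y = inner ℝ a y • a + inner ℝ b y • b + inner ℝ p y • p := by
  have ho : Orthonormal ℝ ![a, b, p] := by
    rw [orthonormal_iff_ite]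
    intro i j
    have h1 : inner ℝ b a = (0 : ℝ) := by rw [real_inner_comm]; exact hF.ab
    have h2 : inner ℝ p a = (0 : ℝ) := by rw [real_inner_comm]; exact hF.ap
    have h3 : inner ℝ p b = (0 : ℝ) := by rw [real_inner_comm]; exact hF.bp
    fin_cases i <;> fin_cases j <;>
      simp [hF.na, hF.nb, hF.np, hF.ab, hF.ap, hF.bp, h1, h2, h3]
  have hcard : Fintype.card (Fin 3) = Module.finrank ℝ E3 := by
    simp [E3, Kusner.E3]
  let B : OrthonormalBasis (Fin 3) ℝ E3 := OrthonormalBasis.mk ho (by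
    have := ho.linearIndependent.span_eq_top_of_card_eq_finrank' hcard
    rw [this])
  have h := B.sum_repr' y
  rw [Fin.sum_univ_three] at h
  have e0 : B 0 = a := by simp [B]
  have e1 : B 1 = b := by simp [B]
  have e2 : B 2 = p := by simp [B]
  rw [e0, e1, e2] at h
  exact h.symm

theorem frame_norm (hF : Frame a b p) (y : E3) :
    ‖y‖ ^ 2 = inner ℝ a y ^ 2 + inner ℝ b y ^ 2 + inner ℝ p y ^ 2 := by
  have h := frame_expand hF y
  have h1 : ‖y‖ ^ 2 = inner ℝ (inner ℝ a y • a + inner ℝ b y • b + inner ℝ p y • p) y := by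
    rw [← h, real_inner_self_eq_norm_sq]
  rw [h1, inner_add_left, inner_add_left, real_inner_smul_left, real_inner_smul_left,
    real_inner_smul_left]
  ring

theorem inner_a_ist (hF : Frame a b p) (x : E3) :
    inner ℝ a (ist a b p x).2 = om x * x 0 := by
  unfold ist
  simp only [inner_add_right, real_inner_smul_right, hF.ab, hF.ap, real_inner_self_eq_norm_sq,
    hF.na]
  ring

theorem inner_b_ist (hF : Frame a b p) (x : E3) :
    inner ℝ b (ist a b p x).2 = om x * x 1 := by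
  have h1 : inner ℝ b a = (0 : ℝ) := by rw [real_inner_comm]; exact hF.ab
  unfold ist
  simp only [inner_add_right, real_inner_smul_right, h1, hF.bp, real_inner_self_eq_norm_sq,
    hF.nb]
  ring

theorem inner_p_ist (hF : Frame a b p) (x : E3) :
    inner ℝ p (ist a b p x).2 = 1 - om x := by
  have h1 : inner ℝ p a = (0 : ℝ) := by rw [real_inner_comm]; exact hF.ap
  have h2 : inner ℝ p b = (0 : ℝ) := by rw [real_inner_comm]; exact hF.bp
  unfold ist
  simp only [inner_add_right, real_inner_smul_right, h1, h2, real_inner_self_eq_norm_sq,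
    hF.np]
  ring

theorem q1_norm_sq_E3 (x : E3) : ‖x‖ ^ 2 = x 0 ^ 2 + x 1 ^ 2 + x 2 ^ 2 := by
  rw [EuclideanSpace.norm_sq_eq]
  simp [Fin.sum_univ_three]

theorem q1_om_mul (x : E3) : om x * (1 + ‖x‖ ^ 2) = 2 := by
  unfold om
  have : (1 + ‖x‖ ^ 2) ≠ 0 := by positivity
  field_simp

theorem ist_onS (hF : Frame a b p) (x : E3) : OnS (ist a b p x).1 (ist a b p x).2 := by
  unfold OnS
  rw [frame_norm hF, inner_a_ist hF, inner_b_ist hF, inner_p_ist hF]
  have h1 : (ist a b p x).1 = om x * x 2 := rfl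
  rw [h1]
  have h2 := q1_om_mul x
  rw [q1_norm_sq_E3] at h2
  linear_combination (om x) * h2

theorem inner_ist (hF : Frame a b p) (x : E3) :
    inner ℝ p (ist a b p x).2 = 1 - om x := inner_p_ist hF x

theorem ist_ne (hF : Frame a b p) (x : E3) : ist a b p x ≠ (0, p) := by
  intro h
  have h1 := inner_p_ist hF x
  rw [h] at h1
  simp only [real_inner_self_eq_norm_sq, hF.np] at h1
  have := om_pos x
  linarith

theorem sp_ist (hF : Frame a b p) (x : E3) : sp a b p (ist a b p x) = x := by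
  unfold sp
  rw [inner_a_ist hF, inner_b_ist hF, inner_p_ist hF]
  have h1 : (ist a b p x).1 = om x * x 2 := rfl
  rw [h1]
  have h2 : om x ≠ 0 := (om_pos x).ne'
  have h3 : (1 : ℝ) - (1 - om x) = om x := by ring
  rw [h3]
  ext i
  fin_cases i <;> simp <;> field_simp

/-- the pole is the only point of the sphere with `⟪p, y⟫ = 1` -/
theorem inner_ne_one (hF : Frame a b p) {q : ℝ × E3} (hq : OnS q.1 q.2) (hne : q ≠ (0, p)) :
    inner ℝ p q.2 ≠ 1 := by
  intro h
  apply hne
  unfold OnS at hq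
  have h1 := frame_norm hF q.2
  rw [h] at h1
  have ha : inner ℝ a q.2 = (0 : ℝ) := by
    nlinarith [sq_nonneg (inner ℝ a q.2), sq_nonneg (inner ℝ b q.2), sq_nonneg q.1]
  have hb : inner ℝ b q.2 = (0 : ℝ) := by
    nlinarith [sq_nonneg (inner ℝ a q.2), sq_nonneg (inner ℝ b q.2), sq_nonneg q.1]
  have h0 : q.1 = 0 := by
    nlinarith [sq_nonneg (inner ℝ a q.2), sq_nonneg (inner ℝ b q.2), sq_nonneg q.1]
  have h2 := frame_expand hF q.2
  rw [ha, hb, h] at h2
  simp only [zero_smul, one_smul, zero_add] at h2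
  exact Prod.ext h0 h2

theorem norm_sp (hF : Frame a b p) {q : ℝ × E3} (hq : OnS q.1 q.2) (h : inner ℝ p q.2 ≠ 1) :
    ‖sp a b p q‖ ^ 2 = (1 + inner ℝ p q.2) / (1 - inner ℝ p q.2) := by
  have hc : (1 - inner ℝ p q.2) ≠ 0 := sub_ne_zero.mpr (Ne.symm h)
  unfold OnS at hq
  rw [frame_norm hF] at hq
  rw [q1_norm_sq_E3]
  have e0 : (sp a b p q) 0 = inner ℝ a q.2 / (1 - inner ℝ p q.2) := by
    simp [sp]; ring
  have e1 : (sp a b p q) 1 = inner ℝ b q.2 / (1 - inner ℝ p q.2) := by
    simp [sp]; ring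
  have e2 : (sp a b p q) 2 = q.1 / (1 - inner ℝ p q.2) := by
    simp [sp]; ring
  rw [e0, e1, e2]
  field_simp
  linear_combination hq

theorem ist_sp (hF : Frame a b p) {q : ℝ × E3} (hq : OnS q.1 q.2) (h : inner ℝ p q.2 ≠ 1) :
    ist a b p (sp a b p q) = q := by
  have hn := norm_sp hF hq h
  have hc : (1 - inner ℝ p q.2) ≠ 0 := sub_ne_zero.mpr (Ne.symm h)
  have hom : om (sp a b p q) = 1 - inner ℝ p q.2 := by
    unfold om
    rw [hn]
    field_simp
    ring
  have e0 : (sp a b p q) 0 = inner ℝ a q.2 / (1 - inner ℝ p q.2) := by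
    simp [sp]; ring
  have e1 : (sp a b p q) 1 = inner ℝ b q.2 / (1 - inner ℝ p q.2) := by
    simp [sp]; ring
  have e2 : (sp a b p q) 2 = q.1 / (1 - inner ℝ p q.2) := by
    simp [sp]; ring
  unfold ist
  rw [hom, e0, e1, e2]
  refine Prod.ext ?_ ?_
  · show (1 - inner ℝ p q.2) * (q.1 / (1 - inner ℝ p q.2)) = q.1
    field_simp
  · show ((1 - inner ℝ p q.2) * (inner ℝ a q.2 / (1 - inner ℝ p q.2))) • a +
      ((1 - inner ℝ p q.2) * (inner ℝ b q.2 / (1 - inner ℝ p q.2))) • b +
      (1 - (1 - inner ℝ p q.2)) • p = q.2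
    rw [mul_div_cancel₀ _ hc, mul_div_cancel₀ _ hc]
    have h3 : (1 : ℝ) - (1 - inner ℝ p q.2) = inner ℝ p q.2 := by ring
    rw [h3]
    exact (frame_expand hF q.2).symm

theorem sp_continuousOn (a b p : E3) :
    ContinuousOn (sp a b p) {q : ℝ × E3 | inner ℝ p q.2 ≠ 1} := by
  have h1 : ContinuousOn (fun q : ℝ × E3 => (1 : ℝ) / (1 - inner ℝ p q.2))
      {q : ℝ × E3 | inner ℝ p q.2 ≠ 1} := by
    refine ContinuousOn.div continuousOn_const (by fun_prop) ?_
    intro q hq
    exact sub_ne_zero.mpr (Ne.symm hq)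
  have h2 : ContinuousOn (fun q : ℝ × E3 => (!₂[inner ℝ a q.2, inner ℝ b q.2, q.1] : E3))
      {q : ℝ × E3 | inner ℝ p q.2 ≠ 1} := by
    exact Continuous.continuousOn (by fun_prop)
  exact h1.smul h2

theorem ist_tendsto (hF : Frame a b p) :
    Tendsto (ist a b p) (cocompact E3) (𝓝 ((0 : ℝ), p)) := by
  have hN : Tendsto (fun x : E3 => ‖x‖) (cocompact E3) atTop := tendsto_norm_cocompact_atTop
  have hc : ∀ (x : E3) (i : Fin 3), |x i| ≤ ‖x‖ := by
    intro x i
    have := PiLp.norm_apply_le x i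
    simpa using this
  have hb1 : Tendsto (fun x : E3 => 2 / ‖x‖) (cocompact E3) (𝓝 0) := hN.const_div_atTop 2
  have hci : ∀ i : Fin 3, Tendsto (fun x : E3 => om x * x i) (cocompact E3) (𝓝 0) := by
    intro i
    refine squeeze_zero_norm' ?_ hb1
    filter_upwards [hN.eventually_gt_atTop 0] with x hx
    rw [Real.norm_eq_abs, abs_mul, abs_of_pos (om_pos x)]
    calc om x * |x i| ≤ om x * ‖x‖ := by
          apply mul_le_mul_of_nonneg_left (hc x i) (om_pos x).le
      _ ≤ 2 / ‖x‖ := by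
          unfold om
          rw [div_mul_eq_mul_div, div_le_div_iff₀ (by positivity) hx]
          nlinarith
  have ho : Tendsto om (cocompact E3) (𝓝 0) := by
    refine squeeze_zero_norm' ?_ hb1
    filter_upwards [hN.eventually_gt_atTop 1] with x hx
    rw [Real.norm_eq_abs, abs_of_pos (om_pos x)]
    unfold om
    apply div_le_div_of_nonneg_left (by norm_num) (by linarith)
    nlinarith
  have h2 : Tendsto (fun x : E3 => (om x * x 0) • a + (om x * x 1) • b + (1 - om x) • p)
      (cocompact E3) (𝓝 ((0 : ℝ) • a + (0 : ℝ) • b + ((1 : ℝ) - 0) • p)) := by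
    refine Tendsto.add (Tendsto.add ?_ ?_) ?_
    · exact (hci 0).smul_const a
    · exact (hci 1).smul_const b
    · exact (tendsto_const_nhds.sub ho).smul_const p
  simp only [zero_smul, sub_zero, one_smul, zero_add] at h2
  exact (hci 2).prodMk_nhds h2

end

theorem exists_frame {p : E3} (hp : ‖p‖ = 1) : ∃ a b : E3, Frame a b p := by
  have hcard : Module.finrank ℝ E3 = Fintype.card (Fin 3) := by
    simp [E3, Kusner.E3]
  have ho : Orthonormal ℝ (({2} : Set (Fin 3)).domRestrict (fun _ : Fin 3 => p)) := by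
    constructor
    · intro i; exact hp
    · intro i j hij
      exact absurd (Subsingleton.elim i j) hij
  obtain ⟨B, hB⟩ := ho.exists_orthonormalBasis_extension_of_card_eq hcard
  have hp2 : B 2 = p := hB 2 rfl
  have hi : ∀ i j : Fin 3, i ≠ j → inner ℝ (B i) (B j) = (0 : ℝ) := by
    intro i j hij
    rw [B.inner_eq_ite, if_neg hij]
  refine ⟨B 0, B 1, ⟨B.norm_eq_one 0, B.norm_eq_one 1, hp, hi 0 1 (by decide), ?_, ?_⟩⟩
  · rw [← hp2]; exact hi 0 2 (by decide)
  · rw [← hp2]; exact hi 1 2 (by decide)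

end Kus64
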