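import Pool.Agent.helper64.Kus.Q1
import Pool.Agent.helper64.Kus.Flat
import Pool.Agent.helper64.Kus.D2

/-!
# Q2: the flat functions of the sites -- MODULE, replace the sorries

* `mf_ev`: `1/ω = (1+‖x‖²)/2`; with `(η,y) = ist x`:
  `(b η + ⟪v,y⟫ - t)/ω = b x₂ + ⟪v,a⟫ x₀ + ⟪v,b⟫ x₁ + ⟪v,p⟫ (1-ω)/ω - t/ω`
  `= b x₂ + ⟪v,a⟫ x₀ + ⟪v,b⟫ x₁ - ⟪v,p⟫ + (⟪v,p⟫-t)(1+‖x‖²)/2`.
* `mf_q`: `Δb² + ⟪Δv,a⟫² + ⟪Δv,b⟫² + (⟪Δv,p⟫-Δt)(⟪Δv,p⟫+Δt)`, `frame_norm`.
* `diag_loc`: for a small site `F = lin` everywhere (`F_small`).  If `wC` is active at `x` then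
  `η = (ist x).1 > 7/20` (`act_C`), which persists near `x` by continuity, and `F_C` gives
  `F wC = -max η (7/10-η) = -η = wC.lin` there.  `wE` likewise (`act_E`).
* `diag_unit`: `valid` and `mf_q`.
-/

open Set Metric MeasureTheory Filter
open scoped Topology

namespace Kus64

open Kusner (E4 vec om Frame st)

/-- The flat function of a site. -/
noncomputable def Ff (a b p : E3) (w : Site) (x : E3) : ℝ :=
  F w (ist a b p x).1 (ist a b p x).2 / om x

/-- The Moebius function of a site. -/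
noncomputable def mf (a b p : E3) (w : Site) : MF :=
  ⟨(inner ℝ w.v p - w.t) / 2, !₂[inner ℝ w.v a, inner ℝ w.v b, w.b], -(inner ℝ w.v p + w.t) / 2⟩

/-- `e` enumerates the sites. -/
structure Enum {k : ℕ} (e : Fin (k + 1) → Site) : Prop where
  inj : Function.Injective e
  rng : Set.range e = Sites

theorem exists_enum : ∃ (k : ℕ) (e : Fin (k + 1) → Site), Enum e := by
  obtain ⟨n, f, hf, hr⟩ := Sites_finite.fin_param
  cases n with
  | zero =>
    have h : wC ∈ Set.range f := by rw [hr]; exact wC_mem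
    obtain ⟨i, _⟩ := h
    exact i.elim0
  | succ k => exact ⟨k, f, hf, hr⟩

theorem Enum.mem {k : ℕ} {e : Fin (k + 1) → Site} (he : Enum e) (i : Fin (k + 1)) :
    e i ∈ Sites := by
  rw [← he.rng]
  exact Set.mem_range_self i

theorem Enum.perm {k : ℕ} {e : Fin (k + 1) → Site} (he : Enum e)
    (σ : Equiv.Perm (Fin (k + 1))) : Enum (e ∘ σ) :=
  ⟨he.inj.comp σ.injective, by rw [σ.surjective.range_comp, he.rng]⟩

/-- every function is continuous in both variables -/
theorem F_continuous (w : Site) : Continuous fun q : ℝ × E3 => F w q.1 q.2 := by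
  by_cases h1 : w = wC
  · subst h1
    simp only [F_C]
    fun_prop
  by_cases h2 : w = wE
  · subst h2
    simp only [F_E]
    fun_prop
  simp only [F_lin h1 h2, Site.lin]
  fun_prop

section
variable {a b p : E3} {k : ℕ} {e : Fin (k + 1) → Site}

theorem mf_ev (hF : Frame a b p) (w : Site) (x : E3) :
    (mf a b p w).ev x = w.lin (ist a b p x).1 (ist a b p x).2 / om x := by
  have ho : 0 < om x := om_pos x
  have ho2 : om x * (1 + ‖x‖ ^ 2) = 2 := by
    rw [om, div_mul_cancel₀]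
    positivity
  rw [eq_div_iff ho.ne']
  simp only [MF.ev, mf, Site.lin, ist, inner_add_right, inner_smul_right]
  have h1 : inner ℝ (!₂[inner ℝ w.v a, inner ℝ w.v b, w.b] : E3) x =
      inner ℝ w.v a * x 0 + inner ℝ w.v b * x 1 + w.b * x 2 := by
    rw [PiLp.inner_apply, Fin.sum_univ_three]
    simp
    ring
  rw [h1]
  have h2 : om x * ‖x‖ ^ 2 = 2 - om x := by linarith
  calc _ = om x * (inner ℝ w.v a * x 0 + inner ℝ w.v b * x 1 + w.b * x 2) -
        (inner ℝ w.v p + w.t) / 2 * om x + (inner ℝ w.v p - w.t) / 2 * (om x * ‖x‖ ^ 2) := by ring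
    _ = _ := by rw [h2]; ring

theorem mf_q (hF : Frame a b p) (w w' : Site) : (mf a b p w).q (mf a b p w') = w.q w' := by
  rw [Site.q, frame_norm hF]
  simp only [MF.q, mf]
  have h1 : ‖(!₂[inner ℝ w.v a, inner ℝ w.v b, w.b] : E3) -
      !₂[inner ℝ w'.v a, inner ℝ w'.v b, w'.b]‖ ^ 2 =
      (inner ℝ w.v a - inner ℝ w'.v a) ^ 2 + (inner ℝ w.v b - inner ℝ w'.v b) ^ 2 +
        (w.b - w'.b) ^ 2 := by
    rw [EuclideanSpace.real_norm_sq_eq, Fin.sum_univ_three]
    simp
  rw [h1]
  simp only [inner_sub_right, real_inner_comm a, real_inner_comm b, real_inner_comm p]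
  ring

theorem Ff_continuous (a b p : E3) (w : Site) : Continuous (Ff a b p w) :=
  ((F_continuous w).comp (ist_continuous a b p)).div om_continuous fun x => (om_pos x).ne'

theorem Ff_lt_iff (w w' : Site) (x : E3) : Ff a b p w' x < Ff a b p w x ↔
    F w' (ist a b p x).1 (ist a b p x).2 < F w (ist a b p x).1 (ist a b p x).2 :=
  div_lt_div_iff_of_pos_right (om_pos x)

theorem Ff_le_iff (w w' : Site) (x : E3) : Ff a b p w' x ≤ Ff a b p w x ↔
    F w' (ist a b p x).1 (ist a b p x).2 ≤ F w (ist a b p x).1 (ist a b p x).2 :=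
  div_le_div_iff_of_pos_right (om_pos x)

theorem mem_cellF_iff (hF : Frame a b p) (he : Enum e) (i : Fin (k + 1)) (x : E3) :
    x ∈ cellF (fun j => Ff a b p (e j)) i ↔ ist a b p x ∈ cellS (e i) := by
  constructor
  · intro h
    refine ⟨ist_onS hF x, fun w' hw' hne => ?_⟩
    rw [← he.rng] at hw'
    obtain ⟨j, rfl⟩ := hw'
    exact (Ff_lt_iff _ _ x).1 (h j fun hji => hne (by rw [hji]))
  · rintro ⟨_, h⟩ j hj
    exact (Ff_lt_iff _ _ x).2 (h (e j) (he.mem j) fun hji => hj (he.inj hji))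

theorem actF_iff (he : Enum e) (i : Fin (k + 1)) (x : E3) :
    ActF (fun j => Ff a b p (e j)) i x ↔
      Act (e i) (ist a b p x).1 (ist a b p x).2 := by
  constructor
  · intro h
    refine ⟨he.mem i, fun w' hw' => ?_⟩
    rw [← he.rng] at hw'
    obtain ⟨j, rfl⟩ := hw'
    exact (Ff_le_iff _ _ x).1 (h j)
  · intro h j
    exact (Ff_le_iff _ _ x).2 (h.2 (e j) (he.mem j))

theorem diag_loc (hF : Frame a b p) (he : Enum e) (x : E3) (i : Fin (k + 1))
    (h : ActF (fun j => Ff a b p (e j)) i x) :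
    ∀ᶠ z in 𝓝 x, Ff a b p (e i) z = (mf a b p (e i)).ev z := by
  have hact := (actF_iff he i x).1 h
  have key : ∀ᶠ z in 𝓝 x, F (e i) (ist a b p z).1 (ist a b p z).2 =
      (e i).lin (ist a b p z).1 (ist a b p z).2 := by
    have hc : Continuous fun z => (ist a b p z).1 := (ist_continuous a b p).fst
    rcases Sites_cases (he.mem i) with hC | hE | hs
    · rw [hC] at hact ⊢
      have h1 := act_C (ist_onS hF x) hact
      filter_upwards [hc.continuousAt.eventually (lt_mem_nhds h1)] with z hz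
      rw [h28_FC_ge hz.le]
      simp [Site.lin, wC]
    · rw [hE] at hact ⊢
      have h1 := act_E (ist_onS hF x) hact
      filter_upwards [hc.continuousAt.eventually (gt_mem_nhds h1)] with z hz
      rw [F_E, max_eq_left (by linarith)]
      simp [Site.lin, wE]
    · exact Eventually.of_forall fun z => F_small hs _ _
  filter_upwards [key] with z hz
  rw [mf_ev hF, Ff, hz]

theorem diag_unit (hF : Frame a b p) (he : Enum e) (x : E3) (i j : Fin (k + 1)) (hij : i ≠ j)
    (hi : ActF (fun j => Ff a b p (e j)) i x) (hj : ActF (fun j => Ff a b p (e j)) j x) :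
    (mf a b p (e i)).q (mf a b p (e j)) = 1 := by
  rw [mf_q hF]
  exact valid (ist_onS hF x) (fun h => hij (he.inj h)) ((actF_iff he i x).1 hi)
    ((actF_iff he j x).1 hj)

end

end Kus64
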