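import Pool.Agent.helper64.Kus.Q2
import Pool.Agent.helper64.Kus.E6

/-!
# Q3: the diagram: exterior, connectedness -- MODULE, replace the sorries

`e (last)` is the site whose cell contains the pole `(0, p)` (with `Star`).
* `diag_ext`: at `q = (0,p)` all the other functions are smaller (`cellS`); finitely many, continuous
  (`F_continuous`), so this holds in a neighbourhood of `(0,p)`; `ist_tendsto` along `cocompact`;
  get `R` from `Metric`/`hasBasis` of `cocompact`, e.g.
  `(Metric.hasBasis_cobounded_compl_closedBall 0)` with `Metric.cobounded_eq_cocompact`.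
* `diag_conn`, `i ≠ last`: let `c` be the centre from `star_all`.  `cellF i = {x | ist x ∈ cellS (e i)}`.
  The pole is in the disjoint cell `cellS (e last)`, so for every path `γ` in `cellS (e i)` we may
  compose with `sp` (`sp_continuousOn`, `inner_ne_one`); `x = sp (ist x)` is joined to `sp c`
  inside `cellF i`.  So `cellF i` is path connected (`JoinedIn`, `IsPathConnected.isConnected`).
* `i = last`: take `R` from `diag_ext`.  The set `{x | R < ‖x‖}` is contained in the cell and is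
  path connected (`1 < rank`; e.g. `isPathConnected_compl_closedBall`-like lemma, or image of
  `(R', ∞) × sphere` under `(r,u) ↦ r u`, `isPathConnected_sphere`).  Every `x` in the cell is joined
  to that set: the path `γ` of `Star` from `ist x ≠ (0,p)` (`ist_ne`) to `(0,p)`, `γ r ≠ (0,p)` for
  `r < 1`; `‖sp (γ r)‖² = (1+⟪p,y⟫)/(1-⟪p,y⟫) → ∞` as `r → 1` (`norm_sp`), so for some `r₀ < 1`
  `R < ‖sp (γ r₀)‖`, and `sp ∘ γ` on `[0,r₀]` is a path in the cell.
-/

open Set Metric MeasureTheory Filter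
open scoped Topology

namespace Kus64

open Kusner (E4 vec om Frame st)

/-- The outside of a ball is path connected. -/
theorem h71_outside {R : ℝ} (hR : 0 ≤ R) : IsPathConnected {x : E3 | R < ‖x‖} := by
  have h1 : IsPathConnected ({0}ᶜ : Set E3) := by
    apply isPathConnected_compl_singleton_of_one_lt_rank
    rw [← Module.finrank_eq_rank, finrank_euclideanSpace_fin]
    norm_num
  have h2 : {x : E3 | R < ‖x‖} = (fun x : E3 => (1 + R / ‖x‖) • x) '' {0}ᶜ := by
    ext y
    simp only [mem_ofPred_eq, mem_image, mem_compl_iff, mem_singleton_iff]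
    constructor
    · intro hy
      have hy0 : 0 < ‖y‖ := lt_of_le_of_lt hR hy
      have hpos : 0 < (‖y‖ - R) / ‖y‖ := div_pos (by linarith) hy0
      refine ⟨((‖y‖ - R) / ‖y‖) • y, ?_, ?_⟩
      · intro h0
        rcases smul_eq_zero.1 h0 with h | h
        · exact absurd h hpos.ne'
        · rw [h, norm_zero] at hy0
          exact lt_irrefl _ hy0
      · have hn : ‖((‖y‖ - R) / ‖y‖) • y‖ = ‖y‖ - R := by
          rw [norm_smul, Real.norm_eq_abs, abs_of_pos hpos]
          field_simp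
        rw [hn, smul_smul]
        have hyR : ‖y‖ - R ≠ 0 := by linarith
        have e : (1 + R / (‖y‖ - R)) * ((‖y‖ - R) / ‖y‖) = 1 := by
          field_simp
          ring
        rw [e, one_smul]
    · rintro ⟨x, hx, rfl⟩
      have hx0 : 0 < ‖x‖ := norm_pos_iff.2 hx
      have hpos : 0 < 1 + R / ‖x‖ := by positivity
      rw [norm_smul, Real.norm_eq_abs, abs_of_pos hpos, add_mul, one_mul, div_mul_cancel₀ _ hx0.ne']
      linarith
  rw [h2]
  have hc : ContinuousOn (fun x : E3 => 1 + R / ‖x‖) ({0}ᶜ) := by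
    refine continuousOn_const.add (continuousOn_const.div continuous_norm.continuousOn ?_)
    intro x hx
    exact norm_ne_zero_iff.2 hx
  exact h1.image' (hc.smul continuousOn_id)

section
variable {a b p : E3} {k : ℕ} {e : Fin (k + 1) → Site}

theorem diag_ext (hF : Frame a b p) (he : Enum e)
    (hinf : ((0 : ℝ), p) ∈ cellS (e (Fin.last k))) :
    ∃ R : ℝ, ∀ x : E3, R < ‖x‖ → ∀ j, j ≠ Fin.last k →
      Ff a b p (e j) x < Ff a b p (e (Fin.last k)) x := by
  have h1 : ∀ j, j ≠ Fin.last k → ∀ᶠ q in 𝓝 ((0 : ℝ), p),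
      F (e j) q.1 q.2 < F (e (Fin.last k)) q.1 q.2 := by
    intro j hj
    have h := hinf.2 (e j) (he.mem j) (fun h => hj (he.inj h))
    exact (F_continuous (e j)).continuousAt.eventually_lt
      (F_continuous (e (Fin.last k))).continuousAt h
  have h2 : ∀ᶠ q in 𝓝 ((0 : ℝ), p), ∀ j, j ≠ Fin.last k →
      F (e j) q.1 q.2 < F (e (Fin.last k)) q.1 q.2 := by
    rw [eventually_all]
    intro j
    by_cases hj : j = Fin.last k
    · exact Eventually.of_forall fun q h => absurd hj h
    · exact (h1 j hj).mono fun q h _ => h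
  have h3 := (ist_tendsto hF).eventually h2
  rw [← Metric.cobounded_eq_cocompact] at h3
  obtain ⟨R, -, hR⟩ := (Metric.hasBasis_cobounded_compl_closedBall (0 : E3)).eventually_iff.1 h3
  refine ⟨R, fun x hx j hj => ?_⟩
  rw [Ff_lt_iff]
  refine hR ?_ j hj
  rw [mem_compl_iff, mem_closedBall_zero_iff]
  exact not_le.2 hx

theorem h71_pole_notMem (he : Enum e) (hinf : ((0 : ℝ), p) ∈ cellS (e (Fin.last k)))
    {i : Fin (k + 1)} (hi : i ≠ Fin.last k) : ((0 : ℝ), p) ∉ cellS (e i) := by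
  intro h
  have h1 := hinf.2 (e i) (he.mem i) (fun h => hi (he.inj h))
  have h2 := h.2 (e (Fin.last k)) (he.mem _) (fun h => hi (he.inj h).symm)
  exact lt_asymm h1 h2

/-- Points of the cell which are joined in the cell on the sphere, away from the pole, are joined
in the flat cell. -/
theorem h71_joined (hF : Frame a b p) (he : Enum e) {i : Fin (k + 1)} {x y : E3}
    (γ : ℝ → ℝ × E3) (hγ : ContinuousOn γ (Icc 0 1)) (h0 : γ 0 = ist a b p x)
    (h1 : sp a b p (γ 1) = y) (hS : ∀ r ∈ Icc (0 : ℝ) 1, γ r ∈ cellS (e i))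
    (hne : ∀ r ∈ Icc (0 : ℝ) 1, γ r ≠ ((0 : ℝ), p)) :
    JoinedIn (cellF (fun j => Ff a b p (e j)) i) x y := by
  have hin : ∀ r ∈ Icc (0 : ℝ) 1, inner ℝ p (γ r).2 ≠ 1 := fun r hr =>
    inner_ne_one hF (hS r hr).1 (hne r hr)
  refine JoinedIn.ofLine (f := fun r => sp a b p (γ r)) ?_ ?_ h1 ?_
  · exact (sp_continuousOn a b p).comp hγ hin
  · simp only [h0]
    exact sp_ist hF x
  · rintro _ ⟨r, hr, rfl⟩
    rw [mem_cellF_iff hF he]
    simp only
    rw [ist_sp hF (hS r hr).1 (hin r hr)]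
    exact hS r hr

theorem diag_conn_of_ne (hF : Frame a b p) (he : Enum e)
    (hinf : ((0 : ℝ), p) ∈ cellS (e (Fin.last k))) (i : Fin (k + 1)) (hi : i ≠ Fin.last k) :
    IsConnected (cellF (fun j => Ff a b p (e j)) i) := by
  obtain ⟨c, hc, hstar⟩ := star_all (he.mem i)
  have hpole := h71_pole_notMem he hinf hi
  have hcp : c ≠ ((0 : ℝ), p) := fun h => hpole (h ▸ hc)
  have hcin := inner_ne_one hF hc.1 hcp
  have hist : ist a b p (sp a b p c) = c := ist_sp hF hc.1 hcin
  have hmem : sp a b p c ∈ cellF (fun j => Ff a b p (e j)) i := by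
    rw [mem_cellF_iff hF he, hist]
    exact hc
  refine IsPathConnected.isConnected ⟨sp a b p c, hmem, fun {y} hy => ?_⟩
  by_cases hyc : ist a b p y = c
  · have : y = sp a b p c := by rw [← hyc, sp_ist hF]
    rw [this]
    exact JoinedIn.refl hmem
  · obtain ⟨γ, hγ, hγ0, hγ1, hγS, -⟩ := hstar _ ((mem_cellF_iff hF he i y).1 hy) hyc
    refine (h71_joined hF he γ hγ hγ0 (by rw [hγ1]) hγS fun r hr h => ?_).symm
    exact hpole (h ▸ hγS r hr)

theorem diag_conn_last (hF : Frame a b p) (he : Enum e)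
    (hinf : Star (cellS (e (Fin.last k))) ((0 : ℝ), p)) :
    IsConnected (cellF (fun j => Ff a b p (e j)) (Fin.last k)) := by
  obtain ⟨hpm, hstar⟩ := hinf
  obtain ⟨R, hR⟩ := diag_ext hF he hpm
  set S : Set E3 := cellF (fun j => Ff a b p (e j)) (Fin.last k) with hSdef
  set R' : ℝ := max R 0 with hR'
  have hR'0 : 0 ≤ R' := le_max_right _ _
  have hU : IsPathConnected {x : E3 | R' < ‖x‖} := h71_outside hR'0
  have hUS : {x : E3 | R' < ‖x‖} ⊆ S := by
    intro x hx j hj
    exact hR x (lt_of_le_of_lt (le_max_left _ _) hx) j hj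
  obtain ⟨x0, hx0, hjoin⟩ := hU
  refine IsPathConnected.isConnected ⟨x0, hUS hx0, fun {y} hy => ?_⟩
  obtain ⟨γ, hγ, hγ0, hγ1, hγS, hγne⟩ := hstar _ ((mem_cellF_iff hF he _ y).1 hy) (ist_ne hF y)
  -- far away points on the path
  have hfar : ∃ r ∈ Ico (0 : ℝ) 1, R' < ‖sp a b p (γ r)‖ := by
    have hcont : ContinuousWithinAt (fun r => 1 - inner ℝ p (γ r).2) (Icc (0 : ℝ) 1) 1 := by
      have h1 : ContinuousWithinAt γ (Icc (0 : ℝ) 1) 1 := hγ 1 (right_mem_Icc.2 zero_le_one)
      exact continuousWithinAt_const.sub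
        (ContinuousWithinAt.inner (𝕜 := ℝ) continuousWithinAt_const h1.snd)
    have hlim : Tendsto (fun r => 1 - inner ℝ p (γ r).2) (𝓝[<] (1 : ℝ)) (𝓝 0) := by
      have h2 : Tendsto (fun r => 1 - inner ℝ p (γ r).2) (𝓝[Icc (0 : ℝ) 1] (1 : ℝ))
          (𝓝 (1 - inner ℝ p (γ 1).2)) := hcont
      have h3 : (1 : ℝ) - inner ℝ p (γ 1).2 = 0 := by
        rw [hγ1]
        simp only
        rw [real_inner_self_eq_norm_sq, hF.np]
        norm_num
      rw [h3] at h2
      refine h2.mono_left ?_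
      rw [← nhdsWithin_Ico_eq_nhdsLT (zero_lt_one' ℝ)]
      exact nhdsWithin_mono _ Ico_subset_Icc_self
    have hsm : ∀ᶠ r in 𝓝[<] (1 : ℝ), 1 - inner ℝ p (γ r).2 < 1 / (R' ^ 2 + 1) :=
      hlim.eventually (gt_mem_nhds (by positivity))
    have hI : ∀ᶠ r in 𝓝[<] (1 : ℝ), r ∈ Ico (0 : ℝ) 1 := by
      rw [← nhdsWithin_Ico_eq_nhdsLT (zero_lt_one' ℝ)]
      exact self_mem_nhdsWithin
    obtain ⟨r, hr1, hr2⟩ := (hsm.and hI).exists
    refine ⟨r, hr2, ?_⟩
    have hrI : r ∈ Icc (0 : ℝ) 1 := Ico_subset_Icc_self hr2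
    have hon : OnS (γ r).1 (γ r).2 := (hγS r hrI).1
    have hne := inner_ne_one hF hon (hγne r hr2)
    have hn := norm_sp hF hon hne
    have hle : inner ℝ p (γ r).2 ≤ 1 := by
      have h1 := real_inner_le_norm p (γ r).2
      rw [hF.np, one_mul] at h1
      have h2 : ‖(γ r).2‖ ≤ 1 := by
        have h3 : (γ r).1 ^ 2 + ‖(γ r).2‖ ^ 2 = 1 := hon
        nlinarith [sq_nonneg (γ r).1, norm_nonneg (γ r).2]
      linarith
    set c := inner ℝ p (γ r).2 with hc
    have hc1 : 0 < 1 - c := by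
      rcases lt_or_eq_of_le hle with h | h
      · linarith
      · exact absurd h hne
    have h5 : R' ^ 2 < ‖sp a b p (γ r)‖ ^ 2 := by
      rw [hn, lt_div_iff₀ hc1]
      have h6 : (1 - c) * (R' ^ 2 + 1) < 1 := by
        rwa [lt_div_iff₀ (by positivity)] at hr1
      nlinarith
    exact lt_of_pow_lt_pow_left₀ 2 (norm_nonneg _) h5
  obtain ⟨r, hr, hfar⟩ := hfar
  refine JoinedIn.trans ((hjoin hfar).mono hUS) (JoinedIn.symm ?_)
  have hmap : ∀ t ∈ Icc (0 : ℝ) 1, t * r ∈ Icc (0 : ℝ) 1 := fun t ht =>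
    ⟨mul_nonneg ht.1 hr.1, by nlinarith [ht.1, ht.2, hr.1, hr.2]⟩
  refine h71_joined hF he (fun t => γ (t * r)) ?_ ?_ ?_ ?_ ?_
  · exact hγ.comp (continuousOn_id.mul continuousOn_const) hmap
  · simp only [zero_mul]
    exact hγ0
  · simp only [one_mul]
  · exact fun t ht => hγS _ (hmap t ht)
  · intro t ht
    refine hγne _ ⟨(hmap t ht).1, ?_⟩
    nlinarith [ht.1, ht.2, hr.1, hr.2]

theorem diagram (hF : Frame a b p) (he : Enum e)
    (hinf : Star (cellS (e (Fin.last k))) ((0 : ℝ), p)) :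
    Diagram (fun j => Ff a b p (e j)) (fun j => mf a b p (e j)) where
  cont := fun i => Ff_continuous a b p (e i)
  loc := fun x i h => diag_loc hF he x i h
  unit := fun x i j hij hi hj => diag_unit hF he x i j hij hi hj
  ext := diag_ext hF he hinf.1
  conn := fun i => by
    by_cases hi : i = Fin.last k
    · subst hi
      exact diag_conn_last hF he hinf
    · exact diag_conn_of_ne hF he hinf.1 i hi

end

end Kus64
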