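import Pool.Agent.helper64.Kus.Q2
import Pool.Agent.helper64.Kus.Film
import Pool.Agent.helper64.Kus.E1

/-!
# Q4: films in four-space, the 42 poles -- MODULE, replace the sorries

* `filmS_compact`: closed (`F_continuous`, `continuous_vec`; `Sites` arbitrary intersection of closed
  conditions) and bounded.
* `filmS_lin`: both are active, so `F w = F w'` at the point, and `F = lin` there (`F_eq_lin`).
* `filmS_q`: `valid`.
* `v_ne`: two different sites with `q = 1` have different `v`.  If `v = v'` then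
  `1 = Δb² - Δt²`.  Cases (`Sites_cases`, `Small_b`, `Small_t`): `wC, wE`: `q = 4`.  `wC` or `wE` and a
  small site `r.map g`: `v ≠ 0` (all six representatives have `‖v‖ > 3`; `g` isometry).
  Two small sites: `Δb ∈ {0, ±b3, ±2 b3}`.  `Δb = 0`: impossible (`-Δt² = 1`).
  `Δb = ±b3`: one is a copy of `wa3`/`wa1` (`‖v‖ = s3 > 6`), the other has `b = 0` and
  `‖v‖ ≤ s2 < 6`.  `Δb = ±2 b3`: both are copies of `wa3`, `wa1`: `t = t' = ta3`, `q = 4 b3² ≠ 1`.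
  (A2 has the enclosures; D1 has `Sites_cases`, `rep_cases`.)
* `pole_orbit`: the 42 poles in the `G`-orbits of `ξ`, `ax2`.  `Real.goldenRatio = φ`.  Start from
  `ax5 = (0,1,φ)` resp. `ax2 = (0,0,1)` and apply the reflections: `s 0 : x ↦ -x`, `s 1 : y ↦ -y`,
  `s 2 y = y - 2 ⟪α 2,y⟫ α 2` (`s_apply`, `inner_α2`).  For instance `s 2 (0,-1,φ) = (φ,0,1)`,
  `s 2 (-φ,0,1) = (1,φ,0)`, ...: a word for each pole can be found by breadth first search; the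
  memberships are propagated by the closure of the orbit under `s i` (lemma
  `y ∈ orbit → s i y ∈ orbit`, `y = s i (s i y)`), so 41 one-step identities suffice.
-/

open Set Metric MeasureTheory Filter
open scoped Topology

namespace Kus64

open Kusner (E4 vec om Frame st PIdx pole)

/-! ### films -/

theorem q4_act_closed (w : Site) : IsClosed {Y : E4 | Act w (Y 0) (vec Y)} := by
  have hY : Continuous fun Y : E4 => ((Y 0, vec Y) : ℝ × E3) :=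
    Continuous.prodMk (by fun_prop) continuous_vec
  by_cases hw : w ∈ Sites
  · have h : {Y : E4 | Act w (Y 0) (vec Y)} =
        ⋂ w' ∈ Sites, {Y : E4 | F w' (Y 0) (vec Y) ≤ F w (Y 0) (vec Y)} := by
      ext Y
      simp only [mem_setOf_eq, mem_iInter, Act]
      exact ⟨fun h => h.2, fun h => ⟨hw, h⟩⟩
    rw [h]
    exact isClosed_biInter fun w' _ =>
      isClosed_le ((F_continuous w').comp hY) ((F_continuous w).comp hY)
  · have h : {Y : E4 | Act w (Y 0) (vec Y)} = ∅ := by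
      ext Y
      simp only [mem_setOf_eq, mem_empty_iff_false, iff_false]
      exact fun h => hw h.1
    rw [h]
    exact isClosed_empty

theorem filmS_compact (w w' : Site) : IsCompact (filmS w w') := by
  refine (isCompact_closedBall (0 : E4) 1).of_isClosed_subset ?_ ?_
  · have h : filmS w w' = {Y : E4 | ‖Y‖ = 1} ∩
        ({Y : E4 | Act w (Y 0) (vec Y)} ∩ {Y : E4 | Act w' (Y 0) (vec Y)}) := rfl
    rw [h]
    exact (isClosed_eq continuous_norm continuous_const).inter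
      ((q4_act_closed w).inter (q4_act_closed w'))
  · intro Y hY
    rw [mem_closedBall_zero_iff]
    exact hY.1.le

theorem filmS_norm {w w' : Site} {Y : E4} (h : Y ∈ filmS w w') : ‖Y‖ = 1 := h.1

theorem filmS_symm (w w' : Site) : filmS w w' = filmS w' w := by
  ext Y
  exact ⟨fun h => ⟨h.1, h.2.2, h.2.1⟩, fun h => ⟨h.1, h.2.2, h.2.1⟩⟩

theorem filmS_lin {w w' : Site} {Y : E4} (h : Y ∈ filmS w w') :
    (w.b - w'.b) * Y 0 + inner ℝ (w.v - w'.v) (vec Y) = w.t - w'.t := by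
  have hS := onS_of_norm h.1
  have h1 := h.2.1
  have h2 := h.2.2
  have h3 : F w (Y 0) (vec Y) = F w' (Y 0) (vec Y) :=
    le_antisymm (h2.2 w h1.1) (h1.2 w' h2.1)
  rw [F_eq_lin hS h1, F_eq_lin hS h2, Site.lin, Site.lin] at h3
  rw [inner_sub_left]
  linarith

theorem filmS_q {w w' : Site} (hne : w ≠ w') (h : (filmS w w').Nonempty) :
    (w.b - w'.b) ^ 2 + ‖w.v - w'.v‖ ^ 2 - (w.t - w'.t) ^ 2 = 1 := by
  obtain ⟨Y, hY⟩ := h
  exact valid (onS_of_norm hY.1) hne hY.2.1 hY.2.2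

/-- Data of the small sites. -/
theorem q4_small {w : Site} (hw : w ∈ Small) : 3 < ‖w.v‖ ∧
    ((w.b = 0 ∧ ‖w.v‖ < 6) ∨ ((w.b = b3 ∨ w.b = -b3) ∧ ‖w.v‖ = s3 ∧ w.t = ta3)) := by
  obtain ⟨g, _, r, hr, rfl⟩ := hw
  have e1 := A2aux.h22
  have e2 := A2aux.h25
  have e3 := A2aux.h32
  have e4 := A2aux.h81
  have e5 := A2aux.h58
  simp only [A2aux.In] at e1 e2 e3 e4 e5
  have hn : ‖(r.map g).v‖ = ‖r.v‖ := g.norm_map r.v
  have hξ2 : ‖s2 • ξ‖ = s2 := by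
    rw [norm_smul, norm_ξ, mul_one, Real.norm_of_nonneg (by linarith [e4.1])]
  have hξ3 : ‖s3 • ξ‖ = s3 := by
    rw [norm_smul, norm_ξ, mul_one, Real.norm_of_nonneg (by linarith [e5.1])]
  rw [hn]
  rcases rep_cases hr with rfl | rfl | rfl | rfl | rfl | rfl
  · rw [norm_v310]
    exact ⟨by linarith [e1.1], Or.inl ⟨rfl, by linarith [e1.2]⟩⟩
  · rw [norm_v220]
    exact ⟨by linarith [e2.1], Or.inl ⟨rfl, by linarith [e2.2]⟩⟩
  · rw [norm_v211]
    exact ⟨by linarith [e3.1], Or.inl ⟨rfl, by linarith [e3.2]⟩⟩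
  · have h : ‖wa2.v‖ = s2 := hξ2
    rw [h]
    exact ⟨by linarith [e4.1], Or.inl ⟨rfl, by linarith [e4.2]⟩⟩
  · have h : ‖wa3.v‖ = s3 := hξ3
    rw [h]
    exact ⟨by linarith [e5.1], Or.inr ⟨Or.inl rfl, rfl, rfl⟩⟩
  · have h : ‖wa1.v‖ = s3 := hξ3
    rw [h]
    exact ⟨by linarith [e5.1], Or.inr ⟨Or.inr rfl, rfl, rfl⟩⟩

theorem v_ne {w w' : Site} (hw : w ∈ Sites) (hw' : w' ∈ Sites) (hne : w ≠ w')
    (h : w.q w' = 1) : w.v - w'.v ≠ 0 := by
  intro h0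
  have hv : w.v = w'.v := sub_eq_zero.1 h0
  rw [Site.q, h0, norm_zero] at h
  have e5 := A2aux.h58
  have e6 := A2aux.h51
  simp only [A2aux.In] at e5 e6
  rcases Sites_cases hw with rfl | rfl | hs
  · rcases Sites_cases hw' with rfl | rfl | hs'
    · exact hne rfl
    · simp only [wC, wE] at h
      norm_num at h
    · have h1 := (q4_small hs').1
      rw [← hv] at h1
      simp only [wC, norm_zero] at h1
      linarith
  · rcases Sites_cases hw' with rfl | rfl | hs'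
    · simp only [wC, wE] at h
      norm_num at h
    · exact hne rfl
    · have h1 := (q4_small hs').1
      rw [← hv] at h1
      simp only [wE, norm_zero] at h1
      linarith
  · rcases Sites_cases hw' with rfl | rfl | hs'
    · have h1 := (q4_small hs).1
      rw [hv] at h1
      simp only [wC, norm_zero] at h1
      linarith
    · have h1 := (q4_small hs).1
      rw [hv] at h1
      simp only [wE, norm_zero] at h1
      linarith
    · have h1 := (q4_small hs).2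
      have h2 := (q4_small hs').2
      rw [hv] at h1
      rcases h1 with ⟨b1, n1⟩ | ⟨b1, n1, u1⟩ <;> rcases h2 with ⟨b2, n2⟩ | ⟨b2, n2, u2⟩
      · rw [b1, b2] at h
        nlinarith [sq_nonneg (w.t - w'.t)]
      · linarith [e5.1]
      · linarith [e5.1]
      · rw [u1, u2] at h
        rcases b1 with b1 | b1 <;> rcases b2 with b2 | b2 <;> rw [b1, b2] at h <;>
          nlinarith [e6.1]

theorem filmS_v {w w' : Site} (hne : w ≠ w') (h : (filmS w w').Nonempty) :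
    w.v - w'.v ≠ 0 := by
  have h1 := filmS_q hne h
  obtain ⟨Y, hY⟩ := h
  exact v_ne hY.2.1.1 hY.2.2.1 hne h1

/-- the pole is not on a film if it is interior to a cell -/
theorem filmS_pole {a b p : E3} (hF : Frame a b p) {w0 : Site} (hw0 : w0 ∈ Sites)
    (h0 : ((0 : ℝ), p) ∈ cellS w0) {w w' : Site} (hne : w ≠ w') {Y : E4} (hY : Y ∈ filmS w w') :
    inner ℝ p (vec Y) ≠ 1 := by
  refine inner_ne_one hF (q := (Y 0, vec Y)) (onS_of_norm hY.1) fun h => ?_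
  have e0 : Y 0 = 0 := congrArg Prod.fst h
  have e1 : vec Y = p := congrArg Prod.snd h
  have h1 := hY.2.1
  have h2 := hY.2.2
  rw [e0, e1] at h1 h2
  by_cases hw : w = w0
  · have hw' : w' ≠ w0 := fun h' => hne (hw.trans h'.symm)
    exact absurd (h2.2 w0 hw0) (not_le.2 (h0.2 w' h2.1 hw'))
  · exact absurd (h1.2 w0 hw0) (not_le.2 (h0.2 w h1.1 hw))

/-! ### orbits -/

/-- The orbit of a vector. -/
def Orb (v : E3) : Set E3 := {y | ∃ g ∈ G, y = g v}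

theorem orb_s {v y : E3} (h : y ∈ Orb v) (i : Fin 3) : s i y ∈ Orb v := by
  obtain ⟨g, hg, rfl⟩ := h
  exact ⟨s i * g, G.mul_mem (s_mem_G i) hg, rfl⟩

theorem orb_s0 {v : E3} {a b c a' b' c' : ℝ} (h : (!₂[a, b, c] : E3) ∈ Orb v)
    (h0 : -a = a') (h1 : b = b') (h2 : c = c') : (!₂[a', b', c'] : E3) ∈ Orb v := by
  have := orb_s h 0
  rw [b1_s0] at this
  subst h0 h1 h2
  simpa using this

theorem orb_s1 {v : E3} {a b c a' b' c' : ℝ} (h : (!₂[a, b, c] : E3) ∈ Orb v)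
    (h0 : a = a') (h1 : -b = b') (h2 : c = c') : (!₂[a', b', c'] : E3) ∈ Orb v := by
  have := orb_s h 1
  rw [b1_s1] at this
  subst h0 h1 h2
  simpa using this

theorem orb_s2 {v : E3} {a b c a' b' c' : ℝ} (h : (!₂[a, b, c] : E3) ∈ Orb v)
    (h0 : (1 - φ) / 2 * a - φ / 2 * b + 1 / 2 * c = a')
    (h1 : -φ / 2 * a + 1 / 2 * b + (φ - 1) / 2 * c = b')
    (h2 : 1 / 2 * a + (φ - 1) / 2 * b + φ / 2 * c = c') : (!₂[a', b', c'] : E3) ∈ Orb v := by
  have h3 := orb_s h 2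
  have h4 : s 2 (!₂[a, b, c] : E3) = !₂[a', b', c'] := by
    refine b1_ext3 ?_ ?_ ?_
    · rw [b1_s2_0]
      simpa using h0
    · rw [b1_s2_1]
      simpa using h1
    · rw [b1_s2_2]
      simpa using h2
  rwa [h4] at h3

theorem orb_neg {v : E3} {a b c a' b' c' : ℝ} (h : (!₂[a, b, c] : E3) ∈ Orb v)
    (h0 : a = -a') (h1 : b = -b') (h2 : c = -c') : -(!₂[a', b', c'] : E3) ∈ Orb v := by
  have h4 : -(!₂[a', b', c'] : E3) = !₂[a, b, c] := by
    subst h0 h1 h2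
    refine b1_ext3 ?_ ?_ ?_ <;> simp
  rwa [h4]

theorem p5_0 : (!₂[0, 1, φ] : E3) ∈ Orb ax5 := ⟨1, G.one_mem, rfl⟩
theorem p2_0 : (!₂[0, 0, 1] : E3) ∈ Orb ax2 := ⟨1, G.one_mem, rfl⟩

theorem p5_1 : (!₂[0, -1, φ] : E3) ∈ Orb ax5 :=
  orb_s1 p5_0 rfl (by ring) rfl
theorem p5_2 : (!₂[φ, 0, 1] : E3) ∈ Orb ax5 :=
  orb_s2 p5_1 (by ring) (by linear_combination (1/2) * φ_sq)
    (by linear_combination (1/2) * φ_sq)
theorem p5_3 : (!₂[-φ, 0, 1] : E3) ∈ Orb ax5 :=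
  orb_s0 p5_2 (by ring) rfl rfl
theorem p5_4 : (!₂[1, φ, 0] : E3) ∈ Orb ax5 :=
  orb_s2 p5_3 (by linear_combination (1/2) * φ_sq) (by linear_combination (1/2) * φ_sq)
    (by ring)
theorem p5_5 : (!₂[-1, φ, 0] : E3) ∈ Orb ax5 :=
  orb_s0 p5_4 (by ring) rfl rfl
theorem p5_6 : (!₂[1, -φ, 0] : E3) ∈ Orb ax5 :=
  orb_s1 p5_4 rfl (by ring) rfl
theorem p5_7 : (!₂[-1, -φ, 0] : E3) ∈ Orb ax5 :=
  orb_s1 p5_5 rfl (by ring) rfl
theorem p5_8 : (!₂[φ, 0, -1] : E3) ∈ Orb ax5 :=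
  orb_s2 p5_7 (by linear_combination (1/2) * φ_sq) (by ring)
    (by linear_combination (-1/2) * φ_sq)
theorem p5_9 : (!₂[-φ, 0, -1] : E3) ∈ Orb ax5 :=
  orb_s0 p5_8 (by ring) rfl rfl
theorem p5_10 : (!₂[0, 1, -φ] : E3) ∈ Orb ax5 :=
  orb_s2 p5_9 (by linear_combination (1/2) * φ_sq) (by linear_combination (1/2) * φ_sq)
    (by ring)
theorem p5_11 : (!₂[0, -1, -φ] : E3) ∈ Orb ax5 :=
  orb_s1 p5_10 rfl (by ring) rfl
theorem p2_1 : (!₂[1 / 2, (φ - 1) / 2, φ / 2] : E3) ∈ Orb ax2 :=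
  orb_s2 p2_0 (by ring) (by ring)
    (by ring)
theorem p2_2 : (!₂[-(1 / 2), (φ - 1) / 2, φ / 2] : E3) ∈ Orb ax2 :=
  orb_s0 p2_1 (by ring) rfl rfl
theorem p2_3 : (!₂[1 / 2, -((φ - 1) / 2), φ / 2] : E3) ∈ Orb ax2 :=
  orb_s1 p2_1 rfl (by ring) rfl
theorem p2_4 : (!₂[-(1 / 2), -((φ - 1) / 2), φ / 2] : E3) ∈ Orb ax2 :=
  orb_s1 p2_2 rfl (by ring) rfl
theorem p2_5 : (!₂[(φ - 1) / 2, φ / 2, 1 / 2] : E3) ∈ Orb ax2 :=
  orb_s2 p2_2 (by linear_combination (-1/4) * φ_sq) (by linear_combination (1/4) * φ_sq)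
    (by linear_combination (1/2) * φ_sq)
theorem p2_6 : (!₂[φ / 2, 1 / 2, (φ - 1) / 2] : E3) ∈ Orb ax2 :=
  orb_s2 p2_4 (by linear_combination (1/4) * φ_sq) (by linear_combination (1/4) * φ_sq)
    (by ring)
theorem p2_7 : (!₂[-((φ - 1) / 2), φ / 2, 1 / 2] : E3) ∈ Orb ax2 :=
  orb_s0 p2_5 (by ring) rfl rfl
theorem p2_8 : (!₂[(φ - 1) / 2, -(φ / 2), 1 / 2] : E3) ∈ Orb ax2 :=
  orb_s1 p2_5 rfl (by ring) rfl
theorem p2_9 : (!₂[-(φ / 2), 1 / 2, (φ - 1) / 2] : E3) ∈ Orb ax2 :=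
  orb_s0 p2_6 (by ring) rfl rfl
theorem p2_10 : (!₂[φ / 2, -(1 / 2), (φ - 1) / 2] : E3) ∈ Orb ax2 :=
  orb_s1 p2_6 rfl (by ring) rfl
theorem p2_11 : (!₂[-((φ - 1) / 2), -(φ / 2), 1 / 2] : E3) ∈ Orb ax2 :=
  orb_s1 p2_7 rfl (by ring) rfl
theorem p2_12 : (!₂[-(φ / 2), -(1 / 2), (φ - 1) / 2] : E3) ∈ Orb ax2 :=
  orb_s1 p2_9 rfl (by ring) rfl
theorem p2_13 : (!₂[0, 1, 0] : E3) ∈ Orb ax2 :=
  orb_s2 p2_9 (by linear_combination (1/4) * φ_sq) (by linear_combination (1/2) * φ_sq)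
    (by linear_combination (1/4) * φ_sq)
theorem p2_14 : (!₂[1, 0, 0] : E3) ∈ Orb ax2 :=
  orb_s2 p2_11 (by linear_combination (1/2) * φ_sq) (by linear_combination (1/4) * φ_sq)
    (by linear_combination (-1/4) * φ_sq)
theorem p2_15 : (!₂[φ / 2, 1 / 2, -((φ - 1) / 2)] : E3) ∈ Orb ax2 :=
  orb_s2 p2_12 (by linear_combination (1/4) * φ_sq) (by linear_combination (1/2) * φ_sq)
    (by linear_combination (1/4) * φ_sq)
theorem p2_16 : (!₂[0, -1, 0] : E3) ∈ Orb ax2 :=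
  orb_s1 p2_13 rfl (by ring) rfl
theorem p2_17 : (!₂[-1, 0, 0] : E3) ∈ Orb ax2 :=
  orb_s0 p2_14 (by ring) rfl rfl
theorem p2_18 : (!₂[-(φ / 2), 1 / 2, -((φ - 1) / 2)] : E3) ∈ Orb ax2 :=
  orb_s0 p2_15 (by ring) rfl rfl
theorem p2_19 : (!₂[φ / 2, -(1 / 2), -((φ - 1) / 2)] : E3) ∈ Orb ax2 :=
  orb_s1 p2_15 rfl (by ring) rfl
theorem p2_20 : (!₂[(φ - 1) / 2, φ / 2, -(1 / 2)] : E3) ∈ Orb ax2 :=
  orb_s2 p2_17 (by ring) (by ring)
    (by ring)
theorem p2_21 : (!₂[-(φ / 2), -(1 / 2), -((φ - 1) / 2)] : E3) ∈ Orb ax2 :=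
  orb_s1 p2_18 rfl (by ring) rfl
theorem p2_22 : (!₂[-((φ - 1) / 2), φ / 2, -(1 / 2)] : E3) ∈ Orb ax2 :=
  orb_s2 p2_18 (by linear_combination (1/4) * φ_sq) (by ring)
    (by linear_combination (-1/4) * φ_sq)
theorem p2_23 : (!₂[(φ - 1) / 2, -(φ / 2), -(1 / 2)] : E3) ∈ Orb ax2 :=
  orb_s1 p2_20 rfl (by ring) rfl
theorem p2_24 : (!₂[1 / 2, (φ - 1) / 2, -(φ / 2)] : E3) ∈ Orb ax2 :=
  orb_s2 p2_21 (by linear_combination (1/4) * φ_sq) (by ring)
    (by linear_combination (-1/4) * φ_sq)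
theorem p2_25 : (!₂[-((φ - 1) / 2), -(φ / 2), -(1 / 2)] : E3) ∈ Orb ax2 :=
  orb_s1 p2_22 rfl (by ring) rfl
theorem p2_26 : (!₂[-(1 / 2), (φ - 1) / 2, -(φ / 2)] : E3) ∈ Orb ax2 :=
  orb_s0 p2_24 (by ring) rfl rfl
theorem p2_27 : (!₂[1 / 2, -((φ - 1) / 2), -(φ / 2)] : E3) ∈ Orb ax2 :=
  orb_s1 p2_24 rfl (by ring) rfl
theorem p2_28 : (!₂[-(1 / 2), -((φ - 1) / 2), -(φ / 2)] : E3) ∈ Orb ax2 :=
  orb_s1 p2_26 rfl (by ring) rfl
theorem p2_29 : (!₂[0, 0, -1] : E3) ∈ Orb ax2 :=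
  orb_s2 p2_28 (by linear_combination (1/4) * φ_sq) (by linear_combination (-1/4) * φ_sq)
    (by linear_combination (-1/2) * φ_sq)

theorem q4_gr : Real.goldenRatio = φ := rfl

theorem q4_axes5 (j : Fin 6) : Kusner.axes5 j ∈ Orb ax5 ∧ -Kusner.axes5 j ∈ Orb ax5 := by
  fin_cases j
  · exact ⟨p5_0, orb_neg p5_11 (by first | ring1 | (rw [q4_gr]; ring1) | (rw [q4_gr]; done)) (by first | ring1 | (rw [q4_gr]; ring1) | (rw [q4_gr]; done)) (by first | ring1 | (rw [q4_gr]; ring1) | (rw [q4_gr]; done))⟩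
  · exact ⟨p5_1, orb_neg p5_10 (by first | ring1 | (rw [q4_gr]; ring1) | (rw [q4_gr]; done)) (by first | ring1 | (rw [q4_gr]; ring1) | (rw [q4_gr]; done)) (by first | ring1 | (rw [q4_gr]; ring1) | (rw [q4_gr]; done))⟩
  · exact ⟨p5_4, orb_neg p5_7 (by first | ring1 | (rw [q4_gr]; ring1) | (rw [q4_gr]; done)) (by first | ring1 | (rw [q4_gr]; ring1) | (rw [q4_gr]; done)) (by first | ring1 | (rw [q4_gr]; ring1) | (rw [q4_gr]; done))⟩
  · exact ⟨p5_5, orb_neg p5_6 (by first | ring1 | (rw [q4_gr]; ring1) | (rw [q4_gr]; done)) (by first | ring1 | (rw [q4_gr]; ring1) | (rw [q4_gr]; done)) (by first | ring1 | (rw [q4_gr]; ring1) | (rw [q4_gr]; done))⟩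
  · exact ⟨p5_2, orb_neg p5_9 (by first | ring1 | (rw [q4_gr]; ring1) | (rw [q4_gr]; done)) (by first | ring1 | (rw [q4_gr]; ring1) | (rw [q4_gr]; done)) (by first | ring1 | (rw [q4_gr]; ring1) | (rw [q4_gr]; done))⟩
  · exact ⟨p5_8, orb_neg p5_3 (by first | ring1 | (rw [q4_gr]; ring1) | (rw [q4_gr]; done)) (by first | ring1 | (rw [q4_gr]; ring1) | (rw [q4_gr]; done)) (by first | ring1 | (rw [q4_gr]; ring1) | (rw [q4_gr]; done))⟩

theorem q4_axes2 (j : Fin 15) : Kusner.axes2 j ∈ Orb ax2 ∧ -Kusner.axes2 j ∈ Orb ax2 := by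
  fin_cases j
  · exact ⟨p2_14, orb_neg p2_17 (by first | ring1 | (rw [q4_gr]; ring1) | (rw [q4_gr]; done)) (by first | ring1 | (rw [q4_gr]; ring1) | (rw [q4_gr]; done)) (by first | ring1 | (rw [q4_gr]; ring1) | (rw [q4_gr]; done))⟩
  · exact ⟨p2_13, orb_neg p2_16 (by first | ring1 | (rw [q4_gr]; ring1) | (rw [q4_gr]; done)) (by first | ring1 | (rw [q4_gr]; ring1) | (rw [q4_gr]; done)) (by first | ring1 | (rw [q4_gr]; ring1) | (rw [q4_gr]; done))⟩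
  · exact ⟨p2_0, orb_neg p2_29 (by first | ring1 | (rw [q4_gr]; ring1) | (rw [q4_gr]; done)) (by first | ring1 | (rw [q4_gr]; ring1) | (rw [q4_gr]; done)) (by first | ring1 | (rw [q4_gr]; ring1) | (rw [q4_gr]; done))⟩
  · exact ⟨p2_1, orb_neg p2_28 (by first | ring1 | (rw [q4_gr]; ring1) | (rw [q4_gr]; done)) (by first | ring1 | (rw [q4_gr]; ring1) | (rw [q4_gr]; done)) (by first | ring1 | (rw [q4_gr]; ring1) | (rw [q4_gr]; done))⟩
  · exact ⟨p2_24, orb_neg p2_4 (by first | ring1 | (rw [q4_gr]; ring1) | (rw [q4_gr]; done)) (by first | ring1 | (rw [q4_gr]; ring1) | (rw [q4_gr]; done)) (by first | ring1 | (rw [q4_gr]; ring1) | (rw [q4_gr]; done))⟩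
  · exact ⟨p2_3, orb_neg p2_26 (by first | ring1 | (rw [q4_gr]; ring1) | (rw [q4_gr]; done)) (by first | ring1 | (rw [q4_gr]; ring1) | (rw [q4_gr]; done)) (by first | ring1 | (rw [q4_gr]; ring1) | (rw [q4_gr]; done))⟩
  · exact ⟨p2_27, orb_neg p2_2 (by first | ring1 | (rw [q4_gr]; ring1) | (rw [q4_gr]; done)) (by first | ring1 | (rw [q4_gr]; ring1) | (rw [q4_gr]; done)) (by first | ring1 | (rw [q4_gr]; ring1) | (rw [q4_gr]; done))⟩
  · exact ⟨p2_6, orb_neg p2_21 (by first | ring1 | (rw [q4_gr]; ring1) | (rw [q4_gr]; done)) (by first | ring1 | (rw [q4_gr]; ring1) | (rw [q4_gr]; done)) (by first | ring1 | (rw [q4_gr]; ring1) | (rw [q4_gr]; done))⟩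
  · exact ⟨p2_9, orb_neg p2_19 (by first | ring1 | (rw [q4_gr]; ring1) | (rw [q4_gr]; done)) (by first | ring1 | (rw [q4_gr]; ring1) | (rw [q4_gr]; done)) (by first | ring1 | (rw [q4_gr]; ring1) | (rw [q4_gr]; done))⟩
  · exact ⟨p2_15, orb_neg p2_12 (by first | ring1 | (rw [q4_gr]; ring1) | (rw [q4_gr]; done)) (by first | ring1 | (rw [q4_gr]; ring1) | (rw [q4_gr]; done)) (by first | ring1 | (rw [q4_gr]; ring1) | (rw [q4_gr]; done))⟩
  · exact ⟨p2_18, orb_neg p2_10 (by first | ring1 | (rw [q4_gr]; ring1) | (rw [q4_gr]; done)) (by first | ring1 | (rw [q4_gr]; ring1) | (rw [q4_gr]; done)) (by first | ring1 | (rw [q4_gr]; ring1) | (rw [q4_gr]; done))⟩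
  · exact ⟨p2_5, orb_neg p2_25 (by first | ring1 | (rw [q4_gr]; ring1) | (rw [q4_gr]; done)) (by first | ring1 | (rw [q4_gr]; ring1) | (rw [q4_gr]; done)) (by first | ring1 | (rw [q4_gr]; ring1) | (rw [q4_gr]; done))⟩
  · exact ⟨p2_7, orb_neg p2_23 (by first | ring1 | (rw [q4_gr]; ring1) | (rw [q4_gr]; done)) (by first | ring1 | (rw [q4_gr]; ring1) | (rw [q4_gr]; done)) (by first | ring1 | (rw [q4_gr]; ring1) | (rw [q4_gr]; done))⟩
  · exact ⟨p2_8, orb_neg p2_22 (by first | ring1 | (rw [q4_gr]; ring1) | (rw [q4_gr]; done)) (by first | ring1 | (rw [q4_gr]; ring1) | (rw [q4_gr]; done)) (by first | ring1 | (rw [q4_gr]; ring1) | (rw [q4_gr]; done))⟩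
  · exact ⟨p2_11, orb_neg p2_20 (by first | ring1 | (rw [q4_gr]; ring1) | (rw [q4_gr]; done)) (by first | ring1 | (rw [q4_gr]; ring1) | (rw [q4_gr]; done)) (by first | ring1 | (rw [q4_gr]; ring1) | (rw [q4_gr]; done))⟩

theorem q4_orb5 {y : E3} (h : y ∈ Orb ax5) :
    ∃ g ∈ G, (1 / Real.sqrt (1 + Real.goldenRatio ^ 2)) • y = g ξ := by
  obtain ⟨g, hg, rfl⟩ := h
  refine ⟨g, hg, ?_⟩
  rw [ξ, map_smul, one_div]
  rfl

theorem pole_orbit (i : PIdx) : ∃ g ∈ G, pole i = g ξ ∨ pole i = g ax2 := by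
  obtain ⟨j | j, b⟩ := i
  · cases b
    · obtain ⟨g, hg, h⟩ := q4_orb5 (q4_axes5 j).2
      refine ⟨g, hg, Or.inl ?_⟩
      rw [← h]
      simp [pole]
    · obtain ⟨g, hg, h⟩ := q4_orb5 (q4_axes5 j).1
      refine ⟨g, hg, Or.inl ?_⟩
      rw [← h]
      simp [pole]
  · cases b
    · obtain ⟨g, hg, h⟩ := (q4_axes2 j).2
      refine ⟨g, hg, Or.inr ?_⟩
      rw [← h]
      simp [pole]
    · obtain ⟨g, hg, h⟩ := (q4_axes2 j).1
      refine ⟨g, hg, Or.inr ?_⟩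
      rw [← h]
      simp [pole]

end Kus64
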