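import Pool.Agent.helper64.Kus.Q3
import Pool.Agent.helper64.Kus.Q4
import Pool.Agent.helper64.Kus.P1

/-!
# Q5: the interfaces are the projected films -- MODULE, replace the sorries

* `interface_eq`: by `interface_OmF (diagram ..)` and `actF_iff` the interface is
  `{x | ist x is active for both}`; `x = st (up4 (ist x))` (`st_up4`, `sp_ist`, `norm_up4`), and conversely
  `ist (st Y) = (Y 0, vec Y)` (`st_eq_sp`, `ist_sp`, `filmS_pole`).
* `sum_perm`: for symmetric `f` and a permutation `σ`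
  `Σ_{j<l} f (σ j) (σ l) = Σ_{j<l} f j l`: `2 Σ_{j<l} f j l = Σ_{j≠l} f j l`.
-/

open Set Metric MeasureTheory Filter Kusner
open scoped Topology

namespace Kus64

section
variable {a b p : E3} {k : ℕ} {e : Fin (k + 1) → Site}

theorem interface_eq (hF : Frame a b p) (he : Enum e)
    (hinf : Star (cellS (e (Fin.last k))) ((0 : ℝ), p)) {i j : Fin (k + 1)} (hij : i ≠ j) :
    interface (OmF fun j => Ff a b p (e j)) i j = st a b p '' filmS (e i) (e j) := by
  rw [interface_OmF (diagram hF he hinf) hij]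
  ext x
  simp only [mem_ofPred_eq, actF_iff he, mem_image]
  constructor
  · rintro ⟨h1, h2⟩
    refine ⟨up4 (ist a b p x), ⟨?_, ?_, ?_⟩, ?_⟩
    · exact (norm_up4 _).2 (ist_onS hF x)
    · rw [up4_zero, vec_up4]
      exact h1
    · rw [up4_zero, vec_up4]
      exact h2
    · rw [st_up4, sp_ist hF]
  · rintro ⟨Y, hY, rfl⟩
    have hpole := filmS_pole hF (he.mem _) hinf.1 (he.inj.ne hij) hY
    have hist : ist a b p (st a b p Y) = (Y 0, vec Y) := by
      rw [st_eq_sp, ist_sp hF (onS_of_norm hY.1) hpole]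
    rw [hist]
    exact ⟨hY.2.1, hY.2.2⟩

theorem h71_two_sum {n : ℕ} (g : Fin n → Fin n → ℝ) (hg : ∀ j l, g j l = g l j) :
    ∑ j, ∑ l, (if j ≠ l then g j l else 0) = 2 * ∑ j, ∑ l, (if j < l then g j l else 0) := by
  have h1 : ∑ j, ∑ l, (if l < j then g j l else 0) = ∑ j, ∑ l, (if j < l then g j l else 0) := by
    rw [Finset.sum_comm]
    refine Finset.sum_congr rfl fun j _ => Finset.sum_congr rfl fun l _ => ?_
    rw [hg l j]
  have h2 : ∑ j, ∑ l, (if j ≠ l then g j l else 0) =
      ∑ j, ∑ l, (if j < l then g j l else 0) + ∑ j, ∑ l, (if l < j then g j l else 0) := by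
    rw [← Finset.sum_add_distrib]
    refine Finset.sum_congr rfl fun j _ => ?_
    rw [← Finset.sum_add_distrib]
    refine Finset.sum_congr rfl fun l _ => ?_
    rcases lt_trichotomy j l with h | h | h
    · rw [if_pos h.ne, if_pos h, if_neg h.asymm, add_zero]
    · subst h
      simp
    · rw [if_pos h.ne', if_neg h.asymm, if_pos h, zero_add]
  rw [h2, h1]
  ring

theorem sum_perm {n : ℕ} (σ : Equiv.Perm (Fin n)) (f : Fin n → Fin n → ℝ)
    (hf : ∀ j l, f j l = f l j) :
    ∑ j, ∑ l, (if j < l then f (σ j) (σ l) else 0) = ∑ j, ∑ l, (if j < l then f j l else 0) := by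
  have h1 := h71_two_sum (fun j l => f (σ j) (σ l)) (fun j l => hf _ _)
  have h2 := h71_two_sum f hf
  have h3 : ∑ j, ∑ l, (if j ≠ l then f (σ j) (σ l) else 0) =
      ∑ j, ∑ l, (if j ≠ l then f j l else 0) := by
    rw [← Equiv.sum_comp σ (fun j => ∑ l, (if j ≠ l then f j l else 0))]
    refine Finset.sum_congr rfl fun j _ => ?_
    rw [← Equiv.sum_comp σ (fun l => if σ j ≠ l then f (σ j) l else 0)]
    refine Finset.sum_congr rfl fun l _ => ?_
    simp only [ne_eq, EmbeddingLike.apply_eq_iff_eq]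
  have h4 : (2 : ℝ) * ∑ j, ∑ l, (if j < l then f (σ j) (σ l) else 0) =
      2 * ∑ j, ∑ l, (if j < l then f j l else 0) := by
    rw [← h1, ← h2]
    exact h3
  linarith

end

end Kus64
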