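import Pool.Agent.helper64.Kus.Q5
import Pool.Agent.helper14.Kus3.Main

/-!
# Q6: finiteness of the areas -- MODULE, replace the sorry

`interface_eq`: the interface is `st a b p '' S`, `S = filmS (e i) (e j)` compact (`filmS_compact`),
`inner p (vec Y) ≠ 1` on `S` (`filmS_pole`), `μH[2] S < ⊤` by `film_lt_top` (with `filmS_lin`, `filmS_q`,
`filmS_v`; if `S` is empty trivial).  The composition of `φ t` and `st` is smooth near the compact
set `S`, hence locally Lipschitz there, and `LipschitzOnWith.hausdorffMeasure_image_le` applies.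
(The theorems of helper14's `If.lean` may be used; it will be replaced by its proved version.)
-/

open Set Metric MeasureTheory Filter Kusner
open scoped Topology

namespace Kus64

section
variable {a b p : E3} {k : ℕ} {e : Fin (k + 1) → Site}

/-- the image of a compact set of finite area under a map which is smooth near it has finite
area -/
theorem q6_image_lt_top {E F : Type*} [NormedAddCommGroup E] [NormedSpace ℝ E]
    [MeasurableSpace E] [BorelSpace E] [NormedAddCommGroup F] [NormedSpace ℝ F]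
    [MeasurableSpace F] [BorelSpace F] {S : Set E} (hS : IsCompact S) (hμ : μH[2] S < ⊤)
    {g : E → F} (hg : ∀ x ∈ S, ContDiffAt ℝ 1 g x) : μH[2] (g '' S) < ⊤ := by
  have key : μH[2] (g '' (S ∩ S)) < ⊤ := by
    refine hS.induction_on (p := fun s => μH[2] (g '' (s ∩ S)) < ⊤) ?_ ?_ ?_ ?_
    · simp
    · intro s t hst ht
      exact lt_of_le_of_lt (measure_mono (image_mono (inter_subset_inter_left _ hst))) ht
    · intro s t hs ht
      rw [union_inter_distrib_right, image_union]
      exact lt_of_le_of_lt (measure_union_le _ _) (ENNReal.add_lt_top.mpr ⟨hs, ht⟩)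
    · intro x hx
      obtain ⟨K, t, ht, hK⟩ := (hg x hx).exists_lipschitzOnWith
      refine ⟨t, mem_nhdsWithin_of_mem_nhds ht, ?_⟩
      have h1 := (hK.mono (inter_subset_left (s := t) (t := S))).hausdorffMeasure_image_le
        (d := 2) (by norm_num)
      refine lt_of_le_of_lt h1 ?_
      refine ENNReal.mul_lt_top ?_ (lt_of_le_of_lt (measure_mono inter_subset_right) hμ)
      exact ENNReal.rpow_lt_top_of_nonneg (by norm_num) ENNReal.coe_ne_top
  rwa [inter_self] at key

theorem q6_vec : ContDiff ℝ 1 (vec : E4 → E3) := by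
  rw [contDiff_euclidean]
  intro i
  fin_cases i
  · exact (EuclideanSpace.proj (1 : Fin 4) : E4 →L[ℝ] ℝ).contDiff
  · exact (EuclideanSpace.proj (2 : Fin 4) : E4 →L[ℝ] ℝ).contDiff
  · exact (EuclideanSpace.proj (3 : Fin 4) : E4 →L[ℝ] ℝ).contDiff

theorem q6_st {Y : E4} (hY : inner ℝ p (vec Y) ≠ 1) : ContDiffAt ℝ 1 (st a b p) Y := by
  have hv : ContDiffAt ℝ 1 (vec : E4 → E3) Y := q6_vec.contDiffAt
  have hin : ∀ c : E3, ContDiffAt ℝ 1 (fun Y : E4 => inner ℝ c (vec Y)) Y := fun c =>
    contDiffAt_const.inner ℝ hv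
  have h1 : ContDiffAt ℝ 1 (fun Y : E4 => 1 / (1 - inner ℝ p (vec Y))) Y := by
    refine contDiffAt_const.div (contDiffAt_const.sub (hin p)) ?_
    intro h0
    apply hY
    linarith
  have h2 : ContDiffAt ℝ 1 (fun Y : E4 => (!₂[inner ℝ a (vec Y), inner ℝ b (vec Y), Y 0] : E3))
      Y := by
    rw [contDiffAt_euclidean]
    intro i
    fin_cases i
    · exact hin a
    · exact hin b
    · exact (EuclideanSpace.proj (0 : Fin 4) : E4 →L[ℝ] ℝ).contDiff.contDiffAt
  exact h1.smul h2

theorem interface_lt_top (hF : Frame a b p) (he : Enum e)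
    (hinf : Star (cellS (e (Fin.last k))) ((0 : ℝ), p)) {φ : ℝ → E3 → E3} (hφ : IsDeformation φ)
    (t : ℝ) {i j : Fin (k + 1)} (hij : i ≠ j) :
    μH[2] (φ t '' interface (OmF fun j => Ff a b p (e j)) i j) < ⊤ := by
  rw [interface_eq hF he hinf hij, ← image_comp]
  have hne : e i ≠ e j := fun h => hij (he.inj h)
  rcases (filmS (e i) (e j)).eq_empty_or_nonempty with h0 | h0
  · rw [h0, image_empty, measure_empty]
    exact ENNReal.zero_lt_top
  have hfin : μH[2] (filmS (e i) (e j)) < ⊤ :=
    film_lt_top (filmS_q hne h0) (filmS_v hne h0) (fun Y hY => filmS_norm hY)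
      (fun Y hY => filmS_lin hY)
  refine q6_image_lt_top (filmS_compact _ _) hfin ?_
  intro Y hY
  have hp : inner ℝ p (vec Y) ≠ 1 :=
    filmS_pole hF (he.mem (Fin.last k)) hinf.1 hne hY
  have hφt : ContDiff ℝ 1 (φ t) := by
    have h1 : ContDiff ℝ 1 (fun q : ℝ × E3 => φ q.1 q.2) := hφ.smooth.of_le (by simp)
    have h2 : ContDiff ℝ 1 (fun x : E3 => ((t, x) : ℝ × E3)) := by fun_prop
    exact h1.comp h2
  exact (hφt.contDiffAt).comp Y (q6_st hp)

end

end Kus64
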