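import Pool.Agent.helper64.Kus.Q6
import Pool.Agent.helper64.Kus.P2
import Pool.Agent.helper64.Kus.P4

/-!
# Q7: assembly of the geometric part -- MODULE, replace the sorry

`unstable_of_total` (helper14, `If.lean`) with `n = k+1`, `S j l = if j = l then ∅ else filmS (e j) (e l)`,
`w0 j l = (e j).b - (e l).b`, `wv`, `wt` likewise.  For each `i : PIdx`: `exists_frame (norm_pole i)`;
`star_inf (pole_orbit i)` gives a small site whose cell has the centre `(0, pole i)`; choose a
permutation `σ i` (`Equiv.swap`) with `e (σ i (last))` = that site; `e ∘ σ i` is an enumeration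
(`Enum.perm`), `Ω i = OmF (fun j => Ff a b p (e (σ i j)))`.
* `ho, hd, hne, hb`: `isCluster_OmF`, `bounded_OmF` (`diagram`); nonempty by positive volume.
* `hS`: `filmS_compact`; `hS2`: `filmS_lin`; `hw`: `filmS_q`, `filmS_v`; `hSp`: `filmS_pole`.
* `harea`: unfold `area`, `interface_eq`, then `sum_perm` with
  `f j l = (μH[2] (φ t '' (st .. '' filmS (e j) (e l)))).toReal` (symmetric by `filmS_symm`).
* `hneg`: `II (e j) (e l) univ` is the integral in question.
For the resulting `i`, deformation: `spherical_OmF`, `plateau_OmF`, `balanced_OmF`, connectedness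
`conn` with `cell_OmF`, finiteness `interface_lt_top`.
-/

open Set Metric MeasureTheory Filter Kusner
open scoped Topology

namespace Kus64

theorem geometric_part {k : ℕ} {e : Fin (k + 1) → Site} (he : Enum e)
    (hneg : ∑ j, ∑ l, (if j < l then II (e j) (e l) univ else 0) < 0) :
    ∃ Ω : Fin k → Set E3, IsCluster Ω ∧ (∀ i, Bornology.IsBounded (Ω i)) ∧
      (∀ i, IsConnected (cell Ω i)) ∧ HasSphericalInterfaces Ω ∧ ObeysPlateau Ω ∧
      PressureBalanced Ω ∧ ∃ φ : ℝ → E3 → E3, IsDeformation φ ∧ PreservesVolumes Ω φ ∧
        (∀ t i j, i ≠ j → μH[2] (φ t '' interface Ω i j) < ⊤) ∧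
        ∃ A2 < 0, Second (area Ω φ) A2 := by
  classical
  choose a b hF using fun i : PIdx => exists_frame (norm_pole i)
  have hsite : ∀ i : PIdx, ∃ j : Fin (k + 1), Star (cellS (e j)) ((0 : ℝ), pole i) := by
    intro i
    obtain ⟨w, hw, hst⟩ := star_inf (pole_orbit i)
    have hwS : w ∈ Sites := Or.inr hw
    rw [← he.rng] at hwS
    obtain ⟨j, rfl⟩ := hwS
    exact ⟨j, hst⟩
  choose j0 hj0 using hsite
  have hinf : ∀ i : PIdx, Star (cellS ((e ∘ Equiv.swap (Fin.last k) (j0 i)) (Fin.last k)))
      ((0 : ℝ), pole i) := by
    intro i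
    have : (e ∘ Equiv.swap (Fin.last k) (j0 i)) (Fin.last k) = e (j0 i) := by
      rw [Function.comp_apply, Equiv.swap_apply_left]
    rw [this]
    exact hj0 i
  have he' : ∀ i : PIdx, Enum (e ∘ Equiv.swap (Fin.last k) (j0 i)) := fun i => he.perm _
  have hD : ∀ i : PIdx, Diagram
      (fun j => Ff (a i) (b i) (pole i) ((e ∘ Equiv.swap (Fin.last k) (j0 i)) j))
      (fun j => mf (a i) (b i) (pole i) ((e ∘ Equiv.swap (Fin.last k) (j0 i)) j)) :=
    fun i => diagram (hF i) (he' i) (hinf i)
  have hene : ∀ {j l : Fin (k + 1)}, j ≠ l → e j ≠ e l := fun h h' => h (he.inj h')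
  obtain ⟨i, φ, hφ, hV, A2, hA2, hSec⟩ := unstable_of_total (n := k + 1)
    (fun i => OmF (fun j => Ff (a i) (b i) (pole i) ((e ∘ Equiv.swap (Fin.last k) (j0 i)) j)))
    a b hF
    (fun i j => (isCluster_OmF (hD i)).isOpen j)
    (fun i j => bounded_OmF (hD i) j)
    (fun i j => ((hD i).conn j.castSucc).nonempty)
    (fun i => (isCluster_OmF (hD i)).disjoint)
    (fun j l => (e j).b - (e l).b) (fun j l => (e j).t - (e l).t)
    (fun j l => (e j).v - (e l).v)
    (fun j l => if j = l then ∅ else filmS (e j) (e l))
    (by
      intro j l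
      by_cases h : j = l
      · rw [if_pos h]; exact isCompact_empty
      · rw [if_neg h]; exact filmS_compact _ _)
    (by
      intro j l Y hY
      by_cases h : j = l
      · rw [if_pos h] at hY; exact absurd hY (notMem_empty _)
      · rw [if_neg h] at hY; exact filmS_norm hY)
    (by
      intro j l Y hY
      by_cases h : j = l
      · rw [if_pos h] at hY; exact absurd hY (notMem_empty _)
      · rw [if_neg h] at hY; exact filmS_lin hY)
    (by
      intro j l hjl hne
      rw [if_neg hjl.ne] at hne
      exact ⟨filmS_q (hene hjl.ne) hne, filmS_v (hene hjl.ne) hne⟩)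
    (by
      intro i j l Y hY
      by_cases h : j = l
      · rw [if_pos h] at hY; exact absurd hY (notMem_empty _)
      · rw [if_neg h] at hY
        exact filmS_pole (hF i) ((he' i).mem (Fin.last k)) (hinf i).1 (hene h) hY)
    (by
      intro i φ t
      have h1 := sum_perm (Equiv.swap (Fin.last k) (j0 i))
        (fun j l => (μH[2] (φ t '' (st (a i) (b i) (pole i) '' filmS (e j) (e l)))).toReal)
        (fun j l => by rw [filmS_symm])
      unfold area
      calc _ = ∑ j : Fin (k + 1), ∑ l : Fin (k + 1), (if j < l then
            (μH[2] (φ t '' (st (a i) (b i) (pole i) ''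
              filmS (e (Equiv.swap (Fin.last k) (j0 i) j))
                (e (Equiv.swap (Fin.last k) (j0 i) l))))).toReal else 0) := by
            apply Finset.sum_congr rfl
            intro j _
            apply Finset.sum_congr rfl
            intro l _
            by_cases h : j < l
            · rw [if_pos h, if_pos h, interface_eq (hF i) (he' i) (hinf i) h.ne]
              rfl
            · rw [if_neg h, if_neg h]
        _ = _ := h1
        _ = _ := by
            apply Finset.sum_congr rfl
            intro j _
            apply Finset.sum_congr rfl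
            intro l _
            by_cases h : j < l
            · rw [if_pos h, if_pos h, if_neg h.ne]
            · rw [if_neg h, if_neg h])
    (by
      have e1 : (∑ j : Fin (k + 1), ∑ l : Fin (k + 1), (if j < l then
          ∫ Y in (if j = l then ∅ else filmS (e j) (e l)),
            Phi (Y 0) ((e j).b - (e l).b - ((e j).t - (e l).t) * Y 0) ∂μH[2] else 0)) =
          ∑ j, ∑ l, (if j < l then II (e j) (e l) univ else 0) := by
        apply Finset.sum_congr rfl
        intro j _
        apply Finset.sum_congr rfl
        intro l _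
        by_cases h : j < l
        · rw [if_pos h, if_pos h, if_neg h.ne]
          unfold II
          rw [inter_univ]
        · rw [if_neg h, if_neg h]
      rw [e1]
      exact hneg)
  refine ⟨_, isCluster_OmF (hD i), bounded_OmF (hD i), fun j => ?_, spherical_OmF (hD i),
    plateau_OmF (hD i), balanced_OmF (hD i), φ, hφ, hV, fun t j l hjl => ?_, A2, hA2, hSec⟩
  · rw [cell_OmF (hD i)]
    exact (hD i).conn j
  · exact interface_lt_top (hF i) (he' i) (hinf i) hφ t hjl

end Kus64
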