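import Pool.Agent.helper64.Kus.R1

/-!
# R2: the multiplicity function -- MODULE, replace the sorries

`NN Y` = number of group elements `(g, ε)`, `g ∈ G`, with `TT g ε Y ∈ DD`.
* `NN_pos`: `exists_mem_D` for `vec Y`, and `ε` so that `± Y 0 ≥ 0`.
* `NN_TT`: bijection `γ ↦ γ γ₀` (`TT_TT`).
* `NN_one`: `Y 0 > 0` forces `ε = false`; `g y ∈ D`, `y ∈ D` give `g y = y` (`D_unique`); then `g = 1`:
  for `v ∈ D`: `inner (g v) y = inner v (g⁻¹ y) = inner v y`, so `g v = v` by `inner_eq_fix` (no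
  `i` with `inner (α i) y = 0`); `D` contains the basis `ax5, ax2, ax3`.
* `NN_two`: `ε = false`, `g y = y`; the elements `1` and `s i₀` (`s i₀ y = y`, `s i₀ ≠ 1`) count.
  Conversely take `v = ax5 + ax2 + ax3`, which has `0 < inner (α i) v` for all `i`: by
  `inner_eq_one` `g v = v` or `g v = s i₀ v`.  In the first case `g = 1` by the argument of `NN_one`
  (applied to `v`), in the second `s i₀ * g` fixes `v`, so `g = (s i₀)⁻¹ = s i₀`.
* `NN_measurable`: finite sum of indicators of the closed sets `{Y | TT g ε Y ∈ DD}`.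
-/

open Set Metric MeasureTheory

namespace Kus64

open Kusner (E4 vec Phi)

/-- the group as a finset -/
noncomputable def GF : Finset ((E3 ≃ₗᵢ[ℝ] E3) × Bool) := G_finite.toFinset ×ˢ Finset.univ

open Classical in
/-- multiplicity -/
noncomputable def NN (Y : E4) : ℕ := (GF.filter fun γ => TT γ.1 γ.2 Y ∈ DD).card

theorem mem_GF {γ : (E3 ≃ₗᵢ[ℝ] E3) × Bool} : γ ∈ GF ↔ γ.1 ∈ G := by
  unfold GF
  rw [Finset.mem_product, Set.Finite.mem_toFinset]
  constructor
  · intro h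
    exact h.1
  · intro h
    exact ⟨h, Finset.mem_univ _⟩

theorem GF_card_pos : 0 < GF.card :=
  Finset.card_pos.mpr ⟨(1, false), mem_GF.mpr G.one_mem⟩

private theorem r2_vec_cont : Continuous (fun Y : E4 => vec Y) := by
  have h : (fun Y : E4 => vec Y) = fun Y : E4 => (!₂[Y 1, Y 2, Y 3] : E3) := rfl
  rw [h]
  refine (PiLp.continuous_toLp 2 _).comp (continuous_pi fun i => ?_)
  fin_cases i
  · exact (EuclideanSpace.proj (𝕜 := ℝ) (1 : Fin 4)).continuous
  · exact (EuclideanSpace.proj (𝕜 := ℝ) (2 : Fin 4)).continuous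
  · exact (EuclideanSpace.proj (𝕜 := ℝ) (3 : Fin 4)).continuous

private theorem r2_D_closed : IsClosed D := by
  have h : D = ⋂ i : Fin 3, {y : E3 | 0 ≤ inner ℝ (α i) y} := by
    ext y
    simp [D]
  rw [h]
  refine isClosed_iInter fun i => isClosed_le continuous_const ?_
  exact continuous_const.inner continuous_id

theorem DD_closed : IsClosed DD := by
  have h : DD = {Y : E4 | 0 ≤ Y 0} ∩ (fun Y : E4 => vec Y) ⁻¹' D := by
    ext Y
    rfl
  rw [h]
  refine IsClosed.inter ?_ (r2_D_closed.preimage r2_vec_cont)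
  exact isClosed_le continuous_const (EuclideanSpace.proj (𝕜 := ℝ) (0 : Fin 4)).continuous

private theorem r2_mem {g : E3 ≃ₗᵢ[ℝ] E3} {ε : Bool} {Y : E4} :
    TT g ε Y ∈ DD ↔ 0 ≤ sg ε * Y 0 ∧ g (vec Y) ∈ D := by
  rw [← TT_zero g ε Y, ← vec_TT g ε Y]
  rfl

theorem NN_pos (Y : E4) : 0 < NN Y := by
  classical
  obtain ⟨g, hg, hgD⟩ := exists_mem_D (vec Y)
  unfold NN
  refine Finset.card_pos.mpr ?_
  rcases le_total 0 (Y 0) with h | h
  · refine ⟨(g, false), Finset.mem_filter.mpr ⟨mem_GF.mpr hg, ?_⟩⟩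
    rw [r2_mem]
    exact ⟨by simpa [sg] using h, hgD⟩
  · refine ⟨(g, true), Finset.mem_filter.mpr ⟨mem_GF.mpr hg, ?_⟩⟩
    rw [r2_mem]
    exact ⟨by simpa [sg] using h, hgD⟩

theorem NN_TT {g : E3 ≃ₗᵢ[ℝ] E3} (hg : g ∈ G) (ε : Bool) (Y : E4) : NN (TT g ε Y) = NN Y := by
  classical
  unfold NN
  refine Finset.card_nbij' (fun γ => (γ.1 * g, xor γ.2 ε)) (fun γ => (γ.1 * g⁻¹, xor γ.2 ε)) ?_ ?_ ?_ ?_
  · intro γ hγ
    rw [Finset.mem_coe, Finset.mem_filter, mem_GF] at hγ ⊢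
    refine ⟨G.mul_mem hγ.1 hg, ?_⟩
    rw [← TT_TT]
    exact hγ.2
  · intro γ hγ
    rw [Finset.mem_coe, Finset.mem_filter, mem_GF] at hγ ⊢
    refine ⟨G.mul_mem hγ.1 (G.inv_mem hg), ?_⟩
    rw [TT_TT]
    have h1 : γ.1 * g⁻¹ * g = γ.1 := by group
    have h2 : xor (xor γ.2 ε) ε = γ.2 := by cases γ.2 <;> cases ε <;> rfl
    simp only
    rw [h1, h2]
    exact hγ.2
  · intro γ _
    have h1 : γ.1 * g * g⁻¹ = γ.1 := by group
    have h2 : xor (xor γ.2 ε) ε = γ.2 := by cases γ.2 <;> cases ε <;> rfl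
    simp only
    rw [h1, h2]
  · intro γ _
    have h1 : γ.1 * g⁻¹ * g = γ.1 := by group
    have h2 : xor (xor γ.2 ε) ε = γ.2 := by cases γ.2 <;> cases ε <;> rfl
    simp only
    rw [h1, h2]

private theorem r2_φ : 0 < φ := by linarith [φ_bounds.1]

private theorem r2_ax5 : ax5 ∈ D := by
  have := r2_φ
  rw [mem_D_iff]; simp [ax5]

private theorem r2_ax2 : ax2 ∈ D := by
  rw [mem_D_iff]; simp [ax2]

private theorem r2_ax3 : ax3 ∈ D := by
  rw [mem_D_iff]; simp [ax3]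

private theorem r2_span (y : E3) :
    y = y 0 • ax3 + y 1 • ax5 + (y 2 - φ ^ 2 * y 0 - φ * y 1) • ax2 := by
  refine b1_ext3 ?_ ?_ ?_
  · simp [ax3, ax5, ax2]
  · simp [ax3, ax5, ax2]
  · simp [ax3, ax5, ax2]; ring

private theorem r2_fix_inner {g : E3 ≃ₗᵢ[ℝ] E3} {y : E3} (hgy : g y = y) (v : E3) :
    inner ℝ (g v) y = inner ℝ v y := by
  conv_lhs => rw [← hgy]
  exact g.inner_map_map v y

private theorem r2_fix_one {g : E3 ≃ₗᵢ[ℝ] E3} (hg : g ∈ G) {y : E3}
    (h : ∀ i, 0 < inner ℝ (α i) y) (hgy : g y = y) : g = 1 := by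
  have hy : y ∈ D := fun i => (h i).le
  have key : ∀ v ∈ D, g v = v := fun v hv =>
    inner_eq_fix hv hy hg (r2_fix_inner hgy v) (fun i hi => absurd hi (h i).ne')
  refine LinearIsometryEquiv.ext fun v => ?_
  show g v = v
  rw [r2_span v]
  simp only [map_add, map_smul]
  rw [key _ r2_ax3, key _ r2_ax5, key _ r2_ax2]

private theorem r2_eps {ε : Bool} {t : ℝ} (h0 : 0 < t) (h : 0 ≤ sg ε * t) : ε = false := by
  cases ε
  · rfl
  · simp [sg] at h
    linarith

theorem NN_one {Y : E4} (h0 : 0 < Y 0) (h : ∀ i, 0 < inner ℝ (α i) (vec Y)) : NN Y = 1 := by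
  classical
  unfold NN
  have hy : vec Y ∈ D := fun i => (h i).le
  refine Finset.card_eq_one.mpr ⟨(1, false), ?_⟩
  ext γ
  rw [Finset.mem_filter, mem_GF, Finset.mem_singleton, r2_mem]
  constructor
  · rintro ⟨hG, hs, hD⟩
    have e1 := r2_eps h0 hs
    have e2 := r2_fix_one hG h (D_unique hy hD hG rfl).symm
    exact Prod.ext e2 e1
  · rintro rfl
    refine ⟨G.one_mem, ?_, hy⟩
    simp [sg, h0.le]

theorem NN_two {Y : E4} (h0 : 0 < Y 0) (i₀ : Fin 3) (hi : inner ℝ (α i₀) (vec Y) = 0)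
    (h : ∀ i, i ≠ i₀ → 0 < inner ℝ (α i) (vec Y)) : NN Y = 2 := by
  classical
  unfold NN
  have hy : vec Y ∈ D := by
    intro i
    by_cases hii : i = i₀
    · rw [hii, hi]
    · exact (h i hii).le
  set v : E3 := ax5 + ax2 + ax3 with hv
  have hφ := r2_φ
  have hvp : ∀ i, 0 < inner ℝ (α i) v := by
    intro i
    fin_cases i
    · show 0 < inner ℝ (α 0) v
      rw [inner_α0, hv]; simp [ax5, ax2, ax3]
    · show 0 < inner ℝ (α 1) v
      rw [inner_α1, hv]; simp [ax5, ax2, ax3]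
    · show 0 < inner ℝ (α 2) v
      rw [inner_α2, hv]; simp [ax5, ax2, ax3]
      have h1 := φ_sq
      nlinarith [φ_bounds.1]
  have hvD : v ∈ D := fun i => (hvp i).le
  have hsv : s i₀ v ≠ v := by
    rw [s_apply]
    intro hc
    have h1 : (2 * inner ℝ (α i₀) v) • α i₀ = 0 := by
      have := sub_eq_self.mp hc
      exact this
    rcases smul_eq_zero.mp h1 with h2 | h2
    · have := hvp i₀
      linarith
    · have h3 := norm_α i₀
      rw [h2, norm_zero] at h3
      exact zero_ne_one h3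
  have hs1 : s i₀ ≠ 1 := by
    intro hc
    apply hsv
    rw [hc]
    rfl
  have hsy : s i₀ (vec Y) = vec Y := by
    rw [s_apply, hi]
    simp
  refine Finset.card_eq_two.mpr ⟨(1, false), (s i₀, false), ?_, ?_⟩
  · intro hc
    exact hs1 (congrArg Prod.fst hc).symm
  ext γ
  rw [Finset.mem_filter, mem_GF, Finset.mem_insert, Finset.mem_singleton, r2_mem]
  constructor
  · rintro ⟨hG, hs, hD⟩
    have e1 := r2_eps h0 hs
    have hgy : γ.1 (vec Y) = vec Y := (D_unique hy hD hG rfl).symm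
    rcases inner_eq_one hvD hy hG (r2_fix_inner hgy v) i₀ h with h1 | h1
    · left
      exact Prod.ext (r2_fix_one hG hvp h1) e1
    · right
      have h2 : (s i₀ * γ.1) v = v := by
        show s i₀ (γ.1 v) = v
        rw [h1, s_s]
      have h3 := r2_fix_one (G.mul_mem (s_mem_G i₀) hG) hvp h2
      have h4 : s i₀ * s i₀ = 1 := by
        refine LinearIsometryEquiv.ext fun u => ?_
        exact s_s i₀ u
      have h5 : γ.1 = s i₀ := by
        calc γ.1 = (s i₀ * s i₀) * γ.1 := by rw [h4, one_mul]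
          _ = s i₀ * (s i₀ * γ.1) := mul_assoc _ _ _
          _ = s i₀ := by rw [h3, mul_one]
      exact Prod.ext h5 e1
  · rintro (rfl | rfl)
    · refine ⟨G.one_mem, ?_, hy⟩
      simp [sg, h0.le]
    · refine ⟨s_mem_G i₀, ?_, ?_⟩
      · simp [sg, h0.le]
      · show s i₀ (vec Y) ∈ D
        rw [hsy]
        exact hy

theorem NN_measurable : Measurable fun Y => (NN Y : ℝ) := by
  classical
  have h : (fun Y : E4 => (NN Y : ℝ)) =
      fun Y => ∑ γ ∈ GF, ((TT γ.1 γ.2) ⁻¹' DD).indicator (fun _ => (1 : ℝ)) Y := by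
    funext Y
    unfold NN
    rw [Finset.card_filter]
    push_cast
    refine Finset.sum_congr rfl fun γ _ => ?_
    by_cases hγ : TT γ.1 γ.2 Y ∈ DD
    · rw [if_pos hγ, indicator_of_mem (by exact hγ)]
    · rw [if_neg hγ, indicator_of_notMem (by exact hγ)]
  rw [h]
  refine Finset.measurable_fun_sum _ fun γ _ => ?_
  exact measurable_const.indicator (DD_closed.measurableSet.preimage (TT_continuous γ.1 γ.2).measurable)

/-- the identity which is integrated -/
theorem sum_NN (Y : E4) :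
    ∑ γ ∈ GF, (DD.indicator (fun Z => ((NN Z : ℝ))⁻¹) (TT γ.1 γ.2 Y)) = 1 := by
  classical
  have h : ∀ γ ∈ GF, (DD.indicator (fun Z => ((NN Z : ℝ))⁻¹) (TT γ.1 γ.2 Y)) =
      if TT γ.1 γ.2 Y ∈ DD then ((NN Y : ℝ))⁻¹ else 0 := by
    intro γ hγ
    by_cases hm : TT γ.1 γ.2 Y ∈ DD
    · rw [if_pos hm, indicator_of_mem hm, NN_TT (mem_GF.mp hγ)]
    · rw [if_neg hm, indicator_of_notMem hm]
  rw [Finset.sum_congr rfl h, ← Finset.sum_filter, Finset.sum_const, nsmul_eq_mul]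
  have hN : ((GF.filter fun γ => TT γ.1 γ.2 Y ∈ DD).card : ℝ) = (NN Y : ℝ) := by
    unfold NN
    congr!
  rw [hN]
  have hp : (NN Y : ℝ) ≠ 0 := by
    have := NN_pos Y
    positivity
  exact mul_inv_cancel₀ hp

end Kus64
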