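import Pool.Agent.helper64.Kus.R2
import Pool.Agent.helper14.Kus3.Field

/-!
# R3: unfolding of the total integral

`JJ w w' = ∫_{filmS w w' ∩ DD} PW/NN`.
* `filmS_lt_top`: `film_lt_top` (helper14's `If.lean`; to be replaced by its proved version) with
  `filmS_lin`, `filmS_q`, `filmS_v`; the empty film is trivial.
* integrability: `PW` is continuous, so bounded on the compact set `filmS w w'`, `1/NN ≤ 1`, measurable,
  finite measure.
* `unfold_one`: for `w ≠ w'`: `∫_{filmS w w'} PW = Σ_γ ∫_{filmS w w'} PW(Y) (1_DD /NN)(γ Y)` (`sum_NN`)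
  `= Σ_γ ∫_{filmS (γ w) (γ w')} PW (γw) (γw') (Z) (1_DD/NN)(Z)` (`PW_TT`, `integral_TT`, `filmS_TT`)
  `= Σ_γ JJ (γ w) (γ w')`.
* `unfold_total`: sum over ordered pairs of different sites, exchange the sums, for each `γ` reindex
  by the bijection `TS γ` of `Sites` (`Enum`: the permutation `i ↦ e⁻¹ (TS γ (e i))` of `Fin (k+1)`).
* `total_eq`: `Σ_{j<l} II = (1/2) Σ_{j≠l} II` by `II_symm`.
-/

open Set Metric MeasureTheory

namespace Kus64

open Kusner (E4 vec Phi)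

/-- the weighted chamber integral -/
noncomputable def JJ (w w' : Site) : ℝ :=
  ∫ Y in filmS w w' ∩ DD, PW w w' Y / (NN Y : ℝ) ∂μH[2]

theorem filmS_lt_top {w w' : Site} (hne : w ≠ w') : μH[2] (filmS w w') < ⊤ := by
  by_cases h : (filmS w w').Nonempty
  · exact Kusner.film_lt_top (w0 := w.b - w'.b) (wt := w.t - w'.t) (wv := w.v - w'.v)
      (filmS_q hne h) (filmS_v hne h) (fun Y hY => filmS_norm hY) (fun Y hY => filmS_lin hY)
  · rw [Set.not_nonempty_iff_eq_empty.1 h]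
    simp

theorem PW_integrable {w w' : Site} (hne : w ≠ w') :
    IntegrableOn (PW w w') (filmS w w') μH[2] := by
  obtain ⟨M, hM⟩ := (filmS_compact w w').exists_bound_of_continuousOn
    (PW_continuous w w').continuousOn
  refine Measure.integrableOn_of_bounded (M := M) (filmS_lt_top hne).ne
    (PW_continuous w w').measurable.aestronglyMeasurable ?_
  exact (ae_restrict_mem (filmS_compact w w').isClosed.measurableSet).mono hM

theorem hr3_NN_le (Z : E4) : ‖DD.indicator (fun Z => ((NN Z : ℝ))⁻¹) Z‖ ≤ 1 := by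
  by_cases h : Z ∈ DD
  · rw [indicator_of_mem h, norm_inv, Real.norm_natCast]
    have : (1 : ℝ) ≤ NN Z := by exact_mod_cast NN_pos Z
    exact inv_le_one_of_one_le₀ this
  · rw [indicator_of_notMem h]; simp

theorem hr3_ind_meas : Measurable (DD.indicator (fun Z => ((NN Z : ℝ))⁻¹)) :=
  NN_measurable.inv.indicator DD_closed.measurableSet

theorem hr3_term {w w' : Site} {γ : (E3 ≃ₗᵢ[ℝ] E3) × Bool} (hγ : γ ∈ GF) :
    ∫ Y in filmS w w', PW w w' Y *
      (DD.indicator (fun Z => ((NN Z : ℝ))⁻¹) (TT γ.1 γ.2 Y)) ∂μH[2] =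
    JJ (TS γ.1 γ.2 w) (TS γ.1 γ.2 w') := by
  have h1 : ∀ Y, PW w w' Y * (DD.indicator (fun Z => ((NN Z : ℝ))⁻¹) (TT γ.1 γ.2 Y)) =
      (fun Z => PW (TS γ.1 γ.2 w) (TS γ.1 γ.2 w') Z *
        DD.indicator (fun Z => ((NN Z : ℝ))⁻¹) Z) (TT γ.1 γ.2 Y) := by
    intro Y
    simp only [PW_TT]
  rw [integral_congr_ae (Filter.Eventually.of_forall h1)]
  refine (integral_TT γ.1 γ.2 (filmS w w') (fun Z => PW (TS γ.1 γ.2 w) (TS γ.1 γ.2 w') Z *
        DD.indicator (fun Z => ((NN Z : ℝ))⁻¹) Z)).trans ?_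
  rw [filmS_TT (mem_GF.1 hγ), JJ]
  have h2 : (fun Z => PW (TS γ.1 γ.2 w) (TS γ.1 γ.2 w') Z *
        DD.indicator (fun Z => ((NN Z : ℝ))⁻¹) Z) =
      DD.indicator (fun Z => PW (TS γ.1 γ.2 w) (TS γ.1 γ.2 w') Z / (NN Z : ℝ)) := by
    ext Z
    by_cases h : Z ∈ DD
    · rw [indicator_of_mem h, indicator_of_mem h, div_eq_mul_inv]
    · rw [indicator_of_notMem h, indicator_of_notMem h, mul_zero]
  rw [h2, setIntegral_indicator DD_closed.measurableSet]

theorem unfold_one {w w' : Site} (hne : w ≠ w') :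
    II w w' univ = ∑ γ ∈ GF, JJ (TS γ.1 γ.2 w) (TS γ.1 γ.2 w') := by
  rw [II_eq, inter_univ]
  have h1 : ∀ Y, PW w w' Y = ∑ γ ∈ GF, PW w w' Y *
      (DD.indicator (fun Z => ((NN Z : ℝ))⁻¹) (TT γ.1 γ.2 Y)) := by
    intro Y
    rw [← Finset.mul_sum, sum_NN, mul_one]
  have h2 : ∫ Y in filmS w w', PW w w' Y ∂μH[2] = ∫ Y in filmS w w', ∑ γ ∈ GF, PW w w' Y *
      (DD.indicator (fun Z => ((NN Z : ℝ))⁻¹) (TT γ.1 γ.2 Y)) ∂μH[2] := by
    exact integral_congr_ae (Filter.Eventually.of_forall h1)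
  rw [h2, integral_finsetSum]
  · exact Finset.sum_congr rfl fun γ hγ => hr3_term hγ
  · intro γ hγ
    refine Integrable.mul_bdd (c := 1) (PW_integrable hne) ?_ ?_
    · exact (hr3_ind_meas.comp (TT_continuous γ.1 γ.2).measurable).aestronglyMeasurable
    · exact Filter.Eventually.of_forall fun Y => hr3_NN_le _

theorem hr3_inv {g : E3 ≃ₗᵢ[ℝ] E3} (ε : Bool) (w : Site) : TS g⁻¹ ε (TS g ε w) = w := by
  rw [TS_TS, inv_mul_cancel, Bool.xor_self, TS_one]

theorem hr3_perm {k : ℕ} {e : Fin (k + 1) → Site} (he : Enum e)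
    {γ : (E3 ≃ₗᵢ[ℝ] E3) × Bool} (hγ : γ ∈ GF) :
    ∃ σ : Equiv.Perm (Fin (k + 1)), ∀ j, e (σ j) = TS γ.1 γ.2 (e j) := by
  have h : ∀ j, ∃ i, e i = TS γ.1 γ.2 (e j) := by
    intro j
    have : TS γ.1 γ.2 (e j) ∈ Set.range e := by
      rw [he.rng]; exact TS_mem (mem_GF.1 hγ) _ (he.mem j)
    exact this
  choose f hf using h
  have hinj : Function.Injective f := by
    intro i j hij
    apply he.inj
    rw [← hr3_inv (g := γ.1) γ.2 (e i), ← hr3_inv (g := γ.1) γ.2 (e j), ← hf i, ← hf j, hij]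
  exact ⟨Equiv.ofBijective f (Finite.injective_iff_bijective.1 hinj), fun j => hf j⟩

theorem hr3_reindex {k : ℕ} {e : Fin (k + 1) → Site} (he : Enum e)
    {γ : (E3 ≃ₗᵢ[ℝ] E3) × Bool} (hγ : γ ∈ GF) :
    ∑ j, ∑ l, (if j ≠ l then JJ (TS γ.1 γ.2 (e j)) (TS γ.1 γ.2 (e l)) else 0) =
      ∑ j, ∑ l, (if j ≠ l then JJ (e j) (e l) else 0) := by
  obtain ⟨σ, hσ⟩ := hr3_perm he hγ
  rw [← Equiv.sum_comp σ (fun j => ∑ l, (if j ≠ l then JJ (e j) (e l) else 0))]
  refine Finset.sum_congr rfl fun j _ => ?_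
  rw [← Equiv.sum_comp σ (fun l => (if σ j ≠ l then JJ (e (σ j)) (e l) else 0))]
  refine Finset.sum_congr rfl fun l _ => ?_
  simp only [ne_eq, EmbeddingLike.apply_eq_iff_eq, hσ]

theorem unfold_total {k : ℕ} {e : Fin (k + 1) → Site} (he : Enum e) :
    ∑ j, ∑ l, (if j ≠ l then II (e j) (e l) univ else 0) =
      GF.card * ∑ j, ∑ l, (if j ≠ l then JJ (e j) (e l) else 0) := by
  have h1 : ∀ j l, (if j ≠ l then II (e j) (e l) univ else 0) =
      ∑ γ ∈ GF, (if j ≠ l then JJ (TS γ.1 γ.2 (e j)) (TS γ.1 γ.2 (e l)) else 0) := by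
    intro j l
    by_cases h : j ≠ l
    · simp only [if_pos h]
      exact unfold_one fun h' => h (he.inj h')
    · simp only [if_neg h, Finset.sum_const_zero]
  simp_rw [h1]
  have h2 : ∀ j, ∑ l, ∑ γ ∈ GF,
      (if j ≠ l then JJ (TS γ.1 γ.2 (e j)) (TS γ.1 γ.2 (e l)) else 0) =
      ∑ γ ∈ GF, ∑ l, (if j ≠ l then JJ (TS γ.1 γ.2 (e j)) (TS γ.1 γ.2 (e l)) else 0) :=
    fun j => Finset.sum_comm
  simp_rw [h2]
  rw [Finset.sum_comm, Finset.sum_congr rfl fun γ hγ => hr3_reindex he hγ, Finset.sum_const,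
    nsmul_eq_mul]

theorem total_eq {k : ℕ} {e : Fin (k + 1) → Site} (he : Enum e) :
    ∑ j, ∑ l, (if j < l then II (e j) (e l) univ else 0) =
      GF.card / 2 * ∑ j, ∑ l, (if j ≠ l then JJ (e j) (e l) else 0) := by
  have h1 : ∑ j, ∑ l, (if j ≠ l then II (e j) (e l) univ else 0) =
      ∑ j, ∑ l, (if j < l then II (e j) (e l) univ else 0) +
        ∑ j, ∑ l, (if l < j then II (e j) (e l) univ else 0) := by
    rw [← Finset.sum_add_distrib]
    refine Finset.sum_congr rfl fun j _ => ?_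
    rw [← Finset.sum_add_distrib]
    refine Finset.sum_congr rfl fun l _ => ?_
    rcases lt_trichotomy j l with h | h | h
    · simp [h, h.ne, h.not_gt]
    · simp [h]
    · simp [h, h.ne', h.not_gt]
  have h2 : ∑ j, ∑ l, (if l < j then II (e j) (e l) univ else 0) =
      ∑ j, ∑ l, (if j < l then II (e j) (e l) univ else 0) := by
    rw [Finset.sum_comm]
    refine Finset.sum_congr rfl fun j _ => Finset.sum_congr rfl fun l _ => ?_
    rw [II_symm]
  have h3 := unfold_total he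
  rw [h1, h2] at h3
  linarith

end Kus64
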