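import Pool.Agent.helper64.Kus.Q1

/-!
# R4: circles are null sets for the two-dimensional Hausdorff measure -- MODULE

`null_indep`: `w = (w0; wv)` and `u = (u0; uv)` linearly independent.  The set is contained in
`{Y | ‖Y‖ = 1, w·Y = wt, u·Y = c}`.  If it is empty fine; otherwise let `Y0` be in it and
`V = {w,u}ᗮ` (`finrank = 2`), `L : EuclideanSpace ℝ (Fin 2) → V` a linear isometry
(`stdOrthonormalBasis`); the set is the image of `{x | ‖Y0 + L x‖ = 1}` under the isometry
`x ↦ Y0 + L x`; with `Y0 = Y0' + Y0''` (`Y0' ∈ V`, `Y0'' ⊥ V`) this is the sphere (or a point, or empty)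
`‖x + L⁻¹ Y0'‖² = 1 - ‖Y0''‖²` of a two-dimensional Euclidean space, which is null for the Haar
measure `μH[2]` (`Measure.addHaar_sphere`; instance `isAddHaarMeasure_hausdorffMeasure`, `finrank = 2`).
`Isometry.hausdorffMeasure_image`.
`null_wt`: if `wt ≠ 0`, `u ≠ 0`: either independent, or `w = c u` and then `w·Y = c (u·Y) = 0 ≠ wt`, so
the set is empty (`w = 0` included).
-/

open Set Metric MeasureTheory

namespace Kus64

open Kusner (E4 vec Phi)

/-- a circle in a Euclidean space is a null set for the two-dimensional Hausdorff measure -/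
theorem R4_null_circle {E : Type} [NormedAddCommGroup E] [InnerProductSpace ℝ E]
    [FiniteDimensional ℝ E] [MeasurableSpace E] [BorelSpace E] (V : Submodule ℝ E)
    (hV : Module.finrank ℝ V = 2) (S : Set E) (hS : ∀ Y ∈ S, ‖Y‖ = 1)
    (hSV : ∀ Y ∈ S, ∀ Y' ∈ S, Y' - Y ∈ V) : μH[2] S = 0 := by
  rcases S.eq_empty_or_nonempty with rfl | ⟨Y0, hY0⟩
  · exact measure_empty
  have hnt : Nontrivial V := Module.nontrivial_of_finrank_pos (R := ℝ) (by rw [hV]; norm_num)
  set y' : V := V.orthogonalProjectionOnto Y0 with hy'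
  have hproj : ∀ x : V, inner ℝ Y0 (x : E) = inner ℝ y' x := by
    intro x
    have h1 : inner ℝ (Y0 - (y' : E)) (x : E) = 0 := by
      rw [real_inner_comm]
      exact Submodule.sub_starProjection_mem_orthogonal (K := V) Y0 (x : E) x.2
    rw [inner_sub_left] at h1
    rw [Submodule.coe_inner]
    linarith
  let f : V → E := fun x => Y0 + (x : E)
  have hf : Isometry f := (IsometryEquiv.addLeft Y0).isometry.comp isometry_subtype_coe
  set T : Set V := {x : V | ‖Y0 + (x : E)‖ = 1} with hT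
  have hsub : S ⊆ f '' T := by
    intro Y hY
    refine ⟨⟨Y - Y0, hSV Y0 hY0 Y hY⟩, ?_, ?_⟩
    · show ‖Y0 + (Y - Y0)‖ = 1
      rw [add_sub_cancel]
      exact hS Y hY
    · show Y0 + (Y - Y0) = Y
      rw [add_sub_cancel]
  have hTs : T ⊆ Metric.sphere (-y') (Real.sqrt (1 - ‖Y0‖ ^ 2 + ‖y'‖ ^ 2)) := by
    intro x hx
    rw [mem_sphere_iff_norm, sub_neg_eq_add]
    have h1 : ‖x + y'‖ ^ 2 = 1 - ‖Y0‖ ^ 2 + ‖y'‖ ^ 2 := by
      have h2 : ‖Y0 + (x : E)‖ ^ 2 = 1 := by
        have : ‖Y0 + (x : E)‖ = 1 := hx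
        rw [this, one_pow]
      rw [norm_add_sq_real] at h2
      rw [norm_add_sq_real, real_inner_comm, ← hproj]
      have h3 : ‖(x : E)‖ = ‖x‖ := rfl
      rw [h3] at h2
      linarith
    rw [← h1, Real.sqrt_sq (norm_nonneg _)]
  have h2 : ((2 : ℕ) : ℝ) = (2 : ℝ) := by norm_num
  have hT0 : μH[2] T = 0 := by
    refine measure_mono_null hTs ?_
    have h1 := Measure.addHaar_sphere (μH[(Module.finrank ℝ V : ℝ)] : Measure V) (-y')
      (Real.sqrt (1 - ‖Y0‖ ^ 2 + ‖y'‖ ^ 2))
    rw [hV, h2] at h1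
    exact h1
  refine measure_mono_null hsub ?_
  rw [hf.hausdorffMeasure_image (Or.inl (by norm_num))]
  exact hT0

/-- the point of four-space with given coordinates -/
noncomputable def R4_pt (a : ℝ) (v : E3) : E4 := !₂[a, v 0, v 1, v 2]

theorem R4_inner (a : ℝ) (v : E3) (Y : E4) :
    inner ℝ (R4_pt a v) Y = a * Y 0 + inner ℝ v (vec Y) := by
  simp only [PiLp.inner_apply, Fin.sum_univ_four, Fin.sum_univ_three, R4_pt, vec]
  simp
  ring

theorem null_indep {w0 wt u0 c : ℝ} {wv uv : E3}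
    (h : ∀ x y : ℝ, x * w0 + y * u0 = 0 → x • wv + y • uv = 0 → x = 0 ∧ y = 0) :
    μH[2] {Y : E4 | ‖Y‖ = 1 ∧ w0 * Y 0 + inner ℝ wv (vec Y) = wt ∧
      u0 * Y 0 + inner ℝ uv (vec Y) = c} = 0 := by
  set W : E4 := R4_pt w0 wv with hW
  set U : E4 := R4_pt u0 uv with hU
  have hli : LinearIndependent ℝ ![W, U] := by
    rw [LinearIndependent.pair_iff]
    intro x y hxy
    refine h x y ?_ ?_
    · have := congrArg (fun Y : E4 => Y 0) hxy
      simpa [hW, hU, R4_pt] using this
    · ext i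
      fin_cases i
      · have := congrArg (fun Y : E4 => Y 1) hxy
        simpa [hW, hU, R4_pt] using this
      · have := congrArg (fun Y : E4 => Y 2) hxy
        simpa [hW, hU, R4_pt] using this
      · have := congrArg (fun Y : E4 => Y 3) hxy
        simpa [hW, hU, R4_pt] using this
  set K : Submodule ℝ E4 := Submodule.span ℝ (Set.range ![W, U]) with hK
  have hK2 : Module.finrank ℝ K = 2 := by
    rw [hK, finrank_span_eq_card hli, Fintype.card_fin]
  have hV : Module.finrank ℝ Kᗮ = 2 := by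
    have h1 := Submodule.finrank_add_finrank_orthogonal K
    rw [hK2, finrank_euclideanSpace_fin] at h1
    omega
  refine R4_null_circle Kᗮ hV _ (fun Y hY => hY.1) ?_
  rintro Y ⟨-, h1, h2⟩ Y' ⟨-, h1', h2'⟩
  rw [hK, Submodule.mem_orthogonal]
  intro z hz
  induction hz using Submodule.span_induction with
  | mem z hz =>
    obtain ⟨i, rfl⟩ := hz
    fin_cases i
    · show inner ℝ W (Y' - Y) = 0
      rw [inner_sub_right, hW, R4_inner, R4_inner, h1, h1', sub_self]
    · show inner ℝ U (Y' - Y) = 0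
      rw [inner_sub_right, hU, R4_inner, R4_inner, h2, h2', sub_self]
  | zero => exact inner_zero_left _
  | add x y _ _ hx hy => rw [inner_add_left, hx, hy, add_zero]
  | smul a x _ hx => rw [inner_smul_left, hx, mul_zero]

theorem null_wt {w0 wt u0 : ℝ} {wv uv : E3} (hwt : wt ≠ 0) (hu : u0 ≠ 0 ∨ uv ≠ 0) :
    μH[2] {Y : E4 | ‖Y‖ = 1 ∧ w0 * Y 0 + inner ℝ wv (vec Y) = wt ∧
      u0 * Y 0 + inner ℝ uv (vec Y) = 0} = 0 := by
  by_cases h : ∀ x y : ℝ, x * w0 + y * u0 = 0 → x • wv + y • uv = 0 → x = 0 ∧ y = 0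
  · exact null_indep h
  · push Not at h
    obtain ⟨x, y, h1, h2, h3⟩ := h
    have hx : x ≠ 0 := by
      intro hx
      have hy := h3 hx
      rw [hx, zero_mul, zero_add] at h1
      rw [hx, zero_smul, zero_add] at h2
      rcases hu with hu | hu
      · exact (mul_ne_zero hy hu) h1
      · exact (smul_ne_zero hy hu) h2
    have hempty : {Y : E4 | ‖Y‖ = 1 ∧ w0 * Y 0 + inner ℝ wv (vec Y) = wt ∧
        u0 * Y 0 + inner ℝ uv (vec Y) = 0} = ∅ := by
      rw [Set.eq_empty_iff_forall_notMem]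
      rintro Y ⟨-, h4, h5⟩
      have h6 : inner ℝ (x • wv + y • uv) (vec Y) = (0 : ℝ) := by rw [h2, inner_zero_left]
      rw [inner_add_left, real_inner_smul_left, real_inner_smul_left] at h6
      apply mul_ne_zero hx hwt
      rw [← h4]
      linear_combination (Y 0) * h1 + h6 - y * h5
    rw [hempty]
    exact measure_empty

theorem R4_phi_pos : 0 < φ := by
  have : 0 ≤ √(5:ℝ) := Real.sqrt_nonneg 5
  rw [φ]
  linarith

theorem R4_α_ne (i : Fin 3) : α i ≠ 0 := by
  intro h
  fin_cases i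
  · have := congrArg (fun v : E3 => v 0) h
    simp [α] at this
  · have := congrArg (fun v : E3 => v 1) h
    simp [α] at this
  · have := congrArg (fun v : E3 => v 1) h
    simp [α] at this

/-- the film `{w·Y = wt}` meets a wall in a null set -/
theorem null_wall {w0 wt : ℝ} {wv : E3} (hwt : wt ≠ 0) (i : Fin 3) :
    μH[2] {Y : E4 | ‖Y‖ = 1 ∧ w0 * Y 0 + inner ℝ wv (vec Y) = wt ∧
      inner ℝ (α i) (vec Y) = 0} = 0 := by
  have h := null_wt (w0 := w0) (wv := wv) (u0 := 0) (uv := α i) hwt (Or.inr (R4_α_ne i))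
  simpa only [zero_mul, zero_add] using h

theorem null_equator {w0 wt : ℝ} {wv : E3} (hwt : wt ≠ 0) :
    μH[2] {Y : E4 | ‖Y‖ = 1 ∧ w0 * Y 0 + inner ℝ wv (vec Y) = wt ∧ Y 0 = 0} = 0 := by
  have h := null_wt (w0 := w0) (wv := wv) (u0 := 1) (uv := 0) hwt (Or.inl one_ne_zero)
  simpa only [one_mul, inner_zero_left, add_zero] using h

theorem R4_walls {i j : Fin 3} (hij : i ≠ j) (x y : ℝ) (h : x • α i + y • α j = 0) :
    x = 0 ∧ y = 0 := by
  have hφ := R4_phi_pos.ne'
  have h0 := congrArg (fun v : E3 => v 0) h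
  have h1 := congrArg (fun v : E3 => v 1) h
  fin_cases i <;> fin_cases j <;> simp [α, hφ] at h0 h1 hij ⊢ <;> constructor <;>
    first | linarith | (rw [h1] at h0; linarith)

/-- two different walls -/
theorem null_walls {i j : Fin 3} (hij : i ≠ j) :
    μH[2] {Y : E4 | ‖Y‖ = 1 ∧ inner ℝ (α i) (vec Y) = 0 ∧ inner ℝ (α j) (vec Y) = 0} = 0 := by
  have h := null_indep (w0 := 0) (wt := 0) (u0 := 0) (c := 0) (wv := α i) (uv := α j)
    (fun x y _ h2 => R4_walls hij x y h2)
  simpa only [zero_mul, zero_add] using h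

/-- a wall and the equator -/
theorem null_wall_equator (i : Fin 3) :
    μH[2] {Y : E4 | ‖Y‖ = 1 ∧ inner ℝ (α i) (vec Y) = 0 ∧ Y 0 = 0} = 0 := by
  have h := null_indep (w0 := 0) (wt := 0) (u0 := 1) (c := 0) (wv := α i) (uv := 0)
    (fun x y h1 h2 => by
      rw [mul_zero, zero_add, mul_one] at h1
      rw [smul_zero, add_zero] at h2
      exact ⟨(smul_eq_zero.1 h2).resolve_right (R4_α_ne i), h1⟩)
  simpa only [zero_mul, zero_add, one_mul, inner_zero_left, add_zero] using h

end Kus64
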