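import Pool.Agent.helper64.Kus.R3
import Pool.Agent.helper64.Kus.R4

/-!
# R5: the chamber integrals of the films
(module completed by helper52)
-/

open Set Metric MeasureTheory

namespace Kus64

open Kusner (E4 vec Phi)

namespace R5aux

theorem tb : (3.43 < t1 ∧ t1 < 3.44) ∧ (3.196 < t2 ∧ t2 < 3.197) ∧ (3.19 < t3 ∧ t3 < 3.195) ∧
    (5 < ta2 ∧ ta2 < 6) ∧ (6 < ta3 ∧ ta3 < 7) := by
  have h1 := abs_le.1 enc_t1
  have h2 := abs_le.1 enc_t2
  have h3 := abs_le.1 enc_t3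
  have h4 := abs_le.1 enc_ta2
  have h5 := abs_le.1 enc_ta3
  norm_num at h1 h2 h3 h4 h5
  refine ⟨⟨?_, ?_⟩, ⟨?_, ?_⟩, ⟨?_, ?_⟩, ⟨?_, ?_⟩, ⟨?_, ?_⟩⟩ <;> norm_num <;> linarith

end R5aux

open R5aux

theorem six_t_ne {i j : Fin 6} (hij : i ≠ j) : (six i).t ≠ (six j).t := by
  obtain ⟨⟨a1, a2⟩, ⟨b1, b2⟩, ⟨c1, c2⟩, ⟨d1, d2⟩, ⟨e1, e2⟩⟩ := tb
  have t0 : (six 0).t = 0 := rfl
  have e1' : (six 1).t = t1 := rfl
  have e2' : (six 2).t = t2 := rfl
  have e3' : (six 3).t = t3 := rfl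
  have e4' : (six 4).t = ta2 := rfl
  have e5' : (six 5).t = ta3 := rfl
  intro h
  fin_cases i <;> fin_cases j <;>
    first
      | exact hij rfl
      | (simp only [Fin.zero_eta, Fin.mk_one, Fin.reduceFinMk, Fin.isValue, t0, e1', e2', e3', e4',
          e5'] at h
         linarith)

theorem six_inj : Function.Injective six := by
  intro i j h
  by_contra hij
  exact six_t_ne hij (by rw [h])

namespace R5aux

theorem inner_α2_310 : inner ℝ (α 2) w310.v = 1 / 2 := by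
  rw [inner_α2]
  show -φ / 2 * 0 - 1 / 2 * y1 + (φ - 1) / 2 * z1 = 1 / 2
  have h2 : z1 = φ * (y1 + 1) := rfl
  rw [h2]
  linear_combination (y1 + 1) / 2 * φ_sq

theorem inner_α1_211 : inner ℝ (α 1) w211.v = 1 / 2 := by
  rw [inner_α1]
  rfl

theorem inner_α2_α1 : inner ℝ (α 2) (α 1) = -1 / 2 := by
  rw [inner_α2]
  have h0 : α 1 0 = 0 := by simp [α]
  have h1 : α 1 1 = 1 := by simp [α]
  have h2 : α 1 2 = 0 := by simp [α]
  rw [h0, h1, h2]
  ring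

theorem s_ne {i : Fin 3} {v : E3} (h : inner ℝ (α i) v ≠ 0) : s i v ≠ v := by
  rw [s_apply]
  intro h1
  have h2 : (2 * inner ℝ (α i) v) • α i = 0 := by
    rw [sub_eq_self] at h1
    exact h1
  rcases smul_eq_zero.mp h2 with h3 | h3
  · exact h (by linarith)
  · exact R4_α_ne i h3

end R5aux

theorem s2_ne : w310.map (s 2) ≠ w310 := by
  intro h
  exact s_ne (by rw [inner_α2_310]; norm_num) (congrArg Site.v h)
theorem s1_ne : w211.map (s 1) ≠ w211 := by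
  intro h
  exact s_ne (by rw [inner_α1_211]; norm_num) (congrArg Site.v h)
theorem s2s1_ne : w211.map (s 2 * s 1) ≠ w211 := by
  intro h
  have h1 : s 2 (s 1 w211.v) = w211.v := congrArg Site.v h
  have h2 : s 1 w211.v = s 2 w211.v := by rw [← h1, s_s, h1]
  rw [h28_s2_211] at h2
  exact s_ne (i := 1) (v := w211.v) (by rw [inner_α1_211]; norm_num) h2
theorem s2s1_ne' : w211.map (s 2 * s 1) ≠ w211.map (s 1) := by
  intro h
  have h1 : s 2 (s 1 w211.v) = s 1 w211.v := congrArg Site.v h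
  refine s_ne (i := 2) (v := s 1 w211.v) ?_ h1
  rw [s_apply, inner_sub_right, inner_smul_right, inner_α1_211, inner_α2_α1]
  have h2 : inner ℝ (α 2) w211.v = 0 := by
    by_contra hne
    exact s_ne hne h28_s2_211
  rw [h2]
  norm_num

theorem JJ_symm (w w' : Site) : JJ w w' = JJ w' w := by
  unfold JJ
  rw [filmS_symm]
  congr 1
  ext Y
  rw [PW_symm]

namespace R5aux

theorem meas (w w' : Site) : MeasurableSet (filmS w w' ∩ DD) :=
  (filmS_compact w w').isClosed.measurableSet.inter DD_closed.measurableSet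

theorem DD_pos {Y : E4} (h : Y ∈ DD) (i : Fin 3) : 0 ≤ inner ℝ (α i) (vec Y) := h.2 i

/-- points of a film with `t ≠ t'` are generic -/
theorem generic {w w' : Site} (ht : w.t - w'.t ≠ 0) :
    ∀ᵐ Y ∂(μH[2] : Measure E4), Y ∈ filmS w w' ∩ DD →
      0 < Y 0 ∧ ∀ i, 0 < inner ℝ (α i) (vec Y) := by
  have h1 := null_equator (w0 := w.b - w'.b) (wv := w.v - w'.v) ht
  have h2 := fun i => null_wall (w0 := w.b - w'.b) (wv := w.v - w'.v) ht i
  have e1 := measure_eq_zero_iff_ae_notMem.mp h1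
  have e2 := ae_all_iff.mpr fun i => measure_eq_zero_iff_ae_notMem.mp (h2 i)
  filter_upwards [e1, e2] with Y k1 k2 hY
  have hn := filmS_norm hY.1
  have hl := filmS_lin hY.1
  refine ⟨lt_of_le_of_ne hY.2.1 fun h => k1 ⟨hn, hl, h.symm⟩, fun i => ?_⟩
  exact lt_of_le_of_ne (DD_pos hY.2 i) fun h => k2 i ⟨hn, hl, h.symm⟩

/-- generic points of a film in a wall -/
theorem generic_wall (w w' : Site) (i₀ : Fin 3) :
    ∀ᵐ Y ∂(μH[2] : Measure E4), Y ∈ filmS w w' ∩ DD → inner ℝ (α i₀) (vec Y) = 0 →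
      0 < Y 0 ∧ ∀ i, i ≠ i₀ → 0 < inner ℝ (α i) (vec Y) := by
  have e1 := measure_eq_zero_iff_ae_notMem.mp (null_wall_equator i₀)
  have e2 : ∀ᵐ Y ∂(μH[2] : Measure E4), ∀ i, i ≠ i₀ →
      ¬ (‖Y‖ = 1 ∧ inner ℝ (α i₀) (vec Y) = 0 ∧ inner ℝ (α i) (vec Y) = 0) := by
    rw [ae_all_iff]
    intro i
    by_cases hi : i = i₀
    · exact Filter.Eventually.of_forall fun Y h => absurd hi h
    · filter_upwards [measure_eq_zero_iff_ae_notMem.mp (null_walls (Ne.symm hi))] with Y hY _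
      exact hY
  filter_upwards [e1, e2] with Y k1 k2 hY h0
  have hn := filmS_norm hY.1
  refine ⟨lt_of_le_of_ne hY.2.1 fun h => k1 ⟨hn, h0, h.symm⟩, fun i hi => ?_⟩
  exact lt_of_le_of_ne (DD_pos hY.2 i) fun h => k2 i hi ⟨hn, h0, h.symm⟩

/-- the case of a wall of multiplicity two -/
theorem JJ_wall {w w' : Site} (i₀ : Fin 3)
    (h : ∀ Y ∈ filmS w w', inner ℝ (α i₀) (vec Y) = 0) :
    JJ w w' = 1 / 2 * II w w' DD := by
  unfold JJ
  rw [II_eq, ← integral_const_mul]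
  refine setIntegral_congr_ae (meas w w') ?_
  filter_upwards [generic_wall w w' i₀] with Y hY hm
  obtain ⟨k0, k1⟩ := hY hm (h Y hm.1)
  rw [NN_two k0 i₀ (h Y hm.1) k1]
  push_cast
  ring

end R5aux

theorem JJ_six {i j : Fin 6} (hij : i ≠ j) : JJ (six i) (six j) = II (six i) (six j) DD := by
  unfold JJ
  rw [II_eq]
  refine setIntegral_congr_ae (meas _ _) ?_
  filter_upwards [generic (sub_ne_zero.mpr (six_t_ne hij))] with Y hY hm
  obtain ⟨k0, k1⟩ := hY hm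
  rw [NN_one k0 k1]
  simp

namespace R5aux

theorem film_wall {w : Site} {i : Fin 3} (h : inner ℝ (α i) w.v ≠ 0) {Y : E4}
    (hY : Y ∈ filmS w (w.map (s i))) : inner ℝ (α i) (vec Y) = 0 := by
  have h1 := filmS_lin hY
  have h2 : (w.map (s i)).b = w.b := rfl
  have h3 : (w.map (s i)).t = w.t := rfl
  have h4 : (w.map (s i)).v = s i w.v := rfl
  rw [h2, h3, h4, s_apply, sub_self, sub_self, zero_mul, zero_add, sub_sub_cancel,
    inner_smul_left] at h1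
  simp only [conj_trivial] at h1
  rcases mul_eq_zero.mp h1 with h5 | h5
  · exact absurd (by linarith) h
  · exact h5

end R5aux

theorem JJ_mirror310 : JJ w310 (w310.map (s 2)) = 1 / 2 * II w310 (w310.map (s 2)) DD :=
  JJ_wall 2 fun _ hY => film_wall (by rw [inner_α2_310]; norm_num) hY

theorem JJ_mirror211 : JJ w211 (w211.map (s 1)) = 1 / 2 * II w211 (w211.map (s 1)) DD :=
  JJ_wall 1 fun _ hY => film_wall (by rw [inner_α1_211]; norm_num) hY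

namespace R5aux

/-- the four kinds of sites which are active in the chamber -/
def Kind (w : Site) : Prop :=
  (∃ i : Fin 6, w = six i) ∨ w = w310.map (s 2) ∨ w = w211.map (s 1) ∨ w = w211.map (s 2 * s 1)

theorem kind_of {w : Site} {Y : E4} (hn : ‖Y‖ = 1) (hD : Y ∈ DD) (h : Act w (Y 0) (vec Y)) :
    Kind w := by
  rcases h28_class (onS_of_norm hn) hD.1 hD.2 h with ⟨h, -⟩ | ⟨h, -⟩ | ⟨h, -⟩ | ⟨h, -⟩ | ⟨h, -⟩ |
    ⟨h, -⟩ | ⟨h, -⟩ | ⟨h, -⟩ | ⟨h, -⟩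
  · exact Or.inl ⟨0, h⟩
  · exact Or.inl ⟨1, h⟩
  · exact Or.inr (Or.inl h)
  · exact Or.inl ⟨2, h⟩
  · exact Or.inl ⟨3, h⟩
  · exact Or.inr (Or.inr (Or.inl h))
  · exact Or.inr (Or.inr (Or.inr h))
  · exact Or.inl ⟨4, h⟩
  · exact Or.inl ⟨5, h⟩

theorem t_310 : (w310.map (s 2)).t = t1 := rfl
theorem t_211 : (w211.map (s 1)).t = t3 := rfl
theorem t_211' : (w211.map (s 2 * s 1)).t = t3 := rfl

theorem wall_310 {Y : E4} (hn : ‖Y‖ = 1) (hD : Y ∈ DD)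
    (h : Act (w310.map (s 2)) (Y 0) (vec Y)) : inner ℝ (α 2) (vec Y) = 0 := by
  obtain ⟨⟨a1, a2⟩, ⟨b1, b2⟩, ⟨c1, c2⟩, ⟨d1, d2⟩, ⟨e1, e2⟩⟩ := tb
  rcases h28_class (onS_of_norm hn) hD.1 hD.2 h with ⟨h, -⟩ | ⟨h, -⟩ | ⟨h, -, h'⟩ | ⟨h, -⟩ |
    ⟨h, -⟩ | ⟨h, -⟩ | ⟨h, -⟩ | ⟨h, -⟩ | ⟨h, -⟩
  · have h1 : t1 = 0 := congrArg Site.t h
    linarith
  · exact absurd h s2_ne
  · exact h'
  · have h1 : t1 = t2 := congrArg Site.t h
    linarith
  · have h1 : t1 = t3 := congrArg Site.t h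
    linarith
  · have h1 : t1 = t3 := congrArg Site.t h
    linarith
  · have h1 : t1 = t3 := congrArg Site.t h
    linarith
  · have h1 : t1 = ta2 := congrArg Site.t h
    linarith
  · have h1 : t1 = ta3 := congrArg Site.t h
    linarith

theorem wall_211 {Y : E4} (hn : ‖Y‖ = 1) (hD : Y ∈ DD)
    (h : Act (w211.map (s 1)) (Y 0) (vec Y)) : inner ℝ (α 1) (vec Y) = 0 := by
  obtain ⟨⟨a1, a2⟩, ⟨b1, b2⟩, ⟨c1, c2⟩, ⟨d1, d2⟩, ⟨e1, e2⟩⟩ := tb
  rw [inner_α1]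
  rcases h28_class (onS_of_norm hn) hD.1 hD.2 h with ⟨h, -⟩ | ⟨h, -⟩ | ⟨h, -⟩ | ⟨h, -⟩ |
    ⟨h, -⟩ | ⟨h, -, h'⟩ | ⟨h, -, h', -⟩ | ⟨h, -⟩ | ⟨h, -⟩
  · have h1 : t3 = 0 := congrArg Site.t h
    linarith
  · have h1 : t3 = t1 := congrArg Site.t h
    linarith
  · have h1 : t3 = t1 := congrArg Site.t h
    linarith
  · have h1 : t3 = t2 := congrArg Site.t h
    linarith
  · exact absurd h s1_ne
  · exact h'
  · exact h'
  · have h1 : t3 = ta2 := congrArg Site.t h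
    linarith
  · have h1 : t3 = ta3 := congrArg Site.t h
    linarith

theorem wall_211' {Y : E4} (hn : ‖Y‖ = 1) (hD : Y ∈ DD)
    (h : Act (w211.map (s 2 * s 1)) (Y 0) (vec Y)) :
    inner ℝ (α 1) (vec Y) = 0 ∧ inner ℝ (α 2) (vec Y) = 0 := by
  obtain ⟨⟨a1, a2⟩, ⟨b1, b2⟩, ⟨c1, c2⟩, ⟨d1, d2⟩, ⟨e1, e2⟩⟩ := tb
  rw [inner_α1]
  rcases h28_class (onS_of_norm hn) hD.1 hD.2 h with ⟨h, -⟩ | ⟨h, -⟩ | ⟨h, -⟩ | ⟨h, -⟩ |
    ⟨h, -⟩ | ⟨h, -, h'⟩ | ⟨h, -, h', h''⟩ | ⟨h, -⟩ | ⟨h, -⟩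
  · have h1 : t3 = 0 := congrArg Site.t h
    linarith
  · have h1 : t3 = t1 := congrArg Site.t h
    linarith
  · have h1 : t3 = t1 := congrArg Site.t h
    linarith
  · have h1 : t3 = t2 := congrArg Site.t h
    linarith
  · exact absurd h s2s1_ne
  · exact absurd h s2s1_ne'
  · exact ⟨h', h''⟩
  · have h1 : t3 = ta2 := congrArg Site.t h
    linarith
  · have h1 : t3 = ta3 := congrArg Site.t h
    linarith

theorem JJ_null {w w' : Site} {N : Set E4} (hN : μH[2] N = 0) (h : filmS w w' ∩ DD ⊆ N) :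
    JJ w w' = 0 := by
  unfold JJ
  exact setIntegral_measure_zero _ (measure_mono_null h hN)

theorem JJ_null_wall {w w' : Site} (ht : w.t ≠ w'.t) (i : Fin 3)
    (h : ∀ Y ∈ filmS w w' ∩ DD, inner ℝ (α i) (vec Y) = 0) : JJ w w' = 0 :=
  JJ_null (null_wall (w0 := w.b - w'.b) (wv := w.v - w'.v) (sub_ne_zero.mpr ht) i)
    fun Y hY => ⟨filmS_norm hY.1, filmS_lin hY.1, h Y hY⟩

theorem JJ_null_walls {w w' : Site} {i j : Fin 3} (hij : i ≠ j)
    (h : ∀ Y ∈ filmS w w' ∩ DD, inner ℝ (α i) (vec Y) = 0 ∧ inner ℝ (α j) (vec Y) = 0) :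
    JJ w w' = 0 :=
  JJ_null (null_walls hij) fun Y hY => ⟨filmS_norm hY.1, h Y hY⟩

/-- the second site is not among the six -/
theorem JJ_right {w w' : Site} (hw : Kind w) (hne : w ≠ w')
    (hw' : w' = w310.map (s 2) ∨ w' = w211.map (s 1) ∨ w' = w211.map (s 2 * s 1))
    (h2 : ¬ (w = w310 ∧ w' = w310.map (s 2)))
    (h4 : ¬ (w = w211 ∧ w' = w211.map (s 1))) : JJ w w' = 0 := by
  obtain ⟨⟨a1, a2⟩, ⟨b1, b2⟩, ⟨c1, c2⟩, ⟨d1, d2⟩, ⟨e1, e2⟩⟩ := tb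
  rcases hw' with rfl | rfl | rfl
  · -- `w310.map (s 2)`
    have hw2 : ∀ Y ∈ filmS w (w310.map (s 2)) ∩ DD, inner ℝ (α 2) (vec Y) = 0 := fun Y hY =>
      wall_310 (filmS_norm hY.1) hY.2 hY.1.2.2
    rcases hw with ⟨i, rfl⟩ | rfl | rfl | rfl
    · by_cases hi : i = 1
      · exact absurd ⟨by rw [hi]; rfl, rfl⟩ h2
      · exact JJ_null_wall (six_t_ne hi) 2 hw2
    · exact absurd rfl hne
    · refine JJ_null_wall ?_ 2 hw2
      rw [t_211, t_310]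
      intro h
      linarith
    · refine JJ_null_wall ?_ 2 hw2
      rw [t_211', t_310]
      intro h
      linarith
  · -- `w211.map (s 1)`
    have hw2 : ∀ Y ∈ filmS w (w211.map (s 1)) ∩ DD, inner ℝ (α 1) (vec Y) = 0 := fun Y hY =>
      wall_211 (filmS_norm hY.1) hY.2 hY.1.2.2
    rcases hw with ⟨i, rfl⟩ | rfl | rfl | rfl
    · by_cases hi : i = 3
      · exact absurd ⟨by rw [hi]; rfl, rfl⟩ h4
      · exact JJ_null_wall (six_t_ne hi) 1 hw2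
    · refine JJ_null_wall ?_ 1 hw2
      rw [t_211, t_310]
      intro h
      linarith
    · exact absurd rfl hne
    · exact JJ_null_walls (i := 1) (j := 2) (by decide) fun Y hY =>
        wall_211' (filmS_norm hY.1) hY.2 hY.1.2.1
  · exact JJ_null_walls (i := 1) (j := 2) (by decide) fun Y hY =>
      wall_211' (filmS_norm hY.1) hY.2 hY.1.2.2

end R5aux

theorem JJ_other {w w' : Site} (hne : w ≠ w')
    (h1 : ¬ ∃ i j : Fin 6, w = six i ∧ w' = six j)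
    (h2 : ¬ (w = w310 ∧ w' = w310.map (s 2))) (h3 : ¬ (w' = w310 ∧ w = w310.map (s 2)))
    (h4 : ¬ (w = w211 ∧ w' = w211.map (s 1))) (h5 : ¬ (w' = w211 ∧ w = w211.map (s 1))) :
    JJ w w' = 0 := by
  rcases (filmS w w' ∩ DD).eq_empty_or_nonempty with he | ⟨Y, hY⟩
  · unfold JJ
    rw [he]
    simp
  have hn := filmS_norm hY.1
  have hw := kind_of hn hY.2 hY.1.2.1
  have hw' := kind_of hn hY.2 hY.1.2.2
  rcases hw' with ⟨j, hj⟩ | hw'
  · rcases hw with ⟨i, hi⟩ | hw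
    · exact absurd ⟨i, j, hi, hj⟩ h1
    · rw [JJ_symm]
      exact JJ_right (Or.inl ⟨j, hj⟩) (Ne.symm hne) hw h3 h5
  · exact JJ_right hw hne hw' h2 h4

end Kus64
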