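import Pool.Agent.helper64.Kus.R5

/-!
# R6: the total in terms of the chamber total
(module completed by helper52)
-/

open Set Metric MeasureTheory

namespace Kus64

open Kusner (E4 vec Phi)

namespace R6aux

theorem six_mem' (i : Fin 6) : six i ∈ Sites := six_mem i

theorem m1_mem : w310.map (s 2) ∈ Sites :=
  Sites_map (Subgroup.subset_closure ⟨2, rfl⟩) (six_mem 1)

theorem m2_mem : w211.map (s 1) ∈ Sites :=
  Sites_map (Subgroup.subset_closure ⟨1, rfl⟩) (six_mem 3)

theorem six_ne_m1 (i : Fin 6) : six i ≠ w310.map (s 2) := by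
  intro h
  by_cases hi : i = 1
  · rw [hi] at h
    exact s2_ne h.symm
  · have h1 : (six i).t = (w310.map (s 2)).t := by rw [h]
    exact six_t_ne hi h1

theorem six_ne_m2 (i : Fin 6) : six i ≠ w211.map (s 1) := by
  intro h
  by_cases hi : i = 3
  · rw [hi] at h
    exact s1_ne h.symm
  · have h1 : (six i).t = (w211.map (s 1)).t := by rw [h]
    exact six_t_ne hi h1

theorem m1_ne_m2 : w310.map (s 2) ≠ w211.map (s 1) := by
  intro h
  have h1 : (w310.map (s 2)).t = (w211.map (s 1)).t := by rw [h]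
  exact six_t_ne (i := 1) (j := 3) (by decide) h1

/-- sum of a symmetric function over ordered pairs -/
theorem sum_symm (A : Fin 6 → Fin 6 → ℝ) (hA : ∀ i j, A i j = A j i) :
    ∑ i, ∑ j, (if i ≠ j then A i j else 0) = 2 * ∑ i, ∑ j, (if i < j then A i j else 0) := by
  have h1 : ∀ i j : Fin 6, (if i ≠ j then A i j else 0) =
      (if i < j then A i j else 0) + (if j < i then A j i else 0) := by
    intro i j
    rcases lt_trichotomy i j with h | h | h
    · rw [if_pos h.ne, if_pos h, if_neg h.not_gt, add_zero]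
    · rw [if_neg (not_not.mpr h), if_neg (by rw [h]; exact lt_irrefl _),
        if_neg (by rw [h]; exact lt_irrefl _), add_zero]
    · rw [if_pos h.ne', if_neg h.not_gt, if_pos h, zero_add, hA]
  simp only [h1, Finset.sum_add_distrib]
  rw [Finset.sum_comm (f := fun i j => if j < i then A j i else 0)]
  ring

end R6aux

open R6aux

theorem sum_JJ {k : ℕ} {e : Fin (k + 1) → Site} (he : Enum e) :
    ∑ j, ∑ l, (if j ≠ l then JJ (e j) (e l) else 0) = 2 * chamberTotal := by
  have hsur : ∀ w ∈ Sites, ∃ j, e j = w := by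
    intro w hw
    rw [← he.rng] at hw
    exact hw
  choose σ hσ using fun i => hsur (six i) (six_mem i)
  obtain ⟨m1, hm1⟩ := hsur _ m1_mem
  obtain ⟨m2, hm2⟩ := hsur _ m2_mem
  have hσinj : Function.Injective σ := by
    intro i j hij
    apply six_inj
    rw [← hσ i, ← hσ j, hij]
  have hσ1 : ∀ i, σ i ≠ m1 := by
    intro i h
    exact six_ne_m1 i (by rw [← hσ i, ← hm1, h])
  have hσ2 : ∀ i, σ i ≠ m2 := by
    intro i h
    exact six_ne_m2 i (by rw [← hσ i, ← hm2, h])
  have h12 : m1 ≠ m2 := by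
    intro h
    exact m1_ne_m2 (by rw [← hm1, ← hm2, h])
  set f : Fin (k + 1) × Fin (k + 1) → ℝ := fun q =>
    if q.1 ≠ q.2 then JJ (e q.1) (e q.2) else 0 with hf
  have hsum : ∑ j, ∑ l, (if j ≠ l then JJ (e j) (e l) else 0) = ∑ q, f q := by
    rw [Fintype.sum_prod_type]
  set P : Finset (Fin (k + 1) × Fin (k + 1)) :=
    Finset.univ.image (fun q : Fin 6 × Fin 6 => (σ q.1, σ q.2)) with hP
  set Q : Finset (Fin (k + 1) × Fin (k + 1)) :=
    {(σ 1, m1), (m1, σ 1), (σ 3, m2), (m2, σ 3)} with hQ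
  have hPQ : Disjoint P Q := by
    rw [Finset.disjoint_left]
    intro q hq hq'
    rw [hP, Finset.mem_image] at hq
    obtain ⟨⟨i, j⟩, -, rfl⟩ := hq
    simp only [hQ, Finset.mem_insert, Finset.mem_singleton, Prod.mk.injEq] at hq'
    rcases hq' with h | h | h | h
    · exact hσ1 _ h.2
    · exact hσ1 _ h.1
    · exact hσ2 _ h.2
    · exact hσ2 _ h.1
  have hsub : ∑ q, f q = ∑ q ∈ P ∪ Q, f q := by
    symm
    apply Finset.sum_subset (Finset.subset_univ _)
    rintro ⟨j, l⟩ - hq
    simp only [hf]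
    by_cases hjl : j = l
    · rw [if_neg (not_not.mpr hjl)]
    rw [if_pos hjl]
    have hnP : ¬ ∃ i i' : Fin 6, e j = six i ∧ e l = six i' := by
      rintro ⟨i, i', h1, h2⟩
      apply hq
      rw [Finset.mem_union]
      left
      rw [hP, Finset.mem_image]
      refine ⟨(i, i'), Finset.mem_univ _, ?_⟩
      rw [← hσ i] at h1
      rw [← hσ i'] at h2
      simp only
      rw [he.inj h1, he.inj h2]
    have hnQ : (j, l) ∉ Q := fun h => hq (Finset.mem_union_right _ h)
    simp only [hQ, Finset.mem_insert, Finset.mem_singleton, Prod.mk.injEq, not_or] at hnQ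
    obtain ⟨n1, n2, n3, n4⟩ := hnQ
    have k1 : e (σ 1) = w310 := hσ 1
    have k3 : e (σ 3) = w211 := hσ 3
    refine JJ_other (fun h => hjl (he.inj h)) hnP ?_ ?_ ?_ ?_
    · rintro ⟨h1, h2⟩
      rw [← k1] at h1
      rw [← hm1] at h2
      exact n1 ⟨he.inj h1, he.inj h2⟩
    · rintro ⟨h1, h2⟩
      rw [← k1] at h1
      rw [← hm1] at h2
      exact n2 ⟨he.inj h2, he.inj h1⟩
    · rintro ⟨h1, h2⟩
      rw [← k3] at h1
      rw [← hm2] at h2
      exact n3 ⟨he.inj h1, he.inj h2⟩
    · rintro ⟨h1, h2⟩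
      rw [← k3] at h1
      rw [← hm2] at h2
      exact n4 ⟨he.inj h2, he.inj h1⟩
  have hsP : ∑ q ∈ P, f q = 2 * ∑ i : Fin 6, ∑ j : Fin 6,
      (if i < j then II (six i) (six j) DD else 0) := by
    rw [hP, Finset.sum_image (by
      rintro ⟨i, j⟩ - ⟨i', j'⟩ - h
      simp only [Prod.mk.injEq] at h ⊢
      exact ⟨hσinj h.1, hσinj h.2⟩), Fintype.sum_prod_type,
      ← sum_symm (fun i j => II (six i) (six j) DD) (fun i j => II_symm _ _ _)]
    refine Finset.sum_congr rfl fun i _ => Finset.sum_congr rfl fun j _ => ?_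
    simp only [hf]
    by_cases hij : i = j
    · rw [if_neg (by rw [hij]; simp), if_neg (by rw [hij]; simp)]
    · rw [if_pos (fun h => hij (hσinj h)), if_pos hij, hσ, hσ, JJ_six hij]
  have hsQ : ∑ q ∈ Q, f q = II w310 (w310.map (s 2)) DD + II w211 (w211.map (s 1)) DD := by
    have k1 : e (σ 1) = w310 := hσ 1
    have k3 : e (σ 3) = w211 := hσ 3
    rw [hQ, Finset.sum_insert, Finset.sum_insert, Finset.sum_insert, Finset.sum_singleton]
    · simp only [hf]
      rw [if_pos (hσ1 1), if_pos (hσ1 1).symm, if_pos (hσ2 3), if_pos (hσ2 3).symm, k1, k3, hm1,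
        hm2, JJ_symm (w310.map (s 2)), JJ_symm (w211.map (s 1)), JJ_mirror310, JJ_mirror211]
      ring
    · simp only [Finset.mem_singleton, Prod.mk.injEq, not_and]
      intro h
      exact absurd h (hσ2 3)
    · simp only [Finset.mem_insert, Finset.mem_singleton, Prod.mk.injEq, not_or, not_and]
      exact ⟨fun h => absurd h.symm (hσ1 3), fun h => absurd h h12⟩
    · simp only [Finset.mem_insert, Finset.mem_singleton, Prod.mk.injEq, not_or, not_and]
      refine ⟨fun h => absurd h (hσ1 1), fun _ h => absurd h h12, fun h => absurd h (hσ2 1)⟩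
  rw [hsum, hsub, Finset.sum_union hPQ, hsP, hsQ]
  unfold chamberTotal
  ring

theorem total_neg {k : ℕ} {e : Fin (k + 1) → Site} (he : Enum e) (h : chamberTotal < 0) :
    ∑ j, ∑ l, (if j < l then II (e j) (e l) univ else 0) < 0 := by
  rw [total_eq he, sum_JJ he]
  have := GF_card_pos
  have h2 : (0 : ℝ) < GF.card := by exact_mod_cast this
  nlinarith

end Kus64
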