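import Pool.Agent.helper10.Kus3.F2b

/-!
# Z1: the first derivative of the area of a deformed surface -- by helper80

Same set-up as `P.area_second` (helper10, `F2b.lean`), whose proof contains everything: there
`(μH[2] (φ t '' (ψ '' s))).toReal = cH ∫ jac * gf φ (t, (ψ u, n u))`, `param_deriv` gives the derivative at
every `t`: `cH ∫ jac * fderiv (gf φ) (t, (ψ u, n u)) (1,0)`, and by `first_gf` at `t = 0` (where
`fderiv (φ 0) x = 1`, `cofv 1 n = n`, `dcofv 1 M n = (tr M) n - Mᵀ n`) this is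
`tr M - ⟪n, M n⟫ = -⟪n, M n⟫`.
-/

open Set Metric MeasureTheory
open scoped ContDiff Topology

namespace Kusner

theorem area_first {φ : ℝ → E3 → E3} (hφ : IsDeformation φ) {M : E3 → E3 →L[ℝ] E3}
    (hM : ∀ x, HasDerivAt (fun t => fderiv ℝ (φ t) x) (M x) 0)
    (htM : ∀ x, LinearMap.trace ℝ E3 (M x).toLinearMap = 0)
    {ψ : ℝ × ℝ → E3} {U s : Set (ℝ × ℝ)} (hU : IsOpen U) (hψ : ContDiffOn ℝ 1 ψ U)
    (hj : ∀ u ∈ U, 0 < jac (fderiv ℝ ψ u (1, 0)) (fderiv ℝ ψ u (0, 1)))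
    (hs : MeasurableSet s) (hsU : s ⊆ U) (hinj : InjOn ψ s)
    (hb : Bornology.IsBounded (ψ '' s))
    (hi : IntegrableOn (fun u => jac (fderiv ℝ ψ u (1, 0)) (fderiv ℝ ψ u (0, 1))) s)
    {n : ℝ × ℝ → E3} (hn : ∀ u ∈ s, ‖n u‖ = 1 ∧ inner ℝ (n u) (fderiv ℝ ψ u (1, 0)) = 0 ∧
      inner ℝ (n u) (fderiv ℝ ψ u (0, 1)) = 0) :
    HasDerivAt (fun t => (μH[2] (φ t '' (ψ '' s))).toReal)
      (cH * ∫ u in s, jac (fderiv ℝ ψ u (1, 0)) (fderiv ℝ ψ u (0, 1)) *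
        (-(inner ℝ (n u) (M (ψ u) (n u))))) 0 := by
  have hO := F2b.isOpen_Of hφ.smooth
  have hg := F2b.contDiffOn_gf hφ.smooth
  have hK : IsCompact (closure (ψ '' s) ×ˢ sphere (0 : E3) 1) :=
    hb.isCompact_closure.prod (isCompact_sphere 0 1)
  have hKO : ∀ t, ∀ y ∈ closure (ψ '' s) ×ˢ sphere (0 : E3) 1, (t, y) ∈ F2b.Of φ := fun t y hy =>
    F2b.mem_Of hφ t y.1 y.2 (mem_sphere_zero_iff_norm.1 hy.2)
  have hyK : ∀ u ∈ s, (ψ u, n u) ∈ closure (ψ '' s) ×ˢ sphere (0 : E3) 1 := fun u hu =>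
    ⟨subset_closure ⟨u, hu, rfl⟩, mem_sphere_zero_iff_norm.2 (hn u hu).1⟩
  have hy : ∀ᵐ u ∂(volume.restrict s), (ψ u, n u) ∈ closure (ψ '' s) ×ˢ sphere (0 : E3) 1 :=
    (ae_restrict_mem hs).mono hyK
  have hJ : ∀ t, ∀ u ∈ s, jac (fderiv ℝ (φ t ∘ ψ) u (1, 0)) (fderiv ℝ (φ t ∘ ψ) u (0, 1)) =
      jac (fderiv ℝ ψ u (1, 0)) (fderiv ℝ ψ u (0, 1)) * F2b.gf φ (t, (ψ u, n u)) :=
    fun t u hu => F2b.jac_c hφ hU hψ t (hsU hu) (hn u hu)
  have hm : ∀ t, AEStronglyMeasurable (fun u => jac (fderiv ℝ ψ u (1, 0)) (fderiv ℝ ψ u (0, 1)) *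
      F2b.gf φ (t, (ψ u, n u))) (volume.restrict s) := by
    intro t
    exact AEStronglyMeasurable.congr
      (((F2b.jac_c_cont hφ hU hψ t).mono hsU).aestronglyMeasurable hs)
      ((ae_restrict_mem hs).mono fun u hu => hJ t u hu)
  obtain ⟨-, hd1⟩ := F2b.param_deriv hO hg hK hKO hi hy hm
  have harea : (fun t => (μH[2] (φ t '' (ψ '' s))).toReal) = fun t =>
      cH * ∫ u in s, jac (fderiv ℝ ψ u (1, 0)) (fderiv ℝ ψ u (0, 1)) *
        F2b.gf φ (t, (ψ u, n u)) := by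
    funext t
    rw [F2b.area_c hφ hU hψ hj hs hsU hinj t, setIntegral_congr_fun hs (hJ t)]
  rw [harea]
  have h3 := (hd1 0).const_mul cH
  have h4 : ∫ u in s, jac (fderiv ℝ ψ u (1, 0)) (fderiv ℝ ψ u (0, 1)) *
        fderiv ℝ (F2b.gf φ) (0, (ψ u, n u)) (1, 0) =
      ∫ u in s, jac (fderiv ℝ ψ u (1, 0)) (fderiv ℝ ψ u (0, 1)) *
        (-(inner ℝ (n u) (M (ψ u) (n u)))) := by
    refine setIntegral_congr_fun hs fun u hu => ?_
    refine congrArg (fun z => jac (fderiv ℝ ψ u (1, 0)) (fderiv ℝ ψ u (0, 1)) * z) ?_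
    have h0 : fderiv ℝ (φ 0) (ψ u) = 1 := by
      have h0' : φ 0 = fun x => x := funext hφ.zero
      rw [h0']
      exact fderiv_fun_id
    have htM' : P.trL (M (ψ u)) = 0 := htM _
    have e1 : P.dcofv 1 (M (ψ u)) (n u) = -ContinuousLinearMap.adjoint (M (ψ u)) (n u) := by
      rw [P.dcofv_eq, P.one_comp_one, P.trL_one, P.adL_one, htM', one_apply_eq_self,
        one_apply_eq_self, P.adL_apply]
      module
    rw [F2b.first_gf hφ 0 (ψ u) (n u) (hn u hu).1, h0, (hM (ψ u)).deriv, P.cofv_one, e1,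
      (hn u hu).1, div_one, inner_neg_right, ContinuousLinearMap.adjoint_inner_right,
      real_inner_comm]
  rw [h4] at h3
  exact h3

end Kusner
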