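import Pool.Agent.helper64.Kus.Z1
import Pool.Agent.helper75.Kus3.FilmSecond
import Pool.Agent.helper35.Kus3.F4

/-!
# Z2: the first variations of a film and of its mirror image cancel

`fl4 (η, y) = (-η, y)`; `rho x = (x₀, x₁, -x₂)` (a linear isometry).
* `st_fl4`: immediate from the definition of `st` (`vec (fl4 Y) = vec Y`).
* `fieldX_rho`: if `χ = 1` near `x` and near `rho x` then near `x`
  `fieldX χ (rho z) = - rho (fieldX χ z)`: with `g = gfun` even in `x₂` (`om`, `et ^ 4` even):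
  `∂₂ g` is odd, `g, ∂₀ g, ∂₁ g` even under `rho`, and `fieldX = (-x₀ ∂₂g, -x₁ ∂₂g, 2g + x₀∂₀g + x₁∂₁g)`.
  (For instance `gfun ∘ rho = gfun`, so `fderiv gfun (rho z) ∘ rho = fderiv gfun z`.)
  Hence `fderiv (fieldX χ) (rho x) = - rho ∘ fderiv (fieldX χ) x ∘ rho`.
* `film_flip`: take the parametrisation `ψ = st ∘ f` on `V, s` and the normal `n` of `film_second`
  (helper75, `FilmSecond.lean`; same null set argument) and `Z1.area_first` with
  `M = ε • fderiv (fieldX χ)`; `rho ∘ ψ` with the same `V, s` and the normal `rho ∘ n` parametrises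
  `rho '' (st '' S) = st '' (fl4 '' S)` with the same `jac`, and
  `⟪rho n, M (rho ψ) (rho n)⟫ = -⟪n, M ψ n⟫`.  (Trace zero: `fieldX_div`.)
-/

open Set Metric MeasureTheory
open scoped ContDiff Topology

namespace Kusner

/-- the reflection `η ↦ -η` of four-space -/
noncomputable def fl4 (Y : E4) : E4 := !₂[-Y 0, Y 1, Y 2, Y 3]

/-- the reflection of three-space in the last coordinate -/
noncomputable def rho : E3 ≃ₗᵢ[ℝ] E3 := (ℝ ∙ (EuclideanSpace.single 2 1 : E3))ᗮ.reflection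

theorem rho_apply (x : E3) : rho x = !₂[x 0, x 1, -x 2] := by
  unfold rho
  rw [Submodule.reflection_orthogonal_apply, Submodule.reflection_singleton_apply]
  ext i
  fin_cases i <;> simp [EuclideanSpace.inner_single_left] <;> ring

theorem st_fl4 (a b p : E3) (Y : E4) : st a b p (fl4 Y) = rho (st a b p Y) := by
  rw [rho_apply]
  ext i
  fin_cases i <;> simp [st, fl4, vec]

/-! ### the symmetry of the test field -/

theorem z2_norm (x : E3) : ‖rho x‖ = ‖x‖ := rho.norm_map x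

theorem z2_invol (x : E3) : rho (rho x) = x := by
  rw [rho_apply, rho_apply]
  ext i
  fin_cases i <;> simp

theorem z2_gfun (x : E3) : gfun (rho x) = gfun x := by
  have h1 : om (rho x) = om x := by unfold om; rw [z2_norm]
  have h2 : et (rho x) = -et x := by
    unfold et
    rw [h1, rho_apply]
    simp
  unfold gfun
  rw [h1, h2]
  ring

theorem z2_fderiv_gfun (x v : E3) : fderiv ℝ gfun (rho x) (rho v) = fderiv ℝ gfun x v := by
  have hd : Differentiable ℝ gfun := P.TF.gfun_contDiff.differentiable (by simp)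
  have h1 : HasFDerivAt (fun y => gfun (rho y))
      ((fderiv ℝ gfun (rho x)).comp (rho.toContinuousLinearEquiv : E3 →L[ℝ] E3)) x :=
    (hd (rho x)).hasFDerivAt.comp x (rho.toContinuousLinearEquiv : E3 →L[ℝ] E3).hasFDerivAt
  have h2 : (fun y => gfun (rho y)) = gfun := funext z2_gfun
  rw [h2] at h1
  have h3 := h1.fderiv
  rw [h3]
  rfl

theorem z2_rho0 : rho (EuclideanSpace.single 0 1 : E3) = EuclideanSpace.single 0 1 := by
  rw [rho_apply]
  ext i
  fin_cases i <;> simp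
theorem z2_rho1 : rho (EuclideanSpace.single 1 1 : E3) = EuclideanSpace.single 1 1 := by
  rw [rho_apply]
  ext i
  fin_cases i <;> simp
theorem z2_rho2 : rho (EuclideanSpace.single 2 1 : E3) = -EuclideanSpace.single 2 1 := by
  rw [rho_apply]
  ext i
  fin_cases i <;> simp

theorem z2_cg {χ : E3 → ℝ} {U : Set E3} (hU : IsOpen U) (hone : ∀ x ∈ U, χ x = 1) {x : E3}
    (hx : x ∈ U) : cg χ x = gfun x ∧ fderiv ℝ (cg χ) x = fderiv ℝ gfun x := by
  constructor
  · unfold cg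
    rw [hone x hx, one_mul]
  · refine Filter.EventuallyEq.fderiv_eq ?_
    filter_upwards [hU.mem_nhds hx] with y hy
    unfold cg
    rw [hone y hy, one_mul]

theorem z2_fieldX {χ : E3 → ℝ} {U : Set E3} (hU : IsOpen U) (hone : ∀ x ∈ U, χ x = 1) {x : E3}
    (hx : x ∈ U) (hx' : rho x ∈ U) : fieldX χ (rho x) = -rho (fieldX χ x) := by
  obtain ⟨h1, h2⟩ := z2_cg hU hone hx
  obtain ⟨h3, h4⟩ := z2_cg hU hone hx'
  have k0 : fderiv ℝ gfun (rho x) (EuclideanSpace.single 0 1) =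
      fderiv ℝ gfun x (EuclideanSpace.single 0 1) := by
    have := z2_fderiv_gfun x (EuclideanSpace.single 0 1)
    rwa [z2_rho0] at this
  have k1 : fderiv ℝ gfun (rho x) (EuclideanSpace.single 1 1) =
      fderiv ℝ gfun x (EuclideanSpace.single 1 1) := by
    have := z2_fderiv_gfun x (EuclideanSpace.single 1 1)
    rwa [z2_rho1] at this
  have k2 : fderiv ℝ gfun (rho x) (EuclideanSpace.single 2 1) =
      -fderiv ℝ gfun x (EuclideanSpace.single 2 1) := by
    have := z2_fderiv_gfun x (EuclideanSpace.single 2 1)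
    rw [z2_rho2, map_neg] at this
    linarith
  have e0 : (rho x) 0 = x 0 := by rw [rho_apply]; simp
  have e1 : (rho x) 1 = x 1 := by rw [rho_apply]; simp
  rw [rho_apply (fieldX χ x)]
  unfold fieldX
  rw [h1, h2, h3, h4, k0, k1, k2, z2_gfun, e0, e1]
  ext i
  fin_cases i <;> simp

theorem fderiv_fieldX_rho {χ : E3 → ℝ} (hχ : ContDiff ℝ ∞ χ) {U : Set E3} (hU : IsOpen U)
    (hone : ∀ x ∈ U, χ x = 1) {x : E3} (hx : x ∈ U) (hx' : rho x ∈ U) (v : E3) :
    fderiv ℝ (fieldX χ) (rho x) (rho v) = -rho (fderiv ℝ (fieldX χ) x v) := by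
  have hd : Differentiable ℝ (fieldX χ) := (P.fieldX_contDiff hχ).differentiable (by simp)
  set R : E3 →L[ℝ] E3 := (rho.toContinuousLinearEquiv : E3 →L[ℝ] E3) with hR
  have h1 : HasFDerivAt (fun y => fieldX χ (rho y)) ((fderiv ℝ (fieldX χ) (rho x)).comp R) x :=
    (hd (rho x)).hasFDerivAt.comp x R.hasFDerivAt
  have h2 : HasFDerivAt (fun y => -rho (fieldX χ y)) (-(R.comp (fderiv ℝ (fieldX χ) x))) x :=
    ((R.hasFDerivAt (x := fieldX χ x)).comp x (hd x).hasFDerivAt).neg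
  have h3 : (fun y => fieldX χ (rho y)) =ᶠ[𝓝 x] fun y => -rho (fieldX χ y) := by
    have hV : IsOpen (rho ⁻¹' U) := hU.preimage rho.continuous
    filter_upwards [hU.mem_nhds hx, hV.mem_nhds hx'] with y hy hy'
    exact z2_fieldX hU hone hy hy'
  have h4 := (h1.congr_of_eventuallyEq h3.symm).unique h2
  have h5 := congrArg (fun L : E3 →L[ℝ] E3 => L v) h4
  exact h5

/-! ### the parametrisation of a film -/

open P in
/-- the parametrisation used in `film_second` -/
theorem z2_param {a b p : E3} (hF : Frame a b p)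
    {w0 wt : ℝ} {wv : E3} (hw : w0 ^ 2 + ‖wv‖ ^ 2 - wt ^ 2 = 1) (hwv : wv ≠ 0)
    {S : Set E4} (hS : MeasurableSet S) (hS1 : ∀ Y ∈ S, ‖Y‖ = 1)
    (hS2 : ∀ Y ∈ S, w0 * Y 0 + inner ℝ wv (vec Y) = wt)
    (hSp : ∀ Y ∈ S, inner ℝ p (vec Y) ≠ 1)
    (hSb : Bornology.IsBounded (st a b p '' S)) :
    ∃ (ψ : ℝ × ℝ → E3) (V s : Set (ℝ × ℝ)) (n : ℝ × ℝ → E3) (E : Set E3),
      IsOpen V ∧ ContDiffOn ℝ 1 ψ V ∧
      (∀ u ∈ V, 0 < jac (fderiv ℝ ψ u (1, 0)) (fderiv ℝ ψ u (0, 1))) ∧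
      MeasurableSet s ∧ s ⊆ V ∧ InjOn ψ s ∧
      IntegrableOn (fun u => jac (fderiv ℝ ψ u (1, 0)) (fderiv ℝ ψ u (0, 1))) s ∧
      (∀ u ∈ s, ‖n u‖ = 1 ∧ inner ℝ (n u) (fderiv ℝ ψ u (1, 0)) = 0 ∧
        inner ℝ (n u) (fderiv ℝ ψ u (0, 1)) = 0) ∧
      (∀ u ∈ s, ∃ Y ∈ S, ψ u = st a b p Y) ∧ E.Finite ∧
      st a b p '' S = ψ '' s ∪ E := by
  obtain ⟨a', b', u, hF', hu⟩ := exists_film_frame hwv
  set Wn := ‖wv‖ with hWd
  have hWn : 0 < Wn := norm_pos_iff.mpr hwv
  have hS2' : ∀ Y ∈ S, w0 * Y 0 + inner ℝ (Wn • u) (vec Y) = wt := by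
    intro Y hY; rw [← hu]; exact hS2 Y hY
  set f := filmY w0 wt Wn a' b' u with hf
  set s := filmS w0 wt Wn a' b' u S with hs
  set V : Set (ℝ × ℝ) := filmU w0 wt Wn ∩ {x | inner ℝ p (vec (f x)) ≠ (1 : ℝ)} with hV
  have hfc : Continuous f := continuous_filmY w0 wt Wn a' b' u
  have hVo : IsOpen V := by
    refine (isOpen_filmU w0 wt Wn).inter ?_
    exact isOpen_ne_fun ((continuous_const.inner (continuous_vec.comp hfc))) continuous_const
  have hsm : MeasurableSet s := measurableSet_filmS w0 wt Wn a' b' u hS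
  have hsV : s ⊆ V := fun x hx => ⟨hx.1.1, hSp _ hx.2⟩
  have hψ : ContDiffOn ℝ 1 (fun x => st a b p (f x)) V :=
    (contDiffOn_st a b p).comp ((contDiffOn_filmY w0 wt Wn a' b' u).mono inter_subset_left)
      fun x hx => hx.2
  have hfd : ∀ x ∈ V, ∀ v, fderiv ℝ (fun x => st a b p (f x)) x v =
      dst a b p (f x) (fderiv ℝ f x v) := by
    intro x hx v
    have h1 : DifferentiableAt ℝ f x :=
      ((contDiffOn_filmY w0 wt Wn a' b' u).contDiffAt
        ((isOpen_filmU w0 wt Wn).mem_nhds hx.1)).differentiableAt one_ne_zero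
    have h2 : HasFDerivAt (fun x => st a b p (f x)) ((dst a b p (f x)).comp (fderiv ℝ f x)) x :=
      (hasFDerivAt_st (a := a) (b := b) hx.2).comp x h1.hasFDerivAt
    rw [h2.fderiv]
    rfl
  have hjac : ∀ x ∈ V, jac (fderiv ℝ (fun x => st a b p (f x)) x (1, 0))
      (fderiv ℝ (fun x => st a b p (f x)) x (0, 1)) =
      1 / Wn / (1 - inner ℝ p (vec (f x))) ^ 2 := by
    intro x hx
    rw [hfd x hx, hfd x hx, jac_dst hF (norm_filmY hF' (le_of_lt hx.1)) hx.2
      (tangent_one hF' hx.1) (tangent_two hF' hx.1), jac_filmY hWn hw hF' hx.1]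
  have hj : ∀ x ∈ V, 0 < jac (fderiv ℝ (fun x => st a b p (f x)) x (1, 0))
      (fderiv ℝ (fun x => st a b p (f x)) x (0, 1)) := by
    intro x hx
    rw [hjac x hx]
    have h0 : (1 : ℝ) - inner ℝ p (vec (f x)) ≠ 0 := sub_ne_zero.mpr (Ne.symm hx.2)
    positivity
  have hinj : InjOn (fun x => st a b p (f x)) s := by
    intro x hx y hy hxy
    have h1 : f x = f y :=
      injOn_st hF ⟨norm_filmY hF' (le_of_lt hx.1.1), hSp _ hx.2⟩
        ⟨norm_filmY hF' (le_of_lt hy.1.1), hSp _ hy.2⟩ hxy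
    exact injOn_filmY hF' hx.1 hy.1 h1
  have himg : (fun x => st a b p (f x)) '' s ⊆ st a b p '' S := by
    rintro _ ⟨x, hx, rfl⟩
    exact ⟨f x, hx.2, rfl⟩
  have hb : Bornology.IsBounded ((fun x => st a b p (f x)) '' s) := hSb.subset himg
  have hi : IntegrableOn (fun x => jac (fderiv ℝ (fun x => st a b p (f x)) x (1, 0))
      (fderiv ℝ (fun x => st a b p (f x)) x (0, 1))) s := by
    obtain ⟨R, hR⟩ := hSb.exists_norm_le
    have hfin : volume s < ⊤ :=
      lt_of_le_of_lt (measure_mono (show s ⊆ filmD w0 wt Wn from inter_subset_left))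
        (volume_filmD_lt w0 wt Wn)
    have h1 : IntegrableOn (fun x => 1 / Wn / (1 - inner ℝ p (vec (f x))) ^ 2) s := by
      have hfi : IsFiniteMeasure (volume.restrict s) := ⟨by simpa using hfin⟩
      refine Integrable.of_bound (C := 1 / Wn * ((1 + R ^ 2) / 2) ^ 2) ?_ ?_
      · have hco : ContinuousOn (fun x : ℝ × ℝ => 1 / Wn / (1 - inner ℝ p (vec (f x))) ^ 2) V := by
          refine continuousOn_const.div ?_ ?_
          · exact ((continuous_const.sub
              (continuous_const.inner (continuous_vec.comp hfc))).pow 2).continuousOn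
          · intro x hx
            have h0 : (1 : ℝ) - inner ℝ p (vec (f x)) ≠ 0 := sub_ne_zero.mpr (Ne.symm hx.2)
            positivity
        exact (hco.mono hsV).aestronglyMeasurable hsm
      · refine (ae_restrict_iff' hsm).mpr (Filter.Eventually.of_forall fun x hx => ?_)
        have hxV := hsV hx
        have h0 : (1 : ℝ) - inner ℝ p (vec (f x)) ≠ 0 := sub_ne_zero.mpr (Ne.symm hxV.2)
        have hn := norm_st hF (norm_filmY hF' (le_of_lt hxV.1)) hxV.2
        have hR1 : ‖st a b p (f x)‖ ≤ R := hR _ ⟨f x, hx.2, rfl⟩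
        have hR2 : ‖st a b p (f x)‖ ^ 2 ≤ R ^ 2 :=
          pow_le_pow_left₀ (norm_nonneg _) hR1 2
        have h3 : (2 : ℝ) / (1 - inner ℝ p (vec (f x))) ≤ 1 + R ^ 2 := by
          rw [← hn]; linarith
        have h3' : (0 : ℝ) ≤ 2 / (1 - inner ℝ p (vec (f x))) := by
          rw [← hn]; positivity
        have h4 : (1 / (1 - inner ℝ p (vec (f x)))) ^ 2 ≤ ((1 + R ^ 2) / 2) ^ 2 := by
          have e1 : (1 : ℝ) / (1 - inner ℝ p (vec (f x))) =
            (2 / (1 - inner ℝ p (vec (f x)))) / 2 := by field_simp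
          rw [e1]
          exact pow_le_pow_left₀ (by linarith) (by linarith) 2
        rw [Real.norm_eq_abs, abs_of_nonneg (by positivity)]
        have e2 : (1 : ℝ) / Wn / (1 - inner ℝ p (vec (f x))) ^ 2 =
            1 / Wn * (1 / (1 - inner ℝ p (vec (f x)))) ^ 2 := by
          field_simp
        rw [e2]
        exact mul_le_mul_of_nonneg_left h4 (by positivity)
    exact h1.congr_fun (fun x hx => (hjac x (hsV hx)).symm) hsm
  -- the unit normal
  have hnn : ∀ x ∈ s, ‖nst a b p w0 wt wv (f x)‖ = 1 ∧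
      inner ℝ (nst a b p w0 wt wv (f x)) (fderiv ℝ (fun x => st a b p (f x)) x (1, 0)) = 0 ∧
      inner ℝ (nst a b p w0 wt wv (f x)) (fderiv ℝ (fun x => st a b p (f x)) x (0, 1)) = 0 := by
    intro x hx
    have hxV := hsV hx
    have h0 : (1 : ℝ) - inner ℝ p (vec (f x)) ≠ 0 := sub_ne_zero.mpr (Ne.symm hxV.2)
    have hn1 : ‖f x‖ = 1 := norm_filmY hF' (le_of_lt hxV.1)
    have hfx : (inner ℝ (f x) (f x) : ℝ) = 1 := by rw [real_inner_self_eq_norm_sq, hn1]; norm_num
    have hY2 := hS2 _ hx.2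
    have hYN : (inner ℝ (f x) (nrm w0 wt wv (f x)) : ℝ) = 0 := by
      rw [real_inner_comm, inner_nrm, hfx]; linarith
    have hN1 : (inner ℝ (nrm w0 wt wv (f x)) (fderiv ℝ f x (1, 0)) : ℝ) = 0 := by
      rw [inner_nrm, hu, film_der_one hWn.ne' hF' hxV.1, tangent_one hF' hxV.1]; ring
    have hN2 : (inner ℝ (nrm w0 wt wv (f x)) (fderiv ℝ f x (0, 1)) : ℝ) = 0 := by
      rw [inner_nrm, hu, film_der_two hF' hxV.1, tangent_two hF' hxV.1]; ring
    refine ⟨?_, ?_, ?_⟩
    · have h1 : ‖nst a b p w0 wt wv (f x)‖ ^ 2 = 1 := by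
        rw [← real_inner_self_eq_norm_sq, nst, real_inner_smul_left, real_inner_smul_right,
          inner_dst hF hn1 hxV.2 hYN hYN, inner_nrm_self hw hn1 hY2]
        field_simp
      nlinarith [norm_nonneg (nst a b p w0 wt wv (f x))]
    · rw [hfd x hxV, nst, real_inner_smul_left, inner_dst hF hn1 hxV.2 hYN
        (tangent_one hF' hxV.1), hN1]
      simp
    · rw [hfd x hxV, nst, real_inner_smul_left, inner_dst hF hn1 hxV.2 hYN
        (tangent_two hF' hxV.1), hN2]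
      simp
  refine ⟨fun x => st a b p (f x), V, s, fun x => nst a b p w0 wt wv (f x),
    st a b p '' (S ∩ filmE w0 wt Wn u), hVo, hψ, hj, hsm, hsV, hinj, hi, hnn,
    fun x hx => ⟨f x, hx.2, rfl⟩, ((finite_filmE w0 wt Wn u).subset inter_subset_right).image _, ?_⟩
  have hS' := film_eq_union hWn hF' hS1 hS2'
  conv_lhs => rw [hS']
  rw [image_union, ← image_comp (st a b p) (filmY w0 wt Wn a' b' u)]
  rfl

theorem z2_null {A B E : Set E3} (h : A = B ∪ E) (hE : E.Finite) (φ : E3 → E3) :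
    μH[2] (φ '' A) = μH[2] (φ '' B) := by
  rw [h, image_union]
  refine le_antisymm ((measure_union_le _ _).trans ?_) (measure_mono subset_union_left)
  rw [P.null_of_finite (hE.image φ), add_zero]

theorem z2_jac (u v : E3) : jac (rho u) (rho v) = jac u v := by
  unfold jac
  rw [z2_norm, z2_norm, rho.inner_map_map]

theorem film_flip {a b p : E3} (hF : Frame a b p) {χ : E3 → ℝ} (hχ : ContDiff ℝ ∞ χ)
    {U : Set E3} (hU : IsOpen U) (hone : ∀ x ∈ U, χ x = 1) {φ : ℝ → E3 → E3}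
    (hφ : IsDeformation φ) {ε : ℝ}
    (hM : ∀ x, HasDerivAt (fun t => fderiv ℝ (φ t) x) (ε • fderiv ℝ (fieldX χ) x) 0)
    {w0 wt : ℝ} {wv : E3} (hw : w0 ^ 2 + ‖wv‖ ^ 2 - wt ^ 2 = 1) (hwv : wv ≠ 0)
    {S : Set E4} (hS : MeasurableSet S) (hS1 : ∀ Y ∈ S, ‖Y‖ = 1)
    (hS2 : ∀ Y ∈ S, w0 * Y 0 + inner ℝ wv (vec Y) = wt)
    (hSp : ∀ Y ∈ S, inner ℝ p (vec Y) ≠ 1)
    (hSb : Bornology.IsBounded (st a b p '' S)) (hSU : ∀ Y ∈ S, st a b p Y ∈ U)
    (hSU' : ∀ Y ∈ S, st a b p (fl4 Y) ∈ U) :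
    ∃ d : ℝ, HasDerivAt (fun t => (μH[2] (φ t '' (st a b p '' S))).toReal) d 0 ∧
      HasDerivAt (fun t => (μH[2] (φ t '' (st a b p '' (fl4 '' S)))).toReal) (-d) 0 := by
  obtain ⟨ψ, V, s, n, E, hVo, hψ, hj, hsm, hsV, hinj, hi, hnn, hψS, hE, hun⟩ :=
    z2_param hF hw hwv hS hS1 hS2 hSp hSb
  set R : E3 →L[ℝ] E3 := (rho.toContinuousLinearEquiv : E3 →L[ℝ] E3) with hR
  have hRr : ∀ x, R x = rho x := fun x => rfl
  have htM : ∀ x, LinearMap.trace ℝ E3 (ε • fderiv ℝ (fieldX χ) x).toLinearMap = 0 := by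
    intro x
    rw [P.trace_smul_clm, P.fieldX_div hχ, mul_zero]
  have hb : Bornology.IsBounded (ψ '' s) := hSb.subset (by rw [hun]; exact subset_union_left)
  have h1 := area_first hφ hM htM hVo hψ hj hsm hsV hinj hb hi hnn
  -- the mirror image
  have hfd : ∀ x ∈ V, ∀ v, fderiv ℝ (fun x => rho (ψ x)) x v = rho (fderiv ℝ ψ x v) := by
    intro x hx v
    have hd : DifferentiableAt ℝ ψ x :=
      ((hψ.contDiffAt (hVo.mem_nhds hx)).differentiableAt one_ne_zero)
    have h2 : HasFDerivAt (fun x => rho (ψ x)) (R.comp (fderiv ℝ ψ x)) x :=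
      (R.hasFDerivAt (x := ψ x)).comp x hd.hasFDerivAt
    rw [h2.fderiv]
    rfl
  have hjac : ∀ x ∈ V, jac (fderiv ℝ (fun x => rho (ψ x)) x (1, 0))
      (fderiv ℝ (fun x => rho (ψ x)) x (0, 1)) =
      jac (fderiv ℝ ψ x (1, 0)) (fderiv ℝ ψ x (0, 1)) := by
    intro x hx
    rw [hfd x hx, hfd x hx, z2_jac]
  have hψ' : ContDiffOn ℝ 1 (fun x => rho (ψ x)) V := R.contDiff.comp_contDiffOn hψ
  have hj' : ∀ x ∈ V, 0 < jac (fderiv ℝ (fun x => rho (ψ x)) x (1, 0))
      (fderiv ℝ (fun x => rho (ψ x)) x (0, 1)) := fun x hx => by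
    rw [hjac x hx]
    exact hj x hx
  have hinj' : InjOn (fun x => rho (ψ x)) s := fun x hx y hy hxy =>
    hinj hx hy (rho.injective hxy)
  have himg : (fun x => rho (ψ x)) '' s = rho '' (ψ '' s) := (image_image rho ψ s).symm
  have hb' : Bornology.IsBounded ((fun x => rho (ψ x)) '' s) := by
    rw [himg]
    exact rho.lipschitz.isBounded_image hb
  have hi' : IntegrableOn (fun x => jac (fderiv ℝ (fun x => rho (ψ x)) x (1, 0))
      (fderiv ℝ (fun x => rho (ψ x)) x (0, 1))) s :=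
    hi.congr_fun (fun x hx => (hjac x (hsV hx)).symm) hsm
  have hnn' : ∀ x ∈ s, ‖rho (n x)‖ = 1 ∧
      inner ℝ (rho (n x)) (fderiv ℝ (fun x => rho (ψ x)) x (1, 0)) = 0 ∧
      inner ℝ (rho (n x)) (fderiv ℝ (fun x => rho (ψ x)) x (0, 1)) = 0 := by
    intro x hx
    rw [hfd x (hsV hx), hfd x (hsV hx), rho.inner_map_map, rho.inner_map_map, z2_norm]
    exact hnn x hx
  have h2 := area_first hφ hM htM hVo hψ' hj' hsm hsV hinj' hb' hi' (n := fun x => rho (n x)) hnn'
  have hfun0 : (fun t => (μH[2] (φ t '' (ψ '' s))).toReal) =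
      fun t => (μH[2] (φ t '' (st a b p '' S))).toReal := by
    funext t
    rw [z2_null hun hE]
  rw [hfun0] at h1
  refine ⟨_, h1, ?_⟩
  · have hun' : st a b p '' (fl4 '' S) = (fun x => rho (ψ x)) '' s ∪ rho '' E := by
      rw [himg, ← image_union, ← hun, image_image, image_image]
      exact image_congr fun Y _ => st_fl4 a b p Y
    have hfun : (fun t => (μH[2] (φ t '' (st a b p '' (fl4 '' S)))).toReal) =
        fun t => (μH[2] (φ t '' ((fun x => rho (ψ x)) '' s))).toReal := by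
      funext t
      rw [z2_null hun' (hE.image _)]
    rw [hfun]
    refine h2.congr_deriv ?_
    rw [← mul_neg, ← integral_neg]
    congr 1
    refine setIntegral_congr_fun hsm fun x hx => ?_
    obtain ⟨Y, hY, hYx⟩ := hψS x hx
    have hx1 : ψ x ∈ U := by rw [hYx]; exact hSU Y hY
    have hx2 : rho (ψ x) ∈ U := by rw [hYx, ← st_fl4]; exact hSU' Y hY
    rw [hjac x (hsV hx)]
    have e1 : (ε • fderiv ℝ (fieldX χ) (rho (ψ x))) (rho (n x)) =
        -rho ((ε • fderiv ℝ (fieldX χ) (ψ x)) (n x)) := by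
      rw [smul_apply, smul_apply, fderiv_fieldX_rho hχ hU hone hx1 hx2, map_smul, smul_neg]
    rw [e1, inner_neg_right, rho.inner_map_map]
    ring

end Kusner
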